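import Pool.Agent.H242R3.ES.StmtsK

set_option autoImplicit false

/-! # Task `K2` of the project ES (MP_43c1cf_co): the normals of the facets -/

open Finset
open scoped Classical

namespace Pool.Agent.H291R3.ESK2

open Pool.Agent.H242R3.ES

/-- a null vector orthogonal to a vector which is not spacelike is a multiple of it -/
lemma prop_of_null (n X : LV 3) (hn : B n n ≤ 0) (hn0 : n ≠ 0) (h1 : B X n = 0)
    (h2 : B X X = 0) : ∃ t : ℝ, X = t • n := by
  unfold B at hn h1 h2
  simp only [Fin.sum_univ_three] at hn h1 h2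
  have hs : n none ≠ 0 := by
    intro hs
    apply hn0
    rw [hs] at hn
    have a0 : n (some 0) = 0 := by
      nlinarith [mul_self_nonneg (n (some 0)), mul_self_nonneg (n (some 1)),
        mul_self_nonneg (n (some 2))]
    have a1 : n (some 1) = 0 := by
      nlinarith [mul_self_nonneg (n (some 0)), mul_self_nonneg (n (some 1)),
        mul_self_nonneg (n (some 2))]
    have a2 : n (some 2) = 0 := by
      nlinarith [mul_self_nonneg (n (some 0)), mul_self_nonneg (n (some 1)),
        mul_self_nonneg (n (some 2))]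
    funext o
    rcases o with _ | i
    · exact hs
    · fin_cases i
      · exact a0
      · exact a1
      · exact a2
  obtain ⟨t, ht⟩ : ∃ t, X none = t * n none := ⟨X none / n none, by field_simp⟩
  have key : (X (some 0) - t * n (some 0)) ^ 2 + (X (some 1) - t * n (some 1)) ^ 2 +
      (X (some 2) - t * n (some 2)) ^ 2 ≤ 0 := by
    have e : (X (some 0) - t * n (some 0)) ^ 2 + (X (some 1) - t * n (some 1)) ^ 2 +
      (X (some 2) - t * n (some 2)) ^ 2 =
      (X (some 0) * X (some 0) + X (some 1) * X (some 1) + X (some 2) * X (some 2)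
        - X none * X none) -
      2 * t * (X (some 0) * n (some 0) + X (some 1) * n (some 1) + X (some 2) * n (some 2)
        - X none * n none) +
      t ^ 2 * (n (some 0) * n (some 0) + n (some 1) * n (some 1) + n (some 2) * n (some 2)
        - n none * n none) + (X none - t * n none) ^ 2 := by ring
    rw [e, h1, h2, ht]
    have : t ^ 2 * (n (some 0) * n (some 0) + n (some 1) * n (some 1) + n (some 2) * n (some 2)
        - n none * n none) ≤ 0 := mul_nonpos_of_nonneg_of_nonpos (sq_nonneg t) hn
    nlinarith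
  have q0 := sq_nonneg (X (some 0) - t * n (some 0))
  have q1 := sq_nonneg (X (some 1) - t * n (some 1))
  have q2 := sq_nonneg (X (some 2) - t * n (some 2))
  have b0 : X (some 0) - t * n (some 0) = 0 := pow_eq_zero_iff (two_ne_zero) |>.1 (by linarith)
  have b1 : X (some 1) - t * n (some 1) = 0 := pow_eq_zero_iff (two_ne_zero) |>.1 (by linarith)
  have b2 : X (some 2) - t * n (some 2) = 0 := pow_eq_zero_iff (two_ne_zero) |>.1 (by linarith)
  refine ⟨t, ?_⟩
  funext o
  rw [Pi.smul_apply, smul_eq_mul]
  rcases o with _ | i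
  · exact ht
  · fin_cases i
    · exact sub_eq_zero.1 b0
    · exact sub_eq_zero.1 b1
    · exact sub_eq_zero.1 b2

/-- functionals are given by the Lorentz form -/
lemma exists_rep (l : LV 3 →ₗ[ℝ] ℝ) : ∃ n : LV 3, ∀ x, l x = -B x n := by
  refine ⟨fun o => Option.elim o (l (Pi.single none 1)) (fun i => -l (Pi.single (some i) 1)),
    fun x => ?_⟩
  have hx : x = ∑ o, x o • (Pi.single o (1 : ℝ) : LV 3) := by
    funext o
    simp [Finset.sum_apply, Pi.single_apply]
  conv_lhs => rw [hx]
  rw [map_sum, Fintype.sum_option]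
  simp only [map_smul, smul_eq_mul, B, Option.elim]
  rw [Fin.sum_univ_three, Fin.sum_univ_three]
  ring

lemma B_smul_right (x n : LV 3) (t : ℝ) : B x (t • n) = t * B x n := by
  unfold B
  simp only [Fin.sum_univ_three, Pi.smul_apply, smul_eq_mul]
  ring

lemma B_smul_left (x n : LV 3) (t : ℝ) : B (t • x) n = t * B x n := by
  unfold B
  simp only [Fin.sum_univ_three, Pi.smul_apply, smul_eq_mul]
  ring

lemma B_add_left (x y n : LV 3) : B (x + y) n = B x n + B y n := by
  unfold B
  simp only [Fin.sum_univ_three, Pi.add_apply]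
  ring

theorem t : TaskK2 := by
  intro hE hG3 hP7 ι _ V hV
  have hFac : ∀ F, Fc V F → ∃ n : LV 3, B n n = 1 ∧
      ∀ i, B (V i) n ≤ 0 ∧ (B (V i) n = 0 ↔ i ∈ F) := by
    intro F hF
    obtain ⟨⟨l, hl0, hl⟩, hrk⟩ := hF
    obtain ⟨n, hn⟩ := exists_rep l
    have hFn : ∀ i, i ∈ F ↔ B (V i) n = 0 := by
      intro i
      rw [hl i, hn, neg_eq_zero]
    have hBn : ∀ i, B (V i) n ≤ 0 := by
      intro i
      have := hl0 i
      rw [hn] at this
      linarith
    -- `F` is a proper set
    have hFu : F ≠ Set.univ := by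
      intro h
      rw [rk, h, Set.image_univ, hV.span, finrank_top] at hrk
      simp at hrk
    have hn0 : n ≠ 0 := by
      intro h
      apply hFu
      rw [Set.eq_univ_iff_forall]
      intro i
      rw [hFn i, h]
      simp [B]
    -- a vertex of `F`
    have hne : F.Nonempty := by
      rw [Set.nonempty_iff_ne_empty]
      intro h
      rw [rk, h, Set.image_empty, Submodule.span_empty, finrank_bot] at hrk
      omega
    obtain ⟨v, hv⟩ := hne
    have hvF : ({v} : Set ι) ⊂ F := by
      refine ⟨Set.singleton_subset_iff.2 hv, fun h => ?_⟩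
      have h1 : F = {v} := Set.Subset.antisymm h (Set.singleton_subset_iff.2 hv)
      have h2 : rk V F ≤ 1 := by
        rw [rk, h1, Set.image_singleton]
        have := finrank_span_le_card (R := ℝ) ({V v} : Set (LV 3))
        simpa using this
      omega
    obtain ⟨-, T, -, hT1, hT2, hT3, hT4⟩ := hG3 ι (LV 3) V {v} F (hV.vert v) ⟨l, hl0, hl⟩ hvF
    have hTE : Ed V T := ⟨hT1, by omega⟩
    obtain ⟨hE1, hE2, hE3, -, -⟩ := hE ι V hV
    obtain ⟨i, j, hij, hTij, hfij⟩ := (hE1 T).1 hTE
    have hiF : i ∈ F := hT3.1 (by rw [hTij]; exact Set.mem_insert _ _)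
    have hjF : j ∈ F := hT3.1 (by rw [hTij]; exact Set.mem_insert_of_mem _ rfl)
    obtain ⟨k, hkF, hkT⟩ := Set.exists_of_ssubset hT3
    have hki : k ≠ i := fun h => hkT (by rw [hTij, h]; exact Set.mem_insert _ _)
    have hkj : k ≠ j := fun h => hkT (by rw [hTij, h]; exact Set.mem_insert_of_mem _ rfl)
    have hneg : B (V k) (V i + V j) < 0 := hP7 3 ι V hV i j k hij hfij hki hkj
    have hX0 : B (V i + V j) (V i + V j) = 0 := by
      have := (hE3 T hTE).1
      rwa [hTij, hE2 i j hij] at this
    have hXn : B (V i + V j) n = 0 := by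
      rw [B_add_left, (hFn i).1 hiF, (hFn j).1 hjF, add_zero]
    have hpos : 0 < B n n := by
      by_contra hcon
      push Not at hcon
      obtain ⟨t, ht⟩ := prop_of_null n (V i + V j) hcon hn0 hXn hX0
      rw [ht, B_smul_right, (hFn k).1 hkF, mul_zero] at hneg
      exact lt_irrefl _ hneg
    have hsq : 0 < Real.sqrt (B n n) := Real.sqrt_pos.2 hpos
    refine ⟨(Real.sqrt (B n n))⁻¹ • n, ?_, fun i => ⟨?_, ?_⟩⟩
    · rw [B_smul_right, B_smul_left]
      have h3 := Real.mul_self_sqrt hpos.le
      field_simp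
      nlinarith
    · rw [B_smul_right]
      exact mul_nonpos_of_nonneg_of_nonpos (inv_pos.2 hsq).le (hBn i)
    · rw [B_smul_right, mul_eq_zero, hFn i]
      constructor
      · rintro (h | h)
        · exact absurd h (inv_pos.2 hsq).ne'
        · exact h
      · exact fun h => Or.inr h
  refine ⟨fun F => if h : Fc V F then (hFac F h).choose else 0, fun F hF => ?_⟩
  simp only [dif_pos hF]
  exact (hFac F hF).choose_spec

end Pool.Agent.H291R3.ESK2
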