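import Mathlib

set_option autoImplicit false

/-! Local tools in the algebraic closure of `ℚ_3`. -/

namespace Pool.Agent.H291R3

open Polynomial

noncomputable section

instance fact3 : Fact (Nat.Prime 3) := ⟨by norm_num⟩

/-- algebraic closure of `ℚ_3` with its norm -/
abbrev KK := PadicAlgCl 3

lemma norm_algebraMap_KK (x : ℚ_[3]) : ‖algebraMap ℚ_[3] KK x‖ = ‖x‖ :=
  PadicAlgCl.norm_extends 3 x

lemma norm_intCast (m : ℤ) : ‖(m : KK)‖ = ‖(m : ℚ_[3])‖ := by
  rw [← norm_algebraMap_KK, map_intCast]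

lemma norm_natCast (m : ℕ) : ‖(m : KK)‖ = ‖(m : ℚ_[3])‖ := by
  rw [← norm_algebraMap_KK, map_natCast]

lemma norm_intCast_le_one (m : ℤ) : ‖(m : KK)‖ ≤ 1 := by
  rw [norm_intCast]
  exact Padic.norm_int_le_one m

lemma norm_three : ‖(3 : KK)‖ = 1 / 3 := by
  have := norm_natCast 3
  rw [Nat.cast_ofNat] at this
  rw [this]
  have h2 := @Padic.norm_p 3 _
  rw [h2]
  norm_num

lemma norm_add_le_max (x y : KK) : ‖x + y‖ ≤ max ‖x‖ ‖y‖ := PadicAlgCl.isNonarchimedean 3 x y

lemma norm_sub_le_max (x y : KK) : ‖x - y‖ ≤ max ‖x‖ ‖y‖ := by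
  have := norm_add_le_max x (-y)
  rwa [norm_neg, ← sub_eq_add_neg] at this

lemma norm_add_eq_of_lt {x y : KK} (h : ‖y‖ < ‖x‖) : ‖x + y‖ = ‖x‖ := by
  apply le_antisymm
  · exact (norm_add_le_max x y).trans (max_le le_rfl h.le)
  · by_contra hcon
    push Not at hcon
    have h1 : ‖x‖ ≤ max ‖x + y‖ ‖y‖ := by
      have := norm_sub_le_max (x + y) y
      rwa [add_sub_cancel_right] at this
    exact absurd h1 (not_le.2 (max_lt hcon h))

lemma norm_galois (σ : KK ≃ₐ[ℚ_[3]] KK) (x : KK) : ‖σ x‖ = ‖x‖ :=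
  (spectralNorm_eq_of_equiv σ x).symm

/-- the ring of elements of norm at most one -/
def OO : Subring KK where
  carrier := {x | ‖x‖ ≤ 1}
  mul_mem' := by
    intro a b ha hb
    simp only [Set.mem_ofPred_eq] at *
    rw [norm_mul]
    exact mul_le_one₀ ha (norm_nonneg _) hb
  one_mem' := by simp
  add_mem' := by
    intro a b ha hb
    simp only [Set.mem_ofPred_eq] at *
    exact (norm_add_le_max a b).trans (max_le ha hb)
  zero_mem' := by simp
  neg_mem' := by
    intro a ha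
    simp only [Set.mem_ofPred_eq] at *
    rwa [norm_neg]

lemma mem_OO {x : KK} : x ∈ OO ↔ ‖x‖ ≤ 1 := Iff.rfl

lemma coe_aeval_OO (f : ℤ[X]) (x : OO) : ((aeval x f : OO) : KK) = aeval (x : KK) f := by
  have := Polynomial.aeval_algebraMap_apply (A := OO) KK x f
  exact this.symm

lemma norm_aeval_le (f : ℤ[X]) (x : KK) (hx : ‖x‖ ≤ 1) : ‖aeval x f‖ ≤ 1 := by
  have h := coe_aeval_OO f ⟨x, hx⟩
  have h2 := (aeval (⟨x, hx⟩ : OO) f).2
  rw [mem_OO] at h2
  rwa [h] at h2

lemma taylor2 (f : ℤ[X]) (x y : KK) (hx : ‖x‖ ≤ 1) (hy : ‖y‖ ≤ 1) :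
    ∃ k : KK, ‖k‖ ≤ 1 ∧
      aeval y f = aeval x f + aeval x (derivative f) * (y - x) + k * (y - x) ^ 2 := by
  set X0 : OO := ⟨x, hx⟩ with hX0
  set Y0 : OO := ⟨y, hy⟩ with hY0
  obtain ⟨k, hk⟩ := binomExpansion (f.map (algebraMap ℤ OO)) X0 (Y0 - X0)
  refine ⟨(k : KK), k.2, ?_⟩
  rw [add_sub_cancel, eval_map_algebraMap, eval_map_algebraMap, derivative_map,
    eval_map_algebraMap] at hk
  have h1 := congrArg (fun z : OO => (z : KK)) hk
  simp only [Subring.coe_add, Subring.coe_mul, Subring.coe_pow, AddSubgroupClass.coe_sub, coe_aeval_OO] at h1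
  exact h1

lemma lipschitz (f : ℤ[X]) (x y : KK) (hx : ‖x‖ ≤ 1) (hy : ‖y‖ ≤ 1) :
    ‖aeval y f - aeval x f‖ ≤ ‖y - x‖ := by
  obtain ⟨k, hk, h⟩ := taylor2 f x y hx hy
  have hyx : ‖y - x‖ ≤ 1 := (norm_sub_le_max y x).trans (max_le hy hx)
  have : aeval y f - aeval x f = (aeval x (derivative f) + k * (y - x)) * (y - x) := by
    rw [h]; ring
  rw [this, norm_mul]
  have h2 : ‖aeval x (derivative f) + k * (y - x)‖ ≤ 1 := by
    refine (norm_add_le_max _ _).trans (max_le (norm_aeval_le _ _ hx) ?_)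
    rw [norm_mul]
    exact mul_le_one₀ hk (norm_nonneg _) hyx
  calc _ ≤ 1 * ‖y - x‖ := mul_le_mul_of_nonneg_right h2 (norm_nonneg _)
    _ = _ := one_mul _

/-- Nearest root. -/
lemma nearest_root (f : KK[X]) (hf : f.Monic) (hd : 0 < f.natDegree) (x : KK) :
    ∃ r : KK, f.eval r = 0 ∧ ‖x - r‖ * ‖(derivative f).eval r‖ ≤ ‖f.eval x‖ := by
  classical
  have hs : f.Splits := IsAlgClosed.splits f
  have hne : f.roots.toFinset.Nonempty := by
    rw [Multiset.toFinset_nonempty]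
    intro h0
    have := hs.natDegree_eq_card_roots
    rw [h0, Multiset.card_zero] at this
    omega
  obtain ⟨r, hr, hmin⟩ := Finset.exists_min_image f.roots.toFinset (fun a => ‖x - a‖) hne
  rw [Multiset.mem_toFinset] at hr
  refine ⟨r, (mem_roots'.1 hr).2, ?_⟩
  have hder := hs.eval_root_derivative hf hr
  have hfx : f.eval x = (x - r) * ((f.roots.erase r).map (x - ·)).prod := by
    have h1 := hs.eval_eq_prod_roots_of_monic hf x
    rw [h1]
    conv_lhs => rw [← Multiset.cons_erase hr]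
    rw [Multiset.map_cons, Multiset.prod_cons]
  rw [hder, hfx, norm_mul]
  apply mul_le_mul_of_nonneg_left _ (norm_nonneg _)
  have hle : ∀ s : Multiset KK, (∀ a ∈ s, ‖r - a‖ ≤ ‖x - a‖) →
      ‖(s.map (r - ·)).prod‖ ≤ ‖(s.map (x - ·)).prod‖ := by
    intro s
    induction s using Multiset.induction_on with
    | empty => intro _; simp
    | cons a s ih =>
      intro h
      rw [Multiset.map_cons, Multiset.prod_cons, Multiset.map_cons, Multiset.prod_cons, norm_mul,
        norm_mul]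
      apply mul_le_mul (h a (Multiset.mem_cons_self a s))
        (ih (fun b hb => h b (Multiset.mem_cons_of_mem hb))) (norm_nonneg _) (norm_nonneg _)
  apply hle
  intro a ha
  have ha' : a ∈ f.roots := Multiset.mem_of_mem_erase ha
  have h1 := hmin a (Multiset.mem_toFinset.2 ha')
  have h2 : ‖r - a‖ ≤ max ‖x - a‖ ‖x - r‖ := by
    have := norm_sub_le_max (x - a) (x - r)
    rwa [sub_sub_sub_cancel_left] at this
  exact h2.trans (max_le le_rfl h1)

end

end Pool.Agent.H291R3
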