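import Pool.Agent.H291R3.Bog9

set_option autoImplicit false

/-! Small points in `FF`. -/

namespace Pool.Agent.H291R3

open Polynomial

noncomputable section

lemma exists_k (ε : ℝ) (hε : 0 < ε) : ∃ k : ℕ, 2 ≤ k ∧
    Real.log |(((1 + 3 ^ k * 3 ^ (2 * k + 3) : ℤ)) : ℝ)| / (3 ^ k : ℕ) < ε := by
  have h1 := tendsto_pow_const_div_const_pow_of_one_lt 1 (show (1 : ℝ) < 3 by norm_num)
  have h0 := tendsto_pow_const_div_const_pow_of_one_lt 0 (show (1 : ℝ) < 3 by norm_num)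
  have h2 := (h1.const_mul 6).add (h0.const_mul 8)
  rw [mul_zero, mul_zero, add_zero] at h2
  have h3 := (h2.eventually (gt_mem_nhds hε)).and (Filter.eventually_ge_atTop 2)
  obtain ⟨k, hk, hk2⟩ := h3.exists
  refine ⟨k, hk2, lt_of_le_of_lt ?_ hk⟩
  have h4 : Real.log |(((1 + 3 ^ k * 3 ^ (2 * k + 3) : ℤ)) : ℝ)| ≤ (3 * k + 4) * 2 := by
    have h5 : |(((1 + 3 ^ k * 3 ^ (2 * k + 3) : ℤ)) : ℝ)| ≤ 3 ^ (3 * k + 4) := by
      push_cast
      rw [abs_of_pos (by positivity)]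
      have h6 : (3 : ℝ) ^ k * 3 ^ (2 * k + 3) = 3 ^ (3 * k + 3) := by
        rw [← pow_add]; congr 1; ring
      have h6' : (3 : ℝ) ^ (3 * k + 4) = 3 ^ (3 * k + 3) * 3 := by rw [← pow_succ]
      rw [h6, h6']
      have h7 : (1 : ℝ) ≤ 3 ^ (3 * k + 3) := one_le_pow₀ (by norm_num)
      linarith
    have h8 : Real.log 3 ≤ 2 := by
      have := Real.log_le_sub_one_of_pos (show (0 : ℝ) < 3 by norm_num)
      linarith
    calc Real.log |(((1 + 3 ^ k * 3 ^ (2 * k + 3) : ℤ)) : ℝ)|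
        ≤ Real.log (3 ^ (3 * k + 4)) := by
          apply Real.log_le_log _ h5
          push_cast
          rw [abs_of_pos (by positivity)]
          positivity
      _ = ((3 * k + 4 : ℕ) : ℝ) * Real.log 3 := Real.log_pow _ _
      _ ≤ ((3 * k + 4 : ℕ) : ℝ) * 2 := mul_le_mul_of_nonneg_left h8 (by positivity)
      _ = _ := by push_cast; ring
  have h9 : (0 : ℝ) < 3 ^ k := by positivity
  push_cast
  push_cast at h4
  rw [div_le_iff₀ h9]
  have e : (6 * ((k : ℝ) ^ 1 / 3 ^ k) + 8 * ((k : ℝ) ^ 0 / 3 ^ k)) * 3 ^ k = 6 * k + 8 := by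
    field_simp
  rw [e]
  linarith

theorem small_points (ε : ℝ) (hε : 0 < ε) : ∃ x : QQ, x ∈ FF ∧ x ≠ 0 ∧
    (∀ N : ℕ, 0 < N → x ^ N ≠ 1) ∧
    ∀ f : ℤ[X], Irreducible f → aeval x f = 0 →
      Real.log (f.map (Int.castRingHom ℂ)).mahlerMeasure / f.natDegree < ε := by
  obtain ⟨k, hk2, hk⟩ := exists_k ε hε
  obtain ⟨P, R, hPR, hlead, hdeg, hroots⟩ := exists_poly k (2 * k + 3)
  have hn : 0 < 3 ^ k := by positivity
  have hn9 : 9 ≤ 3 ^ k := by
    calc 9 = 3 ^ 2 := by norm_num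
      _ ≤ 3 ^ k := Nat.pow_le_pow_right (by norm_num) hk2
  have hlead3 : ¬ (3 : ℤ) ∣ P.leadingCoeff := by
    rw [hlead]
    intro h
    have h1 : (3 : ℤ) ∣ 3 ^ k * 3 ^ (2 * k + 3) :=
      Dvd.dvd.mul_right (dvd_pow_self 3 (by omega)) _
    have h2 : (3 : ℤ) ∣ 1 := (dvd_add_left h1).1 h
    norm_num at h2
  have hP0 : P ≠ 0 := by
    rintro rfl
    rw [natDegree_zero] at hdeg
    omega
  have hPd : P.degree ≠ 0 := by
    rw [degree_eq_natDegree hP0, hdeg]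
    exact_mod_cast hn.ne'
  obtain ⟨s, hs⟩ := IsAlgClosed.exists_aeval_eq_zero QQ P hPd
  obtain ⟨y, hy⟩ := IsAlgClosed.exists_pow_nat_eq (4 - s ^ 2) (n := 2) (by norm_num)
  have hσs : ∀ σ : QQ →+* ℂ, ∃ t : ℝ, σ s = t ∧ |t| < 2 := by
    intro σ
    apply hroots
    rw [← map_aeval_int σ s P, hs, map_zero]
  have hτs : ∀ τ : QQ →+* KK, τ s ∈ Om ∧ ‖τ s‖ ^ (3 ^ k) = 1 / 3 := by
    intro τ
    apply local_roots k (2 * k + 3) le_rfl R P hPR hlead3
    rw [← map_aeval_int τ s P, hs, map_zero]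
  have hsF : s ∈ F0 := by
    refine ⟨fun σ => ?_, fun τ => (hτs τ).1⟩
    obtain ⟨t, ht, _⟩ := hσs σ
    rw [ht, Complex.ofReal_im]
  have hyF : y ∈ F0 := by
    refine ⟨fun σ => ?_, fun τ => ?_⟩
    · obtain ⟨t, ht, ht2⟩ := hσs σ
      have h00 : ((Real.sqrt (4 - t ^ 2) : ℝ) : ℂ) ^ 2 = ((4 - t ^ 2 : ℝ) : ℂ) := by
        rw [← Complex.ofReal_pow, Real.sq_sqrt]
        rw [abs_lt] at ht2
        nlinarith
      have h1 : (σ y) ^ 2 = ((Real.sqrt (4 - t ^ 2) : ℝ) : ℂ) ^ 2 := by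
        rw [h00, ← map_pow, hy, map_sub, map_pow, ht, map_ofNat]
        push_cast
        ring
      rcases sq_eq_sq_iff_eq_or_eq_neg.1 h1 with h | h
      · rw [h, Complex.ofReal_im]
      · rw [h, Complex.neg_im, Complex.ofReal_im, neg_zero]
    · obtain ⟨h1, h2⟩ := hτs τ
      have h3 : ‖τ s‖ < 1 := by
        by_contra hcon
        push Not at hcon
        have := one_le_pow₀ (n := 3 ^ k) hcon
        rw [h2] at this
        norm_num at this
      have h4 : (4 : KK) - (τ s) ^ 2 ∈ Om := by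
        apply sub_mem _ (pow_mem h1 2)
        have : (4 : KK) = ((4 : ℤ) : KK) := by push_cast; rfl
        rw [this]
        exact intCast_mem _ _
      apply Om_sqrt h4
      · have e : (4 : KK) - (τ s) ^ 2 - 1 = 3 - (τ s) ^ 2 := by ring
        rw [e]
        refine (norm_sub_le_max _ _).trans_lt (max_lt ?_ ?_)
        · rw [norm_three]; norm_num
        · rw [norm_pow]; exact pow_lt_one₀ (norm_nonneg _) h3 two_ne_zero
      · rw [← map_pow, hy, map_sub, map_pow, map_ofNat]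
  set x : QQ := s / 2 + y / 2 * jj with hx
  have h2F : (2 : QQ) ∈ F0 := by
    have : (2 : QQ) = ((2 : ℤ) : QQ) := by push_cast; rfl
    rw [this]
    exact intCast_mem _ _
  have hxF : x ∈ FF := ⟨s / 2, div_mem hsF h2F, y / 2, div_mem hyF h2F, rfl⟩
  have hxx : x * (s / 2 - y / 2 * jj) = 1 := by
    rw [hx]
    linear_combination (1 / 4 : QQ) * hy - (y ^ 2 / 4) * jj_sq
  have hx0 : x ≠ 0 := by
    intro h
    rw [h, zero_mul] at hxx
    exact zero_ne_one hxx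
  have hxinv : x⁻¹ = s / 2 - y / 2 * jj := inv_eq_of_mul_eq_one_right hxx
  have hxs : x + x⁻¹ = s := by rw [hxinv, hx]; ring
  obtain ⟨τ⟩ := exists_tau
  have hτx : ‖τ (x + x⁻¹)‖ ^ (3 ^ k) = 1 / 3 := by rw [hxs]; exact (hτs τ).2
  refine ⟨x, hxF, hx0, ?_, ?_⟩
  · intro N hN hxN
    have h4 := torsion_FF hxF hN hxN
    have h5 : aeval x (X ^ 4 - C 1 : ℤ[X]) = 0 := by
      rw [map_sub, aeval_X_pow, h4]
      simp
    have h6 := degree_lower (3 ^ k) hn τ hτx (X_pow_sub_C_ne_zero (by norm_num) 1) h5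
    rw [natDegree_X_pow_sub_C] at h6
    omega
  · intro f hf h0
    have h1 := height_upper P hP0 hroots hx0 (by rw [hxs]; exact hs) hf h0
    have h2 := degree_lower (3 ^ k) hn τ hτx hf.ne_zero h0
    rw [hlead] at h1
    refine lt_of_le_of_lt ?_ hk
    have hf0 : (0 : ℝ) < f.natDegree := by
      exact_mod_cast lt_of_lt_of_le hn h2
    have hn' : (0 : ℝ) < ((3 ^ k : ℕ) : ℝ) := by exact_mod_cast hn
    rw [div_le_div_iff₀ hf0 hn']
    have h3 : ((3 ^ k : ℕ) : ℝ) ≤ f.natDegree := by exact_mod_cast h2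
    exact mul_le_mul h1.2 h3 hn'.le (h1.1.trans h1.2)

end

end Pool.Agent.H291R3
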