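import Pool.Agent.H291R3.Bog1

set_option autoImplicit false

/-! The distinct-norms lemma and its consequences. -/

namespace Pool.Agent.H291R3

open Polynomial

noncomputable section

lemma norm_sum_lt {ι : Type*} (s : Finset ι) (f : ι → KK) (c : ℝ) (hc : 0 < c)
    (h : ∀ i ∈ s, ‖f i‖ < c) : ‖∑ i ∈ s, f i‖ < c := by
  classical
  induction s using Finset.induction_on with
  | empty => simpa using hc
  | insert a s ha ih =>
    rw [Finset.sum_insert ha]
    refine (norm_add_le_max _ _).trans_lt (max_lt (h a (Finset.mem_insert_self a s)) ?_)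
    exact ih (fun i hi => h i (Finset.mem_insert_of_mem hi))

/-- `n`-th power of the norm of a monomial. -/
lemma norm_monomial_pow (w : KK) (n : ℕ) (hw : ‖w‖ ^ n = 1 / 3) (c : ℚ_[3]) (hc : c ≠ 0) (i : ℕ) :
    ‖algebraMap ℚ_[3] KK c * w ^ i‖ ^ n = (3 : ℝ) ^ (-((n : ℤ) * c.valuation + i)) := by
  rw [norm_mul, norm_algebraMap_KK, norm_pow, mul_pow, ← pow_mul, mul_comm i n, pow_mul, hw,
    Padic.norm_eq_zpow_neg_valuation hc, ← zpow_natCast, ← zpow_mul, neg_add, zpow_add₀ (by norm_num)]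
  congr 1
  · congr 1
    ring
  · rw [one_div, inv_pow, zpow_neg, zpow_natCast]

lemma distinct_norms (w : KK) (n : ℕ) (hn : 0 < n) (hw : ‖w‖ ^ n = 1 / 3) (f : ℚ_[3][X])
    (hf : f ≠ 0) (hd : f.natDegree < n) :
    ∃ j, j < n ∧ f.coeff j ≠ 0 ∧
      ‖aeval w f - algebraMap ℚ_[3] KK (f.coeff j) * w ^ j‖ <
        ‖algebraMap ℚ_[3] KK (f.coeff j) * w ^ j‖ := by
  have hne : f.support.Nonempty := by rwa [Polynomial.support_nonempty]
  obtain ⟨j, hj, hmax⟩ := Finset.exists_max_image f.support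
    (fun i => ‖algebraMap ℚ_[3] KK (f.coeff i) * w ^ i‖) hne
  have hcj : f.coeff j ≠ 0 := mem_support_iff.1 hj
  have hjn : j < n := (le_natDegree_of_ne_zero hcj).trans_lt hd
  refine ⟨j, hjn, hcj, ?_⟩
  have hw0 : w ≠ 0 := by
    intro h
    rw [h, norm_zero, zero_pow hn.ne'] at hw
    norm_num at hw
  have hsum : aeval w f = ∑ i ∈ f.support, algebraMap ℚ_[3] KK (f.coeff i) * w ^ i := by
    rw [aeval_def, eval₂_eq_sum, Polynomial.sum]
  rw [hsum, ← Finset.add_sum_erase _ _ hj, add_sub_cancel_left]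
  apply norm_sum_lt
  · rw [norm_pos_iff]
    apply mul_ne_zero _ (pow_ne_zero _ hw0)
    simpa using hcj
  · intro i hi
    rw [Finset.mem_erase] at hi
    have hci : f.coeff i ≠ 0 := mem_support_iff.1 hi.2
    have hin : i < n := (le_natDegree_of_ne_zero hci).trans_lt hd
    refine lt_of_le_of_ne (hmax i hi.2) ?_
    intro heq
    have h1 := norm_monomial_pow w n hw _ hci i
    have h2 := norm_monomial_pow w n hw _ hcj j
    rw [heq, h2] at h1
    have h3 := (zpow_right_injective₀ (by norm_num : (0 : ℝ) < 3) (by norm_num)) h1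
    simp only [neg_inj] at h3
    have h4 : ((n : ℤ) ∣ (j : ℤ) - i) := by
      refine ⟨(f.coeff i).valuation - (f.coeff j).valuation, ?_⟩
      linear_combination h3
    have h5 : (j : ℤ) - i = 0 := by
      apply Int.eq_zero_of_abs_lt_dvd h4
      rw [abs_lt]
      constructor <;> omega
    exact hi.1 (by omega)

/-- elements of `ℚ_3(w)` have values avoiding `3^{-1/2}`. -/
lemma value_ne (w : KK) (n : ℕ) (hn : Odd n) (hw : ‖w‖ ^ n = 1 / 3) (f : ℚ_[3][X])
    (hd : f.natDegree < n) : ‖aeval w f‖ ^ 2 ≠ 1 / 3 := by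
  intro h
  have hn0 : 0 < n := hn.pos
  by_cases hf : f = 0
  · rw [hf] at h
    simp at h
  obtain ⟨j, hjn, hcj, hlt⟩ := distinct_norms w n hn0 hw f hf hd
  have h1 : ‖aeval w f‖ = ‖algebraMap ℚ_[3] KK (f.coeff j) * w ^ j‖ := by
    have := norm_add_eq_of_lt hlt
    rwa [add_sub_cancel] at this
  have h2 := norm_monomial_pow w n hw _ hcj j
  rw [← h1] at h2
  have h3 : (‖aeval w f‖ ^ 2) ^ n = (‖aeval w f‖ ^ n) ^ 2 := by rw [← pow_mul, ← pow_mul, mul_comm]
  rw [h, h2] at h3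
  have e1 : (1 / 3 : ℝ) ^ n = (3 : ℝ) ^ (-(n : ℤ)) := by
    rw [one_div, inv_pow, zpow_neg, zpow_natCast]
  have e2 : ((3 : ℝ) ^ (-((n : ℤ) * (f.coeff j).valuation + j))) ^ 2 =
      (3 : ℝ) ^ ((-((n : ℤ) * (f.coeff j).valuation + j)) * 2) := by
    rw [zpow_mul]
    norm_cast
  rw [e1, e2] at h3
  have h4 := (zpow_right_injective₀ (by norm_num : (0 : ℝ) < 3) (by norm_num)) h3
  obtain ⟨m, hm⟩ := hn
  have hdvd : (n : ℤ) ∣ 2 * (j : ℤ) := by
    refine ⟨1 - 2 * (f.coeff j).valuation, ?_⟩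
    linear_combination h4
  -- `n` odd divides `2 j`, hence `j`, hence `j = 0`
  have hdvd2 : (n : ℤ) ∣ (j : ℤ) := by
    have hcop : IsCoprime (n : ℤ) 2 := by
      refine ⟨1, -(m : ℤ), ?_⟩
      rw [hm]
      push_cast
      ring
    exact hcop.dvd_of_dvd_mul_left hdvd
  have h7 : (j : ℤ) = 0 := by
    apply Int.eq_zero_of_abs_lt_dvd hdvd2
    rw [abs_lt]
    constructor <;> omega
  rw [h7] at h4
  have h8 : (n : ℤ) * (1 - 2 * (f.coeff j).valuation) = 0 := by linear_combination -h4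
  rcases mul_eq_zero.1 h8 with h9 | h9 <;> omega

lemma padic_unit_cases (c : ℚ_[3]) (hc : ‖c‖ = 1) : ‖c - 1‖ < 1 ∨ ‖c + 1‖ < 1 := by
  set z : ℤ_[3] := ⟨c, hc.le⟩ with hz
  obtain ⟨m, hm, hmem⟩ := PadicInt.exists_mem_range z
  rw [IsLocalRing.mem_maximalIdeal, PadicInt.mem_nonunits] at hmem
  have hmem' : ‖c - (m : ℚ_[3])‖ < 1 := by
    have : ‖z - (m : ℤ_[3])‖ = ‖c - (m : ℚ_[3])‖ := by
      rw [PadicInt.norm_def]
      push_cast
      rfl
    rwa [this] at hmem
  interval_cases m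
  · rw [Nat.cast_zero, sub_zero] at hmem'
    exact absurd hmem' (by rw [hc]; exact lt_irrefl _)
  · left
    simpa using hmem'
  · right
    have h3 : ‖(3 : ℚ_[3])‖ < 1 := by
      have := @Padic.norm_p 3 _
      rw [Nat.cast_ofNat] at this
      rw [this]
      norm_num
    have e : c + 1 = (c - (2 : ℕ)) + 3 := by push_cast; ring
    rw [e]
    refine (Padic.nonarchimedean _ _).trans_lt (max_lt hmem' h3)

lemma residue_cases (w : KK) (n : ℕ) (hn : 0 < n) (hw : ‖w‖ ^ n = 1 / 3) (f : ℚ_[3][X])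
    (hd : f.natDegree < n) (h1 : ‖aeval w f‖ ≤ 1) :
    ‖aeval w f‖ < 1 ∨ ‖aeval w f - 1‖ < 1 ∨ ‖aeval w f + 1‖ < 1 := by
  rcases lt_or_eq_of_le h1 with h1 | h1
  · exact Or.inl h1
  right
  have hf : f ≠ 0 := by
    rintro rfl
    simp at h1
  obtain ⟨j, hjn, hcj, hlt⟩ := distinct_norms w n hn hw f hf hd
  have h2 : ‖aeval w f‖ = ‖algebraMap ℚ_[3] KK (f.coeff j) * w ^ j‖ := by
    have := norm_add_eq_of_lt hlt
    rwa [add_sub_cancel] at this
  have h3 := norm_monomial_pow w n hw _ hcj j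
  rw [← h2] at h3
  rw [h1, one_pow] at h3
  have h4 : (3 : ℝ) ^ (0 : ℤ) = (3 : ℝ) ^ (-((n : ℤ) * (f.coeff j).valuation + j)) := by
    rw [zpow_zero]; exact h3
  have h5 := (zpow_right_injective₀ (by norm_num : (0 : ℝ) < 3) (by norm_num)) h4
  have hj0 : j = 0 := by
    have h6 : (n : ℤ) ∣ (j : ℤ) := by
      refine ⟨-(f.coeff j).valuation, ?_⟩
      linarith
    have h7 : (j : ℤ) = 0 := by
      apply Int.eq_zero_of_abs_lt_dvd h6
      rw [abs_lt]
      constructor <;> omega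
    omega
  subst hj0
  rw [pow_zero, mul_one] at h2 hlt
  rw [h1, norm_algebraMap_KK] at h2
  rw [norm_algebraMap_KK, ← h2] at hlt
  rcases padic_unit_cases _ h2.symm with h | h
  · left
    have e : aeval w f - 1 = (aeval w f - algebraMap ℚ_[3] KK (f.coeff 0)) +
        algebraMap ℚ_[3] KK (f.coeff 0 - 1) := by
      rw [map_sub, map_one]; ring
    rw [e]
    refine (norm_add_le_max _ _).trans_lt (max_lt hlt ?_)
    rwa [norm_algebraMap_KK]
  · right
    have e : aeval w f + 1 = (aeval w f - algebraMap ℚ_[3] KK (f.coeff 0)) +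
        algebraMap ℚ_[3] KK (f.coeff 0 + 1) := by
      rw [map_add, map_one]; ring
    rw [e]
    refine (norm_add_le_max _ _).trans_lt (max_lt hlt ?_)
    rwa [norm_algebraMap_KK]

/-- A root of a rational polynomial with `‖w‖^n = 1/3` forces degree at least `n`. -/
lemma degree_ge (w : KK) (n : ℕ) (hn : 0 < n) (hw : ‖w‖ ^ n = 1 / 3) (f : ℚ_[3][X])
    (hf : f ≠ 0) (h0 : aeval w f = 0) : n ≤ f.natDegree := by
  by_contra hcon
  push Not at hcon
  obtain ⟨j, hjn, hcj, hlt⟩ := distinct_norms w n hn hw f hf hcon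
  rw [h0, zero_sub, norm_neg] at hlt
  exact lt_irrefl _ hlt

/-- Representation of elements of `ℚ_3(w)`. -/
lemma mem_adjoin_rep (w : KK) (g : ℚ_[3][X]) (hg : g.Monic) (hg0 : aeval w g = 0)
    (hgd : 0 < g.natDegree) (z : KK) (hz : z ∈ IntermediateField.adjoin ℚ_[3] {w}) :
    ∃ f : ℚ_[3][X], f.natDegree < g.natDegree ∧ aeval w f = z := by
  have hint : IsIntegral ℚ_[3] w := ⟨g, hg, by rwa [← aeval_def]⟩
  have h1 : z ∈ (IntermediateField.adjoin ℚ_[3] {w}).toSubalgebra := hz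
  rw [IntermediateField.adjoin_simple_toSubalgebra_of_isAlgebraic hint.isAlgebraic,
    Algebra.adjoin_singleton_eq_range_aeval] at h1
  obtain ⟨f0, hf0⟩ := h1
  refine ⟨f0 %ₘ g, ?_, ?_⟩
  · apply natDegree_modByMonic_lt _ hg
    rintro rfl
    simp at hgd
  · have := modByMonic_add_div f0 g
    rw [← this] at hf0
    simp only [map_add, map_mul] at hf0
    have h2 : (aeval w).toRingHom g = 0 := hg0
    have h3 : aeval w (f0 %ₘ g) + aeval w g * aeval w (f0 /ₘ g) = z := by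
      rw [← map_mul, ← map_add]
      rw [this]
      exact (by rw [← this]; simpa using hf0)
    rw [hg0, zero_mul, add_zero] at h3
    exact h3

end

end Pool.Agent.H291R3
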