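import Pool.Agent.H291R3.Bog2

set_option autoImplicit false

/-! Dickson polynomials over `ℤ` and the real cyclotomic `ℤ_3`-tower over `ℚ_3`. -/

namespace Pool.Agent.H291R3

open Polynomial

noncomputable section

/-- Dickson polynomials `D_n(y + 1/y) = y^n + y^{-n}`. -/
def DD (n : ℕ) : ℤ[X] := dickson 1 (1 : ℤ) n

lemma DD_zero : DD 0 = 2 := by
  unfold DD
  rw [dickson_zero]
  norm_num

lemma DD_one : DD 1 = X := by
  unfold DD
  rw [dickson_one]

lemma DD_add_two (n : ℕ) : DD (n + 2) = X * DD (n + 1) - DD n := by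
  unfold DD
  rw [dickson_add_two]
  simp

lemma DD_eval {R : Type*} [CommRing R] [Algebra ℤ R] (x y : R) (h : x * y = 1) (n : ℕ) :
    aeval (x + y) (DD n) = x ^ n + y ^ n := by
  unfold DD
  rw [← eval_map_algebraMap, map_dickson, map_one]
  exact dickson_one_one_eval_add_inv x y h n

/-- Monicity and degree. -/
lemma DD_monic_natDegree : ∀ n : ℕ, 1 ≤ n → (DD n).Monic ∧ (DD n).natDegree = n := by
  intro n
  induction n using Nat.strong_induction_on with
  | _ n ih =>
    intro hn
    match n, hn with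
    | 1, _ =>
      rw [DD_one]
      exact ⟨monic_X, natDegree_X⟩
    | 2, _ =>
      have e : DD 2 = X ^ 2 - C 2 := by
        rw [DD_add_two 0, DD_one, DD_zero]
        simp only [map_ofNat]
        ring
      rw [e]
      exact ⟨monic_X_pow_sub_C 2 (by norm_num), natDegree_X_pow_sub_C⟩
    | n + 3, _ =>
      obtain ⟨h1, h2⟩ := ih (n + 2) (by omega) (by omega)
      obtain ⟨h3, h4⟩ := ih (n + 1) (by omega) (by omega)
      rw [DD_add_two (n + 1)]
      have h5 : (X * DD (n + 1 + 1)).Monic := monic_X.mul h1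
      have h6 : (X * DD (n + 1 + 1)).natDegree = n + 3 := by
        rw [Monic.natDegree_mul monic_X h1, natDegree_X, h2]
        omega
      have h7 : (DD (n + 1)).degree < (X * DD (n + 1 + 1)).degree := by
        rw [degree_eq_natDegree h5.ne_zero, degree_eq_natDegree h3.ne_zero, h4, h6]
        exact_mod_cast (by omega : n + 1 < n + 3)
      refine ⟨h5.sub_of_left h7, ?_⟩
      rw [natDegree_sub_eq_left_of_natDegree_lt, h6]
      rw [h4, h6]
      omega

lemma DD_monic (n : ℕ) (hn : 1 ≤ n) : (DD n).Monic := (DD_monic_natDegree n hn).1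
lemma DD_natDegree (n : ℕ) (hn : 1 ≤ n) : (DD n).natDegree = n := (DD_monic_natDegree n hn).2

/-- The derivative: `D_n'(y + 1/y) (y - 1/y) = n (y^n - y^{-n})`. -/
lemma DD_derivative {R : Type*} [CommRing R] [Algebra ℤ R] (x y : R) (h : x * y = 1) (n : ℕ) :
    aeval (x + y) (derivative (DD n)) * (x - y) = n * (x ^ n - y ^ n) := by
  induction n using Nat.strong_induction_on with
  | _ n ih =>
    match n with
    | 0 =>
      rw [DD_zero]
      simp
    | 1 =>
      rw [DD_one]
      simp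
    | n + 2 =>
      have h1 := ih (n + 1) (by omega)
      have h2 := ih n (by omega)
      have h3 := DD_eval x y h (n + 1)
      rw [DD_add_two, derivative_sub, derivative_mul, derivative_X, one_mul, map_sub, map_add,
        map_mul, aeval_X]
      have e : (aeval (x + y) (DD (n + 1)) + (x + y) * aeval (x + y) (derivative (DD (n + 1))) -
          aeval (x + y) (derivative (DD n))) * (x - y) =
          aeval (x + y) (DD (n + 1)) * (x - y) +
          (x + y) * (aeval (x + y) (derivative (DD (n + 1))) * (x - y)) -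
          aeval (x + y) (derivative (DD n)) * (x - y) := by ring
      rw [e, h1, h2, h3]
      push_cast
      have h4 : x ^ (n + 2) = x * x * x ^ n := by ring
      have h5 : y ^ (n + 2) = y * y * y ^ n := by ring
      have h6 : x ^ (n + 1) = x * x ^ n := by ring
      have h7 : y ^ (n + 1) = y * y ^ n := by ring
      rw [h4, h5, h6, h7]
      linear_combination ((n : R)) * (x ^ n - y ^ n) * h

lemma DD_two (n : ℕ) : (DD n).eval 2 = 2 := by
  have := DD_eval (1 : ℤ) 1 (by norm_num) n
  rw [one_pow] at this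
  have e : (1 : ℤ) + 1 = 2 := by norm_num
  rw [e, aeval_def, eval₂_eq_eval_map] at this
  simpa using this

/-- `D_{3^k} ≡ X^{3^k} (mod 3)`. -/
lemma DD_mod_three (k : ℕ) : (DD (3 ^ k)).map (Int.castRingHom (ZMod 3)) = X ^ (3 ^ k) := by
  unfold DD
  rw [map_dickson, map_one]
  induction k with
  | zero => simp
  | succ k ih =>
    rw [pow_succ, dickson_one_one_mul, ih, dickson_one_one_zmod_p, pow_comp, X_comp, ← pow_mul,
      mul_comm]

/-- `Ψ_k(X) = D_{3^k}(X + 2) + 1`. -/
def Psi (k : ℕ) : ℤ[X] := (DD (3 ^ k)).comp (X + C 2) + C 1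

lemma Psi_aeval {R : Type*} [CommRing R] [Algebra ℤ R] (k : ℕ) (r : R) :
    aeval r (Psi k) = aeval (r + 2) (DD (3 ^ k)) + 1 := by
  unfold Psi
  rw [map_add, aeval_comp, map_add, aeval_X, aeval_C, aeval_C]
  simp

lemma Psi_monic (k : ℕ) : (Psi k).Monic ∧ (Psi k).natDegree = 3 ^ k := by
  have hpos : 1 ≤ 3 ^ k := Nat.one_le_pow _ _ (by norm_num)
  have h1 : ((DD (3 ^ k)).comp (X + C 2)).Monic := (DD_monic _ hpos).comp_X_add_C 2
  have h2 : ((DD (3 ^ k)).comp (X + C 2)).natDegree = 3 ^ k := by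
    rw [natDegree_comp, natDegree_X_add_C, mul_one, DD_natDegree _ hpos]
  have h3 : (C (1 : ℤ)).degree < ((DD (3 ^ k)).comp (X + C 2)).degree := by
    rw [degree_eq_natDegree h1.ne_zero, h2, degree_C one_ne_zero]
    exact_mod_cast hpos
  refine ⟨h1.add_of_left h3, ?_⟩
  unfold Psi
  rw [natDegree_add_C, h2]

/-- `Ψ_k = X^{3^k} + 3 G`. -/
lemma Psi_eisenstein (k : ℕ) : ∃ G : ℤ[X], Psi k = X ^ (3 ^ k) + C 3 * G ∧ G.eval 0 = 1 := by
  have h1 : (Psi k - X ^ (3 ^ k)).map (Int.castRingHom (ZMod 3)) = 0 := by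
    unfold Psi
    rw [Polynomial.map_sub, Polynomial.map_add, Polynomial.map_comp, DD_mod_three,
      Polynomial.map_add, map_X, map_C, map_C, Polynomial.map_pow, map_X, pow_comp, X_comp,
      add_pow_char_pow (X : (ZMod 3)[X]) (C _) 3 k]
    have e : (C ((Int.castRingHom (ZMod 3)) 2) : (ZMod 3)[X]) ^ 3 ^ k = C 2 := by
      rw [← C_pow]
      congr 1
      have : ((Int.castRingHom (ZMod 3)) 2) = 2 := rfl
      rw [this, ZMod.pow_card_pow]
    rw [e]
    have e2 : (C (2 : ZMod 3) : (ZMod 3)[X]) + C ((Int.castRingHom (ZMod 3)) 1) = 0 := by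
      rw [← C_add]
      have : (2 : ZMod 3) + (Int.castRingHom (ZMod 3)) 1 = 0 := by decide
      rw [this, C_0]
    linear_combination e2
  have h2 : C (3 : ℤ) ∣ Psi k - X ^ (3 ^ k) := by
    rw [C_dvd_iff_dvd_coeff]
    intro i
    have := congrArg (fun f => f.coeff i) h1
    simp only [coeff_map, coeff_zero] at this
    exact (ZMod.intCast_zmod_eq_zero_iff_dvd _ 3).1 this
  obtain ⟨G, hG⟩ := h2
  refine ⟨G, by rw [← hG]; ring, ?_⟩
  have h3 : (Psi k - X ^ (3 ^ k)).eval 0 = (C 3 * G).eval 0 := by rw [hG]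
  have hpos : 3 ^ k ≠ 0 := by positivity
  unfold Psi at h3
  simp only [eval_sub, eval_add, eval_comp, eval_X, eval_C, eval_mul, eval_pow, zero_add, DD_two,
    zero_pow hpos] at h3
  linarith

end

end Pool.Agent.H291R3
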