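import Pool.Agent.H291R3.Bog3

set_option autoImplicit false

/-! The field `Om`, the union of the layers of the real cyclotomic `ℤ_3`-tower over `ℚ_3`. -/

namespace Pool.Agent.H291R3

open Polynomial

noncomputable section

lemma exists_prim (k : ℕ) : ∃ z : KK, IsPrimitiveRoot z (3 ^ (k + 1)) :=
  HasEnoughRootsOfUnity.exists_primitiveRoot KK _

def zz (k : ℕ) : KK := (exists_prim k).choose

lemma zz_prim (k : ℕ) : IsPrimitiveRoot (zz k) (3 ^ (k + 1)) := (exists_prim k).choose_spec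

/-- the uniformizer `ζ + ζ⁻¹ - 2` -/
def ww (k : ℕ) : KK := zz k + (zz k)⁻¹ - 2

def Ok (k : ℕ) : IntermediateField ℚ_[3] KK := IntermediateField.adjoin ℚ_[3] {ww k}

lemma aeval_int_mem (S : IntermediateField ℚ_[3] KK) {x : KK} (hx : x ∈ S) (f : ℤ[X]) :
    aeval x f ∈ S := by
  rw [aeval_eq_sum_range]
  apply sum_mem
  intro i _
  rw [zsmul_eq_mul]
  exact mul_mem (intCast_mem S _) (pow_mem hx i)

lemma ww_mem (k : ℕ) : ww k ∈ Ok k := IntermediateField.mem_adjoin_simple_self _ _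

lemma add_inv_mem (k : ℕ) (x : KK) (hx : x ^ (3 ^ (k + 1)) = 1) : x + x⁻¹ ∈ Ok k := by
  obtain ⟨i, _, hi⟩ := (zz_prim k).eq_pow_of_pow_eq_one hx
  have h0 : zz k ≠ 0 := (zz_prim k).ne_zero (by positivity)
  have h1 : aeval (zz k + (zz k)⁻¹) (DD i) = zz k ^ i + (zz k)⁻¹ ^ i :=
    DD_eval _ _ (mul_inv_cancel₀ h0) i
  rw [inv_pow, hi] at h1
  rw [← h1]
  apply aeval_int_mem
  have : zz k + (zz k)⁻¹ = ww k + ((2 : ℤ) : KK) := by unfold ww; push_cast; ring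
  rw [this]
  exact add_mem (ww_mem k) (intCast_mem _ _)

lemma Ok_mono : Monotone Ok := by
  apply monotone_nat_of_le_succ
  intro k
  unfold Ok
  rw [IntermediateField.adjoin_simple_le_iff]
  have h1 : zz k + (zz k)⁻¹ ∈ Ok (k + 1) := by
    apply add_inv_mem
    rw [pow_succ 3 (k + 1), pow_mul, (zz_prim k).pow_eq_one, one_pow]
  have : ww k = (zz k + (zz k)⁻¹) - ((2 : ℤ) : KK) := by unfold ww; push_cast; ring
  rw [this]
  exact sub_mem h1 (intCast_mem _ _)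

def Om : IntermediateField ℚ_[3] KK := ⨆ k, Ok k

lemma mem_Om {x : KK} : x ∈ Om ↔ ∃ k, x ∈ Ok k := by
  unfold Om
  rw [← SetLike.mem_coe, IntermediateField.coe_iSup_of_directed Ok_mono.directed_le]
  simp

lemma Ok_le_Om (k : ℕ) : Ok k ≤ Om := le_iSup Ok k

lemma exists_param (s : KK) : ∃ x y : KK, x * y = 1 ∧ x + y = s := by
  obtain ⟨d, hd⟩ := IsAlgClosed.exists_pow_nat_eq (s ^ 2 - 4) (n := 2) (by norm_num)
  refine ⟨(s + d) / 2, (s - d) / 2, ?_, ?_⟩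
  · field_simp
    linear_combination -hd
  · field_simp
    ring

/-- Roots of unity structure of the roots of `Ψ_k`. -/
lemma Psi_root {k : ℕ} {r x y : KK} (hxy : x * y = 1) (hs : x + y = r + 2)
    (hr : aeval r (Psi k) = 0) :
    x ^ (3 ^ (k + 1)) = 1 ∧ (x ^ 3 ^ k - y ^ 3 ^ k) ^ 2 = -3 := by
  rw [Psi_aeval, ← hs, DD_eval x y hxy] at hr
  have h1 : x ^ 3 ^ k * y ^ 3 ^ k = 1 := by rw [← mul_pow, hxy, one_pow]
  have h2 : (x ^ 3 ^ k) ^ 2 + x ^ 3 ^ k + 1 = 0 := by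
    linear_combination (x ^ 3 ^ k) * hr - h1
  constructor
  · rw [pow_succ, pow_mul]
    linear_combination (x ^ 3 ^ k - 1) * h2
  · linear_combination (x ^ 3 ^ k + y ^ 3 ^ k - 1) * hr - 4 * h1

lemma Psi_root_mem {k : ℕ} {r : KK} (hr : aeval r (Psi k) = 0) : r ∈ Om := by
  obtain ⟨x, y, hxy, hs⟩ := exists_param (r + 2)
  obtain ⟨h1, _⟩ := Psi_root hxy hs hr
  have h2 := add_inv_mem k x h1
  have h3 : x⁻¹ = y := inv_eq_of_mul_eq_one_right hxy
  rw [h3, hs] at h2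
  have : r = r + 2 - ((2 : ℤ) : KK) := by push_cast; ring
  rw [this]
  exact Ok_le_Om k (sub_mem h2 (intCast_mem _ _))

lemma ww_root (k : ℕ) : aeval (ww k) (Psi k) = 0 := by
  have h0 : zz k ≠ 0 := (zz_prim k).ne_zero (by positivity)
  have e : ww k + 2 = zz k + (zz k)⁻¹ := by unfold ww; ring
  rw [Psi_aeval, e, DD_eval _ _ (mul_inv_cancel₀ h0)]
  have h1 : IsPrimitiveRoot (zz k ^ 3 ^ k) 3 := by
    apply (zz_prim k).pow (by positivity)
    rw [pow_succ]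
  have h2 := h1.pow_eq_one
  have h3 : zz k ^ 3 ^ k ≠ 1 := h1.ne_one (by norm_num)
  have h4 : (zz k ^ 3 ^ k) ^ 2 + zz k ^ 3 ^ k + 1 = 0 := by
    have h5 : (zz k ^ 3 ^ k - 1) * ((zz k ^ 3 ^ k) ^ 2 + zz k ^ 3 ^ k + 1) = 0 := by
      linear_combination h2
    rcases mul_eq_zero.1 h5 with h6 | h6
    · exact absurd (sub_eq_zero.1 h6) h3
    · exact h6
  have h7 : zz k ^ 3 ^ k * (zz k)⁻¹ ^ 3 ^ k = 1 := by
    rw [← mul_pow, mul_inv_cancel₀ h0, one_pow]
  have h8 : zz k ^ 3 ^ k ≠ 0 := pow_ne_zero _ h0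
  apply mul_left_cancel₀ h8
  rw [mul_zero]
  linear_combination h4 + h7

/-- roots of integer polynomials with leading coefficient prime to 3 are integral -/
lemma int_root (f : ℤ[X]) (hf : ¬ (3 : ℤ) ∣ f.leadingCoeff) (r : KK) (hr : aeval r f = 0) :
    ‖r‖ ≤ 1 := by
  by_contra hcon
  push Not at hcon
  have hlead : ‖(f.leadingCoeff : KK)‖ = 1 := by
    rw [norm_intCast]
    refine le_antisymm (Padic.norm_int_le_one _) ?_
    by_contra h
    push Not at h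
    exact hf (Padic.norm_intCast_lt_one_iff.1 h)
  rw [aeval_eq_sum_range, Finset.sum_range_succ] at hr
  have h1 : ‖∑ i ∈ Finset.range f.natDegree, f.coeff i • r ^ i‖ < ‖r‖ ^ f.natDegree := by
    apply norm_sum_lt _ _ _ (by positivity)
    intro i hi
    rw [Finset.mem_range] at hi
    rw [zsmul_eq_mul, norm_mul, norm_pow]
    calc ‖(f.coeff i : KK)‖ * ‖r‖ ^ i ≤ 1 * ‖r‖ ^ i :=
          mul_le_mul_of_nonneg_right (norm_intCast_le_one _) (by positivity)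
      _ = ‖r‖ ^ i := one_mul _
      _ < ‖r‖ ^ f.natDegree := pow_lt_pow_right₀ hcon hi
  have h2 : ‖f.coeff f.natDegree • r ^ f.natDegree‖ = ‖r‖ ^ f.natDegree := by
    rw [zsmul_eq_mul, norm_mul, norm_pow, coeff_natDegree, hlead, one_mul]
  have h3 : ∑ i ∈ Finset.range f.natDegree, f.coeff i • r ^ i =
      -(f.coeff f.natDegree • r ^ f.natDegree) := eq_neg_of_add_eq_zero_left hr
  rw [h3, norm_neg, h2] at h1
  exact lt_irrefl _ h1

/-- Eisenstein roots -/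
lemma eis_root (n : ℕ) (G : ℤ[X]) (hG : ¬ (3 : ℤ) ∣ G.eval 0) (r : KK)
    (hr1 : ‖r‖ ≤ 1) (hr : aeval r (X ^ n + C 3 * G) = 0) : ‖r‖ ^ n = 1 / 3 := by
  rw [map_add, map_mul, map_pow, aeval_X, aeval_C] at hr
  have e3 : (algebraMap ℤ KK) 3 = 3 := by simp
  rw [e3] at hr
  have h1 : r ^ n = -(3 * aeval r G) := eq_neg_of_add_eq_zero_left hr
  have h2 : ‖r‖ ^ n = 1 / 3 * ‖aeval r G‖ := by
    rw [← norm_pow, h1, norm_neg, norm_mul, norm_three]
  have h3 : ‖r‖ < 1 := by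
    by_contra hcon
    have h4 : ‖r‖ = 1 := le_antisymm hr1 (not_lt.1 hcon)
    rw [h4, one_pow] at h2
    have := norm_aeval_le G r hr1
    linarith
  have h5 : ‖aeval r G - aeval (0 : KK) G‖ < 1 := by
    refine (lipschitz G 0 r (by simp) hr1).trans_lt ?_
    rwa [sub_zero]
  have h6 : ‖aeval (0 : KK) G‖ = 1 := by
    have e : aeval (0 : KK) G = ((G.eval 0 : ℤ) : KK) := by
      rw [← coeff_zero_eq_aeval_zero', ← coeff_zero_eq_eval_zero]
      simp
    rw [e, norm_intCast]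
    refine le_antisymm (Padic.norm_int_le_one _) ?_
    by_contra h
    push Not at h
    exact hG (Padic.norm_intCast_lt_one_iff.1 h)
  have h7 : ‖aeval r G‖ = 1 := by
    have : aeval r G = aeval (0 : KK) G + (aeval r G - aeval (0 : KK) G) := by ring
    rw [this, norm_add_eq_of_lt (by rw [h6]; exact h5), h6]
  rw [h2, h7, mul_one]

lemma ww_norm (k : ℕ) : ‖ww k‖ ^ 3 ^ k = 1 / 3 := by
  obtain ⟨G, hG, hG0⟩ := Psi_eisenstein k
  apply eis_root (3 ^ k) G (by rw [hG0]; norm_num)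
  · apply int_root (Psi k) _ _ (ww_root k)
    rw [(Psi_monic k).1.leadingCoeff]
    norm_num
  · rw [← hG]
    exact ww_root k

lemma Ok_rep (k : ℕ) (z : KK) (hz : z ∈ Ok k) :
    ∃ f : ℚ_[3][X], f.natDegree < 3 ^ k ∧ aeval (ww k) f = z := by
  have hm := (Psi_monic k).1
  have hd := (Psi_monic k).2
  have h := mem_adjoin_rep (ww k) ((Psi k).map (algebraMap ℤ ℚ_[3])) (hm.map _)
    (by rw [aeval_map_algebraMap]; exact ww_root k)
    (by rw [hm.natDegree_map, hd]; positivity) z hz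
  rwa [hm.natDegree_map, hd] at h

/-- (V) -/
lemma Om_value {z : KK} (hz : z ∈ Om) : ‖z‖ ^ 2 ≠ 1 / 3 := by
  obtain ⟨k, hk⟩ := mem_Om.1 hz
  obtain ⟨f, hf, rfl⟩ := Ok_rep k z hk
  exact value_ne (ww k) (3 ^ k) (Odd.pow (by decide)) (ww_norm k) f hf

/-- (R) -/
lemma Om_residue {z : KK} (hz : z ∈ Om) (h1 : ‖z‖ ≤ 1) :
    ‖z‖ < 1 ∨ ‖z - 1‖ < 1 ∨ ‖z + 1‖ < 1 := by
  obtain ⟨k, hk⟩ := mem_Om.1 hz
  obtain ⟨f, hf, rfl⟩ := Ok_rep k z hk
  exact residue_cases (ww k) (3 ^ k) (by positivity) (ww_norm k) f hf h1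

lemma mem_Om_of_fixed {x : KK} (h : ∀ σ : KK ≃ₐ[ℚ_[3]] KK, (∀ z ∈ Om, σ z = z) → σ x = x) :
    x ∈ Om := by
  rw [← InfiniteGalois.fixedField_fixingSubgroup Om]
  intro σ
  apply h
  intro z hz
  exact (IntermediateField.mem_fixingSubgroup_iff _ _).1 σ.2 z hz

/-- (S) -/
lemma Om_sqrt {z y : KK} (hz : z ∈ Om) (h1 : ‖z - 1‖ < 1) (hy : y ^ 2 = z) : y ∈ Om := by
  apply mem_Om_of_fixed
  intro σ hσ
  have h2 : σ y ^ 2 = y ^ 2 := by
    rw [← map_pow, hy, hσ z hz]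
  rcases sq_eq_sq_iff_eq_or_eq_neg.1 h2 with h3 | h3
  · exact h3
  exfalso
  have h4 : ‖y - 1‖ = ‖y + 1‖ := by
    have h5 := norm_galois σ (y - 1)
    rw [map_sub, map_one, h3] at h5
    rw [← h5, ← norm_neg]
    congr 1
    ring
  have h6 : ‖y - 1‖ * ‖y + 1‖ < 1 := by
    rw [← norm_mul]
    have : (y - 1) * (y + 1) = z - 1 := by rw [← hy]; ring
    rwa [this]
  have h7 : ‖y - 1‖ < 1 := by
    by_contra hcon
    push Not at hcon
    rw [← h4] at h6
    nlinarith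
  have h8 : ‖y + 1‖ < 1 := by rwa [← h4]
  have h9 : ‖(2 : KK)‖ = 1 := by
    have := norm_intCast 2
    push_cast at this
    rw [this]
    refine le_antisymm (by have := @Padic.norm_int_le_one 3 _ 2; push_cast at this; exact this) ?_
    by_contra h
    push Not at h
    have h10 := (@Padic.norm_intCast_lt_one_iff 3 _ 2).1 (by push_cast; exact h)
    norm_num at h10
  have h10 : (2 : KK) = (y + 1) - (y - 1) := by ring
  rw [h10] at h9
  have := norm_sub_le_max (y + 1) (y - 1)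
  rw [h9] at this
  exact absurd this (not_le.2 (max_lt h8 h7))

end

end Pool.Agent.H291R3
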