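import Pool.Agent.H291R3.Bog4

set_option autoImplicit false

/-! Roots of perturbations of `Ψ_k` lie in `Om`. -/

namespace Pool.Agent.H291R3

open Polynomial

noncomputable section

lemma Psi_deriv_lower {k : ℕ} {r : KK} (hr : aeval r (Psi k) = 0) (hr1 : ‖r‖ ≤ 1) :
    (1 / 3 : ℝ) ^ (k + 1) ≤ ‖aeval r (derivative (Psi k))‖ := by
  obtain ⟨x, y, hxy, hs⟩ := exists_param (r + 2)
  obtain ⟨h1, h2⟩ := Psi_root hxy hs hr
  have h3 : aeval r (derivative (Psi k)) = aeval (x + y) (derivative (DD (3 ^ k))) := by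
    unfold Psi
    rw [derivative_add, derivative_comp, derivative_C, add_zero, hs, derivative_add, derivative_X,
      derivative_C, add_zero, one_mul, aeval_comp, map_add, aeval_X, aeval_C]
    simp
  have h4 := DD_derivative x y hxy (3 ^ k)
  rw [← h3] at h4
  have h5 : ‖x - y‖ ≤ 1 := by
    have h6 : ‖x - y‖ ^ 2 ≤ 1 := by
      rw [← norm_pow]
      have e : (x - y) ^ 2 = aeval r ((X + C 2) ^ 2 - C 4 : ℤ[X]) := by
        simp only [map_sub, map_pow, map_add, aeval_X, aeval_C]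
        rw [show (x - y) ^ 2 = (x + y) ^ 2 - 4 * (x * y) by ring, hs, hxy]
        simp
      rw [e]
      exact norm_aeval_le _ _ hr1
    by_contra hcon
    push Not at hcon
    nlinarith
  have h7 : ‖x ^ 3 ^ k - y ^ 3 ^ k‖ ^ 2 = 1 / 3 := by
    rw [← norm_pow, h2, norm_neg, norm_three]
  have h8 : (1 / 3 : ℝ) ≤ ‖x ^ 3 ^ k - y ^ 3 ^ k‖ := by
    by_contra hcon
    push Not at hcon
    have h9 := norm_nonneg (x ^ 3 ^ k - y ^ 3 ^ k)
    nlinarith
  have h10 : ‖((3 ^ k : ℕ) : KK)‖ = (1 / 3) ^ k := by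
    push_cast
    rw [norm_pow, norm_three]
  have h11 := congrArg norm h4
  rw [norm_mul, norm_mul, h10] at h11
  have h12 := norm_nonneg (aeval r (derivative (Psi k)))
  calc (1 / 3 : ℝ) ^ (k + 1) = (1 / 3) ^ k * (1 / 3) := by rw [pow_succ]
    _ ≤ (1 / 3) ^ k * ‖x ^ 3 ^ k - y ^ 3 ^ k‖ := mul_le_mul_of_nonneg_left h8 (by positivity)
    _ = ‖aeval r (derivative (Psi k))‖ * ‖x - y‖ := h11.symm
    _ ≤ ‖aeval r (derivative (Psi k))‖ * 1 := mul_le_mul_of_nonneg_left h5 h12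
    _ = _ := mul_one _

lemma norm_C_pow_mul (K : ℕ) (R : ℤ[X]) (x : KK) (hx : ‖x‖ ≤ 1) :
    ‖aeval x (C ((3 : ℤ) ^ K) * R)‖ ≤ (1 / 3) ^ K := by
  rw [map_mul, aeval_C, map_pow, norm_mul, norm_pow]
  have e3 : (algebraMap ℤ KK) 3 = 3 := by simp
  rw [e3, norm_three]
  calc _ ≤ (1 / 3 : ℝ) ^ K * 1 := mul_le_mul_of_nonneg_left (norm_aeval_le _ _ hx) (by positivity)
    _ = _ := mul_one _

theorem local_roots (k K : ℕ) (hK : 2 * k + 3 ≤ K) (R P : ℤ[X])
    (hP : P = Psi k + C ((3 : ℤ) ^ K) * R) (hlead : ¬ (3 : ℤ) ∣ P.leadingCoeff) (ρ : KK)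
    (hρ : aeval ρ P = 0) : ρ ∈ Om ∧ ‖ρ‖ ^ (3 ^ k) = 1 / 3 := by
  have hρ1 : ‖ρ‖ ≤ 1 := int_root P hlead ρ hρ
  constructor
  · -- the nearest root of Psi
    have hPsi : ‖aeval ρ (Psi k)‖ ≤ (1 / 3) ^ K := by
      have h1 : aeval ρ (Psi k) = -aeval ρ (C ((3 : ℤ) ^ K) * R) := by
        rw [hP, map_add] at hρ
        exact eq_neg_of_add_eq_zero_left hρ
      rw [h1, norm_neg]
      exact norm_C_pow_mul K R ρ hρ1
    have hm := (Psi_monic k).1
    have hd := (Psi_monic k).2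
    obtain ⟨r, hr0, hr⟩ := nearest_root ((Psi k).map (algebraMap ℤ KK)) (hm.map _)
      (by rw [hm.natDegree_map, hd]; positivity) ρ
    rw [eval_map_algebraMap] at hr0
    rw [derivative_map, eval_map_algebraMap, eval_map_algebraMap] at hr
    have hr1 : ‖r‖ ≤ 1 := by
      apply int_root (Psi k) _ r hr0
      rw [hm.leadingCoeff]
      norm_num
    have hder := Psi_deriv_lower hr0 hr1
    have hdist : ‖ρ - r‖ ≤ (1 / 3) ^ (k + 2) := by
      by_contra hcon
      push Not at hcon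
      have h1 : (1 / 3 : ℝ) ^ (k + 2) * (1 / 3) ^ (k + 1) <
          ‖ρ - r‖ * ‖aeval r (derivative (Psi k))‖ := by
        apply mul_lt_mul hcon hder (by positivity) (norm_nonneg _)
      have h2 : (1 / 3 : ℝ) ^ K ≤ (1 / 3) ^ (k + 2) * (1 / 3) ^ (k + 1) := by
        rw [← pow_add]
        exact pow_le_pow_of_le_one (by norm_num) (by norm_num) (by omega)
      linarith
    apply mem_Om_of_fixed
    intro σ hσ
    by_contra hne
    have hσr : σ r = r := hσ r (Psi_root_mem hr0)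
    have hσρ1 : ‖σ ρ‖ ≤ 1 := by rw [norm_galois]; exact hρ1
    have hσP : aeval (σ ρ) P = 0 := by
      have h1 : aeval (σ ρ) P = σ (aeval ρ P) := by
        rw [aeval_eq_sum_range, aeval_eq_sum_range, map_sum]
        apply Finset.sum_congr rfl
        intro i _
        rw [zsmul_eq_mul, zsmul_eq_mul, map_mul, map_pow, map_intCast]
      rw [h1, hρ, map_zero]
    have hdist2 : ‖σ ρ - r‖ ≤ (1 / 3) ^ (k + 2) := by
      have h1 : σ ρ - r = σ (ρ - r) := by rw [map_sub, hσr]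
      rw [h1, norm_galois]
      exact hdist
    have hdd : ‖σ ρ - ρ‖ ≤ (1 / 3) ^ (k + 2) := by
      have e : σ ρ - ρ = (σ ρ - r) - (ρ - r) := by ring
      rw [e]
      exact (norm_sub_le_max _ _).trans (max_le hdist2 hdist)
    obtain ⟨c, hc, htay⟩ := taylor2 P ρ (σ ρ) hρ1 hσρ1
    rw [hσP, hρ, zero_add] at htay
    have hne' : σ ρ - ρ ≠ 0 := sub_ne_zero.2 hne
    have h1 : aeval ρ (derivative P) = -(c * (σ ρ - ρ)) := by
      apply mul_right_cancel₀ hne'
      linear_combination -htay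
    have h2 : ‖aeval ρ (derivative P)‖ ≤ (1 / 3) ^ (k + 2) := by
      rw [h1, norm_neg, norm_mul]
      calc ‖c‖ * ‖σ ρ - ρ‖ ≤ 1 * ‖σ ρ - ρ‖ := mul_le_mul_of_nonneg_right hc (norm_nonneg _)
        _ = ‖σ ρ - ρ‖ := one_mul _
        _ ≤ _ := hdd
    have h3 : derivative P = derivative (Psi k) + C ((3 : ℤ) ^ K) * derivative R := by
      rw [hP, derivative_add, derivative_C_mul]
    have h4 : ‖aeval ρ (C ((3 : ℤ) ^ K) * derivative R)‖ ≤ (1 / 3) ^ (k + 2) :=
      (norm_C_pow_mul K _ ρ hρ1).trans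
        (pow_le_pow_of_le_one (by norm_num) (by norm_num) (by omega))
    have h5 := (lipschitz (derivative (Psi k)) ρ r hρ1 hr1).trans (norm_sub_rev r ρ ▸ hdist)
    have h6 : aeval r (derivative (Psi k)) = (aeval r (derivative (Psi k)) -
        aeval ρ (derivative (Psi k))) + (aeval ρ (derivative P) -
        aeval ρ (C ((3 : ℤ) ^ K) * derivative R)) := by
      rw [h3, map_add]; ring
    have h7 : ‖aeval r (derivative (Psi k))‖ ≤ (1 / 3) ^ (k + 2) := by
      rw [h6]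
      refine (norm_add_le_max _ _).trans (max_le h5 ?_)
      exact (norm_sub_le_max _ _).trans (max_le h2 h4)
    have h8 : (1 / 3 : ℝ) ^ (k + 2) < (1 / 3) ^ (k + 1) :=
      pow_lt_pow_right_of_lt_one₀ (by norm_num) (by norm_num) (by omega)
    linarith
  · obtain ⟨G, hG, hG0⟩ := Psi_eisenstein k
    apply eis_root (3 ^ k) (G + C ((3 : ℤ) ^ (K - 1)) * R) _ ρ hρ1
    · have e : P = X ^ 3 ^ k + C 3 * (G + C ((3 : ℤ) ^ (K - 1)) * R) := by
        rw [hP, hG]
        have : C ((3 : ℤ) ^ K) = C 3 * C ((3 : ℤ) ^ (K - 1)) := by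
          rw [← C_mul, ← pow_succ']
          congr 2
          omega
        rw [this]
        ring
      rw [← e]
      exact hρ
    · rw [eval_add, hG0, eval_mul, eval_C]
      intro hdvd
      have h1 : (3 : ℤ) ∣ 3 ^ (K - 1) * eval 0 R :=
        Dvd.dvd.mul_right (dvd_pow_self 3 (by omega)) _
      have h2 : (3 : ℤ) ∣ 1 := (dvd_add_left h1).1 hdvd
      norm_num at h2

end

end Pool.Agent.H291R3
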