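import Pool.Agent.H291R3.Bog5

set_option autoImplicit false

/-! Real-rooted perturbations of `Ψ_k`. -/

namespace Pool.Agent.H291R3

open Polynomial

noncomputable section

lemma DD_cos (θ : ℝ) (n : ℕ) : aeval (2 * Real.cos θ) (DD n) = 2 * Real.cos (n * θ) := by
  induction n using Nat.strong_induction_on with
  | _ n ih =>
    match n with
    | 0 =>
      rw [DD_zero, map_ofNat]
      simp
    | 1 =>
      rw [DD_one]
      simp
    | n + 2 =>
      rw [DD_add_two, map_sub, map_mul, aeval_X, ih (n + 1) (by omega), ih n (by omega)]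
      have h1 : ((n + 2 : ℕ) : ℝ) * θ = ((n + 1 : ℕ) : ℝ) * θ + θ := by push_cast; ring
      have h2 : ((n : ℕ) : ℝ) * θ = ((n + 1 : ℕ) : ℝ) * θ - θ := by push_cast; ring
      rw [h1, h2, Real.cos_add, Real.cos_sub]
      ring

lemma DD_bound (n : ℕ) (s : ℝ) (hs : |s| ≤ 2) : |aeval s (DD n)| ≤ 2 := by
  rw [abs_le] at hs
  have h1 : s = 2 * Real.cos (Real.arccos (s / 2)) := by
    rw [Real.cos_arccos (by linarith) (by linarith)]
    ring
  rw [h1, DD_cos, abs_mul, abs_two]
  have := Real.abs_cos_le_one (n * Real.arccos (s / 2))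
  linarith

lemma degree_C_mul_le' (a : ℤ) (f : ℤ[X]) (m : WithBot ℕ) (hf : f.degree < m) :
    (C a * f).degree < m := by
  rcases eq_or_ne a 0 with h | h
  · rw [h, C_0, zero_mul, degree_zero]
    exact lt_of_le_of_lt bot_le hf
  · rwa [degree_C_mul h]

/-- Reduction modulo `3^K` with small values on `[-2,2]`. -/
lemma reduction (K m : ℕ) : ∀ f : ℤ[X], f.degree < m → ∃ U R : ℤ[X],
    f = U + C ((3 : ℤ) ^ K) * R ∧ U.degree < m ∧ R.degree < m ∧
      ∀ s : ℝ, |s| ≤ 2 → |aeval s U| ≤ 2 * m * 3 ^ K := by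
  induction m with
  | zero =>
    intro f hf
    have : f = 0 := by
      rw [Nat.cast_zero] at hf
      exact degree_eq_bot.1 (Nat.WithBot.lt_zero_iff.1 hf)
    refine ⟨0, 0, by rw [this]; simp, by simp, by simp, ?_⟩
    intro s _
    simp
  | succ m ih =>
    intro f hf
    -- the basis element
    obtain ⟨E, hE, hEd, hEb⟩ : ∃ E : ℤ[X], E.Monic ∧ E.natDegree = m ∧
        ∀ s : ℝ, |s| ≤ 2 → |aeval s E| ≤ 2 := by
      rcases Nat.eq_zero_or_pos m with h | h
      · refine ⟨1, monic_one, by rw [h]; exact natDegree_one, ?_⟩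
        intro s _
        simp
      · exact ⟨DD m, DD_monic m h, DD_natDegree m h, DD_bound m⟩
    set a := f.coeff m with ha
    have hfd : (f - C a * E).degree < m := by
      have h1 : (f - C a * E).degree < (m + 1 : ℕ) := by
        refine (degree_sub_le _ _).trans_lt (max_lt hf ?_)
        apply degree_C_mul_le'
        rw [degree_eq_natDegree hE.ne_zero, hEd]
        exact_mod_cast Nat.lt_succ_self m
      have h2 : (f - C a * E).coeff m = 0 := by
        rw [coeff_sub, coeff_C_mul]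
        have : E.coeff m = 1 := by rw [← hEd]; exact hE.coeff_natDegree
        rw [this, mul_one, ha, sub_self]
      rw [degree_lt_iff_coeff_zero] at h1 ⊢
      intro i hi
      rcases Nat.eq_or_lt_of_le hi with h | h
      · rw [← h]; exact h2
      · exact h1 i (by omega)
    obtain ⟨U, R, h1, h2, h3, h4⟩ := ih _ hfd
    have hED : E.degree < (m + 1 : ℕ) := by
      rw [degree_eq_natDegree hE.ne_zero, hEd]
      exact_mod_cast Nat.lt_succ_self m
    have hm : ((m : ℕ) : WithBot ℕ) < ((m + 1 : ℕ) : WithBot ℕ) := by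
      exact_mod_cast Nat.lt_succ_self m
    refine ⟨U + C (a % 3 ^ K) * E, R + C (a / 3 ^ K) * E, ?_, ?_, ?_, ?_⟩
    · have h5 : f = U + C ((3 : ℤ) ^ K) * R + C a * E := by rw [← h1]; ring
      have h6 : C a = C (a % 3 ^ K) + C ((3 : ℤ) ^ K) * C (a / 3 ^ K) := by
        rw [← C_mul, ← C_add, Int.emod_add_mul_ediv]
      rw [h6] at h5
      rw [h5]
      ring
    · exact (degree_add_le _ _).trans_lt (max_lt (h2.trans hm) (degree_C_mul_le' _ _ _ hED))
    · exact (degree_add_le _ _).trans_lt (max_lt (h3.trans hm) (degree_C_mul_le' _ _ _ hED))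
    · intro s hs
      rw [map_add, map_mul, aeval_C]
      have h5 := h4 s hs
      have h6 := hEb s hs
      have h7 : |(algebraMap ℤ ℝ) (a % 3 ^ K)| ≤ 3 ^ K := by
        have h8 : 0 ≤ a % 3 ^ K := Int.emod_nonneg _ (by positivity)
        have h9 : a % 3 ^ K < 3 ^ K := Int.emod_lt_of_pos _ (by positivity)
        have e : (algebraMap ℤ ℝ) (a % 3 ^ K) = ((a % 3 ^ K : ℤ) : ℝ) := rfl
        rw [e, abs_of_nonneg (by exact_mod_cast h8)]
        exact_mod_cast h9.le
      calc |aeval s U + (algebraMap ℤ ℝ) (a % 3 ^ K) * aeval s E|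
          ≤ |aeval s U| + |(algebraMap ℤ ℝ) (a % 3 ^ K) * aeval s E| := abs_add_le _ _
        _ = |aeval s U| + |(algebraMap ℤ ℝ) (a % 3 ^ K)| * |aeval s E| := by rw [abs_mul]
        _ ≤ 2 * m * 3 ^ K + 3 ^ K * 2 := by
            apply add_le_add h5
            exact mul_le_mul h7 h6 (abs_nonneg _) (by positivity)
        _ = _ := by push_cast; ring

lemma neg_one_pow_cos (j : ℕ) : Real.cos (j * Real.pi) = (-1) ^ j := by
  exact Real.cos_nat_mul_pi j

/-- `n` interlaced real roots. -/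
lemma interlace (n : ℕ) (hn : 1 ≤ n) (P : ℤ[X]) (hd : P.natDegree = n)
    (hsign : ∀ j : ℕ, j ≤ n → 0 < (-1 : ℝ) ^ j * aeval (2 * Real.cos (j * (Real.pi / n))) P)
    (z : ℂ) (hz : aeval z P = 0) : ∃ t : ℝ, z = t ∧ |t| < 2 := by
  classical
  have hn0 : (0 : ℝ) < n := by exact_mod_cast hn
  set s : ℕ → ℝ := fun j => 2 * Real.cos (j * (Real.pi / n)) with hs
  have hangle : ∀ j : ℕ, j ≤ n → (j : ℝ) * (Real.pi / n) ≤ Real.pi := by
    intro j hj
    have hj' : (j : ℝ) ≤ n := by exact_mod_cast hj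
    calc (j : ℝ) * (Real.pi / n) ≤ n * (Real.pi / n) :=
          mul_le_mul_of_nonneg_right hj' (by positivity)
      _ = Real.pi := by field_simp
  have hanti : ∀ i j : ℕ, i < j → j ≤ n → s j < s i := by
    intro i j hij hjn
    have h1 : (i : ℝ) * (Real.pi / n) < (j : ℝ) * (Real.pi / n) := by
      apply mul_lt_mul_of_pos_right _ (by positivity)
      exact_mod_cast hij
    have := Real.cos_lt_cos_of_nonneg_of_le_pi (by positivity) (hangle j hjn) h1
    simp only [hs]
    linarith
  have hcont : Continuous (fun x : ℝ => aeval x P) := P.continuous_aeval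
  have hroot : ∀ j : ℕ, ∃ t : ℝ, j < n → (s (j + 1) < t ∧ t < s j ∧ aeval t P = 0) := by
    intro j
    by_cases hj : j < n
    · have h1 := hsign j hj.le
      have h2 := hsign (j + 1) hj
      have hlt := hanti j (j + 1) (Nat.lt_succ_self j) hj
      have h3 : (0 : ℝ) ∈ (fun x : ℝ => (-1 : ℝ) ^ j * aeval x P) '' Set.Ioo (s (j + 1)) (s j) := by
        apply intermediate_value_Ioo hlt.le (by fun_prop)
        constructor
        · have h4 : 0 < (-1 : ℝ) ^ (j + 1) * aeval (s (j + 1)) P := h2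
          rw [pow_succ] at h4
          show (-1 : ℝ) ^ j * aeval (s (j + 1)) P < 0
          linarith
        · exact h1
      obtain ⟨t, ht, ht0⟩ := h3
      refine ⟨t, fun _ => ⟨ht.1, ht.2, ?_⟩⟩
      have h5 : ((-1 : ℝ) ^ j) ≠ 0 := pow_ne_zero _ (by norm_num)
      exact (mul_eq_zero.1 ht0).resolve_left h5
    · exact ⟨0, fun h => absurd h hj⟩
  choose t ht using hroot
  have htanti : ∀ i j : ℕ, i < j → j < n → t j < t i := by
    intro i j hij hjn
    have h1 := (ht j hjn).2.1
    have h2 := (ht i (hij.trans hjn)).1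
    have h3 : s j ≤ s (i + 1) := by
      rcases Nat.eq_or_lt_of_le (Nat.succ_le_of_lt hij) with h | h
      · rw [← h]
      · exact (hanti (i + 1) j h hjn.le).le
    linarith
  set T : Finset ℂ := (Finset.range n).image (fun j => ((t j : ℝ) : ℂ)) with hT
  have hTcard : T.card = n := by
    rw [hT, Finset.card_image_of_injOn, Finset.card_range]
    intro i hi j hj hij
    rw [Finset.coe_range, Set.mem_Iio] at hi hj
    simp only [Complex.ofReal_inj] at hij
    by_contra hne
    rcases Nat.lt_or_gt_of_ne hne with h | h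
    · have := htanti i j h hj
      linarith
    · have := htanti j i h hi
      linarith
  have hP0 : P ≠ 0 := by
    rintro rfl
    rw [natDegree_zero] at hd
    omega
  have hmap : P.map (algebraMap ℤ ℂ) ≠ 0 :=
    (Polynomial.map_ne_zero_iff (by exact Int.cast_injective)).2 hP0
  have hTsub : T ⊆ (P.map (algebraMap ℤ ℂ)).roots.toFinset := by
    intro x hx
    rw [hT, Finset.mem_image] at hx
    obtain ⟨j, hj, rfl⟩ := hx
    rw [Finset.mem_range] at hj
    rw [Multiset.mem_toFinset, mem_roots hmap, IsRoot.def, eval_map_algebraMap]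
    have h1 := (ht j hj).2.2
    have h2 : aeval ((t j : ℝ) : ℂ) P = ((aeval (t j) P : ℝ) : ℂ) := by
      rw [aeval_eq_sum_range, aeval_eq_sum_range]
      push_cast
      apply Finset.sum_congr rfl
      intro i _
      rw [zsmul_eq_mul]
    rw [h2, h1, Complex.ofReal_zero]
  have hcard : (P.map (algebraMap ℤ ℂ)).roots.toFinset.card ≤ T.card := by
    rw [hTcard]
    calc _ ≤ Multiset.card (P.map (algebraMap ℤ ℂ)).roots := Multiset.toFinset_card_le _
      _ ≤ (P.map (algebraMap ℤ ℂ)).natDegree := card_roots' _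
      _ ≤ P.natDegree := natDegree_map_le
      _ = n := hd
  have hTeq := Finset.eq_of_subset_of_card_le hTsub hcard
  have hzT : z ∈ T := by
    rw [hTeq, Multiset.mem_toFinset, mem_roots hmap, IsRoot.def, eval_map_algebraMap]
    exact hz
  rw [hT, Finset.mem_image] at hzT
  obtain ⟨j, hj, hjz⟩ := hzT
  rw [Finset.mem_range] at hj
  refine ⟨t j, hjz.symm, ?_⟩
  obtain ⟨h1, h2, _⟩ := ht j hj
  rw [abs_lt]
  constructor
  · have h3 : -2 ≤ s (j + 1) := by
      simp only [hs]
      have := Real.neg_one_le_cos (((j + 1 : ℕ) : ℝ) * (Real.pi / n))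
      linarith
    linarith
  · have h3 : s j ≤ 2 := by
      simp only [hs]
      have := Real.cos_le_one ((j : ℝ) * (Real.pi / n))
      linarith
    linarith

theorem exists_poly (k K : ℕ) : ∃ P R : ℤ[X], P = Psi k + C ((3 : ℤ) ^ K) * R ∧
    P.leadingCoeff = 1 + 3 ^ k * 3 ^ K ∧ P.natDegree = 3 ^ k ∧
    ∀ z : ℂ, aeval z P = 0 → ∃ t : ℝ, z = t ∧ |t| < 2 := by
  have hn : 1 ≤ 3 ^ k := Nat.one_le_pow _ _ (by norm_num)
  have hPm := (Psi_monic k).1
  have hPd := (Psi_monic k).2
  have hDm := DD_monic (3 ^ k) hn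
  have hDd := DD_natDegree (3 ^ k) hn
  have hdeg : (Psi k - DD (3 ^ k)).degree < (3 ^ k : ℕ) := by
    have h1 : (Psi k).degree = (DD (3 ^ k)).degree := by
      rw [degree_eq_natDegree hPm.ne_zero, degree_eq_natDegree hDm.ne_zero, hPd, hDd]
    have h2 := degree_sub_lt_left h1 hPm.ne_zero (by rw [hPm.leadingCoeff, hDm.leadingCoeff])
    rwa [degree_eq_natDegree hPm.ne_zero, hPd] at h2
  obtain ⟨U, R, h1, h2, h3, h4⟩ := reduction K (3 ^ k) _ hdeg
  set b : ℤ := 1 + 3 ^ k * 3 ^ K with hb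
  have hb0 : 0 < b := by positivity
  have hCD : (C b * DD (3 ^ k)).natDegree = 3 ^ k := by
    rw [natDegree_C_mul hb0.ne', hDd]
  have hCDdeg : (C b * DD (3 ^ k)).degree = (3 ^ k : ℕ) := by
    rw [degree_eq_natDegree, hCD]
    exact mul_ne_zero (C_ne_zero.2 hb0.ne') hDm.ne_zero
  have hUlt : U.degree < (C b * DD (3 ^ k)).degree := by rw [hCDdeg]; exact h2
  refine ⟨C b * DD (3 ^ k) + U, C (3 ^ k) * DD (3 ^ k) - R, ?_, ?_, ?_, ?_⟩
  · have h5 : Psi k = DD (3 ^ k) + U + C ((3 : ℤ) ^ K) * R := by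
      linear_combination h1
    rw [h5, hb]
    simp only [C_add, C_mul, C_1]
    ring
  · rw [leadingCoeff_add_of_degree_lt' hUlt, leadingCoeff_mul, leadingCoeff_C, hDm.leadingCoeff,
      mul_one]
  · rw [natDegree_add_eq_left_of_degree_lt hUlt, hCD]
  · intro z hz
    apply interlace (3 ^ k) hn _ _ _ z hz
    · rw [natDegree_add_eq_left_of_degree_lt hUlt, hCD]
    · intro j hj
      have hcos : aeval (2 * Real.cos (j * (Real.pi / ((3 ^ k : ℕ) : ℝ)))) (DD (3 ^ k)) =
          2 * (-1) ^ j := by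
        rw [DD_cos, ← neg_one_pow_cos]
        congr 2
        have : ((3 ^ k : ℕ) : ℝ) ≠ 0 := by positivity
        field_simp
      rw [map_add, map_mul, aeval_C, hcos]
      set x := 2 * Real.cos (j * (Real.pi / ((3 ^ k : ℕ) : ℝ))) with hx
      have hxb : |x| ≤ 2 := by
        rw [hx, abs_mul, abs_two]
        have := Real.abs_cos_le_one (j * (Real.pi / ((3 ^ k : ℕ) : ℝ)))
        linarith
      have h5 := h4 x hxb
      have h6 : |(-1 : ℝ) ^ j * aeval x U| ≤ 2 * ((3 ^ k : ℕ) : ℝ) * 3 ^ K := by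
        rw [abs_mul, abs_pow, abs_neg, abs_one, one_pow, one_mul]
        exact h5
      have h7 := (abs_le.1 h6).1
      have h8 : (-1 : ℝ) ^ j * ((algebraMap ℤ ℝ) b * (2 * (-1) ^ j) + aeval x U) =
          2 * (algebraMap ℤ ℝ) b + (-1 : ℝ) ^ j * aeval x U := by
        have : (-1 : ℝ) ^ j * (-1) ^ j = 1 := by rw [← mul_pow]; norm_num
        linear_combination (2 * (algebraMap ℤ ℝ) b) * this
      rw [h8]
      have h9 : (algebraMap ℤ ℝ) b = 1 + 3 ^ k * 3 ^ K := by
        rw [hb]
        simp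
      rw [h9]
      push_cast at h7
      linarith

end

end Pool.Agent.H291R3
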