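import Pool.Agent.H291R3.Bog6

set_option autoImplicit false

/-! Heights. -/

namespace Pool.Agent.H291R3

open Polynomial

noncomputable section

abbrev QQ := AlgebraicClosure ℚ

instance instAlgQQ : Algebra.IsAlgebraic ℚ (AlgebraicClosure ℚ) := by
  have h := AlgebraicClosure.isAlgebraic ℚ
  have e : (DivisionRing.toRatAlgebra : Algebra ℚ (AlgebraicClosure ℚ)) =
      AlgebraicClosure.instAlgebra ℚ := Subsingleton.elim _ _
  rw [e]
  exact h

lemma map_aeval_int {A B : Type*} [CommRing A] [CommRing B] [Algebra ℤ A] [Algebra ℤ B]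
    (σ : A →+* B) (x : A) (f : ℤ[X]) : σ (aeval x f) = aeval (σ x) f := by
  rw [aeval_eq_sum_range, aeval_eq_sum_range, map_sum]
  apply Finset.sum_congr rfl
  intro i _
  rw [Algebra.smul_def, Algebra.smul_def, map_mul, map_pow, eq_intCast (algebraMap ℤ A),
    eq_intCast (algebraMap ℤ B), map_intCast]

lemma natDegree_ne_zero_of_root {f : ℤ[X]} (hf : f ≠ 0) {x : QQ} (h0 : aeval x f = 0) :
    f.natDegree ≠ 0 := by
  intro h
  rw [eq_C_of_natDegree_eq_zero h, aeval_C] at h0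
  have h1 : f.coeff 0 = 0 := by
    have h2 : ((f.coeff 0 : ℤ) : QQ) = 0 := by simpa using h0
    exact_mod_cast h2
  apply hf
  rw [eq_C_of_natDegree_eq_zero h, h1, C_0]

lemma aeval_map_int_rat (f : ℤ[X]) (x : QQ) :
    aeval x (f.map (Int.castRingHom ℚ)) = aeval x f := by
  rw [aeval_def, aeval_def, eval₂_map]
  congr 1

lemma map_dvd_minpoly {f : ℤ[X]} (hf : Irreducible f) {x : QQ} (h0 : aeval x f = 0) :
    f.map (Int.castRingHom ℚ) ∣ minpoly ℚ x ∧ f.IsPrimitive := by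
  have hprim : f.IsPrimitive := hf.isPrimitive (natDegree_ne_zero_of_root hf.ne_zero h0)
  have hirr : Irreducible (f.map (Int.castRingHom ℚ)) :=
    (IsPrimitive.Int.irreducible_iff_irreducible_map_cast hprim).1 hf
  have h1 : minpoly ℚ x ∣ f.map (Int.castRingHom ℚ) := by
    apply minpoly.dvd
    rw [aeval_map_int_rat]
    exact h0
  refine ⟨?_, hprim⟩
  obtain ⟨g, hg⟩ := h1
  rcases hirr.isUnit_or_isUnit hg with h | h
  · exact absurd h (minpoly.not_isUnit ℚ x)
  · rw [hg]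
    obtain ⟨u, rfl⟩ := h
    exact ⟨((u⁻¹ : (ℚ[X])ˣ) : ℚ[X]), by rw [mul_assoc, Units.mul_inv, mul_one]⟩

lemma dvd_of_root {f R : ℤ[X]} (hf : Irreducible f) {x : QQ} (h0 : aeval x f = 0)
    (hR : aeval x R = 0) : f ∣ R := by
  obtain ⟨h1, h2⟩ := map_dvd_minpoly hf h0
  rw [IsPrimitive.Int.dvd_iff_map_cast_dvd_map_cast _ _ h2]
  apply h1.trans
  apply minpoly.dvd
  rw [aeval_map_int_rat]
  exact hR

/-- every complex root is the image under an embedding -/
lemma exists_embedding {f : ℤ[X]} (hf : Irreducible f) {x : QQ} (h0 : aeval x f = 0) {z : ℂ}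
    (hz : aeval z f = 0) : ∃ σ : QQ →+* ℂ, σ x = z := by
  obtain ⟨h1, _⟩ := map_dvd_minpoly hf h0
  obtain ⟨g, hg⟩ := h1
  have hr0 : aeval z (minpoly ℚ x) = 0 := by
    rw [hg, map_mul]
    have : aeval z (f.map (Int.castRingHom ℚ)) = aeval z f := by
      rw [aeval_def, aeval_def, eval₂_map]
      congr 1
    rw [this, hz, zero_mul]
  obtain ⟨φ, hφ⟩ := IntermediateField.exists_algHom_of_splits_of_aeval
    (F := ℚ) (E := AlgebraicClosure ℚ) (K := ℂ)
    (fun s => ⟨Algebra.IsIntegral.isIntegral s, IsAlgClosed.splits _⟩) hr0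
  exact ⟨(φ : AlgebraicClosure ℚ →+* ℂ), hφ⟩

lemma eval_ne_zero {f : ℤ[X]} (hf : Irreducible f) {x : QQ} (h0 : aeval x f = 0) (a : ℤ)
    (hx : x ≠ (a : QQ)) : f.eval a ≠ 0 := by
  intro h
  obtain ⟨g, hg⟩ := (dvd_iff_isRoot.2 h : X - C a ∣ f)
  rcases hf.isUnit_or_isUnit hg with h1 | h1
  · have := natDegree_eq_zero_of_isUnit h1
    rw [natDegree_X_sub_C] at this
    omega
  · rw [hg, map_mul, map_sub, aeval_X, aeval_C] at h0
    rcases mul_eq_zero.1 h0 with h2 | h2
    · apply hx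
      rw [sub_eq_zero.1 h2]
      simp
    · exact (h1.map (aeval x)).ne_zero h2

lemma real_ineq (t : ℝ) : 5 / 2 * (|t| * |1 - t| * |(-1) - t|) ≤ (max 1 |t|) ^ 4 := by
  have h1 : |1 - t| * |(-1) - t| = |t ^ 2 - 1| := by
    rw [← abs_mul]
    congr 1
    ring
  rw [mul_assoc, h1]
  have h2 : t ^ 2 = |t| ^ 2 := (sq_abs t).symm
  rw [h2]
  set u := |t| with hu
  have hu0 : 0 ≤ u := abs_nonneg t
  rcases le_total u 1 with h | h
  · rw [max_eq_left h, abs_of_nonpos (by nlinarith), one_pow]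
    nlinarith [sq_nonneg (u - 29 / 50), mul_nonneg hu0 (sq_nonneg (u - 29 / 50))]
  · rw [max_eq_right h, abs_of_nonneg (by nlinarith)]
    have h3 : 0 < u := by linarith
    have h4 : 0 ≤ u * (u ^ 3 - 5 / 2 * u ^ 2 + 5 / 2) := by
      apply mul_nonneg hu0
      nlinarith [sq_nonneg (u - 5 / 3), mul_nonneg hu0 (sq_nonneg (u - 5 / 3))]
    nlinarith

lemma prod_ineq (s : Multiset ℂ) (h : ∀ z ∈ s, z.im = 0) :
    (5 / 2 : ℝ) ^ (Multiset.card s) *
      (‖(s.map (0 - ·)).prod‖ * ‖(s.map (1 - ·)).prod‖ * ‖(s.map (-1 - ·)).prod‖) ≤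
      ((s.map (fun z => max 1 ‖z‖)).prod) ^ 4 := by
  induction s using Multiset.induction_on with
  | empty => simp
  | cons a s ih =>
    have ih' := ih (fun z hz => h z (Multiset.mem_cons_of_mem hz))
    have ha := h a (Multiset.mem_cons_self a s)
    obtain ⟨t, rfl⟩ : ∃ t : ℝ, a = (t : ℂ) := ⟨a.re, Complex.ext rfl (by simpa using ha)⟩
    simp only [Multiset.map_cons, Multiset.prod_cons, Multiset.card_cons, norm_mul]
    have h1 := real_ineq t
    have e0 : ‖(0 : ℂ) - (t : ℂ)‖ = |t| := by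
      rw [zero_sub, norm_neg, Complex.norm_real, Real.norm_eq_abs]
    have e1 : ‖(1 : ℂ) - (t : ℂ)‖ = |1 - t| := by
      rw [← Complex.ofReal_one, ← Complex.ofReal_sub, Complex.norm_real, Real.norm_eq_abs]
    have e2 : ‖(-1 : ℂ) - (t : ℂ)‖ = |(-1) - t| := by
      rw [← Complex.ofReal_one, ← Complex.ofReal_neg, ← Complex.ofReal_sub, Complex.norm_real,
        Real.norm_eq_abs]
    have e3 : ‖(t : ℂ)‖ = |t| := by rw [Complex.norm_real, Real.norm_eq_abs]
    rw [e0, e1, e2, e3, mul_pow, pow_succ]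
    calc _ = (5 / 2 * (|t| * |1 - t| * |(-1) - t|)) * ((5 / 2 : ℝ) ^ (Multiset.card s) *
      (‖(s.map (0 - ·)).prod‖ * ‖(s.map (1 - ·)).prod‖ * ‖(s.map (-1 - ·)).prod‖)) := by ring
      _ ≤ (max 1 |t|) ^ 4 * ((s.map (fun z => max 1 ‖z‖)).prod) ^ 4 :=
        mul_le_mul h1 ih' (by positivity) (by positivity)

/-- Lower bound for totally real numbers. -/
lemma height_lower {x : QQ} (hx : ∀ σ : QQ →+* ℂ, (σ x).im = 0) (hx0 : x ≠ 0) (hx1 : x ≠ 1)
    (hx2 : x ≠ -1) {f : ℤ[X]} (hf : Irreducible f) (h0 : aeval x f = 0) :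
    (f.natDegree : ℝ) * (1 / 4 * Real.log (5 / 2)) ≤
      Real.log (f.map (Int.castRingHom ℂ)).mahlerMeasure := by
  set F : ℂ[X] := f.map (Int.castRingHom ℂ) with hF
  have hinj : Function.Injective (Int.castRingHom ℂ) := Int.cast_injective
  have hF0 : F ≠ 0 := (Polynomial.map_ne_zero_iff hinj).2 hf.ne_zero
  have hsp : F.Splits := IsAlgClosed.splits F
  have hdeg : F.natDegree = f.natDegree := natDegree_map_eq_of_injective hinj f
  have hcard : Multiset.card F.roots = f.natDegree := by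
    rw [← hdeg, hsp.natDegree_eq_card_roots]
  have hlead : F.leadingCoeff = (f.leadingCoeff : ℂ) := leadingCoeff_map_of_injective hinj f
  have hlead1 : 1 ≤ ‖F.leadingCoeff‖ := by
    rw [hlead, Complex.norm_intCast]
    exact_mod_cast Int.one_le_abs (leadingCoeff_ne_zero.2 hf.ne_zero)
  have hreal : ∀ z ∈ F.roots, z.im = 0 := by
    intro z hz
    rw [mem_roots hF0, IsRoot.def, hF, eval_map] at hz
    have hz' : aeval z f = 0 := by
      rw [aeval_def, ← hz]
      congr 1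
    obtain ⟨σ, hσ⟩ := exists_embedding hf h0 hz'
    rw [← hσ]
    exact hx σ
  have hval : ∀ a : ℤ, x ≠ (a : QQ) → 1 ≤ ‖F.leadingCoeff‖ * ‖(F.roots.map ((a : ℂ) - ·)).prod‖ := by
    intro a ha
    rw [← norm_mul, ← hsp.eval_eq_prod_roots, hF, eval_intCast_map]
    have h1 := eval_ne_zero hf h0 a ha
    rw [eq_intCast, Complex.norm_intCast]
    exact_mod_cast Int.one_le_abs h1
  have v0 := hval 0 (by simpa using hx0)
  have v1 := hval 1 (by simpa using hx1)
  have v2 := hval (-1) (by simpa using hx2)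
  have hM : F.mahlerMeasure = ‖F.leadingCoeff‖ * (F.roots.map (fun z => max 1 ‖z‖)).prod :=
    mahlerMeasure_eq_leadingCoeff_mul_prod_roots F
  have hp := prod_ineq F.roots hreal
  rw [hcard] at hp
  push_cast at v0 v1 v2
  set L := ‖F.leadingCoeff‖ with hL
  set A := ‖(F.roots.map (0 - ·)).prod‖ with hA
  set B := ‖(F.roots.map (1 - ·)).prod‖ with hB
  set D := ‖(F.roots.map (-1 - ·)).prod‖ with hD
  set M := (F.roots.map (fun z => max 1 ‖z‖)).prod with hMdef
  have hL0 : 0 < L := by linarith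
  have key : (5 / 2 : ℝ) ^ f.natDegree ≤ (L * M) ^ 4 := by
    have k1 : 1 ≤ (L * A) * (L * B) * (L * D) := by
      have k2 : 1 ≤ (L * A) * (L * B) := one_le_mul_of_one_le_of_one_le v0 v1
      exact one_le_mul_of_one_le_of_one_le k2 v2
    calc (5 / 2 : ℝ) ^ f.natDegree ≤ (5 / 2 : ℝ) ^ f.natDegree * (L * ((L * A) * (L * B) * (L * D))) := by
          apply le_mul_of_one_le_right (by positivity)
          exact one_le_mul_of_one_le_of_one_le hlead1 k1
      _ = L ^ 4 * ((5 / 2 : ℝ) ^ f.natDegree * (A * B * D)) := by ring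
      _ ≤ L ^ 4 * M ^ 4 := mul_le_mul_of_nonneg_left hp (by positivity)
      _ = (L * M) ^ 4 := by ring
  rw [hM]
  have hlog := Real.log_le_log (by positivity) key
  rw [Real.log_pow, Real.log_pow] at hlog
  push_cast at hlog
  linarith

end

end Pool.Agent.H291R3
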