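import Pool.Agent.H291R3.Bog7

set_option autoImplicit false

/-! Upper bound for the height. -/

namespace Pool.Agent.H291R3

open Polynomial

noncomputable section

/-- `X^n P(X + 1/X)`. -/
def HH (P : ℤ[X]) : ℤ[X] :=
  ∑ i ∈ Finset.range (P.natDegree + 1), C (P.coeff i) * (X ^ 2 + 1) ^ i * X ^ (P.natDegree - i)

lemma HH_aeval {A : Type*} [Field A] [Algebra ℤ A] (P : ℤ[X]) (z : A) (hz : z ≠ 0) :
    aeval z (HH P) = z ^ P.natDegree * aeval (z + z⁻¹) P := by
  have h0 := aeval_eq_sum_range (p := P) (z + z⁻¹)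
  unfold HH
  rw [h0, map_sum, Finset.mul_sum]
  apply Finset.sum_congr rfl
  intro i hi
  rw [Finset.mem_range] at hi
  rw [map_mul, map_mul, map_pow, map_pow, map_add, map_pow, aeval_X, map_one, aeval_C,
    Algebra.smul_def]
  have h1 : z ^ P.natDegree = z ^ (P.natDegree - i) * z ^ i := by
    rw [← pow_add]; congr 1; omega
  have h2 : z ^ 2 + 1 = z * (z + z⁻¹) := by field_simp
  rw [h1, h2, mul_pow]
  ring

lemma HH_aeval_zero {A : Type*} [Field A] [Algebra ℤ A] (P : ℤ[X]) :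
    aeval (0 : A) (HH P) = algebraMap ℤ A P.leadingCoeff := by
  unfold HH
  rw [map_sum, Finset.sum_eq_single P.natDegree]
  · rw [map_mul, map_mul, map_pow, map_pow, map_add, map_pow, aeval_X, map_one, aeval_C]
    simp
  · intro i hi hne
    rw [Finset.mem_range] at hi
    rw [map_mul, map_pow, aeval_X, zero_pow (by omega), mul_zero]
  · intro h
    exact absurd (Finset.mem_range.2 (Nat.lt_succ_self _)) h

lemma X_sq_add_one_monic : (X ^ 2 + 1 : ℤ[X]).Monic := by
  have := monic_X_pow_add_C (R := ℤ) (1 : ℤ) (n := 2) (by norm_num)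
  simpa using this

lemma X_sq_add_one_natDegree : (X ^ 2 + 1 : ℤ[X]).natDegree = 2 := by
  have := natDegree_X_pow_add_C (R := ℤ) (n := 2) (r := (1 : ℤ))
  simpa using this

lemma HH_leadingCoeff (P : ℤ[X]) (hP : P ≠ 0) : (HH P).leadingCoeff = P.leadingCoeff := by
  have h0 : P.leadingCoeff ≠ 0 := leadingCoeff_ne_zero.2 hP
  unfold HH
  rw [Finset.sum_range_succ, Nat.sub_self, pow_zero, mul_one]
  have hm : ((X ^ 2 + 1 : ℤ[X]) ^ P.natDegree).Monic := X_sq_add_one_monic.pow _
  have hmd : ((X ^ 2 + 1 : ℤ[X]) ^ P.natDegree).natDegree = P.natDegree * 2 := by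
    rw [X_sq_add_one_monic.natDegree_pow, X_sq_add_one_natDegree]
  have hd : (C (P.coeff P.natDegree) * (X ^ 2 + 1 : ℤ[X]) ^ P.natDegree).degree =
      (P.natDegree * 2 : ℕ) := by
    rw [degree_C_mul (by exact h0), degree_eq_natDegree hm.ne_zero, hmd]
  have hlt : (∑ i ∈ Finset.range P.natDegree,
      C (P.coeff i) * (X ^ 2 + 1 : ℤ[X]) ^ i * X ^ (P.natDegree - i)).degree <
      (C (P.coeff P.natDegree) * (X ^ 2 + 1 : ℤ[X]) ^ P.natDegree).degree := by
    rw [hd]
    refine (degree_sum_le _ _).trans_lt ?_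
    rw [Finset.sup_lt_iff (WithBot.bot_lt_coe _)]
    intro i hi
    rw [Finset.mem_range] at hi
    rw [mul_assoc]
    apply degree_C_mul_le'
    have h1 : ((X ^ 2 + 1 : ℤ[X]) ^ i * X ^ (P.natDegree - i)).Monic :=
      (X_sq_add_one_monic.pow i).mul (monic_X_pow _)
    rw [degree_eq_natDegree h1.ne_zero, (X_sq_add_one_monic.pow i).natDegree_mul (monic_X_pow _),
      X_sq_add_one_monic.natDegree_pow, X_sq_add_one_natDegree, natDegree_X_pow]
    exact_mod_cast (by omega : i * 2 + (P.natDegree - i) < P.natDegree * 2)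
  rw [add_comm, leadingCoeff_add_of_degree_lt' hlt, leadingCoeff_mul, leadingCoeff_C,
    hm.leadingCoeff, mul_one]
  rfl

lemma norm_eq_one_of_real {z : ℂ} {t : ℝ} (ht : |t| < 2) (h : z + z⁻¹ = t) (hz : z ≠ 0) :
    ‖z‖ = 1 := by
  have h1 : z ^ 2 - t * z + 1 = 0 := by
    have : z * (z + z⁻¹) = z * t := by rw [h]
    rw [mul_add, mul_inv_cancel₀ hz] at this
    linear_combination this
  have hre := congrArg Complex.re h1
  have him := congrArg Complex.im h1
  simp only [pow_two, Complex.add_re, Complex.sub_re, Complex.mul_re, Complex.ofReal_re,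
    Complex.ofReal_im, Complex.one_re, Complex.zero_re, Complex.add_im, Complex.sub_im,
    Complex.mul_im, Complex.one_im, Complex.zero_im] at hre him
  rw [abs_lt] at ht
  have him0 : z.im ≠ 0 := by
    intro h0
    rw [h0] at hre
    nlinarith [sq_nonneg (z.re - t / 2)]
  have h2 : t = 2 * z.re := by
    have : z.im * (2 * z.re - t) = 0 := by linarith
    rcases mul_eq_zero.1 this with h3 | h3
    · exact absurd h3 him0
    · linarith
  have h3 : z.re * z.re + z.im * z.im = 1 := by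
    rw [h2] at hre
    linarith
  have h4 : ‖z‖ ^ 2 = 1 := by
    rw [Complex.sq_norm, Complex.normSq_apply]
    exact h3
  exact (pow_eq_one_iff_of_nonneg (norm_nonneg z) two_ne_zero).1 h4

/-- Upper bound for the Mahler measure. -/
lemma height_upper (P : ℤ[X]) (hP : P ≠ 0) (hroots : ∀ z : ℂ, aeval z P = 0 →
    ∃ t : ℝ, z = t ∧ |t| < 2) {x : QQ} (hx0 : x ≠ 0) (hx : aeval (x + x⁻¹) P = 0) {f : ℤ[X]}
    (hf : Irreducible f) (h0 : aeval x f = 0) :
    0 ≤ Real.log (f.map (Int.castRingHom ℂ)).mahlerMeasure ∧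
    Real.log (f.map (Int.castRingHom ℂ)).mahlerMeasure ≤ Real.log |(P.leadingCoeff : ℝ)| := by
  have hHH : aeval x (HH P) = 0 := by rw [HH_aeval P x hx0, hx, mul_zero]
  obtain ⟨g, hg⟩ := dvd_of_root hf h0 hHH
  set F : ℂ[X] := f.map (Int.castRingHom ℂ) with hF
  have hinj : Function.Injective (Int.castRingHom ℂ) := Int.cast_injective
  have hF0 : F ≠ 0 := (Polynomial.map_ne_zero_iff hinj).2 hf.ne_zero
  have hlead : F.leadingCoeff = (f.leadingCoeff : ℂ) := leadingCoeff_map_of_injective hinj f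
  have hlead1 : 1 ≤ ‖F.leadingCoeff‖ := by
    rw [hlead, Complex.norm_intCast]
    exact_mod_cast Int.one_le_abs (leadingCoeff_ne_zero.2 hf.ne_zero)
  have hcirc : ∀ z ∈ F.roots, ‖z‖ = 1 := by
    intro z hz
    rw [mem_roots hF0, IsRoot.def, hF, eval_map] at hz
    have hz' : aeval z f = 0 := by
      rw [aeval_def, ← hz]
      congr 1
    have hzH : aeval z (HH P) = 0 := by rw [hg, map_mul, hz', zero_mul]
    have hz0 : z ≠ 0 := by
      rintro rfl
      rw [HH_aeval_zero] at hzH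
      have h1 : ((P.leadingCoeff : ℤ) : ℂ) = 0 := by simpa using hzH
      exact hP (leadingCoeff_eq_zero.1 (by exact_mod_cast h1))
    rw [HH_aeval P z hz0] at hzH
    have h2 := (mul_eq_zero.1 hzH).resolve_left (pow_ne_zero _ hz0)
    obtain ⟨t, ht, ht2⟩ := hroots _ h2
    exact norm_eq_one_of_real ht2 ht hz0
  have hM : F.mahlerMeasure = ‖F.leadingCoeff‖ := by
    rw [mahlerMeasure_eq_leadingCoeff_mul_prod_roots F]
    have : F.roots.map (fun z => max 1 ‖z‖) = F.roots.map (fun _ => (1 : ℝ)) := by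
      apply Multiset.map_congr rfl
      intro z hz
      rw [hcirc z hz, max_self]
    rw [this]
    simp
  rw [hM]
  refine ⟨Real.log_nonneg hlead1, Real.log_le_log (by linarith) ?_⟩
  rw [hlead, Complex.norm_intCast]
  have h3 : P.leadingCoeff = f.leadingCoeff * g.leadingCoeff := by
    rw [← HH_leadingCoeff P hP, hg, leadingCoeff_mul]
  have h4 : g.leadingCoeff ≠ 0 := by
    intro h
    rw [h, mul_zero] at h3
    exact hP (leadingCoeff_eq_zero.1 h3)
  have h5 : (1 : ℝ) ≤ |(g.leadingCoeff : ℝ)| := by exact_mod_cast Int.one_le_abs h4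
  rw [h3]
  push_cast
  rw [abs_mul]
  exact le_mul_of_one_le_right (abs_nonneg _) h5

/-- Lower bound for the degree. -/
lemma degree_lower (n : ℕ) (hn : 0 < n) {x : QQ} (τ : QQ →+* KK)
    (hτ : ‖τ (x + x⁻¹)‖ ^ n = 1 / 3) {f : ℤ[X]} (hf : f ≠ 0) (h0 : aeval x f = 0) :
    n ≤ f.natDegree := by
  set z : KK := τ x with hz
  set ρ : KK := z + z⁻¹ with hρ
  have hτρ : τ (x + x⁻¹) = ρ := by rw [map_add, map_inv₀]
  rw [hτρ] at hτ
  have hzf : aeval z (f.map (algebraMap ℤ ℚ_[3])) = 0 := by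
    rw [aeval_map_algebraMap, hz, ← map_aeval_int τ x f, h0, map_zero]
  have hf' : f.map (algebraMap ℤ ℚ_[3]) ≠ 0 :=
    (Polynomial.map_ne_zero_iff (by exact Int.cast_injective)).2 hf
  have hzi : IsIntegral ℚ_[3] z := Algebra.IsIntegral.isIntegral z
  have hρi : IsIntegral ℚ_[3] ρ := Algebra.IsIntegral.isIntegral ρ
  have h1 : n ≤ (minpoly ℚ_[3] ρ).natDegree :=
    degree_ge ρ n hn hτ _ (minpoly.ne_zero hρi) (minpoly.aeval _ _)
  have hmem : ρ ∈ IntermediateField.adjoin ℚ_[3] {z} := by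
    have := IntermediateField.mem_adjoin_simple_self ℚ_[3] z
    exact add_mem this (inv_mem this)
  have h2 : (minpoly ℚ_[3] ρ).natDegree ≤ (minpoly ℚ_[3] z).natDegree := by
    have : FiniteDimensional ℚ_[3] (IntermediateField.adjoin ℚ_[3] {z}) :=
      IntermediateField.adjoin.finiteDimensional hzi
    have h3 := minpoly.natDegree_le (A := ℚ_[3]) (⟨ρ, hmem⟩ : IntermediateField.adjoin ℚ_[3] {z})
    rw [IntermediateField.adjoin.finrank hzi] at h3
    have h4 : minpoly ℚ_[3] (⟨ρ, hmem⟩ : IntermediateField.adjoin ℚ_[3] {z}) =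
        minpoly ℚ_[3] ρ := (IntermediateField.minpoly_eq _)
    rwa [h4] at h3
  have h5 : (minpoly ℚ_[3] z).natDegree ≤ (f.map (algebraMap ℤ ℚ_[3])).natDegree :=
    natDegree_le_of_dvd (minpoly.dvd _ _ hzf) hf'
  exact h1.trans (h2.trans (h5.trans natDegree_map_le))

end

end Pool.Agent.H291R3
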