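import Pool.Agent.H291R3.Bog8

set_option autoImplicit false

/-! The fields `F0` and `F0(i)`. -/

namespace Pool.Agent.H291R3

open Polynomial

noncomputable section

/-- totally real numbers all of whose `3`-adic conjugates lie in `Om` -/
def F0 : IntermediateField ℚ QQ where
  carrier := {α | (∀ σ : QQ →+* ℂ, (σ α).im = 0) ∧ ∀ τ : QQ →+* KK, τ α ∈ Om}
  mul_mem' := by
    intro a b ha hb
    refine ⟨fun σ => ?_, fun τ => ?_⟩
    · rw [map_mul, Complex.mul_im, ha.1 σ, hb.1 σ]; ring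
    · rw [map_mul]; exact mul_mem (ha.2 τ) (hb.2 τ)
  add_mem' := by
    intro a b ha hb
    refine ⟨fun σ => ?_, fun τ => ?_⟩
    · rw [map_add, Complex.add_im, ha.1 σ, hb.1 σ]; ring
    · rw [map_add]; exact add_mem (ha.2 τ) (hb.2 τ)
  algebraMap_mem' := by
    intro r
    refine ⟨fun σ => ?_, fun τ => ?_⟩
    · have : σ (algebraMap ℚ QQ r) = (r : ℂ) := by
        rw [eq_ratCast (algebraMap ℚ QQ), map_ratCast]
      rw [this]
      simp
    · have : τ (algebraMap ℚ QQ r) = (r : KK) := by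
        rw [eq_ratCast (algebraMap ℚ QQ), map_ratCast]
      rw [this]
      exact SubfieldClass.ratCast_mem Om r
  inv_mem' := by
    intro a ha
    refine ⟨fun σ => ?_, fun τ => ?_⟩
    · rw [map_inv₀, Complex.inv_im, ha.1 σ]; simp
    · rw [map_inv₀]; exact inv_mem (ha.2 τ)

lemma mem_F0 {α : QQ} : α ∈ F0 ↔ (∀ σ : QQ →+* ℂ, (σ α).im = 0) ∧ ∀ τ : QQ →+* KK, τ α ∈ Om :=
  Iff.rfl

lemma exists_I : ∃ j : QQ, j ^ 2 = -1 := IsAlgClosed.exists_pow_nat_eq (-1 : QQ) (by norm_num)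

/-- a square root of `-1` -/
def jj : QQ := exists_I.choose

lemma jj_sq : jj ^ 2 = -1 := exists_I.choose_spec

/-- a complex embedding -/
lemma exists_sigma : Nonempty (QQ →+* ℂ) := by
  exact ⟨((IsAlgClosed.lift : QQ →ₐ[ℚ] ℂ) : QQ →+* ℂ)⟩

lemma exists_tau : Nonempty (QQ →+* KK) := by
  exact ⟨((IsAlgClosed.lift : QQ →ₐ[ℚ] KK) : QQ →+* KK)⟩

lemma sigma_jj (σ : QQ →+* ℂ) : (starRingEnd ℂ) (σ jj) = -σ jj := by
  have h1 : (σ jj) ^ 2 = Complex.I ^ 2 := by
    rw [← map_pow, jj_sq, map_neg, map_one, Complex.I_sq]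
  rcases sq_eq_sq_iff_eq_or_eq_neg.1 h1 with h | h
  · rw [h, Complex.conj_I]
  · rw [h, map_neg, Complex.conj_I]

/-- `a^2 + b^2 ≠ 0` for `a, b ∈ F0` not both zero -/
lemma sq_add_sq_ne {a b : QQ} (ha : a ∈ F0) (hb : b ∈ F0) (h : a ^ 2 + b ^ 2 = 0) :
    a = 0 ∧ b = 0 := by
  obtain ⟨σ⟩ := exists_sigma
  have ha1 := ha.1 σ
  have hb1 := hb.1 σ
  have h1 : (σ a) ^ 2 + (σ b) ^ 2 = 0 := by rw [← map_pow, ← map_pow, ← map_add, h, map_zero]
  have h2 := congrArg Complex.re h1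
  simp only [pow_two, Complex.add_re, Complex.mul_re, ha1, hb1, Complex.zero_re] at h2
  have h3 : (σ a).re = 0 := by nlinarith [sq_nonneg (σ a).re, sq_nonneg (σ b).re]
  have h4 : (σ b).re = 0 := by nlinarith [sq_nonneg (σ a).re, sq_nonneg (σ b).re]
  constructor
  · have : σ a = 0 := Complex.ext h3 ha1
    exact (map_eq_zero σ).1 this
  · have : σ b = 0 := Complex.ext h4 hb1
    exact (map_eq_zero σ).1 this

/-- `F0(i)` as a set of `a + b i` -/
def FF : IntermediateField ℚ QQ where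
  carrier := {x | ∃ a ∈ F0, ∃ b ∈ F0, x = a + b * jj}
  mul_mem' := by
    rintro x y ⟨a, ha, b, hb, rfl⟩ ⟨c, hc, d, hd, rfl⟩
    refine ⟨a * c - b * d, sub_mem (mul_mem ha hc) (mul_mem hb hd), a * d + b * c,
      add_mem (mul_mem ha hd) (mul_mem hb hc), ?_⟩
    linear_combination (b * d) * jj_sq
  add_mem' := by
    rintro x y ⟨a, ha, b, hb, rfl⟩ ⟨c, hc, d, hd, rfl⟩
    exact ⟨a + c, add_mem ha hc, b + d, add_mem hb hd, by ring⟩
  algebraMap_mem' := by
    intro r
    exact ⟨algebraMap ℚ QQ r, F0.algebraMap_mem r, 0, zero_mem _, by ring⟩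
  inv_mem' := by
    rintro x ⟨a, ha, b, hb, rfl⟩
    by_cases h : a ^ 2 + b ^ 2 = 0
    · obtain ⟨h1, h2⟩ := sq_add_sq_ne ha hb h
      refine ⟨0, zero_mem _, 0, zero_mem _, ?_⟩
      rw [h1, h2]
      simp
    · have hs : a ^ 2 + b ^ 2 ∈ F0 := add_mem (pow_mem ha 2) (pow_mem hb 2)
      refine ⟨a / (a ^ 2 + b ^ 2), div_mem ha hs, -b / (a ^ 2 + b ^ 2), div_mem (neg_mem hb) hs, ?_⟩
      apply inv_eq_of_mul_eq_one_right
      field_simp
      linear_combination (-b ^ 2) * jj_sq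

lemma mem_FF {x : QQ} : x ∈ FF ↔ ∃ a ∈ F0, ∃ b ∈ F0, x = a + b * jj := Iff.rfl

lemma F0_le_FF : F0 ≤ FF := fun a ha => ⟨a, ha, 0, zero_mem _, by ring⟩

lemma jj_mem : jj ∈ FF := ⟨0, zero_mem _, 1, one_mem _, by ring⟩

/-- stability under automorphisms -/
lemma F0_stable (g : QQ ≃ₐ[ℚ] QQ) {a : QQ} (ha : a ∈ F0) : g a ∈ F0 :=
  ⟨fun σ => ha.1 (σ.comp (g : QQ →+* QQ)), fun τ => ha.2 (τ.comp (g : QQ →+* QQ))⟩

lemma FF_stable (g : QQ ≃ₐ[ℚ] QQ) {x : QQ} (hx : x ∈ FF) : g x ∈ FF := by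
  obtain ⟨a, ha, b, hb, rfl⟩ := hx
  have h1 : (g jj) ^ 2 = jj ^ 2 := by rw [← map_pow, jj_sq, map_neg, map_one]
  rw [map_add, map_mul]
  rcases sq_eq_sq_iff_eq_or_eq_neg.1 h1 with h | h
  · rw [h]
    exact ⟨g a, F0_stable g ha, g b, F0_stable g hb, rfl⟩
  · rw [h]
    exact ⟨g a, F0_stable g ha, -g b, neg_mem (F0_stable g hb), by ring⟩

lemma norm_two : ‖(2 : KK)‖ = 1 := by
  have h0 := norm_intCast 2
  push_cast at h0
  rw [h0]
  refine le_antisymm (by have := @Padic.norm_int_le_one 3 _ 2; push_cast at this; exact this) ?_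
  by_contra h
  push Not at h
  have h10 := (@Padic.norm_intCast_lt_one_iff 3 _ 2).1 (by push_cast; exact h)
  norm_num at h10

/-- torsion elements satisfy `x * conj x = 1` -/
lemma torsion_unit {a b : QQ} (ha : a ∈ F0) (hb : b ∈ F0) {N : ℕ} (hN : 0 < N)
    (hxN : (a + b * jj) ^ N = 1) : (a + b * jj) * (a - b * jj) = 1 := by
  obtain ⟨σ⟩ := exists_sigma
  have hnorm : ‖σ (a + b * jj)‖ = 1 := by
    have h1 : ‖σ (a + b * jj)‖ ^ N = 1 := by rw [← norm_pow, ← map_pow, hxN, map_one, norm_one]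
    exact (pow_eq_one_iff_of_nonneg (norm_nonneg _) hN.ne').1 h1
  have hca : (starRingEnd ℂ) (σ a) = σ a := Complex.conj_eq_iff_im.2 (ha.1 σ)
  have hcb : (starRingEnd ℂ) (σ b) = σ b := Complex.conj_eq_iff_im.2 (hb.1 σ)
  have hconj : (starRingEnd ℂ) (σ (a + b * jj)) = σ (a - b * jj) := by
    rw [map_add, map_add, map_mul, map_mul, hca, hcb, sigma_jj, map_sub, map_mul]
    ring
  have h2 : σ (a + b * jj) * σ (a - b * jj) = 1 := by
    rw [← hconj, Complex.mul_conj, Complex.normSq_eq_norm_sq, hnorm]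
    simp
  rw [← map_mul] at h2
  exact σ.injective (by rw [h2, map_one])

lemma torsion_near {x : QQ} (hx : x ∈ FF) {N : ℕ} (hN : 0 < N) (hxN : x ^ N = 1)
    (τ : QQ →+* KK) : ‖τ (x ^ 4) - 1‖ < 1 := by
  obtain ⟨a, ha, b, hb, rfl⟩ := hx
  have hu := torsion_unit ha hb hN hxN
  set α := τ a with hα
  set β := τ b with hβ
  set ι := τ jj with hι
  have hαm : α ∈ Om := ha.2 τ
  have hβm : β ∈ Om := hb.2 τ
  have hι2 : ι ^ 2 = -1 := by rw [hι, ← map_pow, jj_sq, map_neg, map_one]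
  have hιn : ‖ι‖ = 1 := by
    have h1 : ‖ι‖ ^ 2 = 1 := by rw [← norm_pow, hι2, norm_neg, norm_one]
    exact (pow_eq_one_iff_of_nonneg (norm_nonneg _) two_ne_zero).1 h1
  have hz : τ (a + b * jj) = α + β * ι := by rw [map_add, map_mul]
  have hz' : τ (a - b * jj) = α - β * ι := by rw [map_sub, map_mul]
  have hprod : (α + β * ι) * (α - β * ι) = 1 := by
    rw [← hz, ← hz', ← map_mul, hu, map_one]
  have hn1 : ‖α + β * ι‖ = 1 := by
    have h1 : ‖α + β * ι‖ ^ N = 1 := by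
      rw [← norm_pow, ← hz, ← map_pow, hxN, map_one, norm_one]
    exact (pow_eq_one_iff_of_nonneg (norm_nonneg _) hN.ne').1 h1
  have hn2 : ‖α - β * ι‖ = 1 := by
    have := congrArg norm hprod
    rw [norm_mul, hn1, one_mul, norm_one] at this
    exact this
  have hα1 : ‖α‖ ≤ 1 := by
    have h1 : ‖2 * α‖ ≤ 1 := by
      have e : 2 * α = (α + β * ι) + (α - β * ι) := by ring
      rw [e]
      refine (norm_add_le_max _ _).trans ?_
      rw [hn1, hn2, max_self]
    rwa [norm_mul, norm_two, one_mul] at h1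
  have hβ1 : ‖β‖ ≤ 1 := by
    have h1 : ‖2 * β * ι‖ ≤ 1 := by
      have e : 2 * β * ι = (α + β * ι) - (α - β * ι) := by ring
      rw [e]
      refine (norm_sub_le_max _ _).trans ?_
      rw [hn1, hn2, max_self]
    rwa [norm_mul, norm_mul, norm_two, one_mul, hιn, mul_one] at h1
  have hab : α ^ 2 + β ^ 2 = 1 := by
    linear_combination hprod + β ^ 2 * hι2
  have key : ∃ u : KK, u ^ 4 = 1 ∧ ‖α + β * ι - u‖ < 1 := by
    rcases Om_residue hαm hα1 with h | h | h
    · rcases Om_residue hβm hβ1 with h' | h' | h'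
      · exfalso
        have h1 : ‖α ^ 2 + β ^ 2‖ < 1 := by
          refine (norm_add_le_max _ _).trans_lt (max_lt ?_ ?_)
          · rw [norm_pow]; exact pow_lt_one₀ (norm_nonneg _) h two_ne_zero
          · rw [norm_pow]; exact pow_lt_one₀ (norm_nonneg _) h' two_ne_zero
        rw [hab, norm_one] at h1
        exact lt_irrefl _ h1
      · refine ⟨ι, by linear_combination (ι ^ 2 - 1) * hι2, ?_⟩
        have e : α + β * ι - ι = α + (β - 1) * ι := by ring
        rw [e]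
        refine (norm_add_le_max _ _).trans_lt (max_lt h ?_)
        rw [norm_mul, hιn, mul_one]
        exact h'
      · refine ⟨-ι, by linear_combination (ι ^ 2 - 1) * hι2, ?_⟩
        have e : α + β * ι - -ι = α + (β + 1) * ι := by ring
        rw [e]
        refine (norm_add_le_max _ _).trans_lt (max_lt h ?_)
        rw [norm_mul, hιn, mul_one]
        exact h'
    · have hβ2 : ‖β‖ < 1 := by
        have h1 : ‖β‖ ^ 2 < 1 := by
          have e : β ^ 2 = -((α - 1) * (α + 1)) := by linear_combination hab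
          rw [← norm_pow, e, norm_neg, norm_mul]
          have h2 : ‖α + 1‖ ≤ 1 := (norm_add_le_max _ _).trans (max_le hα1 (by simp))
          exact mul_lt_one_of_nonneg_of_lt_one_left (norm_nonneg _) h h2
        by_contra hcon
        push Not at hcon
        nlinarith
      refine ⟨1, by ring, ?_⟩
      have e : α + β * ι - 1 = (α - 1) + β * ι := by ring
      rw [e]
      refine (norm_add_le_max _ _).trans_lt (max_lt h ?_)
      rw [norm_mul, hιn, mul_one]
      exact hβ2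
    · have hβ2 : ‖β‖ < 1 := by
        have h1 : ‖β‖ ^ 2 < 1 := by
          have e : β ^ 2 = -((α + 1) * (α - 1)) := by linear_combination hab
          rw [← norm_pow, e, norm_neg, norm_mul]
          have h2 : ‖α - 1‖ ≤ 1 := (norm_sub_le_max _ _).trans (max_le hα1 (by simp))
          exact mul_lt_one_of_nonneg_of_lt_one_left (norm_nonneg _) h h2
        by_contra hcon
        push Not at hcon
        nlinarith
      refine ⟨-1, by ring, ?_⟩
      have e : α + β * ι - -1 = (α + 1) + β * ι := by ring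
      rw [e]
      refine (norm_add_le_max _ _).trans_lt (max_lt h ?_)
      rw [norm_mul, hιn, mul_one]
      exact hβ2
  obtain ⟨u, hu4, hux⟩ := key
  have hu1 : ‖u‖ ≤ 1 := by
    have h1 : ‖u‖ ^ 4 = 1 := by rw [← norm_pow, hu4, norm_one]
    exact ((pow_eq_one_iff_of_nonneg (norm_nonneg _) (by norm_num)).1 h1).le
  have h2 := lipschitz (X ^ 4) u (α + β * ι) hu1 hn1.le
  rw [map_pow, map_pow, aeval_X, aeval_X, hu4] at h2
  rw [map_pow, hz]
  exact h2.trans_lt hux

/-- Torsion in `FF`. -/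
lemma torsion_FF {x : QQ} (hx : x ∈ FF) {N : ℕ} (hN : 0 < N) (hxN : x ^ N = 1) : x ^ 4 = 1 := by
  obtain ⟨τ⟩ := exists_tau
  have hnear := torsion_near hx hN hxN τ
  set w := x ^ 4 with hw
  have hwF : w ∈ FF := pow_mem hx 4
  have hwN : w ^ N = 1 := by rw [hw, ← pow_mul, mul_comm, pow_mul, hxN, one_pow]
  have hn : ‖τ w‖ ≤ 1 := by
    have h1 : ‖τ w‖ ^ N = 1 := by rw [← norm_pow, ← map_pow, hwN, map_one, norm_one]
    exact ((pow_eq_one_iff_of_nonneg (norm_nonneg _) hN.ne').1 h1).le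
  by_contra hne
  have hprim := IsPrimitiveRoot.orderOf w
  have hopos : 0 < orderOf w := orderOf_pos_iff.2 (isOfFinOrder_iff_pow_eq_one.2 ⟨N, hN, hwN⟩)
  have hone : orderOf w ≠ 1 := by
    intro h
    exact hne (orderOf_eq_one_iff.1 h)
  obtain ⟨q, hq, hqd⟩ := Nat.exists_prime_and_dvd hone
  obtain ⟨m, hm⟩ := hqd
  have hv : IsPrimitiveRoot (w ^ m) q := hprim.pow hopos (by rw [hm, mul_comm])
  set v := w ^ m with hvdef
  have hvF : v ∈ FF := pow_mem hwF m
  have hvnear : ‖τ v - 1‖ < 1 := by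
    have h2 := lipschitz (X ^ m) 1 (τ w) (by simp) hn
    rw [aeval_X_pow, aeval_X_pow, one_pow] at h2
    rw [hvdef, map_pow]
    exact h2.trans_lt hnear
  have hvn : ‖τ v‖ ≤ 1 := by
    rw [hvdef, map_pow, norm_pow]
    exact pow_le_one₀ (norm_nonneg _) hn
  have hgeom := hv.geom_sum_eq_zero hq.one_lt
  have hq3 : q = 3 := by
    have h1 : aeval (τ v) (∑ i ∈ Finset.range q, X ^ i : ℤ[X]) = 0 := by
      rw [map_sum]
      simp only [map_pow, aeval_X]
      simp only [← map_pow, ← map_sum]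
      rw [hgeom, map_zero]
    have h2 : aeval (1 : KK) (∑ i ∈ Finset.range q, X ^ i : ℤ[X]) = (q : KK) := by
      rw [map_sum]
      simp
    have h3 := lipschitz (∑ i ∈ Finset.range q, X ^ i : ℤ[X]) 1 (τ v) (by simp) hvn
    rw [h1, h2, zero_sub, norm_neg] at h3
    have h4 : ‖((q : ℤ) : KK)‖ < 1 := by
      rw [Int.cast_natCast]
      exact h3.trans_lt hvnear
    rw [norm_intCast, Padic.norm_intCast_lt_one_iff] at h4
    have h5 : 3 ∣ q := by exact_mod_cast h4
    exact ((Nat.prime_dvd_prime_iff_eq (by norm_num) hq).1 h5).symm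
  rw [hq3] at hgeom hv
  obtain ⟨a, ha, b, hb, hab⟩ := hvF
  have hv3 : v ^ 3 = 1 := hv.pow_eq_one
  have hu := torsion_unit ha hb (N := 3) (by norm_num) (by rw [← hab]; exact hv3)
  rw [← hab] at hu
  have hsum : 1 + v + v ^ 2 = 0 := by
    rw [Finset.sum_range_succ, Finset.sum_range_succ, Finset.sum_range_one] at hgeom
    simpa using hgeom
  have hv0 : v ≠ 0 := by
    intro h
    rw [h] at hv3
    norm_num at hv3
  have hinv : a - b * jj = v ^ 2 := by
    apply mul_left_cancel₀ hv0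
    rw [hu, ← hv3]
    ring
  have h2b : 4 * b ^ 2 = 3 := by
    have h1 : 2 * (b * jj) = v - v ^ 2 := by
      rw [← hinv]
      linear_combination -hab
    have h2 : (2 * (b * jj)) ^ 2 = -3 := by
      rw [h1]
      linear_combination (v ^ 2 - 3 * v + 3) * hsum
    linear_combination -h2 + 4 * b ^ 2 * jj_sq
  have hτb : ‖τ b‖ ^ 2 = 1 / 3 := by
    have h1 : (4 : KK) * (τ b) ^ 2 = 3 := by
      have := congrArg τ h2b
      rw [map_mul, map_pow, map_ofNat, map_ofNat] at this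
      exact this
    have h2 := congrArg norm h1
    have h4 : ‖(4 : KK)‖ = 1 := by
      have : (4 : KK) = 2 * 2 := by norm_num
      rw [this, norm_mul, norm_two, one_mul]
    rw [norm_mul, h4, one_mul, norm_pow, norm_three] at h2
    exact h2
  exact Om_value (hb.2 τ) hτb

end

end Pool.Agent.H291R3
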