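import Mathlib

set_option autoImplicit false

/-! Values of the sums `∑ j^k / 2^j`. -/

namespace Pool.Agent.H291R3

noncomputable section

/-- `∑_j j^k / 2^j`, the sum starting at `j = 0`. -/
def T (k : ℕ) : ℝ := ∑' j : ℕ, (j : ℝ) ^ k * (1 / 2 : ℝ) ^ j

lemma T_summable (k : ℕ) : Summable (fun j : ℕ => (j : ℝ) ^ k * (1 / 2 : ℝ) ^ j) :=
  summable_pow_mul_geometric_of_norm_lt_one k (by norm_num)

lemma T_hasSum (k : ℕ) : HasSum (fun j : ℕ => (j : ℝ) ^ k * (1 / 2 : ℝ) ^ j) (T k) :=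
  (T_summable k).hasSum

lemma T_zero : T 0 = 2 := by
  unfold T
  simp only [pow_zero, one_mul]
  rw [tsum_geometric_of_lt_one (by norm_num) (by norm_num)]
  norm_num

lemma T_rec (k : ℕ) (hk : 1 ≤ k) :
    T k = ∑ i ∈ Finset.range k, ((k.choose i : ℕ) : ℝ) * T i := by
  have h1 : T k = (1 / 2 : ℝ) * ∑ i ∈ Finset.range (k + 1), ((k.choose i : ℕ) : ℝ) * T i := by
    have h0 : T k = ((0 : ℕ) : ℝ) ^ k * (1 / 2 : ℝ) ^ 0 +
        ∑' j : ℕ, (((j + 1 : ℕ) : ℝ) ^ k * (1 / 2 : ℝ) ^ (j + 1)) :=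
      (T_summable k).tsum_eq_zero_add
    have hz : ((0 : ℕ) : ℝ) ^ k * (1 / 2 : ℝ) ^ 0 = 0 := by
      rw [Nat.cast_zero, zero_pow (by omega), zero_mul]
    rw [h0, hz, zero_add]
    have h2 : ∀ j : ℕ, (((j + 1 : ℕ) : ℝ) ^ k * (1 / 2 : ℝ) ^ (j + 1)) =
        ∑ i ∈ Finset.range (k + 1),
          (1 / 2 : ℝ) * (((k.choose i : ℕ) : ℝ) * ((j : ℝ) ^ i * (1 / 2 : ℝ) ^ j)) := by
      intro j
      push_cast
      rw [add_pow, Finset.sum_mul]
      apply Finset.sum_congr rfl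
      intro i _
      rw [one_pow, pow_succ]
      ring
    simp_rw [h2]
    rw [Summable.tsum_finsetSum]
    · rw [Finset.mul_sum]
      apply Finset.sum_congr rfl
      intro i _
      rw [tsum_mul_left, tsum_mul_left]
      rfl
    · intro i _
      exact ((T_summable i).mul_left _).mul_left _
  rw [Finset.sum_range_succ, Nat.choose_self, Nat.cast_one, one_mul] at h1
  linarith

lemma T_1 : T 1 = 2 := by
  rw [T_rec 1 (by norm_num)]
  norm_num [Finset.sum_range_succ, Nat.choose, T_zero]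
lemma T_2 : T 2 = 6 := by
  rw [T_rec 2 (by norm_num)]
  norm_num [Finset.sum_range_succ, Nat.choose, T_zero, T_1]
lemma T_3 : T 3 = 26 := by
  rw [T_rec 3 (by norm_num)]
  norm_num [Finset.sum_range_succ, Nat.choose, T_zero, T_1, T_2]
lemma T_4 : T 4 = 150 := by
  rw [T_rec 4 (by norm_num)]
  norm_num [Finset.sum_range_succ, Nat.choose, T_zero, T_1, T_2, T_3]
lemma T_5 : T 5 = 1082 := by
  rw [T_rec 5 (by norm_num)]
  norm_num [Finset.sum_range_succ, Nat.choose, T_zero, T_1, T_2, T_3, T_4]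
lemma T_6 : T 6 = 9366 := by
  rw [T_rec 6 (by norm_num)]
  norm_num [Finset.sum_range_succ, Nat.choose, T_zero, T_1, T_2, T_3, T_4, T_5]
lemma T_7 : T 7 = 94586 := by
  rw [T_rec 7 (by norm_num)]
  norm_num [Finset.sum_range_succ, Nat.choose, T_zero, T_1, T_2, T_3, T_4, T_5, T_6]
lemma T_8 : T 8 = 1091670 := by
  rw [T_rec 8 (by norm_num)]
  norm_num [Finset.sum_range_succ, Nat.choose, T_zero, T_1, T_2, T_3, T_4, T_5, T_6, T_7]
lemma T_9 : T 9 = 14174522 := by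
  rw [T_rec 9 (by norm_num)]
  norm_num [Finset.sum_range_succ, Nat.choose, T_zero, T_1, T_2, T_3, T_4, T_5, T_6, T_7, T_8]
lemma T_10 : T 10 = 204495126 := by
  rw [T_rec 10 (by norm_num)]
  norm_num [Finset.sum_range_succ, Nat.choose, T_zero, T_1, T_2, T_3, T_4, T_5, T_6, T_7, T_8, T_9]
lemma T_11 : T 11 = 3245265146 := by
  rw [T_rec 11 (by norm_num)]
  norm_num [Finset.sum_range_succ, Nat.choose, T_zero, T_1, T_2, T_3, T_4, T_5, T_6, T_7, T_8, T_9,
    T_10]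
lemma T_12 : T 12 = 56183135190 := by
  rw [T_rec 12 (by norm_num)]
  norm_num [Finset.sum_range_succ, Nat.choose, T_zero, T_1, T_2, T_3, T_4, T_5, T_6, T_7, T_8, T_9,
    T_10, T_11]
lemma T_13 : T 13 = 1053716696762 := by
  rw [T_rec 13 (by norm_num)]
  norm_num [Finset.sum_range_succ, Nat.choose, T_zero, T_1, T_2, T_3, T_4, T_5, T_6, T_7, T_8, T_9,
    T_10, T_11, T_12]
lemma T_14 : T 14 = 21282685940886 := by
  rw [T_rec 14 (by norm_num)]
  norm_num [Finset.sum_range_succ, Nat.choose, T_zero, T_1, T_2, T_3, T_4, T_5, T_6, T_7, T_8, T_9,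
    T_10, T_11, T_12, T_13]
lemma T_15 : T 15 = 460566381955706 := by
  rw [T_rec 15 (by norm_num)]
  norm_num [Finset.sum_range_succ, Nat.choose, T_zero, T_1, T_2, T_3, T_4, T_5, T_6, T_7, T_8, T_9,
    T_10, T_11, T_12, T_13, T_14]

end

end Pool.Agent.H291R3
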