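import Pool.Agent.H291R3.Erdos1

set_option autoImplicit false
set_option maxRecDepth 4000

/-! The lower-bound series and its sum. -/

namespace Pool.Agent.H291R3

noncomputable section

/-- cubic Taylor polynomial of `exp (-x)` -/
def cub (x : ℝ) : ℝ := 1 - x + x ^ 2 / 2 - x ^ 3 / 6

/-- value of the series -/
def Vsum (e1 e2 e3 e4 e5 : ℝ) : ℝ :=
      (((1)) * 2 +
      ((-1) * e1) * 2 +
      ((-1) * e2 + (1/2) * e1 * e1) * 6 +
      ((-1) * e3 + (1) * e1 * e2 + (-1/6) * e1 * e1 * e1) * 26 +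
      ((-1) * e4 + (1) * e1 * e3 + (1/2) * e2 * e2 + (-1/2) * e1 * e1 * e2) * 150 +
      ((-1) * e5 + (1) * e1 * e4 + (1) * e2 * e3 + (-1/2) * e1 * e1 * e3
         + (-1/2) * e1 * e2 * e2) * 1082 +
      ((1) * e1 * e5 + (1) * e2 * e4 + (1/2) * e3 * e3 + (-1/2) * e1 * e1 * e4
         + (-1) * e1 * e2 * e3 + (-1/6) * e2 * e2 * e2) * 9366 +
      ((1) * e2 * e5 + (1) * e3 * e4 + (-1/2) * e1 * e1 * e5 + (-1) * e1 * e2 * e4
         + (-1/2) * e1 * e3 * e3 + (-1/2) * e2 * e2 * e3) * 94586 +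
      ((1) * e3 * e5 + (1/2) * e4 * e4 + (-1) * e1 * e2 * e5 + (-1) * e1 * e3 * e4
         + (-1/2) * e2 * e2 * e4 + (-1/2) * e2 * e3 * e3) * 1091670 +
      ((1) * e4 * e5 + (-1) * e1 * e3 * e5 + (-1/2) * e1 * e4 * e4 + (-1/2) * e2 * e2 * e5
         + (-1) * e2 * e3 * e4 + (-1/6) * e3 * e3 * e3) * 14174522 +
      ((1/2) * e5 * e5 + (-1) * e1 * e4 * e5 + (-1) * e2 * e3 * e5 + (-1/2) * e2 * e4 * e4
         + (-1/2) * e3 * e3 * e4) * 204495126 +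
      ((-1/2) * e1 * e5 * e5 + (-1) * e2 * e4 * e5 + (-1/2) * e3 * e3 * e5
         + (-1/2) * e3 * e4 * e4) * 3245265146 +
      ((-1/2) * e2 * e5 * e5 + (-1) * e3 * e4 * e5 + (-1/6) * e4 * e4 * e4) * 56183135190 +
      ((-1/2) * e3 * e5 * e5 + (-1/2) * e4 * e4 * e5) * 1053716696762 +
      ((-1/2) * e4 * e5 * e5) * 21282685940886 +
      ((-1/6) * e5 * e5 * e5) * 460566381955706)

lemma hasSum_cub (e1 e2 e3 e4 e5 : ℝ) :
    HasSum (fun j : ℕ => cub (e1 * j + e2 * (j : ℝ) ^ 2 + e3 * (j : ℝ) ^ 3 + e4 * (j : ℝ) ^ 4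
      + e5 * (j : ℝ) ^ 5) * (1 / 2 : ℝ) ^ j) (Vsum e1 e2 e3 e4 e5) := by
  unfold Vsum
  have h0 := (T_hasSum 0).mul_left ((1))
  rw [T_zero] at h0
  have h1 := (T_hasSum 1).mul_left ((-1) * e1)
  rw [T_1] at h1
  have h2 := (T_hasSum 2).mul_left ((-1) * e2 + (1/2) * e1 * e1)
  rw [T_2] at h2
  have h3 := (T_hasSum 3).mul_left ((-1) * e3 + (1) * e1 * e2 + (-1/6) * e1 * e1 * e1)
  rw [T_3] at h3
  have h4 := (T_hasSum 4).mul_left ((-1) * e4 + (1) * e1 * e3 + (1/2) * e2 * e2 + (-1/2) * e1 * e1 * e2)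
  rw [T_4] at h4
  have h5 := (T_hasSum 5).mul_left ((-1) * e5 + (1) * e1 * e4 + (1) * e2 * e3 + (-1/2) * e1 * e1 * e3
       + (-1/2) * e1 * e2 * e2)
  rw [T_5] at h5
  have h6 := (T_hasSum 6).mul_left ((1) * e1 * e5 + (1) * e2 * e4 + (1/2) * e3 * e3 + (-1/2) * e1 * e1 * e4
       + (-1) * e1 * e2 * e3 + (-1/6) * e2 * e2 * e2)
  rw [T_6] at h6
  have h7 := (T_hasSum 7).mul_left ((1) * e2 * e5 + (1) * e3 * e4 + (-1/2) * e1 * e1 * e5 + (-1) * e1 * e2 * e4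
       + (-1/2) * e1 * e3 * e3 + (-1/2) * e2 * e2 * e3)
  rw [T_7] at h7
  have h8 := (T_hasSum 8).mul_left ((1) * e3 * e5 + (1/2) * e4 * e4 + (-1) * e1 * e2 * e5 + (-1) * e1 * e3 * e4
       + (-1/2) * e2 * e2 * e4 + (-1/2) * e2 * e3 * e3)
  rw [T_8] at h8
  have h9 := (T_hasSum 9).mul_left ((1) * e4 * e5 + (-1) * e1 * e3 * e5 + (-1/2) * e1 * e4 * e4 + (-1/2) * e2 * e2 * e5
       + (-1) * e2 * e3 * e4 + (-1/6) * e3 * e3 * e3)
  rw [T_9] at h9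
  have h10 := (T_hasSum 10).mul_left ((1/2) * e5 * e5 + (-1) * e1 * e4 * e5 + (-1) * e2 * e3 * e5 + (-1/2) * e2 * e4 * e4
       + (-1/2) * e3 * e3 * e4)
  rw [T_10] at h10
  have h11 := (T_hasSum 11).mul_left ((-1/2) * e1 * e5 * e5 + (-1) * e2 * e4 * e5 + (-1/2) * e3 * e3 * e5
       + (-1/2) * e3 * e4 * e4)
  rw [T_11] at h11
  have h12 := (T_hasSum 12).mul_left ((-1/2) * e2 * e5 * e5 + (-1) * e3 * e4 * e5 + (-1/6) * e4 * e4 * e4)
  rw [T_12] at h12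
  have h13 := (T_hasSum 13).mul_left ((-1/2) * e3 * e5 * e5 + (-1/2) * e4 * e4 * e5)
  rw [T_13] at h13
  have h14 := (T_hasSum 14).mul_left ((-1/2) * e4 * e5 * e5)
  rw [T_14] at h14
  have h15 := (T_hasSum 15).mul_left ((-1/6) * e5 * e5 * e5)
  rw [T_15] at h15
  have hall := (((((((((((((((h0.add h1).add h2).add h3).add h4).add h5).add h6).add h7).add h8).add h9).add h10).add h11).add h12).add h13).add h14).add h15)
  refine Eq.subst (motive := fun f => HasSum f _) ?_ hall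
  funext j
  simp only [cub]
  ring

lemma series_value (L h : ℝ) :
    Vsum (L * (-3 / 2 * h - h ^ 2 / 12 + h ^ 3 / 6)) (L * (h / 2 - 3 / 4 * h ^ 2 - h ^ 3 / 24))
      (L * (h ^ 2 / 3 - h ^ 3 / 2)) (L * (h ^ 3 / 4)) (L * (2 * h ^ 4)) =
      2 + (-(4) * L + (6) * L ^ 2 - (0) * L ^ 3) * h ^ 2 +
        (-(295/12) * L + (78) * L ^ 2 - (62) * L ^ 3) * h ^ 3 +
        (-(2164) * L + (2687/3) * L ^ 2 - (1605) * L ^ 3) * h ^ 4 +
        (-(0) * L + (285749/4) * L ^ 2 - (185515/6) * L ^ 3) * h ^ 5 +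
        (-(0) * L + (350069635/576) * L ^ 2 - (29899697/12) * L ^ 3) * h ^ 6 +
        (-(0) * L + (35944985/6) * L ^ 2 - (14227358773/288) * L ^ 3) * h ^ 7 +
        (-(0) * L + (408990252) * L ^ 2 - (165995043181/192) * L ^ 3) * h ^ 8 +
        (-(0) * L + (0) * L ^ 2 - (2229392209600039/41472) * L ^ 3) * h ^ 9 +
        (-(0) * L + (0) * L ^ 2 - (193029305881637/288) * L ^ 3) * h ^ 10 +
        (-(0) * L + (0) * L ^ 2 - (57504156604783/6) * L ^ 3) * h ^ 11 +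
        (-(0) * L + (0) * L ^ 2 - (1842265527822824/3) * L ^ 3) * h ^ 12 := by
  unfold Vsum
  ring

lemma quad_pos (L h : ℝ) (hL1 : 0.6931471803 < L) (hL2 : L < 0.6931471808) (hh : 0 < h)
    (hh2 : h ≤ 1 / 160) :
    0 < (-(4) * L + (6) * L ^ 2 - (0) * L ^ 3) * h ^ 2 +
        (-(295/12) * L + (78) * L ^ 2 - (62) * L ^ 3) * h ^ 3 +
        (-(2164) * L + (2687/3) * L ^ 2 - (1605) * L ^ 3) * h ^ 4 +
        (-(0) * L + (285749/4) * L ^ 2 - (185515/6) * L ^ 3) * h ^ 5 +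
        (-(0) * L + (350069635/576) * L ^ 2 - (29899697/12) * L ^ 3) * h ^ 6 +
        (-(0) * L + (35944985/6) * L ^ 2 - (14227358773/288) * L ^ 3) * h ^ 7 +
        (-(0) * L + (408990252) * L ^ 2 - (165995043181/192) * L ^ 3) * h ^ 8 +
        (-(0) * L + (0) * L ^ 2 - (2229392209600039/41472) * L ^ 3) * h ^ 9 +
        (-(0) * L + (0) * L ^ 2 - (193029305881637/288) * L ^ 3) * h ^ 10 +
        (-(0) * L + (0) * L ^ 2 - (57504156604783/6) * L ^ 3) * h ^ 11 +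
        (-(0) * L + (0) * L ^ 2 - (1842265527822824/3) * L ^ 3) * h ^ 12 := by
  have hL0 : 0 < L := by linarith
  have e2 : (0.6931471803 : ℝ) ^ 2 ≤ L ^ 2 := pow_le_pow_left₀ (by norm_num) hL1.le 2
  have e3 : L ^ 3 ≤ (0.6931471808 : ℝ) ^ 3 := pow_le_pow_left₀ hL0.le hL2.le 3
  norm_num at e2 e3
  have q2 : (11/100 : ℝ) ≤ (-(4) * L + (6) * L ^ 2 - (0) * L ^ 3) := by
    norm_num at *
    linarith
  have q3 : (-11/50 : ℝ) ≤ (-(295/12) * L + (78) * L ^ 2 - (62) * L ^ 3) := by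
    norm_num at *
    linarith
  have q4 : (-1606 : ℝ) ≤ (-(2164) * L + (2687/3) * L ^ 2 - (1605) * L ^ 3) := by
    norm_num at *
    linarith
  have q5 : (24024 : ℝ) ≤ (-(0) * L + (285749/4) * L ^ 2 - (185515/6) * L ^ 3) := by
    norm_num at *
    linarith
  have q6 : (-537779 : ℝ) ≤ (-(0) * L + (350069635/576) * L ^ 2 - (29899697/12) * L ^ 3) := by
    norm_num at *
    linarith
  have q7 : (-13573290 : ℝ) ≤ (-(0) * L + (35944985/6) * L ^ 2 - (14227358773/288) * L ^ 3) := by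
    norm_num at *
    linarith
  have q8 : (-91418369 : ℝ) ≤ (-(0) * L + (408990252) * L ^ 2 - (165995043181/192) * L ^ 3) := by
    norm_num at *
    linarith
  have q9 : (-17902260937 : ℝ) ≤ (-(0) * L + (0) * L ^ 2 - (2229392209600039/41472) * L ^ 3) := by
    norm_num at *
    linarith
  have q10 : (-223206657924 : ℝ) ≤ (-(0) * L + (0) * L ^ 2 - (193029305881637/288) * L ^ 3) := by
    norm_num at *
    linarith
  have q11 : (-3191716960188 : ℝ) ≤ (-(0) * L + (0) * L ^ 2 - (57504156604783/6) * L ^ 3) := by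
    norm_num at *
    linarith
  have q12 : (-204506612303945 : ℝ) ≤ (-(0) * L + (0) * L ^ 2 - (1842265527822824/3) * L ^ 3) := by
    norm_num at *
    linarith
  have p1 : h ^ 1 ≤ (1 / 160 : ℝ) ^ 1 := pow_le_pow_left₀ hh.le hh2 1
  have p1' : 0 ≤ h ^ 1 := by positivity
  have p2 : h ^ 2 ≤ (1 / 160 : ℝ) ^ 2 := pow_le_pow_left₀ hh.le hh2 2
  have p2' : 0 ≤ h ^ 2 := by positivity
  have p3 : h ^ 3 ≤ (1 / 160 : ℝ) ^ 3 := pow_le_pow_left₀ hh.le hh2 3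
  have p3' : 0 ≤ h ^ 3 := by positivity
  have p4 : h ^ 4 ≤ (1 / 160 : ℝ) ^ 4 := pow_le_pow_left₀ hh.le hh2 4
  have p4' : 0 ≤ h ^ 4 := by positivity
  have p5 : h ^ 5 ≤ (1 / 160 : ℝ) ^ 5 := pow_le_pow_left₀ hh.le hh2 5
  have p5' : 0 ≤ h ^ 5 := by positivity
  have p6 : h ^ 6 ≤ (1 / 160 : ℝ) ^ 6 := pow_le_pow_left₀ hh.le hh2 6
  have p6' : 0 ≤ h ^ 6 := by positivity
  have p7 : h ^ 7 ≤ (1 / 160 : ℝ) ^ 7 := pow_le_pow_left₀ hh.le hh2 7
  have p7' : 0 ≤ h ^ 7 := by positivity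
  have p8 : h ^ 8 ≤ (1 / 160 : ℝ) ^ 8 := pow_le_pow_left₀ hh.le hh2 8
  have p8' : 0 ≤ h ^ 8 := by positivity
  have p9 : h ^ 9 ≤ (1 / 160 : ℝ) ^ 9 := pow_le_pow_left₀ hh.le hh2 9
  have p9' : 0 ≤ h ^ 9 := by positivity
  have p10 : h ^ 10 ≤ (1 / 160 : ℝ) ^ 10 := pow_le_pow_left₀ hh.le hh2 10
  have p10' : 0 ≤ h ^ 10 := by positivity
  have hfac : (-(4) * L + (6) * L ^ 2 - (0) * L ^ 3) * h ^ 2 +
        (-(295/12) * L + (78) * L ^ 2 - (62) * L ^ 3) * h ^ 3 +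
        (-(2164) * L + (2687/3) * L ^ 2 - (1605) * L ^ 3) * h ^ 4 +
        (-(0) * L + (285749/4) * L ^ 2 - (185515/6) * L ^ 3) * h ^ 5 +
        (-(0) * L + (350069635/576) * L ^ 2 - (29899697/12) * L ^ 3) * h ^ 6 +
        (-(0) * L + (35944985/6) * L ^ 2 - (14227358773/288) * L ^ 3) * h ^ 7 +
        (-(0) * L + (408990252) * L ^ 2 - (165995043181/192) * L ^ 3) * h ^ 8 +
        (-(0) * L + (0) * L ^ 2 - (2229392209600039/41472) * L ^ 3) * h ^ 9 +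
        (-(0) * L + (0) * L ^ 2 - (193029305881637/288) * L ^ 3) * h ^ 10 +
        (-(0) * L + (0) * L ^ 2 - (57504156604783/6) * L ^ 3) * h ^ 11 +
        (-(0) * L + (0) * L ^ 2 - (1842265527822824/3) * L ^ 3) * h ^ 12 =
      h ^ 2 * ((-(4) * L + (6) * L ^ 2 - (0) * L ^ 3) +
        (-(295/12) * L + (78) * L ^ 2 - (62) * L ^ 3) * h ^ 1 +
        (-(2164) * L + (2687/3) * L ^ 2 - (1605) * L ^ 3) * h ^ 2 +
        (-(0) * L + (285749/4) * L ^ 2 - (185515/6) * L ^ 3) * h ^ 3 +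
        (-(0) * L + (350069635/576) * L ^ 2 - (29899697/12) * L ^ 3) * h ^ 4 +
        (-(0) * L + (35944985/6) * L ^ 2 - (14227358773/288) * L ^ 3) * h ^ 5 +
        (-(0) * L + (408990252) * L ^ 2 - (165995043181/192) * L ^ 3) * h ^ 6 +
        (-(0) * L + (0) * L ^ 2 - (2229392209600039/41472) * L ^ 3) * h ^ 7 +
        (-(0) * L + (0) * L ^ 2 - (193029305881637/288) * L ^ 3) * h ^ 8 +
        (-(0) * L + (0) * L ^ 2 - (57504156604783/6) * L ^ 3) * h ^ 9 +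
        (-(0) * L + (0) * L ^ 2 - (1842265527822824/3) * L ^ 3) * h ^ 10) := by ring
  rw [hfac]
  apply mul_pos (by positivity)
  have r3 : (-11/50 : ℝ) * h ^ 1 ≤ (-(295/12) * L + (78) * L ^ 2 - (62) * L ^ 3) * h ^ 1 :=
    mul_le_mul_of_nonneg_right q3 p1'
  have r4 : (-1606 : ℝ) * h ^ 2 ≤ (-(2164) * L + (2687/3) * L ^ 2 - (1605) * L ^ 3) * h ^ 2 :=
    mul_le_mul_of_nonneg_right q4 p2'
  have r5 : (24024 : ℝ) * h ^ 3 ≤ (-(0) * L + (285749/4) * L ^ 2 - (185515/6) * L ^ 3) * h ^ 3 :=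
    mul_le_mul_of_nonneg_right q5 p3'
  have r6 : (-537779 : ℝ) * h ^ 4 ≤ (-(0) * L + (350069635/576) * L ^ 2 - (29899697/12) * L ^ 3) * h ^ 4 :=
    mul_le_mul_of_nonneg_right q6 p4'
  have r7 : (-13573290 : ℝ) * h ^ 5 ≤ (-(0) * L + (35944985/6) * L ^ 2 - (14227358773/288) * L ^ 3) * h ^ 5 :=
    mul_le_mul_of_nonneg_right q7 p5'
  have r8 : (-91418369 : ℝ) * h ^ 6 ≤ (-(0) * L + (408990252) * L ^ 2 - (165995043181/192) * L ^ 3) * h ^ 6 :=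
    mul_le_mul_of_nonneg_right q8 p6'
  have r9 : (-17902260937 : ℝ) * h ^ 7 ≤ (-(0) * L + (0) * L ^ 2 - (2229392209600039/41472) * L ^ 3) * h ^ 7 :=
    mul_le_mul_of_nonneg_right q9 p7'
  have r10 : (-223206657924 : ℝ) * h ^ 8 ≤ (-(0) * L + (0) * L ^ 2 - (193029305881637/288) * L ^ 3) * h ^ 8 :=
    mul_le_mul_of_nonneg_right q10 p8'
  have r11 : (-3191716960188 : ℝ) * h ^ 9 ≤ (-(0) * L + (0) * L ^ 2 - (57504156604783/6) * L ^ 3) * h ^ 9 :=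
    mul_le_mul_of_nonneg_right q11 p9'
  have r12 : (-204506612303945 : ℝ) * h ^ 10 ≤ (-(0) * L + (0) * L ^ 2 - (1842265527822824/3) * L ^ 3) * h ^ 10 :=
    mul_le_mul_of_nonneg_right q12 p10'
  norm_num at p1 p2 p3 p4 p5 p6 p7 p8 p9 p10
  norm_num at *
  linarith

end

end Pool.Agent.H291R3
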