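import Pool.Agent.H291R3.Erdos2

set_option autoImplicit false

/-! The inequality `(m+1)^n < 1^n + ... + m^n` for `m ≥ 159`. -/

namespace Pool.Agent.H291R3

open Finset

noncomputable section

lemma cub_le_exp (x : ℝ) : cub x ≤ Real.exp (-x) := by
  rcases le_total x 0 with hx | hx
  · have h := Real.sum_le_exp_of_nonneg (x := -x) (by linarith) 4
    simp only [Finset.sum_range_succ, Finset.sum_range_zero, Nat.factorial] at h
    unfold cub
    norm_num at h
    linarith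
  · have hanti : AntitoneOn (fun t : ℝ => Real.exp t * cub t) (Set.Ici 0) := by
      apply antitoneOn_of_deriv_nonpos (convex_Ici 0)
      · unfold cub
        fun_prop
      · unfold cub
        fun_prop
      · intro t ht
        rw [interior_Ici, Set.mem_Ioi] at ht
        have hd : HasDerivAt (fun t : ℝ => Real.exp t * cub t)
            (Real.exp t * cub t + Real.exp t * (-1 + t - t ^ 2 / 2)) t := by
          apply (Real.hasDerivAt_exp t).mul
          have h1 : HasDerivAt (fun t : ℝ => 1 - t + t ^ 2 / 2 - t ^ 3 / 6)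
              (0 - 1 + ((2 : ℕ) : ℝ) * t ^ (2 - 1) / 2 - ((3 : ℕ) : ℝ) * t ^ (3 - 1) / 6) t :=
            ((((hasDerivAt_const t (1 : ℝ)).sub (hasDerivAt_id t)).add
            ((hasDerivAt_pow 2 t).div_const 2))).sub ((hasDerivAt_pow 3 t).div_const 6)
          have h2 : (0 - 1 + ((2 : ℕ) : ℝ) * t ^ (2 - 1) / 2 - ((3 : ℕ) : ℝ) * t ^ (3 - 1) / 6) =
              -1 + t - t ^ 2 / 2 := by
            norm_num
            ring
          rw [h2] at h1
          exact h1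
        rw [hd.deriv]
        have : Real.exp t * cub t + Real.exp t * (-1 + t - t ^ 2 / 2) =
            Real.exp t * (-(t ^ 3 / 6)) := by unfold cub; ring
        rw [this]
        have h3 : 0 < t ^ 3 := by positivity
        have h4 := Real.exp_pos t
        nlinarith
    have h := hanti (Set.mem_Ici.2 le_rfl) (Set.mem_Ici.2 hx) hx
    simp only [Real.exp_zero, one_mul] at h
    have h0 : cub 0 = 1 := by unfold cub; norm_num
    rw [h0] at h
    rw [Real.exp_neg, ← one_div, le_div_iff₀ (Real.exp_pos x)]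
    linarith

lemma cub_nonpos (x : ℝ) (hx : 8 / 5 ≤ x) : cub x ≤ 0 := by
  unfold cub
  have h1 : 0 ≤ x - 8 / 5 := by linarith
  have h2 : 0 ≤ (x - 8 / 5) ^ 2 := sq_nonneg _
  have h3 : 0 ≤ (x - 8 / 5) ^ 3 := by positivity
  nlinarith

/-- the exponent correction -/
def Dj (h j : ℝ) : ℝ :=
  (-3 / 2 * h - h ^ 2 / 12 + h ^ 3 / 6) * j + (h / 2 - 3 / 4 * h ^ 2 - h ^ 3 / 24) * j ^ 2 +
    (h ^ 2 / 3 - h ^ 3 / 2) * j ^ 3 + (h ^ 3 / 4) * j ^ 4 + (2 * h ^ 4) * j ^ 5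

lemma Dj_large (h j : ℝ) (hh : 0 < h) (hh2 : h ≤ 1 / 160) (hj : 1 / 2 ≤ j * h) : 8 ≤ Dj h j := by
  have hj80 : 80 ≤ j := by
    by_contra hcon
    push Not at hcon
    nlinarith
  set y := j * h with hy
  have hD : Dj h j = (y / 2 * (j - 3)) + (y ^ 2 / 3 * j - 3 / 4 * y ^ 2 - y * h / 12) +
      (y ^ 3 / 4 * j - y ^ 3 / 2 - y ^ 2 * h / 24 + y * h ^ 2 / 6) + 2 * y ^ 4 * j := by
    rw [hy]; unfold Dj; ring
  rw [hD]
  have hy0 : 0 < y := by linarith
  have a1 : 77 / 4 ≤ y / 2 * (j - 3) := by nlinarith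
  have a2 : 0 ≤ y ^ 2 / 3 * j - 3 / 4 * y ^ 2 - y * h / 12 := by
    have b1 : 0 < y ^ 2 := by positivity
    have b2 : y * h ≤ y * y := by nlinarith
    nlinarith
  have a3 : 0 ≤ y ^ 3 / 4 * j - y ^ 3 / 2 - y ^ 2 * h / 24 + y * h ^ 2 / 6 := by
    have b1 : 0 < y ^ 3 := by positivity
    have b2 : y ^ 2 * h ≤ y ^ 2 * y := by
      apply mul_le_mul_of_nonneg_left _ (by positivity)
      linarith
    have b3 : 0 ≤ y * h ^ 2 / 6 := by positivity
    nlinarith
  have a4 : 0 ≤ 2 * y ^ 4 * j := by positivity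
  linarith

lemma log_two_lt : Real.log 2 < 0.6931471808 := Real.log_two_lt_d9
lemma lt_log_two : 0.6931471803 < Real.log 2 := Real.log_two_gt_d9

lemma neg_log_upper (y : ℝ) (hy0 : 0 ≤ y) (hy : y ≤ 1 / 2) :
    -Real.log (1 - y) ≤ y + y ^ 2 / 2 + y ^ 3 / 3 + y ^ 4 / 4 + 2 * y ^ 5 := by
  have h := Real.abs_log_sub_add_sum_range_le (x := y) (by rw [abs_of_nonneg hy0]; linarith) 4
  have h1 := (abs_le.1 h).1
  simp only [Finset.sum_range_succ, Finset.sum_range_zero] at h1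
  rw [abs_of_nonneg hy0] at h1
  have h2 : y ^ (4 + 1) / (1 - y) ≤ 2 * y ^ 5 := by
    rw [div_le_iff₀ (by linarith)]
    have h5 : 0 ≤ y ^ 5 := by positivity
    have h6 : y ^ 5 * (1 / 2) ≤ y ^ 5 * (1 - y) := mul_le_mul_of_nonneg_left (by linarith) h5
    have h7 : y ^ (4 + 1) = y ^ 5 := by norm_num
    rw [h7]
    linarith
  norm_num at h1
  norm_num at h2
  linarith

lemma neg_log_lower (x : ℝ) (hx0 : 0 < x) (hx : x ≤ 1 / 100) :
    x + x ^ 2 / 2 + x ^ 3 / 3 + x ^ 4 / 4 ≤ -Real.log (1 - x) := by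
  have h := Real.abs_log_sub_add_sum_range_le (x := x) (by rw [abs_of_pos hx0]; linarith) 5
  have h1 := (abs_le.1 h).2
  simp only [Finset.sum_range_succ, Finset.sum_range_zero] at h1
  rw [abs_of_pos hx0] at h1
  have h2 : x ^ (5 + 1) / (1 - x) ≤ x ^ 5 / 5 := by
    rw [div_le_iff₀ (by linarith)]
    have : 0 < x ^ 5 := by positivity
    have h3 : x ^ (5 + 1) = x ^ 5 * x := by ring
    rw [h3]
    nlinarith
  norm_num at h1
  norm_num at h2
  linarith

/-- Key comparison of exponents. -/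
lemma exponent_bound (m : ℝ) (hm : 159 ≤ m) (j : ℝ) (hj : 1 ≤ j) (hjy : j / (m + 1) ≤ 1 / 2) :
    -Real.log (1 - j / (m + 1)) ≤ (-Real.log (1 - 1 / m)) * (j + Dj (1 / (m + 1)) j) := by
  have hm0 : 0 < m := by linarith
  have hm1 : 0 < m + 1 := by linarith
  set h := 1 / (m + 1) with hh
  have hhpos : 0 < h := by positivity
  have hh160 : h ≤ 1 / 160 := by
    rw [hh]
    apply one_div_le_one_div_of_le (by norm_num) (by linarith)
  have hy : j / (m + 1) = j * h := by rw [hh]; ring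
  rw [hy] at hjy ⊢
  have hy0 : 0 ≤ j * h := by positivity
  have hv := neg_log_upper (j * h) hy0 hjy
  have hx0 : 0 < 1 / m := by positivity
  have hx1 : 1 / m ≤ 1 / 100 := one_div_le_one_div_of_le (by norm_num) (by linarith)
  have hu := neg_log_lower (1 / m) hx0 hx1
  set u := -Real.log (1 - 1 / m) with hudef
  set ul := 1 / m + (1 / m) ^ 2 / 2 + (1 / m) ^ 3 / 3 + (1 / m) ^ 4 / 4 with hul
  set V := j * h + (j * h) ^ 2 / 2 + (j * h) ^ 3 / 3 + (j * h) ^ 4 / 4 + 2 * (j * h) ^ 5 with hV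
  set w := 1 - 3 / 2 * h - h ^ 2 / 12 + h ^ 3 / 6 with hw
  have hw0 : 0 < w := by
    rw [hw]
    have : 0 < h ^ 3 / 6 := by positivity
    nlinarith
  have hV0 : 0 ≤ V := by rw [hV]; positivity
  -- ul * w ≥ h
  have hulw : h ≤ ul * w := by
    have e : ul * w - h = (42 * m ^ 3 + 20 * m ^ 2 - 23 * m - 15) / (144 * m ^ 4 * (m + 1) ^ 3) := by
      rw [hul, hw, hh]
      field_simp
      ring
    have e2 : 0 ≤ ul * w - h := by
      rw [e]
      apply div_nonneg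
      · nlinarith [mul_pos hm0 hm0, mul_pos (mul_pos hm0 hm0) hm0]
      · positivity
    linarith
  -- E := V * w / h ≤ j + Dj
  have hE : V * w / h ≤ j + Dj h j := by
    have e : j + Dj h j - V * w / h = h ^ 4 * (3 / 8 * j ^ 4 + j ^ 3 / 36 - j ^ 2 / 12) +
        h ^ 5 * (3 * j ^ 5 + j ^ 4 / 48 - j ^ 3 / 18) + h ^ 6 * (j ^ 5 / 6 - j ^ 4 / 24) -
        h ^ 7 * j ^ 5 / 3 := by
      rw [hV, hw]
      unfold Dj
      field_simp
      ring
    have j2 : 0 < j ^ 2 := by positivity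
    have j3 : 0 < j ^ 3 := by positivity
    have j4 : 0 < j ^ 4 := by positivity
    have j5 : 0 < j ^ 5 := by positivity
    have k4 : j ^ 2 ≤ j ^ 4 := pow_le_pow_right₀ hj (by norm_num)
    have k34 : j ^ 3 ≤ j ^ 4 := pow_le_pow_right₀ hj (by norm_num)
    have k45 : j ^ 4 ≤ j ^ 5 := pow_le_pow_right₀ hj (by norm_num)
    have t4 : 0 ≤ h ^ 4 * (3 / 8 * j ^ 4 + j ^ 3 / 36 - j ^ 2 / 12) := by
      apply mul_nonneg (by positivity)
      linarith
    have t6 : 0 ≤ h ^ 6 * (j ^ 5 / 6 - j ^ 4 / 24) := by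
      apply mul_nonneg (by positivity)
      linarith
    have t5 : h ^ 5 * (j ^ 5) ≤ h ^ 5 * (3 * j ^ 5 + j ^ 4 / 48 - j ^ 3 / 18) := by
      apply mul_le_mul_of_nonneg_left _ (by positivity)
      linarith
    have t7 : h ^ 7 * j ^ 5 / 3 ≤ h ^ 5 * j ^ 5 := by
      have : h ^ 7 ≤ h ^ 5 := pow_le_pow_of_le_one hhpos.le (by linarith) (by norm_num)
      have := mul_le_mul_of_nonneg_right this j5.le
      have h7 : 0 ≤ h ^ 7 * j ^ 5 := by positivity
      linarith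
    linarith
  have hE0 : 0 ≤ V * w / h := by positivity
  calc -Real.log (1 - j * h) ≤ V := hv
    _ = h * (V / h) := by field_simp
    _ ≤ (ul * w) * (V / h) := by
        apply mul_le_mul_of_nonneg_right hulw (by positivity)
    _ = ul * (V * w / h) := by ring
    _ ≤ u * (V * w / h) := mul_le_mul_of_nonneg_right hu hE0
    _ ≤ u * (j + Dj h j) := by
        apply mul_le_mul_of_nonneg_left hE
        have : 0 ≤ ul := by rw [hul]; positivity
        linarith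

lemma term_bound (m n j : ℕ) (hm : 159 ≤ m) (hyp : (1 - 1 / (m : ℝ)) ^ n > 1 / 2)
    (hj : 1 ≤ j) (hjm : j ≤ m) :
    cub (Real.log 2 * Dj (1 / ((m : ℝ) + 1)) j) * (1 / 2 : ℝ) ^ j ≤
      (1 - (j : ℝ) / ((m : ℝ) + 1)) ^ n := by
  have hm' : (159 : ℝ) ≤ m := by exact_mod_cast hm
  have hj' : (1 : ℝ) ≤ j := by exact_mod_cast hj
  have hjm' : (j : ℝ) ≤ m := by exact_mod_cast hjm
  have hm1 : (0 : ℝ) < (m : ℝ) + 1 := by linarith
  have hy1 : (j : ℝ) / ((m : ℝ) + 1) < 1 := by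
    rw [div_lt_one hm1]; linarith
  have hbase : 0 < 1 - (j : ℝ) / ((m : ℝ) + 1) := by linarith
  have hL0 : 0 < Real.log 2 := Real.log_pos (by norm_num)
  have hh : (0 : ℝ) < 1 / ((m : ℝ) + 1) := by positivity
  have hh160 : 1 / ((m : ℝ) + 1) ≤ 1 / 160 :=
    one_div_le_one_div_of_le (by norm_num) (by linarith)
  by_cases hcase : (j : ℝ) / ((m : ℝ) + 1) ≤ 1 / 2
  · have hexp := exponent_bound m hm' j hj' hcase
    set u := -Real.log (1 - 1 / (m : ℝ)) with hu
    have hx1 : 1 / (m : ℝ) ≤ 1 / 100 := one_div_le_one_div_of_le (by norm_num) (by linarith)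
    have hx0 : (0 : ℝ) < 1 / (m : ℝ) := by positivity
    have hbm : (0 : ℝ) < 1 - 1 / (m : ℝ) := by linarith
    have hu0 : 0 < u := by
      rw [hu, neg_pos]
      exact Real.log_neg hbm (by linarith)
    have hnu : (n : ℝ) * u ≤ Real.log 2 := by
      have h1 : Real.log (1 / 2) < Real.log ((1 - 1 / (m : ℝ)) ^ n) :=
        Real.log_lt_log (by norm_num) hyp
      rw [Real.log_pow, one_div, Real.log_inv] at h1
      rw [hu]
      linarith
    have hv0 : 0 ≤ -Real.log (1 - (j : ℝ) / ((m : ℝ) + 1)) := by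
      rw [neg_nonneg]
      apply Real.log_nonpos hbase.le
      have : 0 ≤ (j : ℝ) / ((m : ℝ) + 1) := by positivity
      linarith
    set D := Dj (1 / ((m : ℝ) + 1)) j with hD
    have hjD : 0 ≤ (j : ℝ) + D := by
      by_contra hcon
      push Not at hcon
      have : u * ((j : ℝ) + D) < 0 := mul_neg_of_pos_of_neg hu0 hcon
      linarith
    have hnv : (n : ℝ) * (-Real.log (1 - (j : ℝ) / ((m : ℝ) + 1))) ≤
        Real.log 2 * ((j : ℝ) + D) := by
      calc (n : ℝ) * (-Real.log (1 - (j : ℝ) / ((m : ℝ) + 1)))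
          ≤ (n : ℝ) * (u * ((j : ℝ) + D)) := mul_le_mul_of_nonneg_left hexp (Nat.cast_nonneg n)
        _ = ((n : ℝ) * u) * ((j : ℝ) + D) := by ring
        _ ≤ Real.log 2 * ((j : ℝ) + D) := mul_le_mul_of_nonneg_right hnu hjD
    have hpow : (1 - (j : ℝ) / ((m : ℝ) + 1)) ^ n =
        Real.exp (-((n : ℝ) * (-Real.log (1 - (j : ℝ) / ((m : ℝ) + 1))))) := by
      rw [← Real.exp_log (pow_pos hbase n), Real.log_pow]
      ring_nf
    have hhalf : (1 / 2 : ℝ) ^ j = Real.exp (-(Real.log 2 * j)) := by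
      rw [← Real.exp_log (pow_pos (by norm_num : (0 : ℝ) < 1 / 2) j), Real.log_pow, one_div,
        Real.log_inv]
      ring_nf
    rw [hpow, hhalf]
    calc cub (Real.log 2 * D) * Real.exp (-(Real.log 2 * j))
        ≤ Real.exp (-(Real.log 2 * D)) * Real.exp (-(Real.log 2 * j)) :=
          mul_le_mul_of_nonneg_right (cub_le_exp _) (Real.exp_pos _).le
      _ = Real.exp (-(Real.log 2 * ((j : ℝ) + D))) := by rw [← Real.exp_add]; ring_nf
      _ ≤ _ := by
          apply Real.exp_le_exp.2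
          linarith
  · push Not at hcase
    have h1 : 1 / 2 ≤ (j : ℝ) * (1 / ((m : ℝ) + 1)) := by
      rw [mul_one_div]; exact hcase.le
    have h2 := Dj_large _ _ hh hh160 h1
    have h3 : cub (Real.log 2 * Dj (1 / ((m : ℝ) + 1)) j) ≤ 0 := by
      apply cub_nonpos
      have := lt_log_two
      nlinarith
    calc cub (Real.log 2 * Dj (1 / ((m : ℝ) + 1)) j) * (1 / 2 : ℝ) ^ j ≤ 0 :=
          mul_nonpos_of_nonpos_of_nonneg h3 (by positivity)
      _ ≤ _ := pow_nonneg hbase.le n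

lemma big_sum (m n : ℕ) (hm : 159 ≤ m) (hyp : (1 - 1 / (m : ℝ)) ^ n > 1 / 2) :
    1 < ∑ j ∈ Finset.Icc 1 m, (1 - (j : ℝ) / ((m : ℝ) + 1)) ^ n := by
  set h : ℝ := 1 / ((m : ℝ) + 1) with hh
  set L := Real.log 2 with hL
  have hm' : (159 : ℝ) ≤ m := by exact_mod_cast hm
  have hhpos : 0 < h := by positivity
  have hh160 : h ≤ 1 / 160 := one_div_le_one_div_of_le (by norm_num) (by linarith)
  set F : ℕ → ℝ := fun j => cub (L * Dj h j) * (1 / 2 : ℝ) ^ j with hF
  have hsum := hasSum_cub (L * (-3 / 2 * h - h ^ 2 / 12 + h ^ 3 / 6))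
    (L * (h / 2 - 3 / 4 * h ^ 2 - h ^ 3 / 24)) (L * (h ^ 2 / 3 - h ^ 3 / 2)) (L * (h ^ 3 / 4))
    (L * (2 * h ^ 4))
  rw [series_value] at hsum
  have hpos := quad_pos L h lt_log_two log_two_lt hhpos hh160
  have hFeq : (fun j : ℕ => cub ((L * (-3 / 2 * h - h ^ 2 / 12 + h ^ 3 / 6)) * j +
      (L * (h / 2 - 3 / 4 * h ^ 2 - h ^ 3 / 24)) * (j : ℝ) ^ 2 +
      (L * (h ^ 2 / 3 - h ^ 3 / 2)) * (j : ℝ) ^ 3 + (L * (h ^ 3 / 4)) * (j : ℝ) ^ 4 +
      (L * (2 * h ^ 4)) * (j : ℝ) ^ 5) * (1 / 2 : ℝ) ^ j) = F := by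
    funext j
    simp only [hF, Dj]
    ring_nf
  have hFsum := hsum
  rw [hFeq] at hFsum
  have hle : ∑' j, F j ≤ ∑ j ∈ Finset.range (m + 1), F j := by
    have h1 : ∑ j ∈ Finset.range (m + 1), (-F j) ≤ ∑' j, (-F j) := by
      apply hFsum.summable.neg.sum_le_tsum
      intro j hj
      rw [Finset.mem_range, not_lt] at hj
      have hj' : (m : ℝ) + 1 ≤ j := by exact_mod_cast hj
      have h1 : 1 / 2 ≤ (j : ℝ) * h := by
        rw [hh, mul_one_div, le_div_iff₀ (by linarith)]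
        linarith
      have h2 := Dj_large _ _ hhpos hh160 h1
      have h3 : cub (L * Dj h j) ≤ 0 := by
        apply cub_nonpos
        have := lt_log_two
        nlinarith
      have : F j ≤ 0 := mul_nonpos_of_nonpos_of_nonneg h3 (by positivity)
      linarith
    rw [Finset.sum_neg_distrib, tsum_neg] at h1
    linarith
  rw [hFsum.tsum_eq, Finset.sum_range_eq_add_Ico _ (by omega)] at hle
  have hF0 : F 0 = 1 := by
    simp only [hF, Dj, cub]
    norm_num
  have hIco : Finset.Ico 1 (m + 1) = Finset.Icc 1 m := by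
    ext x; simp only [Finset.mem_Ico, Finset.mem_Icc]; omega
  rw [hF0, hIco] at hle
  have hterm : ∑ j ∈ Finset.Icc 1 m, F j ≤
      ∑ j ∈ Finset.Icc 1 m, (1 - (j : ℝ) / ((m : ℝ) + 1)) ^ n := by
    apply Finset.sum_le_sum
    intro j hj
    rw [Finset.mem_Icc] at hj
    exact term_bound m n j hm hyp hj.1 hj.2
  linarith

lemma reflect (m n : ℕ) :
    ∑ j ∈ Finset.Icc 1 m, (1 - (j : ℝ) / ((m : ℝ) + 1)) ^ n =
      (∑ i ∈ Finset.Icc 1 m, (i : ℝ) ^ n) / ((m : ℝ) + 1) ^ n := by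
  rw [Finset.sum_div]
  apply Finset.sum_nbij' (fun j => m + 1 - j) (fun j => m + 1 - j)
  · intro j hj
    rw [Finset.mem_Icc] at hj ⊢
    omega
  · intro j hj
    rw [Finset.mem_Icc] at hj ⊢
    omega
  · intro j hj
    rw [Finset.mem_Icc] at hj
    omega
  · intro j hj
    rw [Finset.mem_Icc] at hj
    omega
  · intro j hj
    rw [Finset.mem_Icc] at hj
    rw [← div_pow]
    congr 1
    rw [Nat.cast_sub (by omega)]
    push_cast
    have : (m : ℝ) + 1 ≠ 0 := by positivity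
    field_simp

theorem second_large (m n : ℕ) (hm : 159 ≤ m) (hyp : (1 - 1 / (m : ℝ)) ^ n > 1 / 2) :
    (m + 1) ^ n < ∑ i ∈ Finset.Icc 1 m, i ^ n := by
  have h := big_sum m n hm hyp
  rw [reflect, lt_div_iff₀ (by positivity), one_mul] at h
  exact_mod_cast h

/-- The first inequality, by Bernoulli. -/
theorem first_part (m n : ℕ) (hm : 2 ≤ m)
    (hyp : (1 - 1 / ((m : ℝ) - 1)) ^ n < 1 / 2) :
    ∑ i ∈ Finset.Icc 1 (m - 2), i ^ n < (m - 1) ^ n := by
  obtain ⟨k, rfl⟩ : ∃ k, m = k + 2 := ⟨m - 2, by omega⟩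
  have e1 : k + 2 - 2 = k := by omega
  have e2 : k + 2 - 1 = k + 1 := by omega
  rw [e1, e2]
  have hyp' : (1 - 1 / ((k : ℝ) + 1)) ^ n < 1 / 2 := by
    have : ((k + 2 : ℕ) : ℝ) - 1 = (k : ℝ) + 1 := by push_cast; ring
    rwa [this] at hyp
  have hk1 : (0 : ℝ) < (k : ℝ) + 1 := by positivity
  have hb0 : (0 : ℝ) ≤ 1 - 1 / ((k : ℝ) + 1) := by
    rw [sub_nonneg, div_le_one hk1]
    have : (0 : ℝ) ≤ k := Nat.cast_nonneg k
    linarith
  have hterm : ∀ j ∈ Finset.Icc 1 k, (1 - (j : ℝ) / ((k : ℝ) + 1)) ^ n ≤ (1 / 2 : ℝ) ^ j := by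
    intro j hj
    rw [Finset.mem_Icc] at hj
    have hjk : (j : ℝ) ≤ k := by exact_mod_cast hj.2
    have h0 : 0 ≤ 1 - (j : ℝ) / ((k : ℝ) + 1) := by
      rw [sub_nonneg, div_le_one hk1]; linarith
    have hbern : 1 - (j : ℝ) / ((k : ℝ) + 1) ≤ (1 - 1 / ((k : ℝ) + 1)) ^ j := by
      have := one_add_mul_le_pow (a := -(1 / ((k : ℝ) + 1))) (by
        have : 1 / ((k : ℝ) + 1) ≤ 1 := by linarith
        linarith) j
      calc 1 - (j : ℝ) / ((k : ℝ) + 1) = 1 + (j : ℝ) * -(1 / ((k : ℝ) + 1)) := by ring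
        _ ≤ (1 + -(1 / ((k : ℝ) + 1))) ^ j := this
        _ = _ := by ring
    calc (1 - (j : ℝ) / ((k : ℝ) + 1)) ^ n ≤ ((1 - 1 / ((k : ℝ) + 1)) ^ j) ^ n :=
          pow_le_pow_left₀ h0 hbern n
      _ = ((1 - 1 / ((k : ℝ) + 1)) ^ n) ^ j := by rw [← pow_mul, ← pow_mul, mul_comm]
      _ ≤ (1 / 2 : ℝ) ^ j := pow_le_pow_left₀ (pow_nonneg hb0 n) hyp'.le j
  have hsum : ∑ j ∈ Finset.Icc 1 k, (1 - (j : ℝ) / ((k : ℝ) + 1)) ^ n < 1 := by
    refine lt_of_le_of_lt (Finset.sum_le_sum hterm) ?_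
    have hg : ∀ k : ℕ, ∑ j ∈ Finset.Icc 1 k, (1 / 2 : ℝ) ^ j = 1 - (1 / 2) ^ k := by
      intro k
      induction k with
      | zero => simp
      | succ k ih =>
        rw [Finset.sum_Icc_succ_top (by omega), ih, pow_succ]
        ring
    rw [hg]
    have : (0 : ℝ) < (1 / 2) ^ k := by positivity
    linarith
  rw [reflect, div_lt_iff₀ (by positivity), one_mul] at hsum
  exact_mod_cast hsum

end

end Pool.Agent.H291R3
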