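import Pool.Agent.H291R3.Erdos3

set_option autoImplicit false

/-! The inequality `(m+1)^n < 1^n + ... + m^n` for `m ≤ 158`. -/

namespace Pool.Agent.H291R3

open Finset

/-- power sums by structural recursion -/
def sp (n : ℕ) : ℕ → ℕ
  | 0 => 0
  | k + 1 => sp n k + (k + 1) ^ n

lemma sp_eq (n m : ℕ) : sp n m = ∑ i ∈ Finset.Icc 1 m, i ^ n := by
  induction m with
  | zero => simp [sp]
  | succ m ih => rw [sp, ih, Finset.sum_Icc_succ_top (by omega)]

/-- the largest admissible exponent -/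
def nm (m : ℕ) : ℕ := (693147 * (2 * m - 1)) / 2000000

lemma check : ∀ m : ℕ, m < 159 → 3 ≤ m → 2 * (m - 1) ^ (nm m + 1) ≤ m ^ (nm m + 1) ∧
    (m + 1) ^ (nm m) < sp (nm m) m := by
  decide +kernel

theorem second_small (m n : ℕ) (hm : m < 159) (hm3 : 3 ≤ m)
    (hyp : (1 - 1 / (m : ℝ)) ^ n > 1 / 2) :
    (m + 1) ^ n < ∑ i ∈ Finset.Icc 1 m, i ^ n := by
  obtain ⟨h1, h2⟩ := check m hm hm3
  set N := nm m with hN
  have hm0 : (0 : ℝ) < m := by
    have : (3 : ℝ) ≤ m := by exact_mod_cast hm3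
    linarith
  have hbase : (1 - 1 / (m : ℝ)) = ((m - 1 : ℕ) : ℝ) / m := by
    rw [Nat.cast_sub (by omega)]
    push_cast
    field_simp
  have hnN : n ≤ N := by
    by_contra hcon
    push Not at hcon
    have h3 : (2 : ℝ) * ((m - 1 : ℕ) : ℝ) ^ (N + 1) ≤ (m : ℝ) ^ (N + 1) := by
      exact_mod_cast h1
    have h4 : (1 - 1 / (m : ℝ)) ^ (N + 1) ≤ 1 / 2 := by
      rw [hbase, div_pow, div_le_iff₀ (by positivity)]
      linarith
    have h5 : (1 - 1 / (m : ℝ)) ^ n ≤ (1 - 1 / (m : ℝ)) ^ (N + 1) := by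
      apply pow_le_pow_of_le_one _ _ hcon
      · rw [hbase]; positivity
      · have : (0 : ℝ) < 1 / (m : ℝ) := by positivity
        linarith
    linarith
  by_contra hcon
  push Not at hcon
  rw [sp_eq] at h2
  have h6 : ∑ i ∈ Finset.Icc 1 m, i ^ N ≤ (∑ i ∈ Finset.Icc 1 m, i ^ n) * (m + 1) ^ (N - n) := by
    rw [Finset.sum_mul]
    apply Finset.sum_le_sum
    intro i hi
    rw [Finset.mem_Icc] at hi
    calc i ^ N = i ^ n * i ^ (N - n) := by rw [← pow_add]; congr 1; omega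
      _ ≤ i ^ n * (m + 1) ^ (N - n) := by
        apply Nat.mul_le_mul_left
        exact Nat.pow_le_pow_left (by omega) _
  have h7 : (∑ i ∈ Finset.Icc 1 m, i ^ n) * (m + 1) ^ (N - n) ≤ (m + 1) ^ n * (m + 1) ^ (N - n) :=
    Nat.mul_le_mul_right _ hcon
  have h8 : (m + 1) ^ n * (m + 1) ^ (N - n) = (m + 1) ^ N := by
    rw [← pow_add]; congr 1; omega
  omega

end Pool.Agent.H291R3
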