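import Mathlib

set_option autoImplicit false

/-! Local tools in the algebraic closure of `ℚ_p`, general `p`. -/

namespace Pool.Agent.H291R3.L

open Polynomial

noncomputable section

variable {p : ℕ} [hp : Fact p.Prime]

lemma norm_algebraMap_PA (x : ℚ_[p]) : ‖algebraMap ℚ_[p] (PadicAlgCl p) x‖ = ‖x‖ :=
  PadicAlgCl.norm_extends p x

lemma norm_intCast (m : ℤ) : ‖(m : PadicAlgCl p)‖ = ‖(m : ℚ_[p])‖ := by
  rw [← norm_algebraMap_PA, map_intCast]

lemma norm_ratCast (m : ℚ) : ‖(m : PadicAlgCl p)‖ = ‖(m : ℚ_[p])‖ := by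
  rw [← norm_algebraMap_PA, map_ratCast]

lemma norm_natCast (m : ℕ) : ‖(m : PadicAlgCl p)‖ = ‖(m : ℚ_[p])‖ := by
  rw [← norm_algebraMap_PA, map_natCast]

lemma norm_intCast_le_one (m : ℤ) : ‖(m : PadicAlgCl p)‖ ≤ 1 := by
  rw [norm_intCast]
  exact Padic.norm_int_le_one m

lemma norm_p : ‖(p : PadicAlgCl p)‖ = 1 / p := by
  rw [norm_natCast, Padic.norm_p, one_div]

lemma norm_intCast_eq_one {m : ℤ} (h : ¬ (p : ℤ) ∣ m) : ‖(m : PadicAlgCl p)‖ = 1 := by
  rw [norm_intCast]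
  refine le_antisymm (Padic.norm_int_le_one _) ?_
  by_contra h1
  push Not at h1
  exact h (Padic.norm_intCast_lt_one_iff.1 h1)

lemma norm_add_le_max (x y : PadicAlgCl p) : ‖x + y‖ ≤ max ‖x‖ ‖y‖ :=
  PadicAlgCl.isNonarchimedean p x y

lemma norm_sub_le_max (x y : PadicAlgCl p) : ‖x - y‖ ≤ max ‖x‖ ‖y‖ := by
  have := norm_add_le_max x (-y)
  rwa [norm_neg, ← sub_eq_add_neg] at this

lemma norm_add_eq_of_lt {x y : PadicAlgCl p} (h : ‖y‖ < ‖x‖) : ‖x + y‖ = ‖x‖ := by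
  apply le_antisymm
  · exact (norm_add_le_max x y).trans (max_le le_rfl h.le)
  · by_contra hcon
    push Not at hcon
    have h1 : ‖x‖ ≤ max ‖x + y‖ ‖y‖ := by
      have := norm_sub_le_max (x + y) y
      rwa [add_sub_cancel_right] at this
    exact absurd h1 (not_le.2 (max_lt hcon h))

lemma norm_add_eq_max {x y : PadicAlgCl p} (h : ‖x‖ ≠ ‖y‖) : ‖x + y‖ = max ‖x‖ ‖y‖ := by
  rcases lt_or_gt_of_ne h with h1 | h1
  · rw [max_eq_right h1.le, add_comm, norm_add_eq_of_lt h1]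
  · rw [max_eq_left h1.le, norm_add_eq_of_lt h1]

lemma norm_eq_of_sub_lt {x y : PadicAlgCl p} (h : ‖x - y‖ < ‖y‖) : ‖x‖ = ‖y‖ := by
  have : x = y + (x - y) := by ring
  rw [this, norm_add_eq_of_lt h]

lemma norm_galois (σ : PadicAlgCl p ≃ₐ[ℚ_[p]] PadicAlgCl p) (x : PadicAlgCl p) : ‖σ x‖ = ‖x‖ :=
  (spectralNorm_eq_of_equiv σ x).symm

lemma norm_sum_lt {ι : Type*} (s : Finset ι) (f : ι → PadicAlgCl p) (c : ℝ) (hc : 0 < c)
    (h : ∀ i ∈ s, ‖f i‖ < c) : ‖∑ i ∈ s, f i‖ < c := by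
  classical
  induction s using Finset.induction_on with
  | empty => simpa using hc
  | insert a s ha ih =>
    rw [Finset.sum_insert ha]
    refine (norm_add_le_max _ _).trans_lt (max_lt (h a (Finset.mem_insert_self a s)) ?_)
    exact ih (fun i hi => h i (Finset.mem_insert_of_mem hi))

lemma norm_sum_le {ι : Type*} (s : Finset ι) (f : ι → PadicAlgCl p) (c : ℝ) (hc : 0 ≤ c)
    (h : ∀ i ∈ s, ‖f i‖ ≤ c) : ‖∑ i ∈ s, f i‖ ≤ c := by
  classical
  induction s using Finset.induction_on with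
  | empty => simpa using hc
  | insert a s ha ih =>
    rw [Finset.sum_insert ha]
    refine (norm_add_le_max _ _).trans (max_le (h a (Finset.mem_insert_self a s)) ?_)
    exact ih (fun i hi => h i (Finset.mem_insert_of_mem hi))

/-- the ring of elements of norm at most one -/
def OO (p : ℕ) [hp : Fact p.Prime] : Subring (PadicAlgCl p) where
  carrier := {x | ‖x‖ ≤ 1}
  mul_mem' := by
    intro a b ha hb
    simp only [Set.mem_ofPred_eq] at *
    rw [norm_mul]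
    exact mul_le_one₀ ha (norm_nonneg _) hb
  one_mem' := by simp
  add_mem' := by
    intro a b ha hb
    simp only [Set.mem_ofPred_eq] at *
    exact (norm_add_le_max a b).trans (max_le ha hb)
  zero_mem' := by simp
  neg_mem' := by
    intro a ha
    simp only [Set.mem_ofPred_eq] at *
    rwa [norm_neg]

lemma mem_OO {x : PadicAlgCl p} : x ∈ OO p ↔ ‖x‖ ≤ 1 := Iff.rfl

lemma exists_lift {f : (PadicAlgCl p)[X]} (hf : ∀ i, ‖f.coeff i‖ ≤ 1) :
    ∃ g : (OO p)[X], g.map (OO p).subtype = f := by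
  have h : (↑f.coeffs : Set (PadicAlgCl p)) ⊆ OO p := by
    intro x hx
    rw [Finset.mem_coe, mem_coeffs_iff] at hx
    obtain ⟨n, _, rfl⟩ := hx
    exact hf n
  exact ⟨f.toSubring (OO p) h, map_toSubring _ _ _⟩

lemma coe_eval_OO (g : (OO p)[X]) (x : OO p) :
    ((g.eval x : OO p) : PadicAlgCl p) = (g.map (OO p).subtype).eval (x : PadicAlgCl p) := by
  have := Polynomial.eval_map_apply (OO p).subtype (p := g) x
  exact this.symm

lemma norm_eval_le {f : (PadicAlgCl p)[X]} (hf : ∀ i, ‖f.coeff i‖ ≤ 1) (x : PadicAlgCl p)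
    (hx : ‖x‖ ≤ 1) : ‖f.eval x‖ ≤ 1 := by
  obtain ⟨g, rfl⟩ := exists_lift hf
  have h := coe_eval_OO g ⟨x, hx⟩
  have h2 := (g.eval (⟨x, hx⟩ : OO p)).2
  rw [mem_OO] at h2
  rwa [h] at h2

lemma taylor2 {f : (PadicAlgCl p)[X]} (hf : ∀ i, ‖f.coeff i‖ ≤ 1) (x y : PadicAlgCl p)
    (hx : ‖x‖ ≤ 1) (hy : ‖y‖ ≤ 1) :
    ∃ k : PadicAlgCl p, ‖k‖ ≤ 1 ∧
      f.eval y = f.eval x + f.derivative.eval x * (y - x) + k * (y - x) ^ 2 := by
  obtain ⟨g, rfl⟩ := exists_lift hf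
  set X0 : OO p := ⟨x, hx⟩ with hX0
  set Y0 : OO p := ⟨y, hy⟩ with hY0
  obtain ⟨k, hk⟩ := binomExpansion g X0 (Y0 - X0)
  refine ⟨(k : PadicAlgCl p), k.2, ?_⟩
  rw [add_sub_cancel] at hk
  have h1 := congrArg (fun z : OO p => (z : PadicAlgCl p)) hk
  simp only [Subring.coe_add, Subring.coe_mul, Subring.coe_pow, AddSubgroupClass.coe_sub,
    coe_eval_OO] at h1
  rw [derivative_map]
  exact h1

lemma norm_deriv_coeff {f : (PadicAlgCl p)[X]} (hf : ∀ i, ‖f.coeff i‖ ≤ 1) (i : ℕ) :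
    ‖(derivative f).coeff i‖ ≤ 1 := by
  rw [coeff_derivative, norm_mul]
  apply mul_le_one₀ (hf _) (norm_nonneg _)
  have := norm_intCast_le_one (p := p) ((i : ℤ) + 1)
  push_cast at this
  exact this

lemma lipschitz {f : (PadicAlgCl p)[X]} (hf : ∀ i, ‖f.coeff i‖ ≤ 1) (x y : PadicAlgCl p)
    (hx : ‖x‖ ≤ 1) (hy : ‖y‖ ≤ 1) : ‖f.eval y - f.eval x‖ ≤ ‖y - x‖ := by
  obtain ⟨k, hk, h⟩ := taylor2 hf x y hx hy
  have hyx : ‖y - x‖ ≤ 1 := (norm_sub_le_max y x).trans (max_le hy hx)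
  have : f.eval y - f.eval x = (f.derivative.eval x + k * (y - x)) * (y - x) := by
    rw [h]; ring
  rw [this, norm_mul]
  have h2 : ‖f.derivative.eval x + k * (y - x)‖ ≤ 1 := by
    refine (norm_add_le_max _ _).trans (max_le (norm_eval_le (norm_deriv_coeff hf) _ hx) ?_)
    rw [norm_mul]
    exact mul_le_one₀ hk (norm_nonneg _) hyx
  calc _ ≤ 1 * ‖y - x‖ := mul_le_mul_of_nonneg_right h2 (norm_nonneg _)
    _ = _ := one_mul _

/-- Nearest root. -/
lemma nearest_root (f : (PadicAlgCl p)[X]) (hf : f.Monic) (hd : 0 < f.natDegree)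
    (x : PadicAlgCl p) :
    ∃ r : PadicAlgCl p, f.eval r = 0 ∧ ‖x - r‖ * ‖(derivative f).eval r‖ ≤ ‖f.eval x‖ ∧
      ‖x - r‖ ^ f.natDegree ≤ ‖f.eval x‖ := by
  classical
  have hs : f.Splits := IsAlgClosed.splits f
  have hcard := hs.natDegree_eq_card_roots
  have hne : f.roots.toFinset.Nonempty := by
    rw [Multiset.toFinset_nonempty]
    intro h0
    rw [h0, Multiset.card_zero] at hcard
    omega
  obtain ⟨r, hr, hmin⟩ := Finset.exists_min_image f.roots.toFinset (fun a => ‖x - a‖) hne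
  rw [Multiset.mem_toFinset] at hr
  refine ⟨r, (mem_roots'.1 hr).2, ?_, ?_⟩
  · have hder := hs.eval_root_derivative hf hr
    have hfx : f.eval x = (x - r) * ((f.roots.erase r).map (x - ·)).prod := by
      have h1 := hs.eval_eq_prod_roots_of_monic hf x
      rw [h1]
      conv_lhs => rw [← Multiset.cons_erase hr]
      rw [Multiset.map_cons, Multiset.prod_cons]
    rw [hder, hfx, norm_mul]
    apply mul_le_mul_of_nonneg_left _ (norm_nonneg _)
    have hle : ∀ s : Multiset (PadicAlgCl p), (∀ a ∈ s, ‖r - a‖ ≤ ‖x - a‖) →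
        ‖(s.map (r - ·)).prod‖ ≤ ‖(s.map (x - ·)).prod‖ := by
      intro s
      induction s using Multiset.induction_on with
      | empty => intro _; simp
      | cons a s ih =>
        intro h
        rw [Multiset.map_cons, Multiset.prod_cons, Multiset.map_cons, Multiset.prod_cons, norm_mul,
          norm_mul]
        apply mul_le_mul (h a (Multiset.mem_cons_self a s))
          (ih (fun b hb => h b (Multiset.mem_cons_of_mem hb))) (norm_nonneg _) (norm_nonneg _)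
    apply hle
    intro a ha
    have ha' : a ∈ f.roots := Multiset.mem_of_mem_erase ha
    have h1 := hmin a (Multiset.mem_toFinset.2 ha')
    have h2 : ‖r - a‖ ≤ max ‖x - a‖ ‖x - r‖ := by
      have := norm_sub_le_max (x - a) (x - r)
      rwa [sub_sub_sub_cancel_left] at this
    exact h2.trans (max_le le_rfl h1)
  · have h1 := hs.eval_eq_prod_roots_of_monic hf x
    rw [h1, hcard]
    have hle : ∀ s : Multiset (PadicAlgCl p), (∀ a ∈ s, ‖x - r‖ ≤ ‖x - a‖) →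
        ‖x - r‖ ^ (Multiset.card s) ≤ ‖(s.map (x - ·)).prod‖ := by
      intro s
      induction s using Multiset.induction_on with
      | empty => intro _; simp
      | cons a s ih =>
        intro h
        rw [Multiset.map_cons, Multiset.prod_cons, norm_mul, Multiset.card_cons, pow_succ']
        apply mul_le_mul (h a (Multiset.mem_cons_self a s))
          (ih (fun b hb => h b (Multiset.mem_cons_of_mem hb))) (by positivity) (norm_nonneg _)
    exact hle _ (fun a ha => hmin a (Multiset.mem_toFinset.2 ha))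

lemma mem_of_fixed (S : IntermediateField ℚ_[p] (PadicAlgCl p)) {x : PadicAlgCl p}
    (h : ∀ σ : PadicAlgCl p ≃ₐ[ℚ_[p]] PadicAlgCl p, (∀ z ∈ S, σ z = z) → σ x = x) : x ∈ S := by
  rw [← InfiniteGalois.fixedField_fixingSubgroup S]
  intro σ
  apply h
  intro z hz
  exact (IntermediateField.mem_fixingSubgroup_iff _ _).1 σ.2 z hz

/-- Krasner-type lemma. -/
lemma root_mem (S : IntermediateField ℚ_[p] (PadicAlgCl p)) (f : (PadicAlgCl p)[X])
    (hf : ∀ i, ‖f.coeff i‖ ≤ 1)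
    (hfix : ∀ σ : PadicAlgCl p ≃ₐ[ℚ_[p]] PadicAlgCl p, ∀ x, f.eval x = 0 → f.eval (σ x) = 0)
    {ρ a : PadicAlgCl p} (hρ : f.eval ρ = 0) (hρ1 : ‖ρ‖ ≤ 1) (ha : a ∈ S)
    (hlt : ‖ρ - a‖ < ‖(derivative f).eval ρ‖) : ρ ∈ S := by
  apply mem_of_fixed
  intro σ hσ
  by_contra hne
  have h1 : ‖σ ρ - ρ‖ ≤ ‖ρ - a‖ := by
    have e : σ ρ - ρ = (σ ρ - a) - (ρ - a) := by ring
    have e2 : ‖σ ρ - a‖ = ‖ρ - a‖ := by
      have : σ ρ - a = σ (ρ - a) := by rw [map_sub, hσ a ha]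
      rw [this, norm_galois]
    rw [e]
    refine (norm_sub_le_max _ _).trans ?_
    rw [e2, max_self]
  obtain ⟨k, hk, htay⟩ := taylor2 hf ρ (σ ρ) hρ1 (by rw [norm_galois]; exact hρ1)
  rw [hfix σ ρ hρ, hρ, zero_add] at htay
  have hne' : σ ρ - ρ ≠ 0 := sub_ne_zero.2 hne
  have h2 : (derivative f).eval ρ = -(k * (σ ρ - ρ)) := by
    apply mul_right_cancel₀ hne'
    linear_combination -htay
  have h3 : ‖(derivative f).eval ρ‖ ≤ ‖ρ - a‖ := by
    rw [h2, norm_neg, norm_mul]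
    calc ‖k‖ * ‖σ ρ - ρ‖ ≤ 1 * ‖σ ρ - ρ‖ := mul_le_mul_of_nonneg_right hk (norm_nonneg _)
      _ = ‖σ ρ - ρ‖ := one_mul _
      _ ≤ _ := h1
  linarith

/-- square roots close to elements of `S` -/
lemma sqrt_mem (hp2 : p ≠ 2) (S : IntermediateField ℚ_[p] (PadicAlgCl p)) {z y : PadicAlgCl p}
    (hz : z ∈ S) (h1 : ‖z - 4‖ < 1) (hy : y ^ 2 = z) : y ∈ S := by
  apply mem_of_fixed
  intro σ hσ
  have h2 : σ y ^ 2 = y ^ 2 := by
    rw [← map_pow, hy, hσ z hz]
  rcases sq_eq_sq_iff_eq_or_eq_neg.1 h2 with h3 | h3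
  · exact h3
  exfalso
  have hσ2 : σ 2 = 2 := map_ofNat σ 2
  have h4 : ‖y - 2‖ = ‖y + 2‖ := by
    have h5 := norm_galois σ (y - 2)
    rw [map_sub, hσ2, h3] at h5
    rw [← h5, ← norm_neg]
    congr 1
    ring
  have h6 : ‖y - 2‖ * ‖y + 2‖ < 1 := by
    rw [← norm_mul]
    have : (y - 2) * (y + 2) = z - 4 := by rw [← hy]; ring
    rwa [this]
  have h7 : ‖y - 2‖ < 1 := by
    by_contra hcon
    push Not at hcon
    rw [← h4] at h6
    nlinarith
  have h8 : ‖y + 2‖ < 1 := by rwa [← h4]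
  have h9 : ‖((4 : ℤ) : PadicAlgCl p)‖ = 1 := by
    apply norm_intCast_eq_one
    intro hd
    have h10 : p ∣ 2 ^ 2 := by exact_mod_cast hd
    have h11 := hp.out.dvd_of_dvd_pow h10
    exact hp2 ((Nat.prime_dvd_prime_iff_eq hp.out Nat.prime_two).1 h11)
  have h10 : ((4 : ℤ) : PadicAlgCl p) = (y + 2) - (y - 2) := by push_cast; ring
  rw [h10] at h9
  have := norm_sub_le_max (y + 2) (y - 2)
  rw [h9] at this
  exact absurd this (not_le.2 (max_lt h8 h7))

end

end Pool.Agent.H291R3.L
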