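import Pool.Agent.H291R3.La

set_option autoImplicit false

/-! Products over embeddings, and the Gauss lemma. -/

namespace Pool.Agent.H291R3.L

open Polynomial Module

noncomputable section

section emb

variable {K L F E : Type*} [Field K] [Field L] [Field F] [Field E] [Algebra K L] [Algebra K F]
  [Algebra K E] [Algebra L F] [IsScalarTower K L F] [IsAlgClosed E] [Algebra.IsSeparable K F]
  [FiniteDimensional K F]

theorem prod_emb_pow (pb : PowerBasis K L) (φ : E → ℝ) :
    ∏ σ : F →ₐ[K] E, φ (σ (algebraMap L F pb.gen)) =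
      ((@Finset.univ _ (PowerBasis.AlgHom.fintype pb)).prod
        fun σ : L →ₐ[K] E => φ (σ pb.gen)) ^ finrank L F := by
  have : FiniteDimensional L F := FiniteDimensional.right K L F
  have : Algebra.IsSeparable L F := Algebra.isSeparable_tower_top_of_isSeparable K L F
  let : Fintype (L →ₐ[K] E) := PowerBasis.AlgHom.fintype pb
  rw [Fintype.prod_equiv algHomEquivSigma (fun σ : F →ₐ[K] E => _) fun σ => φ (σ.1 pb.gen),
    ← Finset.univ_sigma_univ, Finset.prod_sigma, ← Finset.prod_pow]
  · refine Finset.prod_congr rfl fun σ _ => ?_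
    let : Algebra L E := σ.toRingHom.toAlgebra
    simp_rw [Finset.prod_const]
    congr
    exact AlgHom.card L F E
  · intro σ
    simp only [algHomEquivSigma, Equiv.coe_fn_mk, AlgHom.domRestrict, AlgHom.comp_apply,
      IsScalarTower.coe_toAlgHom']

end emb

theorem prod_emb_roots {K L E : Type*} [Field K] [Field L] [Field E] [Algebra K L] [Algebra K E]
    (pb : PowerBasis K L) (φ : E → ℝ) (hsep : IsSeparable K pb.gen) :
    ((@Finset.univ _ (PowerBasis.AlgHom.fintype pb)).prod fun σ : L →ₐ[K] E => φ (σ pb.gen)) =
      (((minpoly K pb.gen).aroots E).map φ).prod := by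
  classical
  rw [@Fintype.prod_equiv (L →ₐ[K] E) _ _ (PowerBasis.AlgHom.fintype pb) _ _ pb.liftEquiv'
    (fun σ => φ (σ pb.gen)) (fun x => φ x) ?_]
  · rw [Finset.prod_mem_multiset _ _ φ, Finset.prod_eq_multiset_prod, Multiset.toFinset_val,
      Multiset.dedup_eq_self.mpr]
    · exact nodup_roots (.map hsep)
    · intro x; rfl
  · intro σ; simp only [PowerBasis.liftEquiv'_apply_coe]

/-- product over all embeddings of a function of the image of `y` -/
theorem prod_embeddings {K E Ω : Type*} [Field K] [Field E] [Algebra K E] [FiniteDimensional K E]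
    [Algebra.IsSeparable K E] [Field Ω]
    [Algebra K Ω] [IsAlgClosed Ω] (y : E) (φ : Ω → ℝ) :
    ∏ σ : E →ₐ[K] Ω, φ (σ y) =
      (((minpoly K y).aroots Ω).map φ).prod ^ (finrank (IntermediateField.adjoin K {y}) E) := by
  have hy : IsIntegral K y := Algebra.IsIntegral.isIntegral y
  set pb := IntermediateField.adjoin.powerBasis hy with hpb
  have hgen : algebraMap (IntermediateField.adjoin K {y}) E pb.gen = y := by
    rw [hpb, IntermediateField.adjoin.powerBasis_gen]
    rfl
  have hmin : minpoly K pb.gen = minpoly K y := by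
    rw [hpb, IntermediateField.adjoin.powerBasis_gen]
    exact IntermediateField.minpoly_gen K y
  have h1 := prod_emb_pow (F := E) (E := Ω) pb φ
  rw [hgen] at h1
  rw [h1, prod_emb_roots pb φ, hmin]
  have : Algebra.IsSeparable K (IntermediateField.adjoin K {y}) :=
    Algebra.isSeparable_tower_bot_of_isSeparable K (IntermediateField.adjoin K {y}) E
  exact Algebra.IsSeparable.isSeparable K _

theorem finrank_mul {K E : Type*} [Field K] [Field E] [Algebra K E] [FiniteDimensional K E]
    (y : E) : (minpoly K y).natDegree * finrank (IntermediateField.adjoin K {y}) E =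
      finrank K E := by
  have hy : IsIntegral K y := Algebra.IsIntegral.isIntegral y
  rw [← IntermediateField.adjoin.finrank hy]
  exact Module.finrank_mul_finrank K (IntermediateField.adjoin K {y}) E

variable {p : ℕ} [hp : Fact p.Prime]

/-- the norm as an absolute value -/
def absv (p : ℕ) [hp : Fact p.Prime] : AbsoluteValue (PadicAlgCl p) ℝ where
  toFun x := ‖x‖
  map_mul' := norm_mul
  nonneg' := norm_nonneg
  eq_zero' := fun _ => norm_eq_zero
  add_le' := norm_add_le

lemma absv_apply (x : PadicAlgCl p) : absv p x = ‖x‖ := rfl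

lemma absv_na : IsNonarchimedean (absv p) := PadicAlgCl.isNonarchimedean p

/-- Gauss' lemma for roots. -/
lemma gauss_roots (f : (PadicAlgCl p)[X]) (hf : ∀ i, ‖f.coeff i‖ ≤ 1) :
    ‖f.leadingCoeff‖ * (f.roots.map (fun z => max 1 ‖z‖)).prod ≤ 1 := by
  have hs : f.Splits := IsAlgClosed.splits f
  have h1 := hs.eq_prod_roots
  have hG : f.gaussNorm (absv p) 1 ≤ 1 := by
    obtain ⟨i, hi⟩ := exists_eq_gaussNorm (absv p) 1 f
    rw [hi, one_pow, mul_one]
    exact hf i
  have hmul : ∀ s : Multiset (PadicAlgCl p),
      (s.map (fun z => max 1 ‖z‖)).prod ≤ ((s.map (fun z => X - C z)).prod).gaussNorm (absv p) 1 := by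
    intro s
    induction s using Multiset.induction_on with
    | empty =>
      simp only [Multiset.map_zero, Multiset.prod_zero]
      have := le_gaussNorm (absv p) (c := 1) (1 : (PadicAlgCl p)[X]) (by norm_num) 0
      simpa [absv_apply] using this
    | cons a s ih =>
      rw [Multiset.map_cons, Multiset.prod_cons, Multiset.map_cons, Multiset.prod_cons,
        gaussNorm_mul absv_na one_pos]
      apply mul_le_mul _ ih _ (gaussNorm_nonneg _ _ (by norm_num))
      · apply max_le
        · have := le_gaussNorm (absv p) (c := 1) (X - C a : (PadicAlgCl p)[X]) (by norm_num) 1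
          simpa [absv_apply, coeff_X, coeff_C] using this
        · have := le_gaussNorm (absv p) (c := 1) (X - C a : (PadicAlgCl p)[X]) (by norm_num) 0
          simpa [absv_apply, coeff_X, coeff_C] using this
      · apply Multiset.prod_nonneg
        intro b hb
        rw [Multiset.mem_map] at hb
        obtain ⟨z, _, rfl⟩ := hb
        positivity
  have h2 : f.gaussNorm (absv p) 1 = ‖f.leadingCoeff‖ *
      ((f.roots.map (fun z => X - C z)).prod).gaussNorm (absv p) 1 := by
    conv_lhs => rw [h1]
    rw [gaussNorm_mul absv_na one_pos, gaussNorm_C]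
    rfl
  calc _ ≤ ‖f.leadingCoeff‖ * ((f.roots.map (fun z => X - C z)).prod).gaussNorm (absv p) 1 :=
        mul_le_mul_of_nonneg_left (hmul _) (norm_nonneg _)
    _ = f.gaussNorm (absv p) 1 := h2.symm
    _ ≤ 1 := hG

end

end Pool.Agent.H291R3.L
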