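import Pool.Agent.H291R3.Lb

set_option autoImplicit false

/-! The basic height inequality. -/

namespace Pool.Agent.H291R3.L

open Polynomial Module

noncomputable section

lemma map_aeval_int {A B : Type*} [CommRing A] [CommRing B] [Algebra ℤ A] [Algebra ℤ B]
    (σ : A →+* B) (x : A) (f : ℤ[X]) : σ (aeval x f) = aeval (σ x) f := by
  rw [aeval_eq_sum_range, aeval_eq_sum_range, map_sum]
  apply Finset.sum_congr rfl
  intro i _
  rw [Algebra.smul_def, Algebra.smul_def, map_mul, map_pow, eq_intCast (algebraMap ℤ A),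
    eq_intCast (algebraMap ℤ B), map_intCast]

lemma natDegree_ne_zero_of_root {E : Type*} [Field E] [CharZero E] [Algebra ℤ E] {f : ℤ[X]}
    (hf : f ≠ 0) {x : E} (h0 : aeval x f = 0) : f.natDegree ≠ 0 := by
  intro h
  rw [eq_C_of_natDegree_eq_zero h, aeval_C] at h0
  have h1 : f.coeff 0 = 0 := by
    have h2 : ((f.coeff 0 : ℤ) : E) = 0 := by simpa using h0
    exact_mod_cast h2
  apply hf
  rw [eq_C_of_natDegree_eq_zero h, h1, C_0]

/-- `f = a * minpoly` over `ℚ`. -/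
lemma map_eq_minpoly {E : Type*} [Field E] [CharZero E] [Algebra ℤ E] [Algebra ℚ E]
    {f : ℤ[X]} (hf : Irreducible f) {x : E} (h0 : aeval x f = 0) :
    f.map (Int.castRingHom ℚ) = C (f.leadingCoeff : ℚ) * minpoly ℚ x := by
  have hprim : f.IsPrimitive := hf.isPrimitive (natDegree_ne_zero_of_root hf.ne_zero h0)
  have hirr : Irreducible (f.map (Int.castRingHom ℚ)) :=
    (IsPrimitive.Int.irreducible_iff_irreducible_map_cast hprim).1 hf
  have hx0 : aeval x (f.map (Int.castRingHom ℚ)) = 0 := by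
    rw [← h0, aeval_def, aeval_def, eval₂_map]
    congr 1
    ext
    simp
  have h1 := minpoly.eq_of_irreducible hirr hx0
  rw [← h1, leadingCoeff_map_of_injective (by exact Int.cast_injective)]
  have h2 : ((f.leadingCoeff : ℤ) : ℚ) ≠ 0 :=
    Int.cast_ne_zero.2 (leadingCoeff_ne_zero.2 hf.ne_zero)
  rw [eq_intCast, mul_comm, mul_assoc, ← C_mul, inv_mul_cancel₀ h2, C_1, mul_one]

/-- the product of `max 1 ‖z‖` over the roots -/
def AA (Ω : Type*) [NormedField Ω] (f : ℤ[X]) : ℝ :=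
  ((f.map (Int.castRingHom Ω)).roots.map (fun z => max 1 ‖z‖)).prod

lemma AA_pos (Ω : Type*) [NormedField Ω] (f : ℤ[X]) : 0 < AA Ω f := by
  unfold AA
  apply Multiset.prod_pos
  intro b hb
  rw [Multiset.mem_map] at hb
  obtain ⟨z, _, rfl⟩ := hb
  exact lt_of_lt_of_le one_pos (le_max_left _ _)

lemma prod_max {E : Type*} [Field E] [CharZero E] [Algebra ℤ E] [Algebra ℚ E]
    [FiniteDimensional ℚ E] (Ω : Type*) [NormedField Ω] [Algebra ℚ Ω] [IsAlgClosed Ω] {f : ℤ[X]}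
    (hf : Irreducible f) {x : E} (h0 : aeval x f = 0) :
    ∏ σ : E →ₐ[ℚ] Ω, max 1 ‖σ x‖ =
      AA Ω f ^ (finrank (IntermediateField.adjoin ℚ {x}) E) := by
  rw [prod_embeddings x (fun z : Ω => max 1 ‖z‖)]
  congr 1
  unfold AA
  have h1 := map_eq_minpoly hf h0
  have h2 : f.map (Int.castRingHom Ω) =
      C (algebraMap ℚ Ω (f.leadingCoeff : ℚ)) * (minpoly ℚ x).map (algebraMap ℚ Ω) := by
    have h3 := congrArg (fun g => g.map (algebraMap ℚ Ω)) h1
    simp only [Polynomial.map_mul, map_C, Polynomial.map_map] at h3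
    rw [← h3]
    congr 1
    ext
    simp
  have hne : algebraMap ℚ Ω (f.leadingCoeff : ℚ) ≠ 0 := by
    rw [Ne, map_eq_zero]
    exact Int.cast_ne_zero.2 (leadingCoeff_ne_zero.2 hf.ne_zero)
  rw [h2, roots_C_mul _ hne, aroots_def]

lemma natDegree_minpoly {E : Type*} [Field E] [CharZero E] [Algebra ℤ E] [Algebra ℚ E]
    {f : ℤ[X]} (hf : Irreducible f) {x : E} (h0 : aeval x f = 0) :
    (minpoly ℚ x).natDegree = f.natDegree := by
  have h1 := map_eq_minpoly hf h0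
  have h2 : ((f.leadingCoeff : ℤ) : ℚ) ≠ 0 :=
    Int.cast_ne_zero.2 (leadingCoeff_ne_zero.2 hf.ne_zero)
  have h3 := congrArg natDegree h1
  rw [natDegree_map_eq_of_injective (by exact Int.cast_injective), natDegree_C_mul h2] at h3
  exact h3.symm

lemma rat_isInt (x : ℚ) (h : ∀ (p : ℕ) [Fact p.Prime], ‖(x : ℚ_[p])‖ ≤ 1) : ∃ m : ℤ, x = m := by
  have hden : x.den = 1 := by
    by_contra hne
    obtain ⟨p, hp, hpd⟩ := Nat.exists_prime_and_dvd hne
    have : Fact p.Prime := ⟨hp⟩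
    have h1 := h p
    have h2 : (x : ℚ_[p]) * ((x.den : ℤ) : ℚ_[p]) = ((x.num : ℤ) : ℚ_[p]) := by
      have := x.mul_den_eq_num
      have h3 := congrArg (fun t : ℚ => (t : ℚ_[p])) this
      push_cast at h3
      push_cast
      exact h3
    have h3 : ‖((x.den : ℤ) : ℚ_[p])‖ < 1 := by
      rw [Padic.norm_intCast_lt_one_iff]
      exact_mod_cast hpd
    have h4 : ‖((x.num : ℤ) : ℚ_[p])‖ < 1 := by
      rw [← h2, norm_mul]
      exact mul_lt_one_of_nonneg_of_lt_one_right h1 (norm_nonneg _) h3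
    rw [Padic.norm_intCast_lt_one_iff] at h4
    have h5 : p ∣ x.num.natAbs := by
      rwa [← Int.natCast_dvd]
    have h6 := Nat.dvd_gcd h5 hpd
    rw [x.reduced.gcd_eq_one] at h6
    exact hp.one_lt.ne' (Nat.dvd_one.1 h6)
  exact ⟨x.num, by rw [← Rat.num_div_den x, hden]; simp⟩

lemma int_mul_norm {p : ℕ} [hp : Fact p.Prime] {m : ℤ} (hm : m ≠ 0) :
    1 ≤ |(m : ℝ)| * ‖(m : ℚ_[p])‖ := by
  have h1 := Padic.norm_eq_zpow_neg_valuation (p := p) (x := (m : ℚ_[p])) (by exact_mod_cast hm)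
  rw [h1]
  set v := (m : ℚ_[p]).valuation with hv
  have hv0 : 0 ≤ v := by
    have h2 := Padic.norm_int_le_one (p := p) m
    rw [h1] at h2
    by_contra hcon
    push Not at hcon
    have h3 : (1 : ℝ) < (p : ℝ) ^ (-v) :=
      one_lt_zpow₀ (by exact_mod_cast hp.out.one_lt) (by omega)
    linarith
  obtain ⟨k, hk⟩ := Int.eq_ofNat_of_zero_le hv0
  have hdvd : ((p ^ k : ℕ) : ℤ) ∣ m := by
    have h3 := (Padic.norm_int_le_pow_iff_dvd (p := p) m k).1 (by rw [h1, hk])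
    exact_mod_cast h3
  have hle : ((p ^ k : ℕ) : ℤ) ≤ |m| := Int.le_of_dvd (abs_pos.2 hm) ((dvd_abs _ _).2 hdvd)
  have hle' : ((p : ℝ) ^ k) ≤ |(m : ℝ)| := by exact_mod_cast hle
  have hp0 : (0 : ℝ) < p := by exact_mod_cast hp.out.pos
  rw [hk, zpow_neg]
  have : ((p : ℝ) ^ ((k : ℕ) : ℤ)) = (p : ℝ) ^ k := zpow_natCast _ _
  rw [this, ← div_eq_mul_inv, le_div_iff₀ (by positivity), one_mul]
  exact hle'

end

end Pool.Agent.H291R3.L
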