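import Pool.Agent.H291R3.Lc

set_option autoImplicit false

/-! The basic height inequality. -/

namespace Pool.Agent.H291R3.L

open Polynomial Module

noncomputable section

lemma norm_pow_sub_le (Ω : Type*) [NormedField Ω] (c : ℝ) (a b : Ω) (m : ℕ)
    (h : ∀ x y : Ω, ‖x - y‖ ≤ c * max ‖x‖ ‖y‖) (hc : 0 ≤ c) :
    ‖a ^ m - b ^ m‖ ≤ c * ((max 1 ‖a‖) ^ m * (max 1 ‖b‖) ^ m) := by
  refine (h _ _).trans (mul_le_mul_of_nonneg_left ?_ hc)
  have ha : (1 : ℝ) ≤ (max 1 ‖a‖) ^ m := one_le_pow₀ (le_max_left _ _)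
  have hb : (1 : ℝ) ≤ (max 1 ‖b‖) ^ m := one_le_pow₀ (le_max_left _ _)
  have ha' : ‖a ^ m‖ ≤ (max 1 ‖a‖) ^ m := by
    rw [norm_pow]; exact pow_le_pow_left₀ (norm_nonneg _) (le_max_right _ _) _
  have hb' : ‖b ^ m‖ ≤ (max 1 ‖b‖) ^ m := by
    rw [norm_pow]; exact pow_le_pow_left₀ (norm_nonneg _) (le_max_right _ _) _
  apply max_le
  · exact ha'.trans (le_mul_of_one_le_right (by positivity) hb)
  · exact hb'.trans (le_mul_of_one_le_left (by positivity) ha)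

theorem height_ineq {E : Type*} [Field E] [CharZero E] [Algebra ℤ E] [Algebra ℚ E]
    [FiniteDimensional ℚ E] {f : ℤ[X]} (hf : Irreducible f) {y y' : E} (hy : aeval y f = 0)
    (hy' : aeval y' f = 0) {m : ℕ} (hne : y ^ m ≠ y' ^ m) {p : ℕ} [hp : Fact p.Prime] {δ : ℝ}
    (hδ0 : 0 < δ) (hδ : ∀ τ : E →+* PadicAlgCl p,
      ‖τ y ^ m - τ y' ^ m‖ ≤ δ * ((max 1 ‖τ y‖) ^ m * (max 1 ‖τ y'‖) ^ m)) :
    1 ≤ (2 * δ) ^ f.natDegree * (f.map (Int.castRingHom ℂ)).mahlerMeasure ^ (2 * m) := by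
  set β : E := y ^ m - y' ^ m with hβ
  have hβ0 : β ≠ 0 := sub_ne_zero.2 hne
  set r : ℚ := Algebra.norm ℚ β with hr
  have hr0 : r ≠ 0 := by rw [hr, Ne, Algebra.norm_eq_zero_iff]; exact hβ0
  set N' := finrank (IntermediateField.adjoin ℚ {y}) E with hN'
  set N := finrank ℚ E with hN
  set n := f.natDegree with hn
  have hn0 : n ≠ 0 := natDegree_ne_zero_of_root hf.ne_zero hy
  have hN1 : n * N' = N := by
    have := finrank_mul (K := ℚ) y
    rwa [natDegree_minpoly hf hy] at this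
  have hN2 : n * finrank (IntermediateField.adjoin ℚ {y'}) E = N := by
    have := finrank_mul (K := ℚ) y'
    rwa [natDegree_minpoly hf hy'] at this
  have hN'' : finrank (IntermediateField.adjoin ℚ {y'}) E = N' :=
    Nat.eq_of_mul_eq_mul_left (Nat.pos_of_ne_zero hn0) (by rw [hN1, hN2])
  have hNpos : 0 < N := finrank_pos
  have hN'pos : 0 < N' := Nat.pos_of_ne_zero (by rintro h; rw [h] at hN1; omega)
  set a : ℤ := f.leadingCoeff with ha
  have ha0 : a ≠ 0 := leadingCoeff_ne_zero.2 hf.ne_zero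
  -- local bounds
  have hlocal : ∀ (ℓ : ℕ) [Fact ℓ.Prime] (c : ℝ), 0 ≤ c →
      (∀ τ : E →+* PadicAlgCl ℓ, ‖τ y ^ m - τ y' ^ m‖ ≤
        c * ((max 1 ‖τ y‖) ^ m * (max 1 ‖τ y'‖) ^ m)) →
      ‖(((a : ℚ) ^ (2 * m * N') * r : ℚ) : ℚ_[ℓ])‖ ≤ c ^ N := by
    intro ℓ hℓ c hc h
    have e1 : ‖(r : ℚ_[ℓ])‖ = ∏ σ : E →ₐ[ℚ] PadicAlgCl ℓ, ‖σ β‖ := by
      have h1 := Algebra.norm_eq_prod_embeddings ℚ (PadicAlgCl ℓ) β
      rw [← norm_ratCast, ← norm_prod, ← h1, ← hr, eq_ratCast]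
    have e2 : ∏ σ : E →ₐ[ℚ] PadicAlgCl ℓ, ‖σ β‖ ≤
        ∏ σ : E →ₐ[ℚ] PadicAlgCl ℓ, (c * ((max 1 ‖σ y‖) ^ m * (max 1 ‖σ y'‖) ^ m)) := by
      apply Finset.prod_le_prod (fun _ _ => norm_nonneg _)
      intro σ _
      rw [hβ, map_sub, map_pow, map_pow]
      exact h (σ : E →+* PadicAlgCl ℓ)
    have e3 : ∏ σ : E →ₐ[ℚ] PadicAlgCl ℓ, (c * ((max 1 ‖σ y‖) ^ m * (max 1 ‖σ y'‖) ^ m)) =
        c ^ N * (AA (PadicAlgCl ℓ) f ^ (2 * m * N')) := by
      rw [Finset.prod_mul_distrib, Finset.prod_mul_distrib, Finset.prod_pow, Finset.prod_pow,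
        prod_max (PadicAlgCl ℓ) hf hy, prod_max (PadicAlgCl ℓ) hf hy', hN'', Finset.prod_const,
        Finset.card_univ, AlgHom.card]
      rw [← pow_mul, ← pow_add]
      congr 2
      ring
    have e4 : ‖(a : ℚ_[ℓ])‖ * AA (PadicAlgCl ℓ) f ≤ 1 := by
      have h1 := gauss_roots (p := ℓ) (f.map (Int.castRingHom (PadicAlgCl ℓ))) (by
        intro i
        rw [coeff_map]
        exact norm_intCast_le_one _)
      rw [leadingCoeff_map_of_injective (by exact Int.cast_injective)] at h1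
      rw [← norm_intCast]
      exact h1
    have hA := AA_pos (PadicAlgCl ℓ) f
    push_cast
    rw [norm_mul, norm_pow, e1]
    calc ‖(a : ℚ_[ℓ])‖ ^ (2 * m * N') * ∏ σ : E →ₐ[ℚ] PadicAlgCl ℓ, ‖σ β‖
        ≤ ‖(a : ℚ_[ℓ])‖ ^ (2 * m * N') * (c ^ N * (AA (PadicAlgCl ℓ) f ^ (2 * m * N'))) := by
          apply mul_le_mul_of_nonneg_left _ (by positivity)
          rw [← e3]; exact e2
      _ = c ^ N * (‖(a : ℚ_[ℓ])‖ * AA (PadicAlgCl ℓ) f) ^ (2 * m * N') := by rw [mul_pow]; ring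
      _ ≤ c ^ N * 1 := by
          apply mul_le_mul_of_nonneg_left _ (by positivity)
          exact pow_le_one₀ (by positivity) e4
      _ = c ^ N := mul_one _
  -- integrality
  obtain ⟨R, hR⟩ := rat_isInt ((a : ℚ) ^ (2 * m * N') * r) (by
    intro ℓ hℓ
    have := hlocal ℓ 1 zero_le_one (by
      intro τ
      apply norm_pow_sub_le _ _ _ _ _ _ zero_le_one
      intro x y
      rw [one_mul]
      exact norm_sub_le_max x y)
    rwa [one_pow] at this)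
  have hR0 : R ≠ 0 := by
    rintro rfl
    rw [Int.cast_zero] at hR
    exact mul_ne_zero (pow_ne_zero _ (Int.cast_ne_zero.2 ha0)) hr0 hR
  have hRp : ‖(R : ℚ_[p])‖ ≤ δ ^ N := by
    have := hlocal p δ hδ0.le hδ
    rw [hR] at this
    push_cast at this
    exact this
  have hR1 := int_mul_norm (p := p) hR0
  -- archimedean bound
  have harch : |(R : ℝ)| ≤ 2 ^ N * (f.map (Int.castRingHom ℂ)).mahlerMeasure ^ (2 * m * N') := by
    have e1 : ‖(r : ℂ)‖ = ∏ σ : E →ₐ[ℚ] ℂ, ‖σ β‖ := by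
      have h1 := Algebra.norm_eq_prod_embeddings ℚ ℂ β
      rw [← norm_prod, ← h1, ← hr, eq_ratCast]
    have e2 : ∏ σ : E →ₐ[ℚ] ℂ, ‖σ β‖ ≤
        ∏ σ : E →ₐ[ℚ] ℂ, (2 * ((max 1 ‖σ y‖) ^ m * (max 1 ‖σ y'‖) ^ m)) := by
      apply Finset.prod_le_prod (fun _ _ => norm_nonneg _)
      intro σ _
      rw [hβ, map_sub, map_pow, map_pow]
      apply norm_pow_sub_le ℂ 2 _ _ _ _ (by norm_num)
      intro x y
      have := norm_sub_le x y
      have h1 := le_max_left ‖x‖ ‖y‖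
      have h2 := le_max_right ‖x‖ ‖y‖
      linarith
    have e3 : ∏ σ : E →ₐ[ℚ] ℂ, (2 * ((max 1 ‖σ y‖) ^ m * (max 1 ‖σ y'‖) ^ m)) =
        2 ^ N * (AA ℂ f ^ (2 * m * N')) := by
      rw [Finset.prod_mul_distrib, Finset.prod_mul_distrib, Finset.prod_pow, Finset.prod_pow,
        prod_max ℂ hf hy, prod_max ℂ hf hy', hN'', Finset.prod_const,
        Finset.card_univ, AlgHom.card]
      rw [← pow_mul, ← pow_add]
      congr 2
      ring
    have hM : (f.map (Int.castRingHom ℂ)).mahlerMeasure = |(a : ℝ)| * AA ℂ f := by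
      rw [mahlerMeasure_eq_leadingCoeff_mul_prod_roots,
        leadingCoeff_map_of_injective (by exact Int.cast_injective), eq_intCast,
        Complex.norm_intCast]
      rfl
    have hRr : |(R : ℝ)| = |(a : ℝ)| ^ (2 * m * N') * ‖(r : ℂ)‖ := by
      have h1 := congrArg (fun t : ℚ => |(t : ℝ)|) hR
      push_cast at h1
      rw [← h1, abs_mul, abs_pow, Complex.norm_ratCast]
    rw [hRr, hM, mul_pow, e1]
    calc |(a : ℝ)| ^ (2 * m * N') * ∏ σ : E →ₐ[ℚ] ℂ, ‖σ β‖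
        ≤ |(a : ℝ)| ^ (2 * m * N') * (2 ^ N * (AA ℂ f ^ (2 * m * N'))) := by
          apply mul_le_mul_of_nonneg_left _ (by positivity)
          rw [← e3]; exact e2
      _ = _ := by ring
  have hM0 : 0 ≤ (f.map (Int.castRingHom ℂ)).mahlerMeasure := mahlerMeasure_nonneg _
  have hfinal : 1 ≤ ((2 * δ) ^ n * (f.map (Int.castRingHom ℂ)).mahlerMeasure ^ (2 * m)) ^ N' := by
    calc (1 : ℝ) ≤ |(R : ℝ)| * ‖(R : ℚ_[p])‖ := hR1
      _ ≤ (2 ^ N * (f.map (Int.castRingHom ℂ)).mahlerMeasure ^ (2 * m * N')) * δ ^ N :=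
          mul_le_mul harch hRp (norm_nonneg _) (by positivity)
      _ = _ := by
          rw [mul_pow, ← pow_mul, ← pow_mul, hN1, mul_pow]
          ring
  by_contra hcon
  push Not at hcon
  have := pow_lt_one₀ (by positivity) hcon hN'pos.ne'
  linarith

end

end Pool.Agent.H291R3.L
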