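import Pool.Agent.H291R3.Ld
import Pool.Agent.H291R3.Bog7

set_option autoImplicit false

/-! The height inequality for conjugate algebraic numbers. -/

namespace Pool.Agent.H291R3.L

open Polynomial Module

noncomputable section

abbrev QQ := AlgebraicClosure ℚ

lemma extend_hom {Ω : Type*} [Field Ω] [IsAlgClosed Ω] (E : IntermediateField ℚ QQ)
    (τ : E →+* Ω) : ∃ τ' : QQ →+* Ω, ∀ x : E, τ' x = τ x := by
  let : Algebra E Ω := τ.toAlgebra
  have : Algebra.IsAlgebraic E QQ := by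
    constructor
    intro x
    have h1 : IsAlgebraic ℚ x := Pool.Agent.H291R3.instAlgQQ.isAlgebraic x
    obtain ⟨g, hg0, hg⟩ := h1
    refine ⟨g.map (algebraMap ℚ E), ?_, ?_⟩
    · exact (Polynomial.map_ne_zero_iff (algebraMap ℚ E).injective).2 hg0
    · rw [aeval_def, eval₂_map, ← hg, aeval_def]
      congr 1
  let ψ : QQ →ₐ[E] Ω := IsAlgClosed.lift
  refine ⟨(ψ : QQ →+* Ω), fun x => ?_⟩
  exact ψ.commutes x

lemma isIntegral_QQ (x : QQ) : IsIntegral ℚ x :=
  (Pool.Agent.H291R3.instAlgQQ.isAlgebraic x).isIntegral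

theorem HI {f : ℤ[X]} (hf : Irreducible f) {y : QQ} (hy : aeval y f = 0) (σ : QQ ≃ₐ[ℚ] QQ)
    {m : ℕ} (hne : y ^ m ≠ (σ y) ^ m) {p : ℕ} [hp : Fact p.Prime] {δ : ℝ}
    (hδ0 : 0 < δ) (hδ4 : δ ≤ 1 / 4) (hδ : ∀ τ : QQ →+* PadicAlgCl p,
      ‖τ y ^ m - τ (σ y) ^ m‖ ≤ δ * ((max 1 ‖τ y‖) ^ m * (max 1 ‖τ (σ y)‖) ^ m)) :
    (f.natDegree : ℝ) * Real.log 2 ≤
      2 * m * Real.log (f.map (Int.castRingHom ℂ)).mahlerMeasure := by
  set E : IntermediateField ℚ QQ := IntermediateField.adjoin ℚ {y, σ y} with hE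
  have hyE : y ∈ E := IntermediateField.subset_adjoin ℚ _ (by simp)
  have hyE' : σ y ∈ E := IntermediateField.subset_adjoin ℚ _ (by simp)
  set Y : E := ⟨y, hyE⟩ with hY
  set Y' : E := ⟨σ y, hyE'⟩ with hY'
  have hfd : @FiniteDimensional ℚ E _ _ (IntermediateField.algebra' E).toModule := by
    apply IntermediateField.finiteDimensional_adjoin
    intro x _
    exact isIntegral_QQ x
  have hinj : Function.Injective (algebraMap E QQ) := (algebraMap E QQ).injective
  have hYf : aeval Y f = 0 := by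
    apply hinj
    rw [map_aeval_int (algebraMap E QQ) Y f, map_zero]
    exact hy
  have hY'f : aeval Y' f = 0 := by
    apply hinj
    rw [map_aeval_int (algebraMap E QQ) Y' f, map_zero]
    have : (algebraMap E QQ) Y' = (σ : QQ →+* QQ) y := rfl
    rw [this, ← map_aeval_int (σ : QQ →+* QQ) y f, hy, map_zero]
  have hne' : Y ^ m ≠ Y' ^ m := by
    intro h
    apply hne
    have := congrArg (algebraMap E QQ) h
    rw [map_pow, map_pow] at this
    exact this
  have h1 := @height_ineq E _ _ _ (IntermediateField.algebra' E) hfd f hf Y Y' hYf hY'f m hne'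
    p hp δ hδ0 (by
      intro τ
      obtain ⟨τ', hτ'⟩ := extend_hom E τ
      have e1 : τ Y = τ' y := (hτ' Y).symm
      have e2 : τ Y' = τ' (σ y) := (hτ' Y').symm
      rw [e1, e2]
      exact hδ τ')
  set M := (f.map (Int.castRingHom ℂ)).mahlerMeasure with hM
  have hMpos : 0 < M := mahlerMeasure_pos_of_ne_zero
    ((Polynomial.map_ne_zero_iff (by exact Int.cast_injective)).2 hf.ne_zero)
  have h2 : (2 : ℝ) ^ f.natDegree ≤ M ^ (2 * m) := by
    have h3 : (2 * δ) ^ f.natDegree ≤ (1 / 2) ^ f.natDegree :=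
      pow_le_pow_left₀ (by positivity) (by linarith) _
    have h4 : (1 : ℝ) ≤ (1 / 2) ^ f.natDegree * M ^ (2 * m) :=
      h1.trans (mul_le_mul_of_nonneg_right h3 (by positivity))
    have h5 : (2 : ℝ) ^ f.natDegree * (1 / 2) ^ f.natDegree = 1 := by
      rw [← mul_pow]; norm_num
    calc (2 : ℝ) ^ f.natDegree = 2 ^ f.natDegree * 1 := (mul_one _).symm
      _ ≤ 2 ^ f.natDegree * ((1 / 2) ^ f.natDegree * M ^ (2 * m)) :=
          mul_le_mul_of_nonneg_left h4 (by positivity)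
      _ = M ^ (2 * m) := by rw [← mul_assoc, h5, one_mul]
  have h3 := Real.log_le_log (by positivity) h2
  rw [Real.log_pow, Real.log_pow] at h3
  push_cast at h3
  exact h3

/-- Galois descent in `QQ`. -/
lemma exists_aut {E : IntermediateField ℚ QQ} {y : QQ} (hy : y ∉ E) :
    ∃ σ : QQ ≃ₐ[ℚ] QQ, (∀ z ∈ E, σ z = z) ∧ σ y ≠ y := by
  by_contra hcon
  push Not at hcon
  apply hy
  have hcl : IsAlgClosure ℚ QQ := ⟨inferInstance, Pool.Agent.H291R3.instAlgQQ⟩
  have hnq : Normal ℚ QQ := IsAlgClosure.normal ℚ _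
  have hsep : Algebra.IsSeparable ℚ QQ := inferInstance
  have hgal : IsGalois ℚ QQ := ⟨⟩
  rw [← InfiniteGalois.fixedField_fixingSubgroup E]
  intro σ
  apply hcon
  intro z hz
  exact (IntermediateField.mem_fixingSubgroup_iff _ _).1 σ.2 z hz

end

end Pool.Agent.H291R3.L
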