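import Pool.Agent.H291R3.Le

set_option autoImplicit false

/-! The tower argument at `2`. -/

namespace Pool.Agent.H291R3.L

open Polynomial Module

noncomputable section

instance fact2 : Fact (Nat.Prime 2) := ⟨Nat.prime_two⟩

lemma norm_two_inv : ‖(2 : PadicAlgCl 2)‖ = 1 / 2 := by
  have := norm_p (p := 2)
  push_cast at this
  exact this

/-- data of a tower -/
structure Tow where
  /-- bottom field -/
  B : IntermediateField ℚ QQ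
  /-- layers -/
  K : ℕ → IntermediateField ℚ QQ
  /-- generators -/
  s : ℕ → QQ
  /-- value group -/
  V : Set ℝ
  hBK : B ≤ K 0
  hmono : ∀ i, K i ≤ K (i + 1)
  hs : ∀ i, s (i + 1) ^ 2 = 2 + s i
  hsK : ∀ i, s i ∈ K i
  hrep : ∀ i, ∀ z ∈ K (i + 1), ∃ α ∈ K i, ∃ β ∈ K i, z = α + β * s (i + 1)
  hVmul : ∀ a ∈ V, ∀ b ∈ V, a * b ∈ V
  hVdiv : ∀ a ∈ V, ∀ b ∈ V, a / b ∈ V
  hV0 : ∀ τ : QQ →+* PadicAlgCl 2, ∀ z ∈ K 0, z ≠ 0 → ‖τ z‖ ∈ V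
  hθ1 : ∀ τ : QQ →+* PadicAlgCl 2, 1 / 4 < ‖τ (2 + s 0)‖
  hθ2 : ∀ τ : QQ →+* PadicAlgCl 2, ∀ v ∈ V, v ^ 2 ≠ ‖τ (2 + s 0)‖
  hND : ∀ i, ∀ z ∈ K (i + 1), z ^ 2 ≠ s (i + 1) ^ 2 - 4
  q : ℕ
  hq : Fact q.Prime
  hT1 : ∀ z ∈ K 1, z ∉ B → ∃ σ : QQ ≃ₐ[ℚ] QQ, σ z ≠ z ∧
    ∀ τ : QQ →+* PadicAlgCl q, ‖τ z - τ (σ z)‖ ≤ 1 / 4 * (max 1 ‖τ z‖ * max 1 ‖τ (σ z)‖)

variable (T : Tow)

namespace Tow

lemma norm_s (τ : QQ →+* PadicAlgCl 2) (i : ℕ) :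
    ‖τ (T.s (i + 1))‖ ^ 2 ^ (i + 1) = ‖τ (2 + T.s 0)‖ ∧
    ‖τ (2 + T.s (i + 1))‖ = ‖τ (T.s (i + 1))‖ := by
  have aux : ∀ u : ℝ, 0 ≤ u → ∀ j : ℕ, u ^ 2 ^ (j + 1) = ‖τ (2 + T.s 0)‖ → 1 / 2 < u := by
    intro u hu j hj
    by_contra hcon
    push Not at hcon
    have h1 : u ^ 2 ^ (j + 1) ≤ (1 / 2) ^ 2 ^ (j + 1) := pow_le_pow_left₀ hu hcon _
    have h2 : (1 / 2 : ℝ) ^ 2 ^ (j + 1) ≤ (1 / 2) ^ 2 := by
      apply pow_le_pow_of_le_one (by norm_num) (by norm_num)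
      calc 2 = 2 ^ 1 := by norm_num
        _ ≤ 2 ^ (j + 1) := Nat.pow_le_pow_right (by norm_num) (by omega)
    have h3 := T.hθ1 τ
    rw [← hj] at h3
    norm_num at h2
    linarith
  have second : ∀ j : ℕ, ‖τ (T.s (j + 1))‖ ^ 2 ^ (j + 1) = ‖τ (2 + T.s 0)‖ →
      ‖τ (2 + T.s (j + 1))‖ = ‖τ (T.s (j + 1))‖ := by
    intro j hj
    have h1 := aux _ (norm_nonneg _) j hj
    rw [map_add, map_ofNat, add_comm]
    apply norm_add_eq_of_lt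
    rw [norm_two_inv]
    exact h1
  have first : ∀ j : ℕ, ‖τ (T.s (j + 1))‖ ^ 2 ^ (j + 1) = ‖τ (2 + T.s 0)‖ := by
    intro j
    induction j with
    | zero =>
      rw [zero_add, pow_one, ← norm_pow, ← map_pow, T.hs 0]
    | succ j ih =>
      have h1 := second j ih
      have h2 : ‖τ (T.s (j + 1 + 1))‖ ^ 2 = ‖τ (T.s (j + 1))‖ := by
        rw [← norm_pow, ← map_pow, T.hs (j + 1), h1]
      rw [pow_succ' 2 (j + 1), pow_mul, h2, ih]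
  exact ⟨first i, second i (first i)⟩

lemma norm_s_pos (τ : QQ →+* PadicAlgCl 2) (i : ℕ) : 0 < ‖τ (T.s (i + 1))‖ := by
  have h1 := (T.norm_s τ i).1
  have h2 := T.hθ1 τ
  by_contra hcon
  have h3 : ‖τ (T.s (i + 1))‖ = 0 := le_antisymm (not_lt.1 hcon) (norm_nonneg _)
  rw [h3, zero_pow (by positivity)] at h1
  linarith

lemma zero_lt_V {τ : QQ →+* PadicAlgCl 2} : 0 < ‖τ (2 + T.s 0)‖ := by
  have := T.hθ1 τ
  linarith

lemma theta_mem_V (τ : QQ →+* PadicAlgCl 2) : ‖τ (2 + T.s 0)‖ ∈ T.V := by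
  apply T.hV0
  · have : (2 : QQ) ∈ T.K 0 := by
      have h : (2 : QQ) = ((2 : ℕ) : QQ) := by norm_num
      rw [h]; exact natCast_mem _ _
    exact add_mem this (T.hsK 0)
  · intro h
    have := T.zero_lt_V (τ := τ)
    rw [h, map_zero, norm_zero] at this
    exact lt_irrefl _ this

/-- values and distinctness -/
lemma values (τ : QQ →+* PadicAlgCl 2) : ∀ i : ℕ,
    (∀ z ∈ T.K i, z ≠ 0 → ‖τ z‖ ^ 2 ^ i ∈ T.V) ∧
    (∀ α ∈ T.K i, ∀ β ∈ T.K i, α ≠ 0 → β ≠ 0 → ‖τ α‖ ≠ ‖τ (β * T.s (i + 1))‖) := by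
  have step : ∀ i : ℕ, (∀ z ∈ T.K i, z ≠ 0 → ‖τ z‖ ^ 2 ^ i ∈ T.V) →
      (∀ α ∈ T.K i, ∀ β ∈ T.K i, α ≠ 0 → β ≠ 0 → ‖τ α‖ ≠ ‖τ (β * T.s (i + 1))‖) := by
    intro i hi α hα β hβ hα0 hβ0 heq
    have h1 := hi α hα hα0
    have h2 := hi β hβ hβ0
    have h3 := T.hVdiv _ h1 _ h2
    apply T.hθ2 τ _ h3
    have h4 := congrArg (fun t => t ^ 2 ^ (i + 1)) heq
    rw [map_mul, norm_mul, mul_pow, (T.norm_s τ i).1] at h4
    have hβn : ‖τ β‖ ≠ 0 := by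
      rw [norm_ne_zero_iff]
      exact (map_ne_zero τ).2 hβ0
    rw [div_pow, ← pow_mul, ← pow_mul, ← pow_succ, h4]
    field_simp
  intro i
  have hP : ∀ z ∈ T.K i, z ≠ 0 → ‖τ z‖ ^ 2 ^ i ∈ T.V := by
    induction i with
    | zero =>
      intro z hz hz0
      rw [pow_zero, pow_one]
      exact T.hV0 τ z hz hz0
    | succ i ih =>
      intro z hz hz0
      obtain ⟨α, hα, β, hβ, rfl⟩ := T.hrep i z hz
      have hsq : ∀ t : QQ, ‖τ t‖ ^ 2 ^ (i + 1) = (‖τ t‖ ^ 2 ^ i) * (‖τ t‖ ^ 2 ^ i) := by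
        intro t
        rw [← pow_add]
        congr 1
        ring
      have hA : α ≠ 0 → ‖τ α‖ ^ 2 ^ (i + 1) ∈ T.V := by
        intro h
        rw [hsq]
        exact T.hVmul _ (ih α hα h) _ (ih α hα h)
      have hB : β ≠ 0 → ‖τ (β * T.s (i + 1))‖ ^ 2 ^ (i + 1) ∈ T.V := by
        intro h
        rw [map_mul, norm_mul, mul_pow, (T.norm_s τ i).1, hsq]
        exact T.hVmul _ (T.hVmul _ (ih β hβ h) _ (ih β hβ h)) _ (T.theta_mem_V τ)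
      by_cases hα0 : α = 0
      · have hβ0 : β ≠ 0 := by
          rintro rfl
          apply hz0
          rw [hα0]; ring
        rw [hα0, zero_add]
        exact hB hβ0
      · by_cases hβ0 : β = 0
        · rw [hβ0, zero_mul, add_zero]
          exact hA hα0
        · have hne := step i ih α hα β hβ hα0 hβ0
          rw [map_add, norm_add_eq_max hne]
          rcases max_choice ‖τ α‖ ‖τ (β * T.s (i + 1))‖ with h | h
          · rw [h]; exact hA hα0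
          · rw [h]; exact hB hβ0
  exact ⟨hP, step i hP⟩

lemma norm_sum (τ : QQ →+* PadicAlgCl 2) (i : ℕ) {α β : QQ} (hα : α ∈ T.K i) (hβ : β ∈ T.K i) :
    ‖τ (α + β * T.s (i + 1))‖ = max ‖τ α‖ ‖τ (β * T.s (i + 1))‖ ∧
    ‖τ (α - β * T.s (i + 1))‖ = max ‖τ α‖ ‖τ (β * T.s (i + 1))‖ := by
  by_cases hα0 : α = 0
  · rw [hα0, zero_add, zero_sub, map_zero, map_neg, norm_neg, norm_zero,
      max_eq_right (norm_nonneg _)]
    exact ⟨rfl, rfl⟩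
  by_cases hβ0 : β = 0
  · rw [hβ0, zero_mul, add_zero, sub_zero, map_zero, norm_zero, max_eq_left (norm_nonneg _)]
    exact ⟨rfl, rfl⟩
  have hne := (T.values τ i).2 α hα β hβ hα0 hβ0
  constructor
  · rw [map_add, norm_add_eq_max hne]
  · rw [sub_eq_add_neg, map_add, map_neg, norm_add_eq_max (by rwa [norm_neg]), norm_neg]

/-- the conjugation inequality -/
lemma conj_ineq (τ : QQ →+* PadicAlgCl 2) (i : ℕ) {α β : QQ} (hα : α ∈ T.K i) (hβ : β ∈ T.K i) :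
    ‖τ (α + β * T.s (i + 1)) ^ 2 - τ (α - β * T.s (i + 1)) ^ 2‖ ≤
      1 / 4 * (‖τ (α + β * T.s (i + 1))‖ * ‖τ (α - β * T.s (i + 1))‖) := by
  obtain ⟨h1, h2⟩ := T.norm_sum τ i hα hβ
  rw [h1, h2]
  have e : τ (α + β * T.s (i + 1)) ^ 2 - τ (α - β * T.s (i + 1)) ^ 2 =
      2 * 2 * (τ α * τ (β * T.s (i + 1))) := by
    rw [map_add, map_sub]; ring
  rw [e, norm_mul, norm_mul, norm_mul, norm_two_inv]
  have h3 := le_max_left ‖τ α‖ ‖τ (β * T.s (i + 1))‖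
  have h4 := le_max_right ‖τ α‖ ‖τ (β * T.s (i + 1))‖
  have h5 := mul_le_mul h3 h4 (norm_nonneg _) ((norm_nonneg _).trans h3)
  linarith

end Tow

end

end Pool.Agent.H291R3.L
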