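import Pool.Agent.H291R3.Lf

set_option autoImplicit false

/-! The lower bound for new elements in a tower. -/

namespace Pool.Agent.H291R3.L

open Polynomial Module

noncomputable section

lemma max_one_sq {x : ℝ} (hx : 0 ≤ x) (m : ℕ) : max 1 (x ^ m) ≤ (max 1 x) ^ m := by
  apply max_le
  · exact one_le_pow₀ (le_max_left _ _)
  · exact pow_le_pow_left₀ hx (le_max_right _ _) _

lemma log_mahler_nonneg {f : ℤ[X]} (hf : f ≠ 0) :
    0 ≤ Real.log (f.map (Int.castRingHom ℂ)).mahlerMeasure := by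
  apply Real.log_nonneg
  have h1 := leadingCoeff_le_mahlerMeasure (f.map (Int.castRingHom ℂ))
  have h2 : 1 ≤ ‖(f.map (Int.castRingHom ℂ)).leadingCoeff‖ := by
    rw [leadingCoeff_map_of_injective (by exact Int.cast_injective), eq_intCast,
      Complex.norm_intCast]
    exact_mod_cast Int.one_le_abs (leadingCoeff_ne_zero.2 hf)
  linarith

namespace Tow

variable (T : Tow)

lemma K_mono : Monotone T.K := monotone_nat_of_le_succ T.hmono

/-- (T1) applied to `y` or to `y^2`. -/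
lemma bound_T1 {y : QQ} {m : ℕ} (hz : y ^ m ∈ T.K 1) (hzB : y ^ m ∉ T.B) {f : ℤ[X]}
    (hf : Irreducible f) (hy : aeval y f = 0) :
    (f.natDegree : ℝ) * Real.log 2 ≤
      2 * m * Real.log (f.map (Int.castRingHom ℂ)).mahlerMeasure := by
  obtain ⟨σ, hσ, hτ⟩ := T.hT1 _ hz hzB
  have : Fact T.q.Prime := T.hq
  apply HI hf hy σ (m := m) (p := T.q) (δ := 1 / 4) _ (by norm_num) le_rfl
  · intro τ
    have h1 := hτ τ
    rw [map_pow, map_pow, map_pow] at h1
    refine h1.trans ?_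
    apply mul_le_mul_of_nonneg_left _ (by norm_num)
    rw [norm_pow, norm_pow]
    exact mul_le_mul (max_one_sq (norm_nonneg _) m) (max_one_sq (norm_nonneg _) m)
      (by positivity) (by positivity)
  · intro h
    apply hσ
    rw [map_pow, ← h]

/-- inequality to feed `HI` -/
lemma bound_T2 {y z : QQ} {m : ℕ} (hyz : y ^ m = z) (i : ℕ) {α β : QQ} (hα : α ∈ T.K i)
    (hβ : β ∈ T.K i) (hz : z = α + β * T.s (i + 1)) (σ : QQ ≃ₐ[ℚ] QQ)
    (hσ : σ z = α - β * T.s (i + 1)) (hne : z ^ 2 ≠ (σ z) ^ 2) {f : ℤ[X]}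
    (hf : Irreducible f) (hy : aeval y f = 0) :
    (f.natDegree : ℝ) * Real.log 2 ≤
      2 * (2 * m) * Real.log (f.map (Int.castRingHom ℂ)).mahlerMeasure := by
  have key := HI hf hy σ (m := m * 2) (p := 2) (δ := 1 / 4) (by
    rw [pow_mul, pow_mul, ← map_pow σ y m, hyz]
    exact hne) (by norm_num) le_rfl (by
    intro τ
    have h1 := T.conj_ineq τ i hα hβ
    rw [← hz, ← hσ, ← hyz, map_pow, map_pow, map_pow] at h1
    rw [pow_mul, pow_mul]
    refine h1.trans ?_
    apply mul_le_mul_of_nonneg_left _ (by norm_num)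
    rw [norm_pow, norm_pow]
    have h2 : ∀ u : ℝ, 0 ≤ u → u ^ m ≤ (max 1 u) ^ (m * 2) := by
      intro u hu
      have h3 : (1 : ℝ) ≤ max 1 u := le_max_left _ _
      calc u ^ m ≤ (max 1 u) ^ m := pow_le_pow_left₀ hu (le_max_right _ _) _
        _ ≤ (max 1 u) ^ (m * 2) := pow_le_pow_right₀ h3 (by omega)
    exact mul_le_mul (h2 _ (norm_nonneg _)) (h2 _ (norm_nonneg _)) (by positivity)
      (by positivity))
  push_cast at key
  linarith

lemma conj_s {i : ℕ} {σ : QQ ≃ₐ[ℚ] QQ} (hσ : ∀ z ∈ T.K i, σ z = z) :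
    σ (T.s (i + 1)) = T.s (i + 1) ∨ σ (T.s (i + 1)) = -T.s (i + 1) := by
  apply sq_eq_sq_iff_eq_or_eq_neg.1
  rw [← map_pow, T.hs i, map_add, map_ofNat, hσ _ (T.hsK i)]

/-- elements of `K (i+1)` not in `K i`: decomposition with an automorphism -/
lemma decomp {i : ℕ} {y : QQ} (hy : y ∈ T.K (i + 1)) (hy' : y ∉ T.K i) :
    ∃ σ : QQ ≃ₐ[ℚ] QQ, ∃ α ∈ T.K i, ∃ β ∈ T.K i, y = α + β * T.s (i + 1) ∧
      σ y = α - β * T.s (i + 1) ∧ (∀ z ∈ T.K i, σ z = z) ∧ σ (T.s (i + 1)) = -T.s (i + 1) := by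
  obtain ⟨α, hα, β, hβ, h⟩ := T.hrep i y hy
  obtain ⟨σ, hσ, hσy⟩ := exists_aut hy'
  have hs : σ (T.s (i + 1)) = -T.s (i + 1) := by
    rcases T.conj_s hσ with h1 | h1
    · exfalso
      apply hσy
      rw [h, map_add, map_mul, hσ α hα, hσ β hβ, h1]
    · exact h1
  refine ⟨σ, α, hα, β, hβ, h, ?_, hσ, hs⟩
  rw [h, map_add, map_mul, hσ α hα, hσ β hβ, hs]
  ring

lemma mem_two (i : ℕ) : (2 : QQ) ∈ T.K i := by
  have h : (2 : QQ) = ((2 : ℕ) : QQ) := by norm_num
  rw [h]; exact natCast_mem _ _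

theorem main (k : ℕ) {y : QQ} (hyk : y ∈ T.K k) (hyB : y ∉ T.B) {f : ℤ[X]}
    (hf : Irreducible f) (hy : aeval y f = 0) :
    (f.natDegree : ℝ) * Real.log 2 ≤ 8 * Real.log (f.map (Int.castRingHom ℂ)).mahlerMeasure := by
  have hlog := log_mahler_nonneg hf.ne_zero
  by_cases h1 : y ∈ T.K 1
  · have := T.bound_T1 (m := 1) (by rwa [pow_one]) (by rwa [pow_one]) hf hy
    push_cast at this
    linarith
  -- minimal layer
  classical
  have hex : ∃ i, y ∈ T.K i := ⟨k, hyk⟩
  obtain ⟨i, hi, hmin⟩ : ∃ i, y ∈ T.K i ∧ ∀ j < i, y ∉ T.K j :=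
    ⟨Nat.find hex, Nat.find_spec hex, fun j hj => Nat.find_min hex hj⟩
  have hi2 : 2 ≤ i := by
    by_contra hcon
    apply h1
    exact T.K_mono (by omega : i ≤ 1) hi
  obtain ⟨j, rfl⟩ : ∃ j, i = j + 1 + 1 := ⟨i - 2, by omega⟩
  have hy' : y ∉ T.K (j + 1) := hmin _ (by omega)
  obtain ⟨σ, α, hα, β, hβ, hyab, hσy, hσ, hσs⟩ := T.decomp hi hy'
  by_cases hsq : y ^ 2 = (σ y) ^ 2
  · -- `y = - σ y`
    have hyσ : y ≠ σ y := by
      intro h
      have h2 : β * T.s (j + 1 + 1) = 0 := by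
        have h3 : α + β * T.s (j + 1 + 1) = α - β * T.s (j + 1 + 1) := by
          rw [← hyab, ← hσy]; exact h
        linear_combination (1 / 2) * h3
      apply hy'
      rw [hyab, h2, add_zero]
      exact hα
    have hneg : y = -σ y := (sq_eq_sq_iff_eq_or_eq_neg.1 hsq).resolve_left hyσ
    have hα0 : α = 0 := by
      have h3 : α + β * T.s (j + 1 + 1) = -(α - β * T.s (j + 1 + 1)) := by
        rw [← hyab, ← hσy]; exact hneg
      linear_combination (1 / 2) * h3
    rw [hα0, zero_add] at hyab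
    have hβ0 : β ≠ 0 := by
      rintro rfl
      apply hy'
      rw [hyab, zero_mul]
      exact zero_mem _
    set z : QQ := y ^ 2 with hz
    have hzβ : z = β ^ 2 * (2 + T.s (j + 1)) := by
      rw [hz, hyab, mul_pow, T.hs (j + 1)]
    have hzK : z ∈ T.K (j + 1) := by
      rw [hzβ]
      exact mul_mem (pow_mem hβ 2) (add_mem (T.mem_two _) (T.hsK _))
    have hz0 : z ≠ 0 := by
      rw [hz, hyab]
      apply pow_ne_zero
      apply mul_ne_zero hβ0
      intro h
      obtain ⟨τ⟩ : Nonempty (QQ →+* PadicAlgCl 2) :=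
        ⟨(extend_hom ⊥ ((algebraMap ℚ (PadicAlgCl 2)).comp
          (IntermediateField.botEquiv ℚ QQ : (⊥ : IntermediateField ℚ QQ) →+* ℚ))).choose⟩
      have := T.norm_s_pos τ (j + 1)
      rw [h, map_zero, norm_zero] at this
      exact lt_irrefl _ this
    have hzK' : z ∉ T.K j := by
      intro hzj
      obtain ⟨τ⟩ : Nonempty (QQ →+* PadicAlgCl 2) :=
        ⟨(extend_hom ⊥ ((algebraMap ℚ (PadicAlgCl 2)).comp
          (IntermediateField.botEquiv ℚ QQ : (⊥ : IntermediateField ℚ QQ) →+* ℚ))).choose⟩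
      have v1 := (T.values τ (j + 1)).1 β hβ hβ0
      have v2 := (T.values τ j).1 z hzj hz0
      have h4 : ‖τ z‖ = ‖τ β‖ ^ 2 * ‖τ (T.s (j + 1 + 1))‖ ^ 2 := by
        rw [hz, hyab, map_pow, map_mul, norm_pow, norm_mul, mul_pow]
      have h5 := (T.norm_s τ (j + 1)).1
      apply T.hθ2 τ _ (T.hVdiv _ v2 _ v1)
      rw [← h5, div_pow, ← pow_mul, ← pow_succ, h4, mul_pow, ← pow_mul, ← pow_mul]
      have hβn : ‖τ β‖ ≠ 0 := by
        rw [norm_ne_zero_iff]
        exact (map_ne_zero τ).2 hβ0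
      have e1 : 2 * 2 ^ (j + 1) = 2 ^ (j + 1 + 1) := by ring
      have e2 : (‖τ β‖ ^ 2 ^ (j + 1)) ^ 2 = ‖τ β‖ ^ 2 ^ (j + 1 + 1) := by
        rw [← pow_mul]; congr 1
      rw [e1, e2]
      field_simp
    rcases Nat.eq_zero_or_pos j with hj | hj
    · subst hj
      have hzB : z ∉ T.B := fun h => hzK' (T.hBK h)
      have := T.bound_T1 (m := 2) hzK hzB hf hy
      push_cast at this
      linarith
    · obtain ⟨σ', α', hα', β', hβ', hzab, hσz, hσ', hσs'⟩ := T.decomp hzK hzK'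
      by_cases hsq' : z ^ 2 = (σ' z) ^ 2
      · exfalso
        have hzσ : z ≠ σ' z := by
          intro h
          have h2 : β' * T.s (j + 1) = 0 := by
            have h3 : α' + β' * T.s (j + 1) = α' - β' * T.s (j + 1) := by
              rw [← hzab, ← hσz]; exact h
            linear_combination (1 / 2) * h3
          apply hzK'
          rw [hzab, h2, add_zero]
          exact hα'
        have hneg' : z = -σ' z := (sq_eq_sq_iff_eq_or_eq_neg.1 hsq').resolve_left hzσ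
        obtain ⟨a, ha, b, hb, hβab⟩ := T.hrep j β hβ
        have hσβ : σ' β = a - b * T.s (j + 1) := by
          rw [hβab, map_add, map_mul, hσ' a ha, hσ' b hb, hσs']
          ring
        have hσβK : σ' β ∈ T.K (j + 1) := by
          rw [hσβ]
          exact sub_mem (T.hmono j ha) (mul_mem (T.hmono j hb) (T.hsK _))
        have hσβ0 : σ' β ≠ 0 := by
          rw [Ne, map_eq_zero]; exact hβ0
        have hσz2 : σ' z = (σ' β) ^ 2 * (2 - T.s (j + 1)) := by
          rw [hzβ, map_mul, map_pow, map_add, map_ofNat, hσs']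
          ring
        apply T.hND j (z / (β * σ' β)) (div_mem hzK (mul_mem hβ hσβK))
        have h6 : z * z = (β * σ' β) ^ 2 * (T.s (j + 1) ^ 2 - 4) := by
          have h7 : z * σ' z = β ^ 2 * (2 + T.s (j + 1)) * ((σ' β) ^ 2 * (2 - T.s (j + 1))) := by
            rw [← hzβ, ← hσz2]
          have h8 : σ' z = -z := by rw [hneg']; ring_nf; rw [← hneg']; 
          rw [h8] at h7
          linear_combination -h7
        have h9 : β * σ' β ≠ 0 := mul_ne_zero hβ0 hσβ0
        rw [div_pow, pow_two z, h6]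
        field_simp
      · have := T.bound_T2 (m := 2) (y := y) rfl j hα' hβ' hzab σ' hσz hsq' hf hy
        push_cast at this
        linarith
  · have := T.bound_T2 (m := 1) (pow_one y) (j + 1) hα hβ hyab σ hσy hsq hf hy
    push_cast at this
    linarith

end Tow

end

end Pool.Agent.H291R3.L
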