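import Pool.Agent.H291R3.Lg

set_option autoImplicit false

/-! Totally split primes. -/

namespace Pool.Agent.H291R3.L

open Polynomial Module

noncomputable section

/-- finite-dimensionality of an intermediate field of `QQ / ℚ` -/
abbrev FD (N : IntermediateField ℚ QQ) : Prop :=
  @FiniteDimensional ℚ N _ _ (IntermediateField.algebra' N).toModule

lemma prim (N : IntermediateField ℚ QQ) (h : FD N) :
    ∃ α : QQ, IntermediateField.adjoin ℚ {α} = N := by
  obtain ⟨α, hα⟩ := @Field.exists_primitive_element ℚ N _ _ (IntermediateField.algebra' N) h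
    (by infer_instance)
  have h1 := congrArg IntermediateField.lift hα
  rw [IntermediateField.lift_top] at h1
  exact ⟨(α : QQ), (IntermediateField.lift_adjoin_simple ℚ N α).symm.trans h1⟩

/-- integer polynomial -/
lemma exists_irred (x : QQ) : ∃ f : ℤ[X], Irreducible f ∧ aeval x f = 0 := by
  -- an integer polynomial vanishing at x
  have hx := Pool.Agent.H291R3.instAlgQQ.isAlgebraic x
  obtain ⟨g, hg0, hg⟩ := hx
  obtain ⟨b, hb, hbg⟩ := IsLocalization.integerNormalization_spec (nonZeroDivisors ℤ) g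
  set q := IsLocalization.integerNormalization (nonZeroDivisors ℤ) g with hq
  have hb0 : b ≠ 0 := nonZeroDivisors.ne_zero hb
  have hbg' : q.map (algebraMap ℤ ℚ) = C (b : ℚ) * g := by
    rw [hbg, zsmul_eq_mul, map_intCast]
  have hq0 : q ≠ 0 := by
    intro h
    rw [h, Polynomial.map_zero] at hbg'
    exact mul_ne_zero (C_ne_zero.2 (Int.cast_ne_zero.2 hb0 : (b : ℚ) ≠ 0)) hg0 hbg'.symm
  have hqx : aeval x q = 0 := by
    have h1 : aeval x (q.map (algebraMap ℤ ℚ)) = 0 := by
      rw [hbg', map_mul, hg, mul_zero]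
    rw [← h1]
    exact (Pool.Agent.H291R3.aeval_map_int_rat q x).symm
  -- factor
  obtain ⟨u, hu⟩ := UniqueFactorizationMonoid.factors_prod hq0
  have h2 : aeval x (UniqueFactorizationMonoid.factors q).prod = 0 := by
    have h3 := congrArg (aeval x) hu
    rw [map_mul, hqx] at h3
    rcases mul_eq_zero.1 h3 with h4 | h4
    · exact h4
    · exact absurd h4 ((u.isUnit.map (aeval x)).ne_zero)
  rw [map_multiset_prod, Multiset.prod_eq_zero_iff, Multiset.mem_map] at h2
  obtain ⟨f, hf, hf0⟩ := h2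
  exact ⟨f, UniqueFactorizationMonoid.irreducible_of_factor f hf, hf0⟩

/-- transport of roots -/
lemma root_lift {Ω : Type*} [Field Ω] [CharZero Ω] [Algebra ℤ Ω] (ρ : QQ →+* Ω) {f : ℤ[X]}
    (hf : f ≠ 0) {z : Ω} (hz : aeval z f = 0) : ∃ θ : QQ, aeval θ f = 0 ∧ ρ θ = z := by
  have hs : (f.map (algebraMap ℤ QQ)).Splits := IsAlgClosed.splits _
  have h1 := hs.roots_map ρ
  have h0 : f.map (algebraMap ℤ QQ) ≠ 0 :=
    (Polynomial.map_ne_zero_iff (by exact (algebraMap ℤ QQ).injective_int)).2 hf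
  have h2 : (f.map (algebraMap ℤ QQ)).map ρ ≠ 0 := (Polynomial.map_ne_zero_iff ρ.injective).2 h0
  have h3 : z ∈ ((f.map (algebraMap ℤ QQ)).map ρ).roots := by
    rw [mem_roots h2, IsRoot.def, Polynomial.map_map, ← hz, aeval_def, eval_map]
    congr 1
    ext
    simp
  rw [h1, Multiset.mem_map] at h3
  obtain ⟨θ, hθ, hθz⟩ := h3
  refine ⟨θ, ?_, hθz⟩
  rw [mem_roots h0, IsRoot.def, eval_map_algebraMap] at hθ
  exact hθ

lemma normalQQ : Normal ℚ QQ := by
  have hcl : IsAlgClosure ℚ QQ := ⟨inferInstance, Pool.Agent.H291R3.instAlgQQ⟩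
  exact IsAlgClosure.normal ℚ _

lemma conj_aut {f : ℤ[X]} (hf : Irreducible f) {x x' : QQ} (hx : aeval x f = 0)
    (hx' : aeval x' f = 0) : ∃ g : QQ ≃ₐ[ℚ] QQ, g x = x' := by
  have h1 := map_eq_minpoly hf hx
  have h2 := map_eq_minpoly hf hx'
  have h3 : minpoly ℚ x' = minpoly ℚ x := by
    have hne : C (f.leadingCoeff : ℚ) ≠ 0 :=
      C_ne_zero.2 (Int.cast_ne_zero.2 (leadingCoeff_ne_zero.2 hf.ne_zero))
    apply mul_left_cancel₀ hne
    rw [← h1, ← h2]
  have := normalQQ
  obtain ⟨g, hg⟩ := (Normal.minpoly_eq_iff_mem_orbit QQ).1 h3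
  exact ⟨g, hg⟩

lemma embed_root {Ω : Type*} [Field Ω] [CharZero Ω] [IsAlgClosed Ω] {f : ℤ[X]}
    (hf : Irreducible f) {x : QQ} (hx : aeval x f = 0) {z : Ω}
    (hz : eval₂ (Int.castRingHom Ω) z f = 0) :
    ∃ τ : QQ →+* Ω, τ x = z := by
  let : Algebra ℚ Ω := DivisionRing.toRatAlgebra
  have h1 := map_eq_minpoly hf hx
  have hr0 : aeval z (minpoly ℚ x) = 0 := by
    have h2 : aeval z (f.map (Int.castRingHom ℚ)) = 0 := by
      rw [aeval_def, eval₂_map, ← hz]
      congr 1
      ext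
      simp
    rw [h1, map_mul, aeval_C] at h2
    refine (mul_eq_zero.1 h2).resolve_left ?_
    rw [map_eq_zero]
    exact Int.cast_ne_zero.2 (leadingCoeff_ne_zero.2 hf.ne_zero)
  obtain ⟨φ, hφ⟩ := IntermediateField.exists_algHom_of_splits_of_aeval
    (F := ℚ) (E := QQ) (K := Ω)
    (fun s => ⟨isIntegral_QQ s, IsAlgClosed.splits _⟩) hr0
  exact ⟨(φ : QQ →+* Ω), hφ⟩

/-- primes dividing values of a polynomial -/
lemma prime_dvd_value (f : ℤ[X]) (hf : f.natDegree ≠ 0) (B : ℕ) :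
    ∃ q : ℕ, q.Prime ∧ B < q ∧ ∃ c : ℤ, (q : ℤ) ∣ f.eval c := by
  by_cases h0 : f.eval 0 = 0
  · obtain ⟨q, hq, hqp⟩ := Nat.exists_infinite_primes (B + 1)
    exact ⟨q, hqp, by omega, 0, by rw [h0]; exact dvd_zero _⟩
  set a := f.eval 0 with ha
  set T : ℤ := (Nat.factorial B : ℤ) with hT
  have hT0 : T ≠ 0 := by rw [hT]; exact_mod_cast (Nat.factorial_pos B).ne'
  -- values f(a T x) = a (1 + T x h)
  have hdiv : ∀ x : ℤ, ∃ w : ℤ, f.eval (a * T * x) = a * w ∧ T ∣ w - 1 := by
    intro x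
    have h1 : (a * T * x - 0) ∣ f.eval (a * T * x) - f.eval 0 := sub_dvd_eval_sub _ _ f
    obtain ⟨h, hh⟩ := h1
    rw [sub_zero] at hh
    refine ⟨1 + T * x * h, ?_, ⟨x * h, by ring⟩⟩
    rw [← ha] at hh
    linear_combination hh
  -- choose x with |w| ≠ 1
  obtain ⟨x, hx⟩ : ∃ x : ℤ, f.eval (a * T * x) ≠ a ∧ f.eval (a * T * x) ≠ -a := by
    by_contra hcon
    push Not at hcon
    have hg : ((f - C a) * (f + C a)).natDegree ≠ 0 := by
      have h1 : (f - C a).natDegree = f.natDegree := natDegree_sub_C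
      have h2 : (f + C a).natDegree = f.natDegree := natDegree_add_C
      have h3 : f - C a ≠ 0 := by
        intro h; rw [h, natDegree_zero] at h1; exact hf h1.symm
      have h4 : f + C a ≠ 0 := by
        intro h; rw [h, natDegree_zero] at h2; exact hf h2.symm
      rw [natDegree_mul h3 h4, h1, h2]
      omega
    have hg0 : (f - C a) * (f + C a) = 0 := by
      apply eq_zero_of_infinite_isRoot
      apply Set.infinite_of_injective_forall_mem (f := fun x : ℤ => a * T * x)
      · intro x y hxy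
        exact mul_left_cancel₀ (mul_ne_zero h0 hT0) hxy
      · intro x
        rw [Set.mem_ofPred_eq, IsRoot.def, eval_mul, eval_sub, eval_add, eval_C]
        rcases eq_or_ne (f.eval (a * T * x)) a with h | h
        · rw [h]; ring
        · rw [hcon x h]; ring
    rw [hg0] at hg
    exact hg natDegree_zero
  obtain ⟨w, hw, hTw⟩ := hdiv x
  have hw1 : w.natAbs ≠ 1 := by
    intro h
    rcases Int.natAbs_eq w with h1 | h1
    · rw [h] at h1
      apply hx.1
      rw [hw, h1]; simp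
    · rw [h] at h1
      apply hx.2
      rw [hw, h1]; simp
  obtain ⟨q, hq, hqw⟩ := Nat.exists_prime_and_dvd hw1
  have hqw' : (q : ℤ) ∣ w := Int.natCast_dvd.2 hqw
  refine ⟨q, hq, ?_, a * T * x, ?_⟩
  · by_contra hcon
    push Not at hcon
    have h1 : (q : ℤ) ∣ T := by
      rw [hT]
      exact_mod_cast (Nat.Prime.dvd_factorial hq).2 hcon
    have h2 : (q : ℤ) ∣ 1 := by
      have h3 := dvd_sub hqw' (h1.trans hTw)
      simpa using h3
    have h4 : q ∣ 1 := by exact_mod_cast h2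
    exact hq.one_lt.ne' (Nat.dvd_one.1 h4)
  · rw [hw]
    exact Dvd.dvd.mul_left hqw' _

end

end Pool.Agent.H291R3.L
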