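import Pool.Agent.H291R3.Lh

set_option autoImplicit false

/-! Totally split primes. -/

namespace Pool.Agent.H291R3.L

open Polynomial Module

noncomputable section

lemma clear_denoms (a : ℚ[X]) : ∃ D : ℤ, D ≠ 0 ∧ ∃ A : ℤ[X],
    A.map (Int.castRingHom ℚ) = C (D : ℚ) * a := by
  obtain ⟨b, hb, hbg⟩ := IsLocalization.integerNormalization_spec (nonZeroDivisors ℤ) a
  refine ⟨b, nonZeroDivisors.ne_zero hb,
    IsLocalization.integerNormalization (nonZeroDivisors ℤ) a, ?_⟩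
  have : (Int.castRingHom ℚ) = algebraMap ℤ ℚ := rfl
  rw [this, hbg, zsmul_eq_mul, map_intCast]

lemma bezout {f : ℤ[X]} (hf : Irreducible f) (hd : f.natDegree ≠ 0) :
    ∃ D : ℤ, D ≠ 0 ∧ ∃ u v : ℤ[X], u * f + v * derivative f = C D := by
  have hprim : f.IsPrimitive := hf.isPrimitive hd
  have hirr : Irreducible (f.map (Int.castRingHom ℚ)) :=
    (IsPrimitive.Int.irreducible_iff_irreducible_map_cast hprim).1 hf
  obtain ⟨a, b, hab⟩ := hirr.separable
  obtain ⟨da, hda, A, hA⟩ := clear_denoms a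
  obtain ⟨db, hdb, B, hB⟩ := clear_denoms b
  refine ⟨da * db, mul_ne_zero hda hdb, C db * A, C da * B, ?_⟩
  apply Polynomial.map_injective (Int.castRingHom ℚ) Int.cast_injective
  simp only [Polynomial.map_add, Polynomial.map_mul, map_C, hA, hB, C_mul]
  rw [derivative_map] at hab
  simp only [eq_intCast]
  linear_combination (C (da : ℚ) * C (db : ℚ)) * hab

theorem tot_split (N : IntermediateField ℚ QQ) (hN : FD N)
    (hstab : ∀ g : QQ ≃ₐ[ℚ] QQ, ∀ x ∈ N, g x ∈ N) (B : ℕ) :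
    ∃ q : ℕ, ∃ _ : Fact q.Prime, B < q ∧ ∀ τ : QQ →+* PadicAlgCl q, ∀ x ∈ N,
      τ x ∈ (⊥ : IntermediateField ℚ_[q] (PadicAlgCl q)) := by
  obtain ⟨α, hα⟩ := prim N hN
  obtain ⟨f, hf, hfα⟩ := exists_irred α
  have hd := natDegree_ne_zero_of_root hf.ne_zero hfα
  obtain ⟨D, hD, u, v, huv⟩ := bezout hf hd
  obtain ⟨q, hq, hqB, c, hc⟩ := prime_dvd_value f hd (B + D.natAbs)
  have hqF : Fact q.Prime := ⟨hq⟩
  refine ⟨q, hqF, by omega, ?_⟩
  have hqD : ¬ (q : ℤ) ∣ D := by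
    intro h
    have h1 := Int.natAbs_dvd_natAbs.2 h
    rw [Int.natAbs_natCast] at h1
    have h2 := Nat.le_of_dvd (Int.natAbs_pos.2 hD) h1
    omega
  have hder : ¬ (q : ℤ) ∣ (derivative f).eval c := by
    intro h
    apply hqD
    have h1 := congrArg (fun g => g.eval c) huv
    simp only [eval_add, eval_mul, eval_C] at h1
    rw [← h1]
    exact dvd_add (Dvd.dvd.mul_left hc _) (Dvd.dvd.mul_left h _)
  -- Hensel
  have hev : ∀ g : ℤ[X], aeval (c : ℤ_[q]) g = ((g.eval c : ℤ) : ℤ_[q]) := by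
    intro g
    have := Polynomial.aeval_algebraMap_apply (A := ℤ) ℤ_[q] c g
    simpa using this
  have h1 : ‖aeval (c : ℤ_[q]) f‖ < 1 := by
    rw [hev, PadicInt.norm_int_lt_one_iff_dvd]; exact hc
  have h2 : ‖aeval (c : ℤ_[q]) (derivative f)‖ = 1 := by
    rw [hev]
    refine le_antisymm (PadicInt.norm_le_one _) ?_
    by_contra h
    push Not at h
    exact hder ((PadicInt.norm_int_lt_one_iff_dvd _).1 h)
  obtain ⟨z, hz, _⟩ := hensels_lemma (F := f) (a := (c : ℤ_[q])) (by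
    rw [h2, one_pow]; exact h1)
  set z' : PadicAlgCl q := algebraMap ℚ_[q] (PadicAlgCl q) (z : ℚ_[q]) with hz'
  have hz0 : eval₂ (Int.castRingHom (PadicAlgCl q)) z' f = 0 := by
    have h3 : ((algebraMap ℚ_[q] (PadicAlgCl q)).comp (algebraMap ℤ_[q] ℚ_[q])) (aeval z f) = 0 := by
      rw [hz, map_zero]
    rw [map_aeval_int] at h3
    rw [← h3, aeval_def]
    congr 1
  obtain ⟨τ₁, hτ₁⟩ := embed_root hf hfα hz0
  have hτ₁N : ∀ x ∈ N, τ₁ x ∈ (⊥ : IntermediateField ℚ_[q] (PadicAlgCl q)) := by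
    intro x hx
    rw [← hα] at hx
    induction hx using IntermediateField.adjoin_induction with
    | mem x hx =>
      rw [Set.mem_singleton_iff] at hx
      rw [hx, hτ₁, hz']
      exact IntermediateField.algebraMap_mem _ _
    | algebraMap r =>
      have : τ₁ (algebraMap ℚ QQ r) = (r : PadicAlgCl q) := by
        rw [eq_ratCast (algebraMap ℚ QQ), map_ratCast]
      rw [this]
      exact SubfieldClass.ratCast_mem _ r
    | add x y _ _ hx hy => rw [map_add]; exact add_mem hx hy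
    | inv x _ hx => rw [map_inv₀]; exact inv_mem hx
    | mul x y _ _ hx hy => rw [map_mul]; exact mul_mem hx hy
  intro τ x hx
  obtain ⟨g, hg, hgx⟩ := exists_irred x
  have h3 : aeval (τ x) g = 0 := by rw [← map_aeval_int τ x g, hgx, map_zero]
  obtain ⟨x', hx', hτx'⟩ := root_lift τ₁ hg.ne_zero h3
  obtain ⟨φ, hφ⟩ := conj_aut hg hgx hx'
  rw [← hτx', ← hφ]
  exact hτ₁N _ (hstab φ x hx)

end

end Pool.Agent.H291R3.L
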