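import Pool.Agent.H291R3.Li

set_option autoImplicit false

/-! The local field at `2`. -/

namespace Pool.Agent.H291R3.L

open Polynomial Module

noncomputable section

lemma eval_norm_le {p : ℕ} [hp : Fact p.Prime] {f : (PadicAlgCl p)[X]} {c : ℝ} (hc : 0 ≤ c)
    (hf : ∀ i, ‖f.coeff i‖ ≤ c) (x : PadicAlgCl p) (hx : ‖x‖ ≤ 1) : ‖f.eval x‖ ≤ c := by
  rw [eval_eq_sum_range]
  apply norm_sum_le _ _ _ hc
  intro i _
  rw [norm_mul, norm_pow]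
  calc ‖f.coeff i‖ * ‖x‖ ^ i ≤ c * 1 :=
        mul_le_mul (hf i) (pow_le_one₀ (norm_nonneg _) hx) (by positivity) hc
    _ = c := mul_one c

lemma int_root {p : ℕ} [hp : Fact p.Prime] (f : ℤ[X]) (hf : f.Monic) (r : PadicAlgCl p)
    (hr : (f.map (Int.castRingHom (PadicAlgCl p))).eval r = 0) : ‖r‖ ≤ 1 := by
  by_contra hcon
  push Not at hcon
  rw [eval_eq_sum_range, Finset.sum_range_succ,
    natDegree_map_eq_of_injective (by exact Int.cast_injective)] at hr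
  have h1 : ‖∑ i ∈ Finset.range f.natDegree,
      (f.map (Int.castRingHom (PadicAlgCl p))).coeff i * r ^ i‖ < ‖r‖ ^ f.natDegree := by
    apply norm_sum_lt _ _ _ (by positivity)
    intro i hi
    rw [Finset.mem_range] at hi
    rw [norm_mul, norm_pow, coeff_map, eq_intCast]
    calc ‖(f.coeff i : PadicAlgCl p)‖ * ‖r‖ ^ i ≤ 1 * ‖r‖ ^ i :=
          mul_le_mul_of_nonneg_right (norm_intCast_le_one _) (by positivity)
      _ = ‖r‖ ^ i := one_mul _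
      _ < ‖r‖ ^ f.natDegree := pow_lt_pow_right₀ hcon hi
  have h2 : ‖(f.map (Int.castRingHom (PadicAlgCl p))).coeff f.natDegree * r ^ f.natDegree‖ =
      ‖r‖ ^ f.natDegree := by
    rw [norm_mul, norm_pow, coeff_map, hf.coeff_natDegree]
    simp
  have h3 := eq_neg_of_add_eq_zero_left hr
  rw [h3, norm_neg, h2] at h1
  exact lt_irrefl _ h1

/-- `‖z‖^d` is a power of `p` -/
lemma norm_pow_eq {p : ℕ} [hp : Fact p.Prime] {z : PadicAlgCl p} (hz : z ≠ 0) :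
    ∃ k : ℤ, ‖z‖ ^ (minpoly ℚ_[p] z).natDegree = (p : ℝ) ^ k := by
  have h1 : ‖z‖ = ‖(minpoly ℚ_[p] z).coeff 0‖ ^ (1 / (minpoly ℚ_[p] z).natDegree : ℝ) :=
    spectralNorm.spectralNorm_eq_norm_coeff_zero_rpow (K := ℚ_[p]) (L := PadicAlgCl p) z
  have hzi : IsIntegral ℚ_[p] z := Algebra.IsIntegral.isIntegral z
  have hd : (minpoly ℚ_[p] z).natDegree ≠ 0 := (minpoly.natDegree_pos hzi).ne'
  have h2 : ‖z‖ ^ (minpoly ℚ_[p] z).natDegree = ‖(minpoly ℚ_[p] z).coeff 0‖ := by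
    rw [h1, ← Real.rpow_natCast, ← Real.rpow_mul (norm_nonneg _), one_div,
      inv_mul_cancel₀ (by exact_mod_cast hd), Real.rpow_one]
  have h3 : (minpoly ℚ_[p] z).coeff 0 ≠ 0 := minpoly.coeff_zero_ne_zero hzi hz
  rw [h2, Padic.norm_eq_zpow_neg_valuation h3]
  exact ⟨_, rfl⟩

lemma norm_pow_finrank {p : ℕ} [hp : Fact p.Prime] (S : IntermediateField ℚ_[p] (PadicAlgCl p))
    [FiniteDimensional ℚ_[p] S] {z : PadicAlgCl p} (hzS : z ∈ S) (hz : z ≠ 0) :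
    ∃ k : ℤ, ‖z‖ ^ (finrank ℚ_[p] S) = (p : ℝ) ^ k := by
  obtain ⟨k, hk⟩ := norm_pow_eq hz
  have hdvd : (minpoly ℚ_[p] z).natDegree ∣ finrank ℚ_[p] S := by
    have h1 := minpoly.degree_dvd (K := ℚ_[p]) (L := S) (x := ⟨z, hzS⟩)
      (Algebra.IsIntegral.isIntegral _)
    have h2 : minpoly ℚ_[p] (⟨z, hzS⟩ : S) = minpoly ℚ_[p] z := IntermediateField.minpoly_eq _
    rwa [h2] at h1
  obtain ⟨m, hm⟩ := hdvd
  refine ⟨k * m, ?_⟩
  rw [hm, pow_mul, hk, zpow_mul, zpow_natCast]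

/-- a kind of uniformizer -/
lemma exists_unif (S : IntermediateField ℚ_[2] (PadicAlgCl 2)) [FiniteDimensional ℚ_[2] S] :
    ∃ P ∈ S, 1 / 4 < ‖P‖ ∧ ‖P‖ < 1 ∧ ∀ z ∈ S, ‖z‖ ^ 2 ≠ ‖P‖ := by
  classical
  set D := finrank ℚ_[2] S with hD
  have hD0 : 0 < D := finrank_pos
  have hex : ∃ k : ℕ, 0 < k ∧ ∃ z ∈ S, z ≠ 0 ∧ ‖z‖ ^ D = (2 : ℝ) ^ (-(k : ℤ)) := by
    refine ⟨D, hD0, 2, ?_, by norm_num, ?_⟩
    · have : (2 : PadicAlgCl 2) = ((2 : ℕ) : PadicAlgCl 2) := by norm_num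
      rw [this]; exact natCast_mem _ _
    · rw [norm_two_inv, one_div, inv_pow, zpow_neg, zpow_natCast]
  obtain ⟨k0, ⟨hk0, P, hPS, hP0, hP⟩, hmin⟩ :
      ∃ k0 : ℕ, (0 < k0 ∧ ∃ z ∈ S, z ≠ 0 ∧ ‖z‖ ^ D = (2 : ℝ) ^ (-(k0 : ℤ))) ∧
      ∀ j : ℕ, j < k0 → ¬ (0 < j ∧ ∃ z ∈ S, z ≠ 0 ∧ ‖z‖ ^ D = (2 : ℝ) ^ (-(j : ℤ))) :=
    ⟨Nat.find hex, Nat.find_spec hex, fun j hj => Nat.find_min hex hj⟩
  have hk0D : k0 ≤ D := by
    by_contra hcon
    push Not at hcon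
    apply hmin D hcon
    refine ⟨hD0, 2, ?_, by norm_num, ?_⟩
    · have : (2 : PadicAlgCl 2) = ((2 : ℕ) : PadicAlgCl 2) := by norm_num
      rw [this]; exact natCast_mem _ _
    · rw [norm_two_inv, one_div, inv_pow, zpow_neg, zpow_natCast]
  refine ⟨P, hPS, ?_, ?_, ?_⟩
  · by_contra hcon
    push Not at hcon
    have h1 : ‖P‖ ^ D ≤ (1 / 4) ^ D := pow_le_pow_left₀ (norm_nonneg _) hcon _
    rw [hP, zpow_neg, zpow_natCast] at h1
    have h2 : (2 : ℝ) ^ k0 ≤ 2 ^ D := pow_le_pow_right₀ (by norm_num) hk0D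
    have h3 : ((2 : ℝ) ^ D)⁻¹ ≤ ((2 : ℝ) ^ k0)⁻¹ := inv_anti₀ (by positivity) h2
    have h4 : (1 / 4 : ℝ) ^ D < (1 / 2) ^ D :=
      pow_lt_pow_left₀ (by norm_num) (by norm_num) hD0.ne'
    rw [one_div 2, inv_pow] at h4
    linarith
  · by_contra hcon
    push Not at hcon
    have h1 := one_le_pow₀ (n := D) hcon
    rw [hP, zpow_neg, zpow_natCast] at h1
    have h2 : ((2 : ℝ) ^ k0)⁻¹ < 1 := inv_lt_one_of_one_lt₀ (one_lt_pow₀ (by norm_num) hk0.ne')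
    linarith
  · intro z hzS hz
    have hz0 : z ≠ 0 := by
      rintro rfl
      rw [norm_zero] at hz
      have := norm_pos_iff.2 hP0
      rw [← hz] at this
      norm_num at this
    obtain ⟨k, hk⟩ := norm_pow_finrank S hzS hz0
    rw [← hD] at hk
    have h1 : (2 : ℝ) ^ (2 * k) = (2 : ℝ) ^ (-(k0 : ℤ)) := by
      rw [← hP, ← hz, ← pow_mul, mul_comm 2 D, pow_mul, hk]
      push_cast
      rw [mul_comm, zpow_mul]
      norm_cast
    have h2 := (zpow_right_injective₀ (by norm_num : (0 : ℝ) < 2) (by norm_num)) h1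
    obtain ⟨j, hj⟩ : ∃ j : ℕ, k = -(j : ℤ) := ⟨(-k).toNat, by omega⟩
    apply hmin j (by omega)
    refine ⟨by omega, z, hzS, hz0, ?_⟩
    rw [hk, hj]
    norm_cast

end

end Pool.Agent.H291R3.L
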