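import Pool.Agent.H291R3.Lj

set_option autoImplicit false

/-! The local construction at `2`. -/

namespace Pool.Agent.H291R3.L

open Polynomial Module

noncomputable section

lemma map_int_eval {Ω : Type*} [Field Ω] [Algebra ℤ Ω] (f : ℤ[X]) (z : Ω) :
    (f.map (Int.castRingHom Ω)).eval z = aeval z f := by
  rw [eval_map, aeval_def]
  congr 1
  ext
  simp

lemma fix_int {p : ℕ} [hp : Fact p.Prime] (f : ℤ[X])
    (σ : PadicAlgCl p ≃ₐ[ℚ_[p]] PadicAlgCl p) (x : PadicAlgCl p)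
    (h : (f.map (Int.castRingHom (PadicAlgCl p))).eval x = 0) :
    (f.map (Int.castRingHom (PadicAlgCl p))).eval (σ x) = 0 := by
  rw [map_int_eval] at h ⊢
  have := map_aeval_int (σ : PadicAlgCl p →+* PadicAlgCl p) x f
  rw [h, map_zero] at this
  exact this.symm

lemma ff_surj {p : ℕ} [hp : Fact p.Prime] {x : PadicAlgCl p} (hx : ‖x‖ ≤ 1) (i : ℕ) :
    ‖(minpoly ℚ_[p] x).coeff i‖ ≤ 1 := by
  have h1 : spectralNorm ℚ_[p] (PadicAlgCl p) x = ‖x‖ := rfl
  have h2 : spectralValue (minpoly ℚ_[p] x) ≤ 1 := by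
    have : spectralValue (minpoly ℚ_[p] x) = ‖x‖ := rfl
    rw [this]; exact hx
  exact (spectralValue_le_one_iff (minpoly.monic (Algebra.IsIntegral.isIntegral x))).1 h2 i

lemma int_approx {p : ℕ} [hp : Fact p.Prime] {x : ℚ_[p]} (hx : ‖x‖ ≤ 1) (K : ℕ) :
    ∃ c : ℤ, ‖x - c‖ ≤ (1 / p : ℝ) ^ K := by
  set y : ℤ_[p] := ⟨x, hx⟩ with hy
  refine ⟨(y.appr K : ℤ), ?_⟩
  have h1 := PadicInt.appr_spec K y
  have h2 := (PadicInt.norm_le_pow_iff_mem_span_pow _ K).2 h1
  have h3 : ‖y - (y.appr K : ℤ_[p])‖ = ‖x - ((y.appr K : ℤ) : ℚ_[p])‖ := by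
    rw [PadicInt.norm_def]
    push_cast
    rfl
  rw [← h3]
  refine h2.trans (le_of_eq ?_)
  rw [zpow_neg, zpow_natCast, one_div, inv_pow]

theorem local2 (N : IntermediateField ℚ QQ) (hN : FD N) :
    ∃ Λ : IntermediateField ℚ_[2] (PadicAlgCl 2),
      (∀ τ : QQ →+* PadicAlgCl 2, ∀ x ∈ N, τ x ∈ Λ) ∧
      ∃ (n K : ℕ) (c : ℕ → ℤ), 0 < n ∧ ∀ g : ℤ[X], g.Monic → g.natDegree = n →
        (∀ i, i < n → (2 : ℤ) ^ K ∣ g.coeff i - c i) → ∀ ρ : PadicAlgCl 2, aeval ρ g = 0 →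
        ρ ∈ Λ ∧ 1 / 4 < ‖ρ‖ ∧ ∀ z ∈ Λ, ‖z‖ ^ 2 ≠ ‖ρ‖ := by
  classical
  obtain ⟨α, hα⟩ := prim N hN
  obtain ⟨f, hf, hfα⟩ := exists_irred α
  set F : (PadicAlgCl 2)[X] := f.map (Int.castRingHom (PadicAlgCl 2)) with hF
  have hF0 : F ≠ 0 := (Polynomial.map_ne_zero_iff (by exact Int.cast_injective)).2 hf.ne_zero
  set R : Set (PadicAlgCl 2) := {x | F.eval x = 0} with hR
  have hRfin : R.Finite := by
    have : R ⊆ ↑F.roots.toFinset := by
      intro x hx
      rw [Finset.mem_coe, Multiset.mem_toFinset, mem_roots hF0]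
      exact hx
    exact (Finset.finite_toSet _).subset this
  have : Finite R := hRfin
  set Λ : IntermediateField ℚ_[2] (PadicAlgCl 2) := IntermediateField.adjoin ℚ_[2] R with hΛ
  have hΛfd : FiniteDimensional ℚ_[2] Λ := by
    apply IntermediateField.finiteDimensional_adjoin
    intro x _
    exact Algebra.IsIntegral.isIntegral x
  have hNΛ : ∀ τ : QQ →+* PadicAlgCl 2, ∀ x ∈ N, τ x ∈ Λ := by
    intro τ x hx
    rw [← hα] at hx
    induction hx using IntermediateField.adjoin_induction with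
    | mem x hx =>
      rw [Set.mem_singleton_iff] at hx
      rw [hx]
      apply IntermediateField.subset_adjoin
      rw [hR, Set.mem_ofPred_eq, hF, map_int_eval, ← map_aeval_int τ α f, hfα, map_zero]
    | algebraMap r =>
      have : τ (algebraMap ℚ QQ r) = (r : PadicAlgCl 2) := by
        rw [eq_ratCast (algebraMap ℚ QQ), map_ratCast]
      rw [this]
      exact SubfieldClass.ratCast_mem _ r
    | add x y _ _ hx hy => rw [map_add]; exact add_mem hx hy
    | inv x _ hx => rw [map_inv₀]; exact inv_mem hx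
    | mul x y _ _ hx hy => rw [map_mul]; exact mul_mem hx hy
  have hΛstab : ∀ σ : PadicAlgCl 2 ≃ₐ[ℚ_[2]] PadicAlgCl 2, ∀ x ∈ Λ, σ x ∈ Λ := by
    intro σ x hx
    induction hx using IntermediateField.adjoin_induction with
    | mem x hx =>
      apply IntermediateField.subset_adjoin
      exact fix_int f σ x hx
    | algebraMap r => rw [AlgEquiv.commutes]; exact IntermediateField.algebraMap_mem _ _
    | add x y _ _ hx hy => rw [map_add]; exact add_mem hx hy
    | inv x _ hx => rw [map_inv₀]; exact inv_mem hx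
    | mul x y _ _ hx hy => rw [map_mul]; exact mul_mem hx hy
  obtain ⟨P, hPΛ, hP4, hP1, hPsq⟩ := exists_unif Λ
  refine ⟨Λ, hNΛ, ?_⟩
  have hPi : IsIntegral ℚ_[2] P := Algebra.IsIntegral.isIntegral P
  set h : ℚ_[2][X] := minpoly ℚ_[2] P with hh
  set H : (PadicAlgCl 2)[X] := h.map (algebraMap ℚ_[2] (PadicAlgCl 2)) with hH
  have hHm : H.Monic := (minpoly.monic hPi).map _
  have hHd : H.natDegree = h.natDegree := (minpoly.monic hPi).natDegree_map _
  have hHc : ∀ i, ‖H.coeff i‖ ≤ 1 := by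
    intro i
    rw [hH, coeff_map, norm_algebraMap_PA]
    exact ff_surj hP1.le i
  have hHP : H.eval P = 0 := by
    rw [hH, eval_map_algebraMap]
    exact minpoly.aeval _ _
  -- roots are conjugates
  have hconj : ∀ r, H.eval r = 0 → ∃ σ : PadicAlgCl 2 ≃ₐ[ℚ_[2]] PadicAlgCl 2, σ P = r := by
    intro r hr
    rw [hH, eval_map_algebraMap] at hr
    have h1 : minpoly ℚ_[2] r = minpoly ℚ_[2] P :=
      (minpoly.eq_of_irreducible_of_monic (minpoly.irreducible hPi) hr (minpoly.monic hPi)).symm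
    obtain ⟨g, hg⟩ := (Normal.minpoly_eq_iff_mem_orbit (PadicAlgCl 2)).1 h1
    exact ⟨g, hg⟩
  have hHfix : ∀ σ : PadicAlgCl 2 ≃ₐ[ℚ_[2]] PadicAlgCl 2, ∀ x,
      (derivative H).eval (σ x) = σ ((derivative H).eval x) := by
    intro σ x
    rw [hH, derivative_map, eval_map_algebraMap, eval_map_algebraMap]
    exact aeval_algHom_apply (σ : PadicAlgCl 2 →ₐ[ℚ_[2]] PadicAlgCl 2) x (derivative h)
  set η : ℝ := ‖(derivative H).eval P‖ with hη
  have hη0 : 0 < η := by
    rw [hη, norm_pos_iff]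
    have hsep : h.Separable := (minpoly.irreducible hPi).separable
    rw [hH, derivative_map, eval_map_algebraMap]
    exact hsep.aeval_derivative_ne_zero (minpoly.aeval _ _)
  have hη1 : η ≤ 1 := norm_eval_le (norm_deriv_coeff hHc) P hP1.le
  have hP0 : 0 < ‖P‖ := by linarith
  obtain ⟨K, hK⟩ := exists_pow_lt_of_lt_one (show 0 < η ^ 2 * ‖P‖ by positivity)
    (show (1 / 2 : ℝ) < 1 by norm_num)
  have hcex : ∀ i, ∃ c : ℤ, ‖h.coeff i - c‖ ≤ (1 / 2 : ℝ) ^ K := by
    intro i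
    have := int_approx (p := 2) (x := h.coeff i) (ff_surj hP1.le i) K
    push_cast at this
    exact this
  choose c hc using hcex
  refine ⟨h.natDegree, K, c, minpoly.natDegree_pos hPi, ?_⟩
  intro g hg hgn hgc ρ hρ
  set G : (PadicAlgCl 2)[X] := g.map (Int.castRingHom (PadicAlgCl 2)) with hG
  have hGm : G.Monic := hg.map _
  have hGc : ∀ i, ‖G.coeff i‖ ≤ 1 := by
    intro i
    rw [hG, coeff_map, eq_intCast]
    exact norm_intCast_le_one _
  have hGρ : G.eval ρ = 0 := by rw [hG, map_int_eval]; exact hρ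
  have hρ1 : ‖ρ‖ ≤ 1 := int_root g hg ρ hGρ
  have hK0 : (0 : ℝ) ≤ (1 / 2) ^ K := by positivity
  have hdiff : ∀ i, ‖(G - H).coeff i‖ ≤ (1 / 2 : ℝ) ^ K := by
    intro i
    rw [coeff_sub]
    rcases lt_trichotomy i h.natDegree with hi | hi | hi
    · have e1 : G.coeff i - H.coeff i = ((g.coeff i - c i : ℤ) : PadicAlgCl 2) -
          algebraMap ℚ_[2] (PadicAlgCl 2) (h.coeff i - c i) := by
        rw [hG, hH, coeff_map, coeff_map, eq_intCast, map_sub, map_intCast]
        push_cast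
        ring
      rw [e1]
      refine (norm_sub_le_max _ _).trans (max_le ?_ ?_)
      · obtain ⟨w, hw⟩ := hgc i hi
        rw [hw]
        push_cast
        rw [norm_mul, norm_pow, norm_two_inv]
        calc (1 / 2 : ℝ) ^ K * ‖(w : PadicAlgCl 2)‖ ≤ (1 / 2) ^ K * 1 :=
              mul_le_mul_of_nonneg_left (norm_intCast_le_one _) hK0
          _ = _ := mul_one _
      · rw [norm_algebraMap_PA]
        exact hc i
    · have e1 : G.coeff i = 1 := by
        rw [hi, ← hgn, ← hg.natDegree_map (Int.castRingHom (PadicAlgCl 2))]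
        exact hGm.coeff_natDegree
      have e2 : H.coeff i = 1 := by
        rw [hi, ← hHd]
        exact hHm.coeff_natDegree
      rw [e1, e2, sub_self, norm_zero]
      exact hK0
    · have e1 : G.coeff i = 0 := by
        apply coeff_eq_zero_of_natDegree_lt
        rw [hG, hg.natDegree_map, hgn]
        exact hi
      have e2 : H.coeff i = 0 := by
        apply coeff_eq_zero_of_natDegree_lt
        rw [hHd]
        exact hi
      rw [e1, e2, sub_self, norm_zero]
      exact hK0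
  have hdiffd : ∀ i, ‖(derivative (G - H)).coeff i‖ ≤ (1 / 2 : ℝ) ^ K := by
    intro i
    rw [coeff_derivative, norm_mul]
    have h1 := norm_intCast_le_one (p := 2) ((i : ℤ) + 1)
    push_cast at h1
    calc ‖(G - H).coeff (i + 1)‖ * ‖(i : PadicAlgCl 2) + 1‖ ≤ (1 / 2) ^ K * 1 :=
          mul_le_mul (hdiff _) h1 (norm_nonneg _) hK0
      _ = _ := mul_one _
  have hHρ : ‖H.eval ρ‖ ≤ (1 / 2 : ℝ) ^ K := by
    have h1 := eval_norm_le hK0 hdiff ρ hρ1
    rw [eval_sub, hGρ, zero_sub, norm_neg] at h1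
    exact h1
  obtain ⟨r, hr, hr1, _⟩ := nearest_root H hHm (by rw [hHd]; exact minpoly.natDegree_pos hPi) ρ
  obtain ⟨σ, hσ⟩ := hconj r hr
  have hrn : ‖r‖ = ‖P‖ := by rw [← hσ, norm_galois]
  have hrη : ‖(derivative H).eval r‖ = η := by rw [← hσ, hHfix, norm_galois]
  rw [hrη] at hr1
  have hρr : ‖ρ - r‖ < η * ‖P‖ := by
    have h1 : ‖ρ - r‖ * η < (η * ‖P‖) * η := by
      calc ‖ρ - r‖ * η ≤ (1 / 2) ^ K := hr1.trans hHρ
        _ < η ^ 2 * ‖P‖ := hK
        _ = _ := by ring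
    exact lt_of_mul_lt_mul_right h1 hη0.le
  have hρP : ‖ρ - r‖ < ‖P‖ := hρr.trans_le (by nlinarith)
  have hρη : ‖ρ - r‖ < η := hρr.trans_le (by nlinarith)
  have hρn : ‖ρ‖ = ‖P‖ := by
    rw [← hrn]
    apply norm_eq_of_sub_lt
    rw [hrn]; exact hρP
  have hGη : ‖(derivative G).eval ρ‖ = η := by
    rw [← hrη]
    apply norm_eq_of_sub_lt
    rw [hrη]
    have e1 : (derivative G).eval ρ - (derivative H).eval r =
        (derivative (G - H)).eval ρ + ((derivative H).eval ρ - (derivative H).eval r) := by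
      rw [derivative_sub, eval_sub]; ring
    rw [e1]
    refine (norm_add_le_max _ _).trans_lt (max_lt ?_ ?_)
    · refine (eval_norm_le hK0 hdiffd ρ hρ1).trans_lt (hK.trans_le ?_)
      nlinarith [mul_le_mul_of_nonneg_left hη1 hη0.le, mul_pos hη0 hη0]
    · exact (lipschitz (norm_deriv_coeff hHc) r ρ (by rw [hrn]; exact hP1.le) hρ1).trans_lt hρη
  refine ⟨?_, by rw [hρn]; exact hP4, ?_⟩
  · apply root_mem Λ G hGc (fun σ x hx => fix_int g σ x hx) hGρ hρ1 (a := r)
    · rw [← hσ]; exact hΛstab σ P hPΛ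
    · rw [hGη]; exact hρη
  · intro z hz
    rw [hρn]
    exact hPsq z hz

end

end Pool.Agent.H291R3.L
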