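import Pool.Agent.H291R3.Lk

set_option autoImplicit false

/-! Representation of elements. -/

namespace Pool.Agent.H291R3.L

open Polynomial Module

noncomputable section

/-- polynomial representation of elements of `L ⊔ ℚ(s)` -/
lemma rep_sup (L : IntermediateField ℚ QQ) (s : QQ) (G : ℤ[X]) (hG : G.Monic)
    (hGd : 0 < G.natDegree) (hs : aeval s G = 0) {z : QQ}
    (hz : z ∈ L ⊔ IntermediateField.adjoin ℚ {s}) :
    ∃ a : ℕ → QQ, (∀ i, a i ∈ L) ∧ z = ∑ i ∈ Finset.range G.natDegree, a i * s ^ i := by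
  rw [← IntermediateField.restrictScalars_adjoin_eq_sup, IntermediateField.mem_restrictScalars]
    at hz
  set g : L[X] := G.map (Int.castRingHom L) with hg
  have hgm : g.Monic := hG.map _
  have hgd : g.natDegree = G.natDegree := hG.natDegree_map _
  have hg0 : aeval s g = 0 := by
    rw [hg, aeval_def, eval₂_map, ← hs, aeval_def]
    congr 1
  have hint : IsIntegral L s := ⟨g, hgm, by rwa [← aeval_def]⟩
  have h1 : z ∈ (IntermediateField.adjoin L {s}).toSubalgebra := hz
  rw [IntermediateField.adjoin_simple_toSubalgebra_of_isAlgebraic hint.isAlgebraic,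
    Algebra.adjoin_singleton_eq_range_aeval] at h1
  obtain ⟨f0, hf0⟩ := h1
  have hf0' : aeval s f0 = z := hf0
  have h2 : aeval s (f0 %ₘ g) = z := by
    have := modByMonic_add_div f0 g
    have h3 := congrArg (aeval s) this
    rw [map_add, map_mul, hg0, zero_mul, add_zero, hf0'] at h3
    exact h3
  have h3 : (f0 %ₘ g).natDegree < G.natDegree := by
    rw [← hgd]
    apply natDegree_modByMonic_lt _ hgm
    intro h
    rw [h, natDegree_one] at hgd
    omega
  refine ⟨fun i => (((f0 %ₘ g).coeff i : L) : QQ), fun i => ((f0 %ₘ g).coeff i).2, ?_⟩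
  rw [← h2, aeval_eq_sum_range' h3]
  apply Finset.sum_congr rfl
  intro i _
  rfl

/-- quadratic representation -/
lemma rep_quad (E : IntermediateField ℚ QQ) (s : QQ) (hs : s ^ 2 ∈ E) {z : QQ}
    (hz : z ∈ E ⊔ IntermediateField.adjoin ℚ {s}) : ∃ α ∈ E, ∃ β ∈ E, z = α + β * s := by
  by_cases hsE : s ∈ E
  · have : E ⊔ IntermediateField.adjoin ℚ {s} = E := by
      rw [sup_eq_left, IntermediateField.adjoin_simple_le_iff]
      exact hsE
    rw [this] at hz
    exact ⟨z, hz, 0, zero_mem _, by ring⟩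
  have key : ∀ α ∈ E, ∀ β ∈ E, α + β * s ≠ 0 → α ^ 2 - β ^ 2 * s ^ 2 ≠ 0 := by
    intro α hα β hβ h0 h1
    have h2 : (α + β * s) * (α - β * s) = 0 := by linear_combination h1
    have h3 := (mul_eq_zero.1 h2).resolve_left h0
    by_cases hβ0 : β = 0
    · rw [hβ0] at h3 h0
      apply h0
      linear_combination h3
    · apply hsE
      have : s = α / β := by
        rw [eq_div_iff hβ0]
        linear_combination -h3
      rw [this]
      exact div_mem hα hβ
  let F : IntermediateField ℚ QQ :=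
    { carrier := {x | ∃ α ∈ E, ∃ β ∈ E, x = α + β * s}
      mul_mem' := by
        rintro _ _ ⟨a, ha, b, hb, rfl⟩ ⟨c, hc, d, hd, rfl⟩
        refine ⟨a * c + b * d * s ^ 2, add_mem (mul_mem ha hc) (mul_mem (mul_mem hb hd) hs),
          a * d + b * c, add_mem (mul_mem ha hd) (mul_mem hb hc), by ring⟩
      add_mem' := by
        rintro _ _ ⟨a, ha, b, hb, rfl⟩ ⟨c, hc, d, hd, rfl⟩
        exact ⟨a + c, add_mem ha hc, b + d, add_mem hb hd, by ring⟩
      algebraMap_mem' := fun r => ⟨algebraMap ℚ QQ r, IntermediateField.algebraMap_mem _ _, 0,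
        zero_mem _, by ring⟩
      inv_mem' := by
        rintro _ ⟨a, ha, b, hb, rfl⟩
        by_cases h0 : a + b * s = 0
        · exact ⟨0, zero_mem _, 0, zero_mem _, by rw [h0]; simp⟩
        · have h1 := key a ha b hb h0
          have hD : a ^ 2 - b ^ 2 * s ^ 2 ∈ E := sub_mem (pow_mem ha 2)
            (mul_mem (pow_mem hb 2) hs)
          refine ⟨a / (a ^ 2 - b ^ 2 * s ^ 2), div_mem ha hD,
            -b / (a ^ 2 - b ^ 2 * s ^ 2), div_mem (neg_mem hb) hD, ?_⟩
          rw [inv_eq_iff_eq_inv, eq_comm, inv_eq_iff_eq_inv, eq_comm]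
          field_simp
          ring }
  have hle : E ⊔ IntermediateField.adjoin ℚ {s} ≤ F := by
    apply sup_le
    · intro x hx
      exact ⟨x, hx, 0, zero_mem _, by ring⟩
    · rw [IntermediateField.adjoin_simple_le_iff]
      exact ⟨0, zero_mem _, 1, one_mem _, by ring⟩
  exact hle hz

end

end Pool.Agent.H291R3.L
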