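import Pool.Agent.H291R3.Ll

set_option autoImplicit false

/-! The Eisenstein prime `q`. -/

namespace Pool.Agent.H291R3.L

open Polynomial Module

noncomputable section

/-- norms of roots of an Eisenstein polynomial -/
lemma eis_norm {q : ℕ} [hq : Fact q.Prime] {g : ℤ[X]} (hg : g.Monic) (hgd : 0 < g.natDegree)
    (hdiv : ∀ i, i < g.natDegree → (q : ℤ) ∣ g.coeff i) (h0 : ¬ (q : ℤ) ^ 2 ∣ g.coeff 0)
    {r : PadicAlgCl q} (hr : aeval r g = 0) : ‖r‖ ^ g.natDegree = 1 / q := by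
  have hq1 : (1 : ℝ) < q := by exact_mod_cast hq.out.one_lt
  have hq0 : (0 : ℝ) < 1 / q := by positivity
  have hqlt : (1 : ℝ) / q < 1 := by rw [div_lt_one (by linarith)]; exact hq1
  have hr1 : ‖r‖ ≤ 1 := int_root g hg r (by rw [map_int_eval]; exact hr)
  have hc : ∀ i, i < g.natDegree → ‖(g.coeff i : PadicAlgCl q)‖ ≤ 1 / q := by
    intro i hi
    obtain ⟨w, hw⟩ := hdiv i hi
    rw [hw]
    push_cast
    rw [norm_mul, norm_p]
    calc 1 / (q : ℝ) * ‖(w : PadicAlgCl q)‖ ≤ 1 / q * 1 :=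
          mul_le_mul_of_nonneg_left (norm_intCast_le_one _) hq0.le
      _ = 1 / q := mul_one _
  have hc0 : ‖(g.coeff 0 : PadicAlgCl q)‖ = 1 / q := by
    obtain ⟨w, hw⟩ := hdiv 0 hgd
    rw [hw]
    push_cast
    rw [norm_mul, norm_p, norm_intCast_eq_one, mul_one]
    intro hd
    apply h0
    rw [hw, pow_two]
    exact mul_dvd_mul_left _ hd
  have hsum : r ^ g.natDegree = -∑ i ∈ Finset.range g.natDegree, (g.coeff i : PadicAlgCl q) * r ^ i := by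
    rw [aeval_eq_sum_range, Finset.sum_range_succ, hg.coeff_natDegree, one_smul] at hr
    rw [eq_neg_iff_add_eq_zero, add_comm, ← hr]
    congr 1
    apply Finset.sum_congr rfl
    intro i _
    rw [zsmul_eq_mul]
  have h1 : ‖r‖ ^ g.natDegree ≤ 1 / q := by
    rw [← norm_pow, hsum, norm_neg]
    apply norm_sum_le _ _ _ hq0.le
    intro i hi
    rw [Finset.mem_range] at hi
    rw [norm_mul, norm_pow]
    calc _ ≤ (1 / q : ℝ) * 1 := mul_le_mul (hc i hi) (pow_le_one₀ (norm_nonneg _) hr1)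
          (by positivity) hq0.le
      _ = _ := mul_one _
  have hr1' : ‖r‖ < 1 := by
    by_contra hcon
    push Not at hcon
    have := one_le_pow₀ (n := g.natDegree) hcon
    linarith
  obtain ⟨m, hm⟩ : ∃ m, g.natDegree = m + 1 := ⟨g.natDegree - 1, by omega⟩
  rw [← norm_pow, hsum, norm_neg, hm, Finset.sum_range_succ', pow_zero, mul_one, add_comm]
  rw [norm_add_eq_of_lt, hc0]
  rw [hc0]
  apply norm_sum_lt _ _ _ hq0
  intro i hi
  rw [Finset.mem_range] at hi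
  rw [norm_mul, norm_pow]
  calc ‖(g.coeff (i + 1) : PadicAlgCl q)‖ * ‖r‖ ^ (i + 1) ≤ 1 / q * ‖r‖ ^ (i + 1) :=
        mul_le_mul_of_nonneg_right (hc _ (by omega)) (by positivity)
    _ < 1 / q * 1 := mul_lt_mul_of_pos_left (pow_lt_one₀ (norm_nonneg _) hr1' (by omega)) hq0
    _ = 1 / q := mul_one _

/-- distinct norms -/
lemma norm_le_sum {p : ℕ} [hp : Fact p.Prime] {ι : Type*} (s : Finset ι) (f : ι → PadicAlgCl p)
    (h : ∀ i ∈ s, ∀ j ∈ s, i ≠ j → f i ≠ 0 → f j ≠ 0 → ‖f i‖ ≠ ‖f j‖) {i : ι} (hi : i ∈ s) :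
    ‖f i‖ ≤ ‖∑ j ∈ s, f j‖ := by
  classical
  obtain ⟨j, hj, hmax⟩ := Finset.exists_max_image s (fun i => ‖f i‖) ⟨i, hi⟩
  by_cases hj0 : f j = 0
  · have h1 := hmax i hi
    simp only [hj0, norm_zero] at h1
    exact h1.trans (norm_nonneg _)
  refine (hmax i hi).trans (le_of_eq ?_)
  rw [← Finset.add_sum_erase _ _ hj, norm_add_eq_of_lt]
  apply norm_sum_lt _ _ _ (norm_pos_iff.2 hj0)
  intro k hk
  rw [Finset.mem_erase] at hk
  by_cases hk0 : f k = 0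
  · rw [hk0, norm_zero]; exact norm_pos_iff.2 hj0
  exact lt_of_le_of_ne (hmax k hk.2) (h k hk.2 j hj hk.1 hk0 hj0)

/-- norms in the bottom field are integral powers of `p` -/
lemma norm_bot {p : ℕ} [hp : Fact p.Prime] {z : PadicAlgCl p}
    (hz : z ∈ (⊥ : IntermediateField ℚ_[p] (PadicAlgCl p))) (hz0 : z ≠ 0) :
    ∃ k : ℤ, ‖z‖ = (p : ℝ) ^ k := by
  rw [IntermediateField.mem_bot] at hz
  obtain ⟨x, rfl⟩ := hz
  have hx : x ≠ 0 := by
    rintro rfl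
    exact hz0 (map_zero _)
  rw [norm_algebraMap_PA, Padic.norm_eq_zpow_neg_valuation hx]
  exact ⟨_, rfl⟩

/-- the key estimate at `q` -/
lemma key_q {q : ℕ} [hq : Fact q.Prime] {n : ℕ} (hn : 0 < n) (hqn : 16 ^ n ≤ q)
    (a : ℕ → PadicAlgCl q) (ha : ∀ i, a i ∈ (⊥ : IntermediateField ℚ_[q] (PadicAlgCl q)))
    {w w' : PadicAlgCl q} (hw : ‖w‖ ^ (2 * n) = 1 / q) (hw' : ‖w'‖ ^ (2 * n) = 1 / q) :
    ‖(∑ i ∈ Finset.range (2 * n), a i * w ^ i) - ∑ i ∈ Finset.range (2 * n), a i * w' ^ i‖ ≤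
      1 / 4 * (max 1 ‖∑ i ∈ Finset.range (2 * n), a i * w ^ i‖ *
        max 1 ‖∑ i ∈ Finset.range (2 * n), a i * w' ^ i‖) := by
  have hq1 : (1 : ℝ) < q := by exact_mod_cast hq.out.one_lt
  have hq0 : (0 : ℝ) < q := by linarith
  set u := ‖w‖ with hu
  have hu' : ‖w'‖ = u := by
    have h1 : ‖w'‖ ^ (2 * n) = u ^ (2 * n) := by rw [hw, hw']
    exact (pow_left_inj₀ (norm_nonneg _) (norm_nonneg _) (by omega)).1 h1
  have hu0 : 0 < u := by
    by_contra hcon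
    have h1 : u = 0 := le_antisymm (not_lt.1 hcon) (norm_nonneg _)
    rw [h1, zero_pow (by omega)] at hw
    have : (0 : ℝ) < 1 / q := by positivity
    linarith
  have hu4 : u ≤ 1 / 4 := by
    by_contra hcon
    push Not at hcon
    have h1 : (1 / 4 : ℝ) ^ (2 * n) < u ^ (2 * n) :=
      pow_lt_pow_left₀ hcon (by norm_num) (by omega)
    have e : (1 / 4 : ℝ) ^ (2 * n) = ((16 : ℝ) ^ n)⁻¹ := by
      rw [pow_mul, ← inv_pow]; norm_num
    rw [hw, e, one_div] at h1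
    have h2 : ((16 : ℝ) ^ n) ≤ q := by exact_mod_cast hqn
    have h3 : (q : ℝ)⁻¹ ≤ ((16 : ℝ) ^ n)⁻¹ := inv_anti₀ (by positivity) h2
    linarith
  have hu1 : u ≤ 1 := by linarith
  -- distinctness
  have hdist : ∀ v : PadicAlgCl q, ‖v‖ = u → ∀ i ∈ Finset.range (2 * n),
      ∀ j ∈ Finset.range (2 * n), i ≠ j → a i * v ^ i ≠ 0 → a j * v ^ j ≠ 0 →
      ‖a i * v ^ i‖ ≠ ‖a j * v ^ j‖ := by
    intro v hv i hi j hj hij hi0 hj0 heq
    rw [Finset.mem_range] at hi hj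
    obtain ⟨ki, hki⟩ := norm_bot (ha i) (left_ne_zero_of_mul hi0)
    obtain ⟨kj, hkj⟩ := norm_bot (ha j) (left_ne_zero_of_mul hj0)
    rw [norm_mul, norm_mul, norm_pow, norm_pow, hv, hki, hkj] at heq
    have h1 := congrArg (fun t => t ^ (2 * n)) heq
    have eu : ∀ i : ℕ, (u ^ i) ^ (2 * n) = (q : ℝ) ^ (-(i : ℤ)) := by
      intro i
      rw [← pow_mul, mul_comm i, pow_mul, hw, one_div, inv_pow, zpow_neg, zpow_natCast]
    have ek : ∀ k : ℤ, ((q : ℝ) ^ k) ^ (2 * n) = (q : ℝ) ^ (k * (2 * n : ℕ)) := by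
      intro k
      rw [zpow_mul, zpow_natCast]
    simp only [mul_pow] at h1
    rw [eu, eu, ek, ek, ← zpow_add₀ hq0.ne', ← zpow_add₀ hq0.ne'] at h1
    have h2 := (zpow_right_injective₀ hq0 hq1.ne') h1
    have h3 : ((2 * n : ℕ) : ℤ) ∣ (i : ℤ) - j := ⟨ki - kj, by linear_combination -h2⟩
    have h4 : (i : ℤ) - j = 0 := by
      apply Int.eq_zero_of_abs_lt_dvd h3
      rw [abs_lt]
      constructor <;> omega
    exact hij (by omega)
  have hlow : ∀ v : PadicAlgCl q, ‖v‖ = u → ∀ j, j < 2 * n →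
      ‖a j‖ * u ^ j ≤ ‖∑ i ∈ Finset.range (2 * n), a i * v ^ i‖ := by
    intro v hv j hj
    have := norm_le_sum (Finset.range (2 * n)) (fun i => a i * v ^ i) (hdist v hv)
      (Finset.mem_range.2 hj)
    rw [norm_mul, norm_pow, hv] at this
    exact this
  set S := ∑ i ∈ Finset.range (2 * n), a i * w ^ i with hS
  set S' := ∑ i ∈ Finset.range (2 * n), a i * w' ^ i with hS'
  have hM0 : 0 ≤ 1 / 4 * (max 1 ‖S‖ * max 1 ‖S'‖) := by positivity
  have h1S : (1 : ℝ) ≤ max 1 ‖S‖ := le_max_left _ _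
  have h1S' : (1 : ℝ) ≤ max 1 ‖S'‖ := le_max_left _ _
  have hdiff : S - S' = ∑ i ∈ Finset.range (2 * n), a i * (w ^ i - w' ^ i) := by
    rw [hS, hS', ← Finset.sum_sub_distrib]
    apply Finset.sum_congr rfl
    intro i _
    ring
  rw [hdiff]
  apply norm_sum_le _ _ _ hM0
  intro i hi
  rw [Finset.mem_range] at hi
  rcases Nat.eq_zero_or_pos i with h0 | hi0
  · rw [h0, pow_zero, pow_zero, sub_self, mul_zero, norm_zero]
    exact hM0
  have h1 : ‖a i * (w ^ i - w' ^ i)‖ ≤ ‖a i‖ * u ^ i := by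
    rw [norm_mul]
    apply mul_le_mul_of_nonneg_left _ (norm_nonneg _)
    refine (norm_sub_le_max _ _).trans ?_
    rw [norm_pow, norm_pow, hu', max_self]
  refine h1.trans ?_
  by_cases hai : a i = 0
  · rw [hai, norm_zero, zero_mul]; exact hM0
  obtain ⟨k, hk⟩ := norm_bot (ha i) hai
  rcases le_or_gt k 0 with hk0 | hk0
  · have h2 : ‖a i‖ ≤ 1 := by
      rw [hk]
      exact zpow_le_one_of_nonpos₀ hq1.le hk0
    have h3 : u ^ i ≤ u := by
      calc u ^ i ≤ u ^ 1 := pow_le_pow_of_le_one hu0.le hu1 hi0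
        _ = u := pow_one u
    calc ‖a i‖ * u ^ i ≤ 1 * u := mul_le_mul h2 h3 (by positivity) (by norm_num)
      _ ≤ 1 / 4 := by linarith
      _ ≤ 1 / 4 * (max 1 ‖S‖ * max 1 ‖S'‖) := by nlinarith
  · -- large coefficient
    have h2 : (q : ℝ) ≤ ‖a i‖ := by
      rw [hk]
      calc (q : ℝ) = (q : ℝ) ^ (1 : ℤ) := (zpow_one _).symm
        _ ≤ (q : ℝ) ^ k := zpow_le_zpow_right₀ hq1.le hk0
    have h3 : 1 ≤ u * (‖a i‖ * u ^ i) := by
      have h4 : u ^ (2 * n) * q = 1 := by rw [hw]; field_simp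
      have h5 : u ^ (2 * n) ≤ u ^ (i + 1) := pow_le_pow_of_le_one hu0.le hu1 (by omega)
      calc (1 : ℝ) = u ^ (2 * n) * q := h4.symm
        _ ≤ u ^ (i + 1) * ‖a i‖ := mul_le_mul h5 h2 hq0.le (by positivity)
        _ = u * (‖a i‖ * u ^ i) := by ring
    set v := ‖a i‖ * u ^ i with hv
    have hv0 : 0 ≤ v := by positivity
    have h6 : v ≤ max 1 ‖S‖ := (hlow w rfl i hi).trans (le_max_right _ _)
    have h7 : v ≤ max 1 ‖S'‖ := (hlow w' hu' i hi).trans (le_max_right _ _)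
    calc v = v * 1 := (mul_one v).symm
      _ ≤ v * (u * v) := mul_le_mul_of_nonneg_left h3 hv0
      _ ≤ v * (1 / 4 * v) := mul_le_mul_of_nonneg_left (mul_le_mul_of_nonneg_right hu4 hv0) hv0
      _ = 1 / 4 * (v * v) := by ring
      _ ≤ 1 / 4 * (max 1 ‖S‖ * max 1 ‖S'‖) :=
          mul_le_mul_of_nonneg_left (mul_le_mul h6 h7 hv0 (by positivity)) (by norm_num)

theorem T1_q {q : ℕ} [hq : Fact q.Prime] {g : ℤ[X]} (hg : g.Monic) (hgd : 0 < g.natDegree)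
    (hdiv : ∀ i, i < g.natDegree → (q : ℤ) ∣ g.coeff i) (h0 : ¬ (q : ℤ) ^ 2 ∣ g.coeff 0)
    (hqn : 16 ^ g.natDegree ≤ q) (L : IntermediateField ℚ QQ)
    (hL : ∀ τ : QQ →+* PadicAlgCl q, ∀ x ∈ L,
      τ x ∈ (⊥ : IntermediateField ℚ_[q] (PadicAlgCl q)))
    {s₁ : QQ} (hs : aeval (s₁ ^ 2) g = 0) {z : QQ}
    (hz : z ∈ L ⊔ IntermediateField.adjoin ℚ {s₁}) (hzL : z ∉ L) :
    ∃ σ : QQ ≃ₐ[ℚ] QQ, σ z ≠ z ∧ ∀ τ : QQ →+* PadicAlgCl q,
      ‖τ z - τ (σ z)‖ ≤ 1 / 4 * (max 1 ‖τ z‖ * max 1 ‖τ (σ z)‖) := by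
  obtain ⟨σ, hσ, hσz⟩ := exists_aut hzL
  refine ⟨σ, hσz, ?_⟩
  set G : ℤ[X] := g.comp (X ^ 2) with hG
  have hGd : G.natDegree = 2 * g.natDegree := by
    rw [hG, natDegree_comp, natDegree_X_pow]; ring
  have hGm : G.Monic := by
    apply hg.comp (monic_X_pow 2)
    rw [natDegree_X_pow]; norm_num
  have hGs : aeval s₁ G = 0 := by
    rw [hG, aeval_comp, aeval_X_pow]
    exact hs
  obtain ⟨a, ha, hza⟩ := rep_sup L s₁ G hGm (by omega) hGs hz
  have hσz : σ z = ∑ i ∈ Finset.range G.natDegree, a i * (σ s₁) ^ i := by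
    rw [hza, map_sum]
    apply Finset.sum_congr rfl
    intro i _
    rw [map_mul, map_pow, hσ _ (ha i)]
  intro τ
  have hn : ∀ t : QQ, aeval (t ^ 2) g = 0 → ‖τ t‖ ^ (2 * g.natDegree) = 1 / q := by
    intro t ht
    have h1 : aeval (τ t ^ 2) g = 0 := by
      rw [← map_pow, ← map_aeval_int τ (t ^ 2) g, ht, map_zero]
    have h2 := eis_norm hg hgd hdiv h0 h1
    rw [norm_pow, ← pow_mul] at h2
    exact h2
  have h1 : τ z = ∑ i ∈ Finset.range (2 * g.natDegree), τ (a i) * (τ s₁) ^ i := by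
    rw [hza, map_sum, hGd]
    apply Finset.sum_congr rfl
    intro i _
    rw [map_mul, map_pow]
  have h2 : τ (σ z) = ∑ i ∈ Finset.range (2 * g.natDegree), τ (a i) * (τ (σ s₁)) ^ i := by
    rw [hσz, map_sum, hGd]
    apply Finset.sum_congr rfl
    intro i _
    rw [map_mul, map_pow]
  rw [h1, h2]
  apply key_q hgd hqn (fun i => τ (a i)) (fun i => hL τ _ (ha i)) (hn s₁ hs)
  apply hn
  rw [← map_pow]
  have := map_aeval_int (σ : QQ →+* QQ) (s₁ ^ 2) g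
  rw [hs, map_zero] at this
  exact this.symm

end

end Pool.Agent.H291R3.L
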