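import Pool.Agent.H291R3.Lm

set_option autoImplicit false

/-! The prime `r`. -/

namespace Pool.Agent.H291R3.L

open Polynomial Module

noncomputable section

lemma norm_four {r : ℕ} [hr : Fact r.Prime] (hr2 : r ≠ 2) : ‖(4 : PadicAlgCl r)‖ = 1 := by
  have h : ‖((4 : ℤ) : PadicAlgCl r)‖ = 1 := by
    apply norm_intCast_eq_one
    intro hd
    have h10 : r ∣ 2 ^ 2 := by exact_mod_cast hd
    have h11 := hr.out.dvd_of_dvd_pow h10
    exact hr2 ((Nat.prime_dvd_prime_iff_eq hr.out Nat.prime_two).1 h11)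
  rw [← h]
  push_cast
  rfl

lemma root_r {r : ℕ} [hr : Fact r.Prime] (hr2 : r ≠ 2) {g : ℤ[X]} (hg : g.Monic)
    {m : ℕ} (hgd : g.natDegree = m + 1)
    (hdiv : ∃ R : ℤ[X], g = (X - C (4 + r : ℤ)) * X ^ m + C ((r : ℤ) ^ 2) * R) :
    ∃ z ∈ (⊥ : IntermediateField ℚ_[r] (PadicAlgCl r)), aeval z g = 0 ∧ ‖z - 4‖ = 1 / r := by
  have hr1 : (1 : ℝ) < r := by exact_mod_cast hr.out.one_lt
  have hr0 : (0 : ℝ) < 1 / r := by positivity
  have hrlt : (1 : ℝ) / r < 1 := by rw [div_lt_one (by linarith)]; exact hr1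
  have h4 := norm_four hr2
  set x : PadicAlgCl r := 4 + r with hx
  have hx1 : ‖x‖ = 1 := by
    rw [hx, norm_add_eq_of_lt, h4]
    rw [h4, norm_p]; exact hrlt
  have hxmem : x ∈ (⊥ : IntermediateField ℚ_[r] (PadicAlgCl r)) := by
    have : x = ((4 + r : ℕ) : PadicAlgCl r) := by rw [hx]; push_cast; ring
    rw [this]
    exact natCast_mem _ _
  obtain ⟨R, hR⟩ := hdiv
  set G : (PadicAlgCl r)[X] := g.map (Int.castRingHom (PadicAlgCl r)) with hG
  set R' : (PadicAlgCl r)[X] := R.map (Int.castRingHom (PadicAlgCl r)) with hR'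
  have hGc : ∀ i, ‖G.coeff i‖ ≤ 1 := by
    intro i
    rw [hG, coeff_map, eq_intCast]
    exact norm_intCast_le_one _
  have hRc : ∀ i, ‖R'.coeff i‖ ≤ 1 := by
    intro i
    rw [hR', coeff_map, eq_intCast]
    exact norm_intCast_le_one _
  have hGe : G = (X - C x) * X ^ m + C ((r : PadicAlgCl r) ^ 2) * R' := by
    have e1 : (Int.castRingHom (PadicAlgCl r)) (4 + (r : ℤ)) = 4 + r := by simp
    have e2 : (Int.castRingHom (PadicAlgCl r)) ((r : ℤ) ^ 2) = r ^ 2 := by simp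
    rw [hG, hR, hx, hR', Polynomial.map_add, Polynomial.map_mul, Polynomial.map_mul,
      Polynomial.map_sub, map_X, map_C, map_C, Polynomial.map_pow, map_X, e1, e2]
  have hr2n : ‖(r : PadicAlgCl r) ^ 2‖ = (1 / r) * (1 / r) := by
    rw [norm_pow, norm_p]; ring
  have hGx : ‖G.eval x‖ ≤ (1 / r) * (1 / r) := by
    rw [hGe, eval_add, eval_mul, eval_mul, eval_sub, eval_X, eval_C, sub_self, zero_mul, zero_add,
      eval_C, norm_mul, hr2n]
    calc _ ≤ (1 / r : ℝ) * (1 / r) * 1 :=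
          mul_le_mul_of_nonneg_left (norm_eval_le hRc x hx1.le) (by positivity)
      _ = _ := mul_one _
  have hGx' : ‖(derivative G).eval x‖ = 1 := by
    have e : (derivative G).eval x = x ^ m + (r : PadicAlgCl r) ^ 2 * (derivative R').eval x := by
      rw [hGe, derivative_add, derivative_mul, derivative_C_mul, derivative_sub, derivative_X,
        derivative_C, eval_add, eval_add, eval_mul, eval_mul, eval_mul, eval_sub, eval_sub, eval_X,
        eval_C, sub_self, zero_mul, add_zero, eval_pow, eval_X, eval_C]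
      simp
    rw [e, norm_add_eq_of_lt, norm_pow, hx1, one_pow]
    rw [norm_pow, hx1, one_pow, norm_mul, hr2n]
    calc _ ≤ (1 / r : ℝ) * (1 / r) * 1 :=
          mul_le_mul_of_nonneg_left (norm_eval_le (norm_deriv_coeff hRc) x hx1.le) (by positivity)
      _ = (1 / r : ℝ) * (1 / r) := mul_one _
      _ < 1 := by nlinarith
  obtain ⟨z, hz, hz1, hz2⟩ := nearest_root G (hg.map _) (by
    rw [hG, hg.natDegree_map, hgd]; omega) x
  have hxz : ‖x - z‖ < 1 := by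
    by_contra hcon
    push Not at hcon
    have h1 := one_le_pow₀ (n := G.natDegree) hcon
    nlinarith
  have hzn : ‖z‖ ≤ 1 := by
    have : z = x - (x - z) := by ring
    rw [this]
    exact (norm_sub_le_max _ _).trans (max_le hx1.le hxz.le)
  have hGz' : ‖(derivative G).eval z‖ = 1 := by
    rw [← hGx']
    apply norm_eq_of_sub_lt
    rw [hGx']
    refine (lipschitz (norm_deriv_coeff hGc) x z hx1.le hzn).trans_lt ?_
    rw [norm_sub_rev]; exact hxz
  rw [hGz', mul_one] at hz1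
  have hxz2 : ‖x - z‖ < 1 / r := by
    refine (hz1.trans hGx).trans_lt ?_
    nlinarith
  refine ⟨z, ?_, ?_, ?_⟩
  · apply root_mem ⊥ G hGc (fun σ x hx => fix_int g σ x hx) hz hzn hxmem
    rw [hGz', norm_sub_rev]; exact hxz
  · rw [← map_int_eval]; exact hz
  · have e : z - 4 = (r : PadicAlgCl r) + -(x - z) := by rw [hx]; ring
    rw [e, norm_add_eq_of_lt, norm_p]
    rw [norm_neg, norm_p]; exact hxz2

lemma sqrt_step {r : ℕ} [hr : Fact r.Prime] (hr2 : r ≠ 2) (ρ : QQ →+* PadicAlgCl r) (s : QQ)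
    (hs : ρ s ∈ (⊥ : IntermediateField ℚ_[r] (PadicAlgCl r))) (hs1 : ‖ρ s - 2‖ = 1 / r) :
    ∃ t : QQ, t ^ 2 = 2 + s ∧ ρ t ∈ (⊥ : IntermediateField ℚ_[r] (PadicAlgCl r)) ∧
      ‖ρ t - 2‖ = 1 / r := by
  have hr1 : (1 : ℝ) < r := by exact_mod_cast hr.out.one_lt
  have hrlt : (1 : ℝ) / r < 1 := by rw [div_lt_one (by linarith)]; exact hr1
  have h4 := norm_four hr2
  have h2mem : (2 : PadicAlgCl r) ∈ (⊥ : IntermediateField ℚ_[r] (PadicAlgCl r)) := by
    have : (2 : PadicAlgCl r) = ((2 : ℕ) : PadicAlgCl r) := by norm_num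
    rw [this]
    exact natCast_mem _ _
  obtain ⟨t, ht⟩ := IsAlgClosed.exists_pow_nat_eq (2 + s) (n := 2) (by norm_num)
  have key : ∀ u : QQ, u ^ 2 = 2 + s → ‖ρ u - 2‖ < 1 → ∃ t : QQ, t ^ 2 = 2 + s ∧
      ρ t ∈ (⊥ : IntermediateField ℚ_[r] (PadicAlgCl r)) ∧ ‖ρ t - 2‖ = 1 / r := by
    intro u hu hu1
    have hρu : ρ u ^ 2 = 2 + ρ s := by rw [← map_pow, hu, map_add, map_ofNat]
    refine ⟨u, hu, ?_, ?_⟩
    · apply sqrt_mem hr2 ⊥ (add_mem h2mem hs) _ hρu
      have : 2 + ρ s - 4 = ρ s - 2 := by ring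
      rw [this, hs1]
      exact hrlt
    · have e1 : (ρ u - 2) * (ρ u + 2) = ρ s - 2 := by linear_combination hρu
      have e2 : ‖ρ u + 2‖ = 1 := by
        have : ρ u + 2 = 4 + (ρ u - 2) := by ring
        rw [this, norm_add_eq_of_lt, h4]
        rw [h4]; exact hu1
      rw [← hs1, ← e1, norm_mul, e2, mul_one]
  by_cases h : ‖ρ t - 2‖ < 1
  · exact key t ht h
  · apply key (-t) (by rw [neg_sq, ht])
    push Not at h
    have hρt : ρ t ^ 2 = 2 + ρ s := by rw [← map_pow, ht, map_add, map_ofNat]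
    have e1 : (ρ t - 2) * (ρ t + 2) = ρ s - 2 := by linear_combination hρt
    have e2 : ‖ρ (-t) - 2‖ = ‖ρ t + 2‖ := by
      rw [map_neg, ← norm_neg]
      congr 1
      ring
    rw [e2]
    by_contra hcon
    push Not at hcon
    have h5 : ‖ρ t - 2‖ * ‖ρ t + 2‖ = 1 / r := by rw [← norm_mul, e1, hs1]
    nlinarith

lemma exists_seq_of_step {α : Type*} (P : α → Prop) (R : α → α → Prop) (a : α) (ha : P a)
    (h : ∀ x, P x → ∃ y, R x y ∧ P y) :
    ∃ s : ℕ → α, s 0 = a ∧ (∀ i, R (s i) (s (i + 1))) ∧ ∀ i, P (s i) := by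
  have hstep : ∀ x : {x : α // P x}, ∃ y : {x : α // P x}, R x y := by
    rintro ⟨x, hx⟩
    obtain ⟨y, hy, hy'⟩ := h x hx
    exact ⟨⟨y, hy'⟩, hy⟩
  choose F hF using hstep
  let S : ℕ → {x : α // P x} := fun n => Nat.rec ⟨a, ha⟩ (fun _ x => F x) n
  let s : ℕ → α := fun n => (S n).1
  exact ⟨s, rfl, fun i => hF (S i), fun i => (S i).2⟩

/-- the tower sequence -/
lemma exists_tower {r : ℕ} [hr : Fact r.Prime] (hr2 : r ≠ 2) (ρ : QQ →+* PadicAlgCl r) (s₀ : QQ)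
    (hs : ρ s₀ ∈ (⊥ : IntermediateField ℚ_[r] (PadicAlgCl r))) (hs1 : ‖ρ s₀ - 2‖ = 1 / r) :
    ∃ s : ℕ → QQ, s 0 = s₀ ∧ (∀ i, s (i + 1) ^ 2 = 2 + s i) ∧
      ∀ i, ρ (s i) ∈ (⊥ : IntermediateField ℚ_[r] (PadicAlgCl r)) ∧ ‖ρ (s i) - 2‖ = 1 / r :=
  exists_seq_of_step
    (fun x => ρ x ∈ (⊥ : IntermediateField ℚ_[r] (PadicAlgCl r)) ∧ ‖ρ x - 2‖ = 1 / r)
    (fun x y => y ^ 2 = 2 + x) s₀ ⟨hs, hs1⟩ (fun x hx => sqrt_step hr2 ρ x hx.1 hx.2)

/-- non-degeneracy -/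
lemma ND_r {r : ℕ} [hr : Fact r.Prime] (hr2 : r ≠ 2) (ρ : QQ →+* PadicAlgCl r)
    (L : IntermediateField ℚ QQ)
    (hL : ∀ x ∈ L, ρ x ∈ (⊥ : IntermediateField ℚ_[r] (PadicAlgCl r))) {s : QQ}
    (hs : ρ s ∈ (⊥ : IntermediateField ℚ_[r] (PadicAlgCl r))) (hs1 : ‖ρ s - 2‖ = 1 / r) {z : QQ}
    (hz : z ∈ L ⊔ IntermediateField.adjoin ℚ {s}) : z ^ 2 ≠ s ^ 2 - 4 := by
  intro h
  have hr1 : (1 : ℝ) < r := by exact_mod_cast hr.out.one_lt
  have hr0 : (0 : ℝ) < r := by linarith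
  have hrlt : (1 : ℝ) / r < 1 := by rw [div_lt_one (by linarith)]; exact hr1
  have h4 := norm_four hr2
  -- comap of bot
  let F : IntermediateField ℚ QQ :=
    { carrier := {x | ρ x ∈ (⊥ : IntermediateField ℚ_[r] (PadicAlgCl r))}
      mul_mem' := by
        intro a b ha hb
        simp only [Set.mem_ofPred_eq] at *
        rw [map_mul]; exact mul_mem ha hb
      add_mem' := by
        intro a b ha hb
        simp only [Set.mem_ofPred_eq] at *
        rw [map_add]; exact add_mem ha hb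
      algebraMap_mem' := by
        intro c
        have : ρ (algebraMap ℚ QQ c) = (c : PadicAlgCl r) := by
          rw [eq_ratCast (algebraMap ℚ QQ), map_ratCast]
        simp only [Set.mem_ofPred_eq]
        rw [this]
        exact SubfieldClass.ratCast_mem _ c
      inv_mem' := by
        intro a ha
        simp only [Set.mem_ofPred_eq] at *
        rw [map_inv₀]; exact inv_mem ha }
  have hle : L ⊔ IntermediateField.adjoin ℚ {s} ≤ F := by
    apply sup_le hL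
    rw [IntermediateField.adjoin_simple_le_iff]
    exact hs
  have hzF : ρ z ∈ (⊥ : IntermediateField ℚ_[r] (PadicAlgCl r)) := hle hz
  have e1 : ρ z ^ 2 = (ρ s - 2) * (ρ s + 2) := by
    rw [← map_pow, h, map_sub, map_pow, map_ofNat]; ring
  have e2 : ‖ρ s + 2‖ = 1 := by
    have : ρ s + 2 = 4 + (ρ s - 2) := by ring
    rw [this, norm_add_eq_of_lt, h4]
    rw [h4, hs1]; exact hrlt
  have e3 : ‖ρ z‖ ^ 2 = 1 / r := by rw [← norm_pow, e1, norm_mul, e2, mul_one, hs1]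
  have hz0 : ρ z ≠ 0 := by
    intro h0
    rw [h0, norm_zero] at e3
    have : (0 : ℝ) < 1 / r := by positivity
    rw [← e3] at this
    norm_num at this
  obtain ⟨k, hk⟩ := norm_bot hzF hz0
  rw [hk] at e3
  have h5 : (r : ℝ) ^ (k * 2) = (r : ℝ) ^ (-1 : ℤ) := by
    rw [zpow_mul, zpow_neg_one, ← one_div]
    exact_mod_cast e3
  have h6 := (zpow_right_injective₀ hr0 hr1.ne') h5
  omega

end

end Pool.Agent.H291R3.L
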