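import Pool.Agent.H291R3.Ln

set_option autoImplicit false

/-! The polynomial `g` and the tower. -/

namespace Pool.Agent.H291R3.L

open Polynomial Module

noncomputable section

lemma crt2 {A B : ℤ} (h : IsCoprime A B) (x y : ℤ) : ∃ b : ℤ, A ∣ b - x ∧ B ∣ b - y := by
  obtain ⟨u, v, huv⟩ := h
  refine ⟨x * v * B + y * u * A, ⟨(y - x) * u, ?_⟩, ⟨(x - y) * v, ?_⟩⟩
  · linear_combination x * huv
  · linear_combination y * huv

lemma crt3 {A B D : ℤ} (h1 : IsCoprime A B) (h2 : IsCoprime A D) (h3 : IsCoprime B D)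
    (x y z : ℤ) : ∃ b : ℤ, A ∣ b - x ∧ B ∣ b - y ∧ D ∣ b - z := by
  obtain ⟨b, hb1, hb2⟩ := crt2 h1 x y
  obtain ⟨b', hb1', hb2'⟩ := crt2 (IsCoprime.mul_left h2 h3) b z
  refine ⟨b', ?_, ?_, hb2'⟩
  · have := dvd_add ((dvd_mul_right A B).trans hb1') hb1
    rwa [sub_add_sub_cancel] at this
  · have := dvd_add ((dvd_mul_left B A).trans hb1') hb2
    rwa [sub_add_sub_cancel] at this

lemma exists_g (m K : ℕ) (c : ℕ → ℤ) {q r : ℕ} (hq : q.Prime) (hr : r.Prime) (hq2 : q ≠ 2)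
    (hr2 : r ≠ 2) (hqr : q ≠ r) :
    ∃ g : ℤ[X], g.Monic ∧ g.natDegree = m + 1 ∧ (∀ i, i < m + 1 → (2 : ℤ) ^ K ∣ g.coeff i - c i) ∧
      (∀ i, i < m + 1 → (q : ℤ) ∣ g.coeff i) ∧ ¬ (q : ℤ) ^ 2 ∣ g.coeff 0 ∧
      ∃ R : ℤ[X], g = (X - C (4 + r : ℤ)) * X ^ m + C ((r : ℤ) ^ 2) * R := by
  have hc1 : IsCoprime ((2 : ℤ) ^ K) ((q : ℤ) ^ 2) := by
    apply IsCoprime.pow
    exact Nat.isCoprime_iff_coprime.2 ((Nat.coprime_primes Nat.prime_two hq).2 hq2.symm)
  have hc2 : IsCoprime ((2 : ℤ) ^ K) ((r : ℤ) ^ 2) := by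
    apply IsCoprime.pow
    exact Nat.isCoprime_iff_coprime.2 ((Nat.coprime_primes Nat.prime_two hr).2 hr2.symm)
  have hc3 : IsCoprime ((q : ℤ) ^ 2) ((r : ℤ) ^ 2) := by
    apply IsCoprime.pow
    exact Nat.isCoprime_iff_coprime.2 ((Nat.coprime_primes hq hr).2 hqr)
  set P : ℤ[X] := (X - C (4 + r : ℤ)) * X ^ m with hP
  have hPm : P.Monic := (monic_X_sub_C _).mul (monic_X_pow m)
  have hPd : P.natDegree = m + 1 := by
    rw [hP, (monic_X_sub_C _).natDegree_mul (monic_X_pow m), natDegree_X_sub_C, natDegree_X_pow]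
    ring
  have hex : ∀ i, ∃ b : ℤ, (2 : ℤ) ^ K ∣ b - c i ∧ (q : ℤ) ^ 2 ∣ b - (if i = 0 then (q : ℤ) else 0) ∧
      (r : ℤ) ^ 2 ∣ b - P.coeff i := fun i => crt3 hc1 hc2 hc3 _ _ _
  choose b hb1 hb2 hb3 using hex
  set p : ℤ[X] := ∑ i ∈ Finset.range (m + 1), monomial i (b i) with hp
  have hpc : ∀ i, p.coeff i = if i < m + 1 then b i else 0 := by
    intro i
    rw [hp, finsetSum_coeff]
    simp only [coeff_monomial]
    rw [Finset.sum_ite_eq' (Finset.range (m + 1)) i b]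
    simp
  have hpd : p.degree < ((m + 1 : ℕ) : WithBot ℕ) := by
    rw [degree_lt_iff_coeff_zero]
    intro i hi
    rw [hpc, if_neg (by omega)]
  have hnd : (X ^ (m + 1) + p).natDegree = m + 1 := by
    rw [natDegree_add_eq_left_of_degree_lt (by rw [degree_X_pow]; exact hpd), natDegree_X_pow]
  refine ⟨X ^ (m + 1) + p, monic_X_pow_add hpd, hnd, ?_, ?_, ?_, ?_⟩
  · intro i hi
    rw [coeff_add, coeff_X_pow, if_neg hi.ne, zero_add, hpc, if_pos hi]
    exact hb1 i
  · intro i hi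
    rw [coeff_add, coeff_X_pow, if_neg hi.ne, zero_add, hpc, if_pos hi]
    have h1 := (dvd_pow_self (q : ℤ) two_ne_zero).trans (hb2 i)
    have h2 : (q : ℤ) ∣ (if i = 0 then (q : ℤ) else 0) := by
      split_ifs
      · exact dvd_rfl
      · exact dvd_zero _
    have h3 := dvd_add h1 h2
    rwa [sub_add_cancel] at h3
  · rw [coeff_add, coeff_X_pow, if_neg (by omega), zero_add, hpc, if_pos (by omega)]
    intro h
    have h1 := hb2 0
    rw [if_pos rfl] at h1
    have h2 := dvd_sub h h1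
    rw [sub_sub_cancel, pow_two] at h2
    have hq0 : (q : ℤ) ≠ 0 := by exact_mod_cast hq.ne_zero
    have h3 : (q : ℤ) * q ∣ q * 1 := by rwa [mul_one]
    have h4 := (mul_dvd_mul_iff_left hq0).1 h3
    have h5 : q ∣ 1 := by exact_mod_cast h4
    exact hq.one_lt.ne' (Nat.dvd_one.1 h5)
  · have h1 : C ((r : ℤ) ^ 2) ∣ (X ^ (m + 1) + p) - P := by
      rw [C_dvd_iff_dvd_coeff]
      intro i
      rw [coeff_sub, coeff_add, coeff_X_pow, hpc]
      rcases lt_trichotomy i (m + 1) with hi | hi | hi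
      · rw [if_neg hi.ne, if_pos hi, zero_add]
        exact hb3 i
      · rw [if_pos hi, if_neg (by omega), hi]
        have : P.coeff (m + 1) = 1 := by rw [← hPd]; exact hPm.coeff_natDegree
        rw [this]
        simp
      · rw [if_neg hi.ne', if_neg (by omega), coeff_eq_zero_of_natDegree_lt (by omega)]
        simp
    obtain ⟨R, hR⟩ := h1
    exact ⟨R, by rw [← hR]; ring⟩

lemma eis_irred {q : ℕ} (hq : q.Prime) {g : ℤ[X]} (hg : g.Monic) (hgd : 0 < g.natDegree)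
    (hdiv : ∀ i, i < g.natDegree → (q : ℤ) ∣ g.coeff i) (h0 : ¬ (q : ℤ) ^ 2 ∣ g.coeff 0) :
    Irreducible g := by
  have hqp : Prime (q : ℤ) := Nat.prime_iff_prime_int.1 hq
  have hP : (Ideal.span {(q : ℤ)}).IsPrime :=
    (Ideal.span_singleton_prime hqp.ne_zero).2 hqp
  apply irreducible_of_eisenstein_criterion hP
  · rw [hg.leadingCoeff, Ideal.mem_span_singleton]
    exact hqp.not_dvd_one
  · intro i hi
    rw [Ideal.mem_span_singleton]
    exact hdiv i (coe_lt_degree.1 hi)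
  · exact natDegree_pos_iff_degree_pos.1 hgd
  · rw [Ideal.span_singleton_pow, Ideal.mem_span_singleton]
    exact h0
  · exact hg.isPrimitive

lemma big_root {q : ℕ} {g : ℤ[X]} (hg : g.Monic) (hgd : 0 < g.natDegree)
    (hdiv : ∀ i, i < g.natDegree → (q : ℤ) ∣ g.coeff i) (h0 : ¬ (q : ℤ) ^ 2 ∣ g.coeff 0)
    (hqn : 16 ^ g.natDegree ≤ q) : ∃ w : ℂ, aeval w g = 0 ∧ 4 < ‖w‖ := by
  by_contra hcon
  push Not at hcon
  have hne : g.coeff 0 ≠ 0 := by
    intro h
    apply h0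
    rw [h]
    exact dvd_zero _
  have h1 : (q : ℤ) ≤ |g.coeff 0| :=
    Int.le_of_dvd (abs_pos.2 hne) ((dvd_abs _ _).2 (hdiv 0 hgd))
  set G : ℂ[X] := g.map (Int.castRingHom ℂ) with hG
  have hGm : G.Monic := hg.map _
  have hGs : G.Splits := IsAlgClosed.splits G
  have h2 := hGs.coeff_zero_eq_prod_roots_of_monic hGm
  have h3 : ‖G.coeff 0‖ ≤ 4 ^ G.natDegree := by
    rw [h2, norm_mul, norm_pow, norm_neg, norm_one, one_pow, one_mul,
      hGs.natDegree_eq_card_roots]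
    have : ∀ s : Multiset ℂ, (∀ a ∈ s, ‖a‖ ≤ 4) → ‖s.prod‖ ≤ 4 ^ (Multiset.card s) := by
      intro s
      induction s using Multiset.induction_on with
      | empty => intro _; simp
      | cons a s ih =>
        intro h
        rw [Multiset.prod_cons, norm_mul, Multiset.card_cons, pow_succ']
        exact mul_le_mul (h a (Multiset.mem_cons_self a s))
          (ih (fun b hb => h b (Multiset.mem_cons_of_mem hb))) (norm_nonneg _) (by norm_num)
    apply this
    intro a ha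
    apply hcon a
    rw [mem_roots hGm.ne_zero, IsRoot.def, hG, map_int_eval] at ha
    exact ha
  rw [hG, coeff_map, eq_intCast, Complex.norm_intCast, hg.natDegree_map] at h3
  have h4 : (q : ℝ) ≤ |(g.coeff 0 : ℝ)| := by exact_mod_cast h1
  have h5 : ((16 : ℝ) ^ g.natDegree) ≤ q := by exact_mod_cast hqn
  have h6 : (4 : ℝ) ^ g.natDegree < 16 ^ g.natDegree :=
    pow_lt_pow_left₀ (by norm_num) (by norm_num) hgd.ne'
  linarith

/-- preimage of an intermediate field -/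
def pre {p : ℕ} [hp : Fact p.Prime] (ρ : QQ →+* PadicAlgCl p)
    (S : IntermediateField ℚ_[p] (PadicAlgCl p)) : IntermediateField ℚ QQ where
  carrier := {x | ρ x ∈ S}
  mul_mem' := by
    intro a b ha hb
    simp only [Set.mem_ofPred_eq] at *
    rw [map_mul]; exact mul_mem ha hb
  add_mem' := by
    intro a b ha hb
    simp only [Set.mem_ofPred_eq] at *
    rw [map_add]; exact add_mem ha hb
  algebraMap_mem' := by
    intro c
    have : ρ (algebraMap ℚ QQ c) = (c : PadicAlgCl p) := by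
      rw [eq_ratCast (algebraMap ℚ QQ), map_ratCast]
    simp only [Set.mem_ofPred_eq]
    rw [this]
    exact SubfieldClass.ratCast_mem _ c
  inv_mem' := by
    intro a ha
    simp only [Set.mem_ofPred_eq] at *
    rw [map_inv₀]; exact inv_mem ha

lemma mem_pre {p : ℕ} [hp : Fact p.Prime] {ρ : QQ →+* PadicAlgCl p}
    {S : IntermediateField ℚ_[p] (PadicAlgCl p)} {x : QQ} : x ∈ pre ρ S ↔ ρ x ∈ S := Iff.rfl

lemma exists_emb {Ω : Type*} [Field Ω] [CharZero Ω] [IsAlgClosed Ω] : Nonempty (QQ →+* Ω) :=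
  ⟨(extend_hom ⊥ ((algebraMap ℚ Ω).comp
    (IntermediateField.botEquiv ℚ QQ : (⊥ : IntermediateField ℚ QQ) →+* ℚ))).choose⟩

theorem exists_data (N : IntermediateField ℚ QQ) (hN : FD N)
    (hstab : ∀ g : QQ ≃ₐ[ℚ] QQ, ∀ x ∈ N, g x ∈ N) :
    ∃ (s : ℕ → QQ) (g : ℤ[X]), (∀ i, s (i + 1) ^ 2 = 2 + s i) ∧ g.Monic ∧ Irreducible g ∧
      aeval (2 + s 0) g = 0 ∧ (∃ w : ℂ, aeval w g = 0 ∧ 4 < ‖w‖) ∧
      ∀ L : IntermediateField ℚ QQ, L ≤ N → ∀ k, ∀ y ∈ L ⊔ IntermediateField.adjoin ℚ {s k},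
        y ∉ L → ∀ f : ℤ[X], Irreducible f → aeval y f = 0 →
        (f.natDegree : ℝ) * Real.log 2 ≤
          8 * Real.log (f.map (Int.castRingHom ℂ)).mahlerMeasure := by
  obtain ⟨Λ, hΛ, n, K, c, hn, hloc⟩ := local2 N hN
  obtain ⟨q, hq, hqB, hqN⟩ := tot_split N hN hstab (16 ^ n)
  obtain ⟨r, hr, hrB, hrN⟩ := tot_split N hN hstab q
  have h16 : 1 ≤ 16 ^ n := Nat.one_le_pow _ _ (by norm_num)
  have h16' : 16 ≤ 16 ^ n := by
    calc 16 = 16 ^ 1 := by norm_num
      _ ≤ 16 ^ n := Nat.pow_le_pow_right (by norm_num) hn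
  have hq2 : q ≠ 2 := by omega
  have hr2 : r ≠ 2 := by omega
  have hqr : q ≠ r := by omega
  obtain ⟨m, rfl⟩ : ∃ m, n = m + 1 := ⟨n - 1, by omega⟩
  obtain ⟨g, hgm, hgd, hg2, hgq, hgq0, hgr⟩ := exists_g m K c hq.out hr.out hq2 hr2 hqr
  have hgd0 : 0 < g.natDegree := by omega
  have hgq' : ∀ i, i < g.natDegree → (q : ℤ) ∣ g.coeff i := by rw [hgd]; exact hgq
  have hqn : 16 ^ g.natDegree ≤ q := by rw [hgd]; exact hqB.le
  have hirr : Irreducible g := eis_irred hq.out hgm hgd0 hgq' hgq0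
  obtain ⟨z, hz, hzg, hz4⟩ := root_r hr2 hgm hgd hgr
  obtain ⟨ρ⟩ : Nonempty (QQ →+* PadicAlgCl r) := exists_emb
  obtain ⟨θ, hθ, hθz⟩ := root_lift ρ hirr.ne_zero hzg
  have hofNat2 : (2 : PadicAlgCl r) ∈ (⊥ : IntermediateField ℚ_[r] (PadicAlgCl r)) := by
    have : (2 : PadicAlgCl r) = ((2 : ℕ) : PadicAlgCl r) := by norm_num
    rw [this]
    exact natCast_mem _ _
  have hs0 : ρ (θ - 2) = z - 2 := by rw [map_sub, map_ofNat, hθz]
  obtain ⟨s, hs0', hss, hsr⟩ := exists_tower hr2 ρ (θ - 2) (by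
      rw [hs0]; exact sub_mem hz hofNat2) (by
      rw [hs0, ← hz4]; congr 1; ring)
  have hθs : 2 + s 0 = θ := by rw [hs0']; ring
  refine ⟨s, g, hss, hgm, hirr, by rw [hθs]; exact hθ, big_root hgm hgd0 hgq' hgq0 hqn, ?_⟩
  intro L hLN k y hy hyL f hf hfy
  have h2mem : ∀ E : IntermediateField ℚ QQ, (2 : QQ) ∈ E := by
    intro E
    have h : (2 : QQ) = ((2 : ℕ) : QQ) := by norm_num
    rw [h]; exact natCast_mem _ _
  have hsmem : ∀ i, s i ∈ L ⊔ IntermediateField.adjoin ℚ {s i} := fun i =>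
    (le_sup_right : IntermediateField.adjoin ℚ {s i} ≤ L ⊔ IntermediateField.adjoin ℚ {s i})
      (IntermediateField.mem_adjoin_simple_self ℚ (s i))
  have hτθ : ∀ τ : QQ →+* PadicAlgCl 2, aeval (τ (2 + s 0)) g = 0 := by
    intro τ
    rw [← map_aeval_int τ (2 + s 0) g, hθs, hθ, map_zero]
  let T : Tow :=
    { B := L
      K := fun i => L ⊔ IntermediateField.adjoin ℚ {s i}
      s := s
      V := {v | ∃ z ∈ Λ, z ≠ 0 ∧ ‖z‖ = v}
      hBK := le_sup_left
      hmono := by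
        intro i
        apply sup_le le_sup_left
        rw [IntermediateField.adjoin_simple_le_iff]
        have : s i = s (i + 1) ^ 2 - 2 := by rw [hss]; ring
        rw [this]
        exact sub_mem (pow_mem (hsmem _) 2) (h2mem _)
      hs := hss
      hsK := hsmem
      hrep := by
        intro i z hz
        apply rep_quad
        · rw [hss]
          exact add_mem (h2mem _) (hsmem i)
        · have hle : L ⊔ IntermediateField.adjoin ℚ {s (i + 1)} ≤
              (L ⊔ IntermediateField.adjoin ℚ {s i}) ⊔ IntermediateField.adjoin ℚ {s (i + 1)} :=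
            sup_le_sup_right le_sup_left _
          exact hle hz
      hVmul := by
        rintro _ ⟨a, ha, ha0, rfl⟩ _ ⟨b, hb, hb0, rfl⟩
        exact ⟨a * b, mul_mem ha hb, mul_ne_zero ha0 hb0, norm_mul _ _⟩
      hVdiv := by
        rintro _ ⟨a, ha, ha0, rfl⟩ _ ⟨b, hb, hb0, rfl⟩
        exact ⟨a / b, div_mem ha hb, div_ne_zero ha0 hb0, norm_div _ _⟩
      hV0 := by
        intro τ z hz hz0
        refine ⟨τ z, ?_, (map_ne_zero τ).2 hz0, rfl⟩
        have hle : L ⊔ IntermediateField.adjoin ℚ {s 0} ≤ pre τ Λ := by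
          apply sup_le
          · intro x hx
            exact hΛ τ x (hLN hx)
          · rw [IntermediateField.adjoin_simple_le_iff, mem_pre]
            have h1 := (hloc g hgm hgd hg2 _ (hτθ τ)).1
            have h2 : (2 : PadicAlgCl 2) ∈ Λ := by
              have : (2 : PadicAlgCl 2) = ((2 : ℕ) : PadicAlgCl 2) := by norm_num
              rw [this]; exact natCast_mem _ _
            have h3 : τ (s 0) = τ (2 + s 0) - 2 := by rw [map_add, map_ofNat]; ring
            rw [h3]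
            exact sub_mem h1 h2
        exact hle hz
      hθ1 := fun τ => (hloc g hgm hgd hg2 _ (hτθ τ)).2.1
      hθ2 := by
        rintro τ _ ⟨z, hz, hz0, rfl⟩
        exact (hloc g hgm hgd hg2 _ (hτθ τ)).2.2 z hz
      hND := by
        intro i z hz
        exact ND_r hr2 ρ L (fun x hx => hrN ρ x (hLN hx)) (hsr (i + 1)).1 (hsr (i + 1)).2 hz
      q := q
      hq := hq
      hT1 := by
        intro z hz hzL
        refine T1_q hgm hgd0 hgq' hgq0 hqn L (fun τ x hx => hqN τ x (hLN hx)) (s₁ := s 1) ?_ hz hzL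
        rw [hss 0, hθs]
        exact hθ }
  exact T.main k hy hyL hf hfy

end

end Pool.Agent.H291R3.L
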