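import Pool.Agent.H291R3.Lo
import Pool.Agent.H291R3.Bog8

set_option autoImplicit false

/-! Small heights. -/

namespace Pool.Agent.H291R3.L

open Polynomial Module

noncomputable section

lemma exists_bound (Q : ℤ[X]) (hQ : Q ≠ 0) : ∃ C : ℝ, 1 ≤ C ∧ ∀ z : ℂ, aeval z Q = 0 → ‖z‖ ≤ C := by
  set F : ℂ[X] := Q.map (Int.castRingHom ℂ) with hF
  have hF0 : F ≠ 0 := (Polynomial.map_ne_zero_iff (by exact Int.cast_injective)).2 hQ
  refine ⟨1 + (F.roots.map (fun z => ‖z‖)).sum, ?_, ?_⟩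
  · have : 0 ≤ (F.roots.map (fun z => ‖z‖)).sum := by
      apply Multiset.sum_nonneg
      intro x hx
      rw [Multiset.mem_map] at hx
      obtain ⟨z, _, rfl⟩ := hx
      exact norm_nonneg _
    linarith
  · intro z hz
    have h1 : z ∈ F.roots := by
      rw [mem_roots hF0, IsRoot.def, hF, map_int_eval]
      exact hz
    have h2 : ‖z‖ ≤ (F.roots.map (fun z => ‖z‖)).sum := by
      apply Multiset.single_le_sum
      · intro x hx
        rw [Multiset.mem_map] at hx
        obtain ⟨z, _, rfl⟩ := hx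
        exact norm_nonneg _
      · exact Multiset.mem_map_of_mem _ h1
    linarith

lemma height_small {Q : ℤ[X]} (hQ : Q.Monic) {C : ℝ} (hC : 1 ≤ C)
    (hCr : ∀ z : ℂ, aeval z Q = 0 → ‖z‖ ≤ C) {m : ℕ} (hm : 0 < m) {x : QQ}
    (hx : aeval (x ^ m) Q = 0) {f : ℤ[X]} (hf : Irreducible f) (hfx : aeval x f = 0) :
    (m : ℝ) * Real.log (f.map (Int.castRingHom ℂ)).mahlerMeasure ≤
      f.natDegree * Real.log C := by
  set G : ℤ[X] := Q.comp (X ^ m) with hG
  have hGm : G.Monic := by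
    apply hQ.comp (monic_X_pow m)
    rw [natDegree_X_pow]; omega
  have hGx : aeval x G = 0 := by rw [hG, aeval_comp, aeval_X_pow]; exact hx
  obtain ⟨h, hh⟩ := Pool.Agent.H291R3.dvd_of_root hf hfx hGx
  have hlc : f.leadingCoeff * h.leadingCoeff = 1 := by
    rw [← leadingCoeff_mul, ← hh, hGm.leadingCoeff]
  have hlc1 : |f.leadingCoeff| = 1 := by
    have := Int.isUnit_iff_abs_eq.1 (IsUnit.of_mul_eq_one _ hlc)
    exact this
  set F : ℂ[X] := f.map (Int.castRingHom ℂ) with hF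
  have hinj : Function.Injective (Int.castRingHom ℂ) := Int.cast_injective
  have hF0 : F ≠ 0 := (Polynomial.map_ne_zero_iff hinj).2 hf.ne_zero
  have hlead : F.leadingCoeff = (f.leadingCoeff : ℂ) := leadingCoeff_map_of_injective hinj f
  have hM := mahlerMeasure_eq_leadingCoeff_mul_prod_roots F
  have hlead1 : ‖F.leadingCoeff‖ = 1 := by
    rw [hlead, Complex.norm_intCast]
    exact_mod_cast hlc1
  rw [hlead1, one_mul] at hM
  have hroot : ∀ z ∈ F.roots, (max 1 ‖z‖) ^ m ≤ C := by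
    intro z hz
    rw [mem_roots hF0, IsRoot.def, hF, map_int_eval] at hz
    have hzG : aeval z G = 0 := by rw [hh, map_mul, hz, zero_mul]
    have hzQ : aeval (z ^ m) Q = 0 := by
      rw [hG, aeval_comp, aeval_X_pow] at hzG
      exact hzG
    have h1 := hCr _ hzQ
    rw [norm_pow] at h1
    rcases max_choice 1 ‖z‖ with h2 | h2
    · rw [h2, one_pow]; exact hC
    · rw [h2]; exact h1
  have hprod : ∀ s : Multiset ℂ, (∀ z ∈ s, (max 1 ‖z‖) ^ m ≤ C) →
      ((s.map (fun z => max 1 ‖z‖)).prod) ^ m ≤ C ^ (Multiset.card s) := by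
    intro s
    induction s using Multiset.induction_on with
    | empty => intro _; simp
    | cons a s ih =>
      intro h
      rw [Multiset.map_cons, Multiset.prod_cons, mul_pow, Multiset.card_cons, pow_succ']
      refine mul_le_mul (h a (Multiset.mem_cons_self a s))
          (ih (fun b hb => h b (Multiset.mem_cons_of_mem hb))) ?_ (by linarith)
      apply pow_nonneg
      apply Multiset.prod_nonneg
      intro y hy
      rw [Multiset.mem_map] at hy
      obtain ⟨z, _, rfl⟩ := hy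
      exact zero_le_one.trans (le_max_left _ _)
  have h1 := hprod F.roots hroot
  rw [← hM, ← (IsAlgClosed.splits F).natDegree_eq_card_roots, hF,
    natDegree_map_eq_of_injective hinj, ← hF] at h1
  have hMpos : 0 < F.mahlerMeasure := mahlerMeasure_pos_of_ne_zero hF0
  have h2 := Real.log_le_log (by positivity) h1
  rw [Real.log_pow, Real.log_pow] at h2
  exact h2

lemma exists_x {s : ℕ → QQ} (hs : ∀ i, s (i + 1) ^ 2 = 2 + s i) {a : QQ}
    (ha : a * (s 0 - a) = 1) : ∀ k, ∃ x : QQ, x * (s k - x) = 1 ∧ x ^ 2 ^ k = a := by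
  intro k
  induction k with
  | zero => exact ⟨a, ha, by simp⟩
  | succ k ih =>
    obtain ⟨x, hx1, hx2⟩ := ih
    have hd : (X ^ 2 - C (s (k + 1)) * X + C 1 : QQ[X]).degree ≠ 0 := by
      have : (X ^ 2 - C (s (k + 1)) * X + C 1 : QQ[X]).natDegree = 2 := by compute_degree!
      intro h0
      have h1 := natDegree_eq_zero_iff_degree_le_zero.2 h0.le
      omega
    obtain ⟨y, hy⟩ := IsAlgClosed.exists_root (X ^ 2 - C (s (k + 1)) * X + C 1 : QQ[X]) hd
    rw [IsRoot.def, eval_add, eval_sub, eval_mul, eval_pow, eval_X, eval_C, eval_C] at hy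
    have hy1 : y * (s (k + 1) - y) = 1 := by linear_combination -hy
    have hz1 : (s (k + 1) - y) * (s (k + 1) - (s (k + 1) - y)) = 1 := by
      linear_combination hy1
    have hsk := hs k
    have h1 : (y ^ 2 - x) * (y ^ 2 - (s k - x)) = 0 := by
      have e : s k = s (k + 1) ^ 2 - 2 := by rw [hsk]; ring
      have e2 : y ^ 2 * (s k - y ^ 2) = 1 := by
        rw [e]
        linear_combination (y * s (k + 1) + y ^ 2 + 1) * hy1
      linear_combination hx1 - e2
    rcases mul_eq_zero.1 h1 with h2 | h2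
    · refine ⟨y, hy1, ?_⟩
      rw [pow_succ', pow_mul, sub_eq_zero.1 h2, hx2]
    · refine ⟨s (k + 1) - y, hz1, ?_⟩
      have h3 : (s (k + 1) - y) ^ 2 = x := by
        have e : s k = s (k + 1) ^ 2 - 2 := by rw [hsk]; ring
        have h4 := sub_eq_zero.1 h2
        linear_combination -h4 - 2 * hy1 - e
      rw [pow_succ', pow_mul, h3, hx2]

lemma not_torsion {g : ℤ[X]} (hg : Irreducible g) {s a : QQ} (hs : aeval (2 + s) g = 0)
    {w : ℂ} (hw : aeval w g = 0) (hw4 : 4 < ‖w‖) (ha : a * (s - a) = 1) {m : ℕ} (hm : 0 < m) :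
    a ^ m ≠ 1 := by
  intro h
  obtain ⟨σ, hσ⟩ := Pool.Agent.H291R3.exists_embedding hg hs hw
  have h1 : ‖σ a‖ = 1 := by
    have h2 : ‖σ a‖ ^ m = 1 := by rw [← norm_pow, ← map_pow, h, map_one, norm_one]
    exact (pow_eq_one_iff_of_nonneg (norm_nonneg _) hm.ne').1 h2
  have h2 : ‖σ s - σ a‖ = 1 := by
    have h3 : ‖σ a‖ * ‖σ s - σ a‖ = 1 := by
      rw [← norm_mul, ← map_sub, ← map_mul, ha, map_one, norm_one]
    rwa [h1, one_mul] at h3
  have h3 : w = 2 + σ a + (σ s - σ a) := by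
    rw [← hσ, map_add, map_ofNat]; ring
  have h4 : ‖w‖ ≤ 2 + 1 + 1 := by
    rw [h3]
    refine (norm_add_le _ _).trans ?_
    rw [h2]
    refine add_le_add ((norm_add_le _ _).trans ?_) le_rfl
    rw [h1]
    simp
  linarith

theorem step (N : IntermediateField ℚ QQ) (hN : FD N)
    (hstab : ∀ g : QQ ≃ₐ[ℚ] QQ, ∀ x ∈ N, g x ∈ N) {ε : ℝ} (hε : 0 < ε) :
    ∃ s : QQ, (∃ x : QQ, x * (s - x) = 1 ∧ (∀ m, 0 < m → x ^ m ≠ 1) ∧
      ∀ f : ℤ[X], Irreducible f → aeval x f = 0 →
        Real.log (f.map (Int.castRingHom ℂ)).mahlerMeasure ≤ ε * f.natDegree) ∧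
      ∀ L : IntermediateField ℚ QQ, L ≤ N → ∀ y ∈ L ⊔ IntermediateField.adjoin ℚ {s},
        y ∉ L → ∀ f : ℤ[X], Irreducible f → aeval y f = 0 →
        (f.natDegree : ℝ) * Real.log 2 ≤
          8 * Real.log (f.map (Int.castRingHom ℂ)).mahlerMeasure := by
  obtain ⟨s, g, hss, hgm, hgirr, hg0, ⟨w, hw, hw4⟩, hmain⟩ := exists_data N hN hstab
  have hd : (X ^ 2 - C (s 0) * X + C 1 : QQ[X]).degree ≠ 0 := by
    have : (X ^ 2 - C (s 0) * X + C 1 : QQ[X]).natDegree = 2 := by compute_degree!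
    intro h0
    have h1 := natDegree_eq_zero_iff_degree_le_zero.2 h0.le
    omega
  obtain ⟨a, ha⟩ := IsAlgClosed.exists_root (X ^ 2 - C (s 0) * X + C 1 : QQ[X]) hd
  rw [IsRoot.def, eval_add, eval_sub, eval_mul, eval_pow, eval_X, eval_C, eval_C] at ha
  have ha1 : a * (s 0 - a) = 1 := by linear_combination -ha
  have ha0 : a ≠ 0 := by
    rintro rfl
    rw [zero_mul] at ha1
    exact zero_ne_one ha1
  have hainv : a + a⁻¹ = s 0 := by
    rw [← eq_inv_of_mul_eq_one_right ha1]; ring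
  set P : ℤ[X] := g.comp (X + C 2) with hP
  have hPm : P.Monic := by
    apply hgm.comp (monic_X_add_C 2)
    rw [natDegree_X_add_C]; norm_num
  have hPa : aeval (a + a⁻¹) P = 0 := by
    rw [hP, aeval_comp, map_add, aeval_X, aeval_C, hainv]
    have : s 0 + (algebraMap ℤ QQ) 2 = 2 + s 0 := by
      rw [map_ofNat]; ring
    rw [this]
    exact hg0
  set Q : ℤ[X] := Pool.Agent.H291R3.HH P with hQ
  have hQm : Q.Monic := by
    rw [Monic, hQ, Pool.Agent.H291R3.HH_leadingCoeff P hPm.ne_zero]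
    exact hPm.leadingCoeff
  have hQa : aeval a Q = 0 := by
    rw [hQ, Pool.Agent.H291R3.HH_aeval P a ha0, hPa, mul_zero]
  obtain ⟨C₀, hC1, hC2⟩ := exists_bound Q hQm.ne_zero
  obtain ⟨k, hk⟩ := pow_unbounded_of_one_lt (Real.log C₀ / ε) (show (1 : ℝ) < 2 by norm_num)
  obtain ⟨x, hx1, hx2⟩ := exists_x hss ha1 k
  refine ⟨s k, ⟨x, hx1, ?_, ?_⟩, fun L hL y hy hyL f hf hfy => hmain L hL k y hy hyL f hf hfy⟩
  · intro m hm h
    apply not_torsion hgirr hg0 hw hw4 ha1 hm
    rw [← hx2, ← pow_mul, mul_comm, pow_mul, h, one_pow]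
  · intro f hf hfx
    have h1 := height_small hQm hC1 hC2 (m := 2 ^ k) (by positivity) (x := x) (by
      rw [hx2]; exact hQa) hf hfx
    push_cast at h1
    rw [div_lt_iff₀ hε] at hk
    have h2 : (0 : ℝ) < 2 ^ k := by positivity
    have h3 : (f.natDegree : ℝ) * Real.log C₀ ≤ f.natDegree * (2 ^ k * ε) :=
      mul_le_mul_of_nonneg_left hk.le (by positivity)
    have h4 : (2 : ℝ) ^ k * Real.log (f.map (Int.castRingHom ℂ)).mahlerMeasure ≤
        2 ^ k * (ε * f.natDegree) := by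
      refine (h1.trans h3).trans (le_of_eq ?_)
      ring
    exact le_of_mul_le_mul_left h4 h2

end

end Pool.Agent.H291R3.L
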