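import Pool.Agent.H291R3.Lp

set_option autoImplicit false

/-! The recursion. -/

namespace Pool.Agent.H291R3.L

open Polynomial Module

noncomputable section

lemma exists_min_gt {α : Type*} {T : Set α} (hT : T.Finite) (f : α → ℝ) (hf : ∀ x ∈ T, 1 < f x) :
    ∃ μ : ℝ, 1 < μ ∧ μ ≤ 2 ∧ ∀ x ∈ T, μ ≤ f x := by
  by_cases hne : T.Nonempty
  · obtain ⟨x, hx, hmin⟩ := Set.exists_min_image T f hT hne
    refine ⟨min (f x) 2, lt_min (hf x hx) (by norm_num), min_le_right _ _, ?_⟩
    intro y hy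
    exact (min_le_left _ _).trans (hmin y hy)
  · refine ⟨2, by norm_num, le_rfl, ?_⟩
    intro x hx
    exact absurd ⟨x, hx⟩ hne

lemma natDegree_minpoly_le {k E : Type*} [Field k] [Field E] [Algebra k E]
    (N : IntermediateField k E) [FiniteDimensional k N] {y : E} (hy : y ∈ N) :
    (minpoly k y).natDegree ≤ finrank k N := by
  have h1 := minpoly.natDegree_le (A := k) (⟨y, hy⟩ : N)
  have h2 : minpoly k (⟨y, hy⟩ : N) = minpoly k y := IntermediateField.minpoly_eq _
  rwa [h2] at h1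

theorem northcott (N : IntermediateField ℚ QQ) (hN : FD N) :
    ∃ c : ℝ, 0 < c ∧ ∀ y ∈ N, y ≠ 0 → (∀ m, 0 < m → y ^ m ≠ 1) → ∀ f : ℤ[X], Irreducible f →
      aeval y f = 0 →
      c * f.natDegree ≤ Real.log (f.map (Int.castRingHom ℂ)).mahlerMeasure := by
  obtain ⟨D, hD⟩ : ∃ D : ℕ, ∀ y ∈ N, ∀ f : ℤ[X], Irreducible f → aeval y f = 0 →
      f.natDegree ≤ D := by
    refine ⟨@finrank ℚ N _ _ (IntermediateField.algebra' N).toModule, ?_⟩
    intro y hy f hf hfy
    rw [← natDegree_minpoly hf hfy]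
    exact @natDegree_minpoly_le ℚ QQ _ _ _ N hN y hy
  set T : Set ℤ[X] := {p | (p.natDegree ≤ D ∧
    (p.map (Int.castRingHom ℂ)).mahlerMeasure ≤ ((2 : NNReal) : ℝ)) ∧
    1 < (p.map (Int.castRingHom ℂ)).mahlerMeasure} with hT
  have hTf : T.Finite := (finite_mahlerMeasure_le D 2).subset (fun p hp => hp.1)
  obtain ⟨μ, hμ1, hμ2, hμ⟩ := exists_min_gt hTf
    (fun p => (p.map (Int.castRingHom ℂ)).mahlerMeasure) (fun p hp => hp.2)
  have hlogμ : 0 < Real.log μ := Real.log_pos hμ1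
  refine ⟨Real.log μ / (D + 1), by positivity, ?_⟩
  intro y hy hy0 hytor f hf hfy
  have hdeg := hD y hy f hf hfy
  have h1 : Real.log μ / (D + 1) * f.natDegree ≤ Real.log μ := by
    rw [div_mul_eq_mul_div, div_le_iff₀ (by positivity)]
    apply mul_le_mul_of_nonneg_left _ hlogμ.le
    have : (f.natDegree : ℝ) ≤ D := by exact_mod_cast hdeg
    linarith
  refine h1.trans ?_
  apply Real.log_le_log (by linarith)
  by_contra hcon
  push Not at hcon
  set F : ℂ[X] := f.map (Int.castRingHom ℂ) with hF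
  have hinj : Function.Injective (Int.castRingHom ℂ) := Int.cast_injective
  have hF0 : F ≠ 0 := (Polynomial.map_ne_zero_iff hinj).2 hf.ne_zero
  have hM1 : 1 ≤ F.mahlerMeasure := by
    by_contra h
    push Not at h
    have h2 := Real.log_neg (mahlerMeasure_pos_of_ne_zero hF0) h
    have h3 := log_mahler_nonneg hf.ne_zero
    rw [← hF] at h3
    linarith
  rcases eq_or_lt_of_le hM1 with h | h
  · -- torsion
    obtain ⟨σ⟩ : Nonempty (QQ →+* ℂ) := exists_emb
    have hz0 : σ y ≠ 0 := (map_ne_zero σ).2 hy0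
    have hz : σ y ∈ f.aroots ℂ := by
      rw [mem_aroots]
      refine ⟨hf.ne_zero, ?_⟩
      have := map_aeval_int σ y f
      rw [hfy, map_zero] at this
      exact this.symm
    obtain ⟨n, hn, hzn⟩ := pow_eq_one_of_mahlerMeasure_eq_one h.symm hz0 hz
    apply hytor n hn
    apply σ.injective
    rw [map_pow, hzn, map_one]
  · have hfT : f ∈ T := by
      refine ⟨⟨hdeg, ?_⟩, h⟩
      have h2 : ((2 : NNReal) : ℝ) = 2 := by norm_num
      rw [h2]
      linarith
    have := hμ f hfT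
    rw [← hF] at this
    linarith

/-- field generated by the roots of `f` -/
def Nf (f : ℤ[X]) : IntermediateField ℚ QQ := IntermediateField.adjoin ℚ {x | aeval x f = 0}

lemma mem_Nf {f : ℤ[X]} {x : QQ} (h : aeval x f = 0) : x ∈ Nf f :=
  IntermediateField.subset_adjoin ℚ _ h

lemma Nf_mono {f g : ℤ[X]} (h : f ∣ g) : Nf f ≤ Nf g := by
  apply IntermediateField.adjoin.mono
  intro x hx
  obtain ⟨k, rfl⟩ := h
  rw [Set.mem_ofPred_eq] at hx ⊢
  rw [map_mul, hx, zero_mul]

lemma Nf_FD {f : ℤ[X]} (hf : f ≠ 0) : FD (Nf f) := by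
  classical
  have hfin : {x : QQ | aeval x f = 0}.Finite := by
    set F : QQ[X] := f.map (Int.castRingHom QQ) with hF
    have hF0 : F ≠ 0 := (Polynomial.map_ne_zero_iff (by exact Int.cast_injective)).2 hf
    have : {x : QQ | aeval x f = 0} ⊆ ↑F.roots.toFinset := by
      intro x hx
      rw [Finset.mem_coe, Multiset.mem_toFinset, mem_roots hF0, IsRoot.def, hF, map_int_eval]
      exact hx
    exact (Finset.finite_toSet _).subset this
  have : Finite {x : QQ | aeval x f = 0} := hfin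
  apply IntermediateField.finiteDimensional_adjoin
  intro x _
  exact isIntegral_QQ x

lemma Nf_stab (f : ℤ[X]) : ∀ g : QQ ≃ₐ[ℚ] QQ, ∀ x ∈ Nf f, g x ∈ Nf f := by
  intro g x hx
  unfold Nf at hx
  induction hx using IntermediateField.adjoin_induction with
  | mem x hx =>
    apply mem_Nf
    have := map_aeval_int (g : QQ →+* QQ) x f
    rw [Set.mem_ofPred_eq] at hx
    rw [hx, map_zero] at this
    exact this.symm
  | algebraMap r => rw [AlgEquiv.commutes]; exact IntermediateField.algebraMap_mem _ _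
  | add x y _ _ hx hy => rw [map_add]; exact add_mem hx hy
  | inv x _ hx => rw [map_inv₀]; exact inv_mem hx
  | mul x y _ _ hx hy => rw [map_mul]; exact mul_mem hx hy

lemma exists_enum : ∃ e : ℕ → QQ, Function.Surjective e := by
  have h1 : Set.Countable {x : QQ | IsAlgebraic ℚ x} := Algebraic.countable ℚ QQ
  have h2 : {x : QQ | IsAlgebraic ℚ x} = Set.univ := by
    ext x
    simp only [Set.mem_ofPred_eq, Set.mem_univ, iff_true]
    exact Pool.Agent.H291R3.instAlgQQ.isAlgebraic x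
  rw [h2, Set.countable_univ_iff] at h1
  exact exists_surjective_nat QQ

/-- what a stage provides -/
def Stage (N : IntermediateField ℚ QQ) (ε : ℝ) (s : QQ) : Prop :=
  (∃ x : QQ, x * (s - x) = 1 ∧ (∀ m, 0 < m → x ^ m ≠ 1) ∧
      ∀ f : ℤ[X], Irreducible f → aeval x f = 0 →
        Real.log (f.map (Int.castRingHom ℂ)).mahlerMeasure ≤ ε * f.natDegree) ∧
      ∀ L : IntermediateField ℚ QQ, L ≤ N → ∀ y ∈ L ⊔ IntermediateField.adjoin ℚ {s},
        y ∉ L → ∀ f : ℤ[X], Irreducible f → aeval y f = 0 →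
        (f.natDegree : ℝ) * Real.log 2 ≤
          8 * Real.log (f.map (Int.castRingHom ℂ)).mahlerMeasure

theorem exists_seq : ∃ (N : ℕ → IntermediateField ℚ QQ) (s : ℕ → QQ), (∀ j, FD (N j)) ∧
    Monotone N ∧ (∀ x, ∃ j, x ∈ N j) ∧ (∀ j, s j ∈ N (j + 1)) ∧
    ∀ j, Stage (N j) (1 / ((j : ℝ) + 1)) (s j) := by
  have hstep : ∀ (f : ℤ[X]) (j : ℕ), ∃ s : QQ, f ≠ 0 → Stage (Nf f) (1 / ((j : ℝ) + 1)) s := by
    intro f j
    by_cases hf : f = 0
    · exact ⟨0, fun h => absurd hf h⟩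
    · obtain ⟨s, hs⟩ := step (Nf f) (Nf_FD hf) (Nf_stab f) (ε := 1 / ((j : ℝ) + 1)) (by positivity)
      exact ⟨s, fun _ => hs⟩
  choose S hS using hstep
  choose m hm1 hm2 using exists_irred
  obtain ⟨e, he⟩ := exists_enum
  let F : ℕ → ℤ[X] := fun n => Nat.rec 1 (fun j f => f * m (S f j) * m (e j)) n
  have hFs : ∀ j, F (j + 1) = F j * m (S (F j) j) * m (e j) := fun j => rfl
  have hF0 : ∀ j, F j ≠ 0 := by
    intro j
    induction j with
    | zero => exact one_ne_zero
    | succ j ih =>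
      rw [hFs]
      exact mul_ne_zero (mul_ne_zero ih (hm1 _).ne_zero) (hm1 _).ne_zero
  refine ⟨fun j => Nf (F j), fun j => S (F j) j, fun j => Nf_FD (hF0 j), ?_, ?_, ?_, ?_⟩
  · apply monotone_nat_of_le_succ
    intro j
    apply Nf_mono
    rw [hFs, mul_assoc]
    exact dvd_mul_right _ _
  · intro x
    obtain ⟨j, rfl⟩ := he x
    refine ⟨j + 1, ?_⟩
    apply mem_Nf
    rw [hFs, map_mul, hm2, mul_zero]
  · intro j
    apply mem_Nf
    rw [hFs, map_mul, map_mul, hm2, mul_zero, zero_mul]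
  · intro j
    exact hS (F j) j (hF0 j)

/-- the lower bound -/
theorem bog {N : ℕ → IntermediateField ℚ QQ} {s : ℕ → QQ} (hFD : ∀ j, FD (N j))
    (hmono : Monotone N) (hsN : ∀ j, s j ∈ N (j + 1))
    (hst : ∀ j, Stage (N j) (1 / ((j : ℝ) + 1)) (s j)) (l : ℕ) :
    ∃ c : ℝ, 0 < c ∧ ∀ y ∈ N l ⊔ IntermediateField.adjoin ℚ (Set.range s), y ≠ 0 →
      (∀ m, 0 < m → y ^ m ≠ 1) → ∀ f : ℤ[X], Irreducible f → aeval y f = 0 →
      c * f.natDegree ≤ Real.log (f.map (Int.castRingHom ℂ)).mahlerMeasure := by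
  classical
  obtain ⟨c, hc, hcN⟩ := northcott (N l) (hFD l)
  have hlog2 : 0 < Real.log 2 := Real.log_pos (by norm_num)
  refine ⟨min c (Real.log 2 / 8), lt_min hc (by positivity), ?_⟩
  let A : ℕ → IntermediateField ℚ QQ :=
    fun n => Nat.rec (N l) (fun i B => B ⊔ IntermediateField.adjoin ℚ {s (l + i)}) n
  have hA0 : A 0 = N l := rfl
  have hAs : ∀ i, A (i + 1) = A i ⊔ IntermediateField.adjoin ℚ {s (l + i)} := fun i => rfl
  have hAmono : Monotone A := by
    apply monotone_nat_of_le_succ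
    intro i
    rw [hAs]
    exact le_sup_left
  have hAN : ∀ i, A i ≤ N (l + i) := by
    intro i
    induction i with
    | zero => exact le_rfl
    | succ i ih =>
      rw [hAs]
      apply sup_le (ih.trans (hmono (by omega)))
      rw [IntermediateField.adjoin_simple_le_iff]
      exact hsN (l + i)
  have hle : N l ⊔ IntermediateField.adjoin ℚ (Set.range s) ≤ ⨆ i, A i := by
    apply sup_le (le_iSup A 0)
    rw [IntermediateField.adjoin_le_iff]
    rintro _ ⟨j, rfl⟩
    rcases lt_or_ge j l with h | h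
    · exact (le_iSup A 0) (hmono (by omega : j + 1 ≤ l) (hsN j))
    · apply (le_iSup A (j - l + 1))
      rw [hAs]
      have h1 : l + (j - l) = j := by omega
      rw [h1]
      exact (le_sup_right : IntermediateField.adjoin ℚ {s j} ≤ A (j - l) ⊔
        IntermediateField.adjoin ℚ {s j}) (IntermediateField.mem_adjoin_simple_self ℚ (s j))
  intro y hy hy0 hytor f hf hfy
  have hyA : ∃ i, y ∈ A i := by
    have h1 := hle hy
    rw [← SetLike.mem_coe, IntermediateField.coe_iSup_of_directed hAmono.directed_le] at h1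
    simpa using h1
  obtain ⟨i, hi, hmin⟩ : ∃ i, y ∈ A i ∧ ∀ j, j < i → y ∉ A j :=
    ⟨Nat.find hyA, Nat.find_spec hyA, fun j hj => Nat.find_min hyA hj⟩
  have hnd : (0 : ℝ) ≤ f.natDegree := by positivity
  rcases Nat.eq_zero_or_pos i with h0 | h0
  · subst h0
    have h1 := hcN y hi hy0 hytor f hf hfy
    exact (mul_le_mul_of_nonneg_right (min_le_left _ _) hnd).trans h1
  · obtain ⟨k, rfl⟩ : ∃ k, i = k + 1 := ⟨i - 1, by omega⟩
    have h1 := (hst (l + k)).2 (A k) (hAN k) y hi (hmin k (by omega)) f hf hfy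
    refine (mul_le_mul_of_nonneg_right (min_le_right _ _) hnd).trans ?_
    linarith

end

end Pool.Agent.H291R3.L
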