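import Pool.Agent.H197R3.SF.Stmts

set_option autoImplicit false

/-! # Task `APf` of the project SF (MP_090951_an) -/

namespace Pool.Agent.H291R3.SFAPf

open MeasureTheory Filter Topology Set Pool.Agent.H197R3.SF

lemma norm_ch (ω t : ℝ) : ‖ch ω t‖ = 1 := by
  unfold ch
  rw [Complex.norm_exp]
  simp

lemma one_le_exp' {σ : ℝ} (hσ : 0 < σ) (t : ℝ) : 1 ≤ Real.exp (σ * |t|) :=
  Real.one_le_exp (mul_nonneg hσ.le (abs_nonneg t))

lemma summable_norm_of {σ : ℝ} (hσ : 0 < σ) {c : ℝ → ℂ}
    (h : Summable (fun t : ℝ => ‖c t‖ * Real.exp (σ * |t|))) : Summable (fun t => ‖c t‖) := by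
  refine Summable.of_nonneg_of_le (fun t => norm_nonneg _) (fun t => ?_) h
  exact le_mul_of_one_le_right (norm_nonneg _) (one_le_exp' hσ t)

lemma summable_ch {σ : ℝ} (hσ : 0 < σ) {c : ℝ → ℂ}
    (h : Summable (fun t : ℝ => ‖c t‖ * Real.exp (σ * |t|))) (ω : ℝ) :
    Summable (fun t => c t * ch ω t) := by
  refine Summable.of_norm ?_
  refine (summable_norm_of hσ h).congr fun t => ?_
  rw [norm_mul, norm_ch, mul_one]

lemma rep_of {σ : ℝ} {K : Set ℝ} {c : ℝ → ℂ} {F : ℝ → ℂ}
    (hs : Summable (fun t : ℝ => ‖c t‖ * Real.exp (σ * |t|))) (hK : ∀ t, t ∉ K → c t = 0)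
    (heq : ∀ ω, F ω = ∑' t, c t * ch ω t) : W σ ∅ K F := by
  refine ⟨fun _ => 0, c, ⟨?_, hs, fun t _ => rfl, hK, fun ω => ?_⟩⟩
  · simp
  · rw [heq]
    simp

lemma summable_conv {c d : ℝ → ℂ} (hc : Summable (fun t => ‖c t‖))
    (hd : Summable (fun t => ‖d t‖)) (t : ℝ) : Summable (fun s => d (t - s) * c s) := by
  refine Summable.of_norm_bounded (g := fun s => (∑' u, ‖d u‖) * ‖c s‖) (hc.mul_left _)
    (fun s => ?_)
  rw [norm_mul]
  exact mul_le_mul_of_nonneg_right (hd.le_tsum (t - s) (fun u _ => norm_nonneg _))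
    (norm_nonneg _)

theorem taskAPf : Pool.Agent.H197R3.SF.TaskAPf := by
  intro hAA hAP n σ c0 Fd hσ hc0 hW hCo
  classical
  choose f C hR using hW
  have hf : ∀ i j t, f i j t = 0 := fun i j t => (hR i j).fE t (by simp)
  have hFd : ∀ ω i j, Fd ω i j = ∑' t, C i j t * ch ω t := by
    intro ω i j
    have h := (hR i j).eq ω
    simp only [hf, zero_mul, integral_zero, zero_add] at h
    exact h
  let A : ℝ → Matrix (Fin n) (Fin n) ℂ := fun t => Matrix.of fun i j => C i j t
  have hA : ∀ t i j, A t i j = C i j t := fun _ _ _ => rfl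
  have hFdA : ∀ ω, Fd ω = Matrix.of fun i j => ∑' t : ℝ, A t i j * ch ω t := by
    intro ω
    ext i j
    exact hFd ω i j
  obtain ⟨ε, hε, hεσ, hsol⟩ := hAP n σ c0 A hσ hc0 (fun i j => (hR i j).summ)
    (fun ω => by rw [← hFdA]; exact hCo ω)
  choose h hs hneg heq using fun k : Fin n => hsol (Pi.single k 1)
  -- the coefficients of `Fd` with the smaller weight
  have hCs : ∀ i j, Summable (fun t : ℝ => ‖C i j t‖ * Real.exp (ε * |t|)) := by
    intro i j
    refine Summable.of_nonneg_of_le (fun t => by positivity) (fun t => ?_) (hR i j).summ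
    refine mul_le_mul_of_nonneg_left ?_ (norm_nonneg _)
    exact Real.exp_le_exp.mpr (mul_le_mul_of_nonneg_right hεσ (abs_nonneg t))
  let e : Fin n → Fin n → ℝ → ℂ := fun i k t => ∑ j, ∑' s : ℝ, h k s j * C i j (t - s)
  have he_sum : ∀ i k, Summable (fun t : ℝ => ‖e i k t‖ * Real.exp (ε * |t|)) := by
    intro i k
    have h1 : Summable (fun t : ℝ => ∑ j, ‖∑' s : ℝ, h k s j * C i j (t - s)‖ *
        Real.exp (ε * |t|)) := by
      apply summable_sum
      intro j _
      exact (hAA ε (fun s => h k s j) (C i j) hε (hs k j) (hCs i j)).1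
    refine Summable.of_nonneg_of_le (fun t => by positivity) (fun t => ?_) h1
    rw [← Finset.sum_mul]
    exact mul_le_mul_of_nonneg_right (norm_sum_le _ _) (Real.exp_pos _).le
  have he_prod : ∀ ω i k, ∑ j, Fd ω i j * (∑' t, h k t j * ch ω t) = ∑' t, e i k t * ch ω t := by
    intro ω i k
    have h1 : ∀ j, Fd ω i j * (∑' t, h k t j * ch ω t) =
        ∑' t : ℝ, (∑' s : ℝ, h k s j * C i j (t - s)) * ch ω t := by
      intro j
      rw [(hAA ε (fun s => h k s j) (C i j) hε (hs k j) (hCs i j)).2 ω, hFd, mul_comm]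
    simp only [h1]
    rw [← Summable.tsum_finsetSum]
    · refine tsum_congr fun t => ?_
      rw [Finset.sum_mul]
    · intro j _
      exact summable_ch hε (hAA ε (fun s => h k s j) (C i j) hε (hs k j) (hCs i j)).1 ω
  have he_nonneg : ∀ i k t, 0 ≤ t → e i k t = if t = 0 then (if i = k then 1 else 0) else 0 := by
    intro i k t ht
    have h1 := heq k t ht i
    have h2 : ∑' s : ℝ, ∑ j, A (t - s) i j * h k s j = e i k t := by
      rw [Summable.tsum_finsetSum]
      · refine Finset.sum_congr rfl fun j _ => tsum_congr fun s => ?_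
        rw [hA, mul_comm]
      · intro j _
        exact summable_conv (summable_norm_of hε (hs k j)) (summable_norm_of hε (hCs i j)) t
    rw [← h2, h1]
    by_cases ht0 : t = 0
    · rw [if_pos ht0, if_pos ht0, Pi.single_apply]
    · rw [if_neg ht0, if_neg ht0]
  refine ⟨ε, hε, hεσ, fun ω => Matrix.of fun i k => ∑' t, h k t i * ch ω t,
    fun ω => Fd ω * (Matrix.of fun i k => ∑' t, h k t i * ch ω t) - 1, ?_, ?_, ?_⟩
  · intro i k
    refine rep_of (c := fun t => h k t i) (hs k i) (fun t ht => ?_) (fun ω => rfl)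
    have ht' : t < 0 := by simpa using ht
    have := hneg k t ht'
    rw [this]
    rfl
  · intro i k
    refine rep_of (c := fun t => if t < 0 then e i k t else 0) ?_ (fun t ht => ?_) (fun ω => ?_)
    · refine Summable.of_nonneg_of_le (fun t => by positivity) (fun t => ?_) (he_sum i k)
      refine mul_le_mul_of_nonneg_right ?_ (Real.exp_pos _).le
      split_ifs
      · exact le_rfl
      · rw [norm_zero]; exact norm_nonneg _
    · have ht' : ¬ t < 0 := by simpa using ht
      rw [if_neg ht']
    · have h1 : (Fd ω * (Matrix.of fun i k => ∑' t, h k t i * ch ω t)) i k =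
          ∑' t, e i k t * ch ω t := by
        rw [Matrix.mul_apply, ← he_prod]
        rfl
      have h2 : ∀ t, e i k t * ch ω t = (if t < 0 then e i k t else 0) * ch ω t +
          (if t = 0 then (if i = k then 1 else 0) else 0) := by
        intro t
        rcases lt_trichotomy t 0 with ht | ht | ht
        · rw [if_pos ht, if_neg ht.ne, add_zero]
        · have hch : ch ω t = 1 := by rw [ht]; simp [ch]
          have hlt : ¬ t < 0 := by rw [ht]; exact lt_irrefl _
          rw [he_nonneg i k t ht.ge, hch]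
          simp only [if_pos ht, if_neg hlt, zero_add, mul_one]
        · rw [he_nonneg i k t ht.le, if_neg ht.ne', if_neg (not_lt.mpr ht.le)]
          ring
      have h3 : Summable (fun t => (if t < 0 then e i k t else 0) * ch ω t) := by
        refine summable_ch hε ?_ ω
        refine Summable.of_nonneg_of_le (fun t => by positivity) (fun t => ?_) (he_sum i k)
        refine mul_le_mul_of_nonneg_right ?_ (Real.exp_pos _).le
        split_ifs
        · exact le_rfl
        · rw [norm_zero]; exact norm_nonneg _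
      have h4 : Summable (fun t : ℝ => if t = 0 then ((if i = k then 1 else 0 : ℂ)) else 0) :=
        (hasSum_ite_eq (0 : ℝ) _).summable
      change (Fd ω * (Matrix.of fun i k => ∑' t, h k t i * ch ω t)) i k -
        (1 : Matrix (Fin n) (Fin n) ℂ) i k = _
      rw [h1, tsum_congr h2, h3.tsum_add h4, tsum_ite_eq, Matrix.one_apply]
      ring
  · intro ω
    exact (add_sub_cancel _ _).symm

end Pool.Agent.H291R3.SFAPf
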