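import Pool.Agent.H291R3.TPInf

set_option autoImplicit false

/-!
`n`-th roots of the members of the family have degree exactly `n` over the totally p-adic field.
-/

namespace Pool.Agent.H291R3

open Polynomial IntermediateField

noncomputable section

variable {p : ℕ} [hp : Fact p.Prime]

lemma prod_one_lt {ι : Type*} (s : Finset ι) (hs : s.Nonempty) (f : ι → ℝ)
    (h : ∀ i ∈ s, 1 < f i) : 1 < ∏ i ∈ s, f i := by
  classical
  induction hs using Finset.Nonempty.cons_induction with
  | singleton a => simpa using h a (by simp)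
  | cons a s ha hs ih =>
    rw [Finset.prod_cons]
    have h1 := h a (by simp)
    have h2 := ih (fun i hi => h i (by simp [hi]))
    nlinarith

/-- Some embedding into `ℚ̄_p` makes `α` a uniformiser. -/
lemma exists_place (α y : AlgebraicClosure ℚ) (h1 : IsIntegral ℤ α) (hT : TP p α)
    (hψ : ∀ ψ : AlgebraicClosure ℚ →+* ℂ, 1 < ‖ψ α‖)
    (hy' : IsIntegral ℤ y⁻¹) (hy0 : y ≠ 0)
    (hrel : α ^ p - α = (p : AlgebraicClosure ℚ) * y) :
    ∃ (φ : AlgebraicClosure ℚ →+* AlgebraicClosure ℚ_[p]) (z : ℤ_[p]),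
      algebraMap ℤ_[p] (AlgebraicClosure ℚ_[p]) z = φ α ∧ PadicInt.toZMod z = 0 := by
  classical
  by_contra hcon
  push Not at hcon
  have hp1 : 1 < p := hp.out.one_lt
  set K : IntermediateField ℚ (AlgebraicClosure ℚ) := ℚ⟮α⟯ with hK
  have hfd : FiniteDimensional ℚ K :=
    IntermediateField.adjoin.finiteDimensional (Algebra.IsIntegral.isIntegral α)
  set x : K := AdjoinSimple.gen ℚ α with hx
  have hxα : (x : AlgebraicClosure ℚ) = α := AdjoinSimple.coe_gen ℚ α
  have hpp : (p : AlgebraicClosure ℚ) ≠ 0 := by exact_mod_cast hp.out.ne_zero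
  have hα0 : α ≠ 0 := by
    intro h0
    rw [h0, zero_pow hp.out.ne_zero, sub_zero] at hrel
    exact (mul_ne_zero hpp hy0) hrel.symm
  have hx0 : x ≠ 0 := by
    intro h0
    apply hα0
    rw [← hxα, h0]
    rfl
  have hinj : Function.Injective ((algebraMap K (AlgebraicClosure ℚ)).toIntAlgHom) :=
    (algebraMap K (AlgebraicClosure ℚ)).injective
  have hxi : IsIntegral ℤ x := (isIntegral_algHom_iff _ hinj).1 (by
    have : (algebraMap K (AlgebraicClosure ℚ)).toIntAlgHom x = α := hxα
    rw [this]; exact h1)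
  have hpxi : IsIntegral ℤ ((p : K) / x) := by
    apply (isIntegral_algHom_iff _ hinj).1
    have : (algebraMap K (AlgebraicClosure ℚ)).toIntAlgHom ((p : K) / x) =
        (p : AlgebraicClosure ℚ) / α := by
      change (algebraMap K (AlgebraicClosure ℚ)) ((p : K) / x) = _
      rw [map_div₀, map_natCast]
      congr 1
    rw [this]
    have h2 : (p : AlgebraicClosure ℚ) / α = (α ^ (p - 1) - 1) * y⁻¹ := by
      rw [div_eq_iff hα0]
      have h3 : α ^ (p - 1) * α = α ^ p := by
        rw [← pow_succ]; congr 1; omega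
      have h4 : (α ^ (p - 1) - 1) * y⁻¹ * α = (α ^ (p - 1) * α - α) * y⁻¹ := by ring
      rw [h4, h3, hrel, mul_assoc, mul_inv_cancel₀ hy0, mul_one]
    rw [h2]
    exact ((h1.pow _).sub isIntegral_one).mul hy'
  obtain ⟨a, ha⟩ := IsIntegrallyClosed.isIntegral_iff.1 (Algebra.isIntegral_norm ℚ hxi)
  obtain ⟨b, hb⟩ := IsIntegrallyClosed.isIntegral_iff.1 (Algebra.isIntegral_norm ℚ hpxi)
  have hab : a * b = (p : ℤ) ^ (Module.finrank ℚ K) := by
    have h5 : ((a * b : ℤ) : ℚ) = (((p : ℤ) ^ (Module.finrank ℚ K) : ℤ) : ℚ) := by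
      have h6 : (algebraMap ℤ ℚ a) * (algebraMap ℤ ℚ b) = (p : ℚ) ^ (Module.finrank ℚ K) := by
        rw [ha, hb, ← map_mul, mul_div_cancel₀ _ hx0]
        have : ((p : ℕ) : K) = algebraMap ℚ K (p : ℚ) := by rw [map_natCast]
        rw [this, Algebra.norm_algebraMap]
      push_cast
      exact h6
    exact Int.cast_injective h5
  -- archimedean: |a| > 1
  have hA : 1 < |(a : ℝ)| := by
    have h7 := Algebra.norm_eq_prod_embeddings ℚ ℂ x
    have h8 : |(a : ℝ)| = ∏ σ : K →ₐ[ℚ] ℂ, ‖σ x‖ := by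
      rw [← norm_prod, ← h7, ← ha]
      simp
    rw [h8]
    apply prod_one_lt
    · obtain ⟨ψ⟩ : Nonempty (K →ₐ[ℚ] ℂ) := ⟨IsAlgClosed.lift⟩
      exact ⟨ψ, Finset.mem_univ _⟩
    · intro σ _
      obtain ⟨ψ, hψ'⟩ := IntermediateField.exists_algHom_of_splits
        (F := ℚ) (E := AlgebraicClosure ℚ) (K := ℂ) (L := K)
        (fun s => ⟨Algebra.IsIntegral.isIntegral s, IsAlgClosed.splits _⟩) σ
      have h9 : σ x = ψ α := by
        rw [← hψ', ← hxα]; rfl
      rw [h9]
      exact hψ (ψ : AlgebraicClosure ℚ →+* ℂ)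
  -- p-adic: p does not divide a
  have hB : ¬ ((p : ℤ) ∣ a) := by
    have h7 := Algebra.norm_eq_prod_embeddings ℚ (AlgebraicClosure ℚ_[p]) x
    have hz : ∀ σ : K →ₐ[ℚ] (AlgebraicClosure ℚ_[p]), ∃ z : ℤ_[p],
        algebraMap ℤ_[p] (AlgebraicClosure ℚ_[p]) z = σ x ∧ PadicInt.toZMod z ≠ 0 := by
      intro σ
      obtain ⟨ψ, hψ'⟩ := IntermediateField.exists_algHom_of_splits
        (F := ℚ) (E := AlgebraicClosure ℚ) (K := AlgebraicClosure ℚ_[p]) (L := K)
        (fun s => ⟨Algebra.IsIntegral.isIntegral s, IsAlgClosed.splits _⟩) σ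
      have h9 : σ x = ψ α := by
        rw [← hψ', ← hxα]; rfl
      obtain ⟨z, hz⟩ := hT.exists_int h1 (ψ : AlgebraicClosure ℚ →+* AlgebraicClosure ℚ_[p])
      exact ⟨z, by rw [h9]; exact hz, hcon _ z hz⟩
    choose z hz1 hz2 using hz
    have hinj2 : Function.Injective (algebraMap ℤ_[p] (AlgebraicClosure ℚ_[p])) := by
      rw [IsScalarTower.algebraMap_eq ℤ_[p] ℚ_[p] (AlgebraicClosure ℚ_[p])]
      exact (algebraMap ℚ_[p] (AlgebraicClosure ℚ_[p])).injective.comp
        (IsFractionRing.injective ℤ_[p] ℚ_[p])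
    have h10 : (a : ℤ_[p]) = ∏ σ : K →ₐ[ℚ] (AlgebraicClosure ℚ_[p]), z σ := by
      apply hinj2
      rw [map_prod, Finset.prod_congr rfl (fun σ _ => hz1 σ), ← h7, ← ha]
      simp
    intro hdvd
    have h11 : PadicInt.toZMod (a : ℤ_[p]) = 0 := by
      rw [map_intCast]
      exact (ZMod.intCast_zmod_eq_zero_iff_dvd a p).2 hdvd
    rw [h10, map_prod] at h11
    rw [Finset.prod_eq_zero_iff] at h11
    obtain ⟨σ, -, hσ⟩ := h11
    exact hz2 σ hσ
  have hcop : IsCoprime a ((p : ℤ) ^ (Module.finrank ℚ K)) := by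
    apply IsCoprime.pow_right
    rw [isCoprime_comm]
    exact (Nat.prime_iff_prime_int.1 hp.out).coprime_iff_not_dvd.2 hB
  have hunit : IsUnit a := by
    have hd : a ∣ (p : ℤ) ^ (Module.finrank ℚ K) := ⟨b, hab.symm⟩
    exact hcop.isUnit_of_dvd' dvd_rfl hd
  rcases Int.isUnit_iff.1 hunit with h | h <;> rw [h] at hA <;> norm_num at hA

/-- The field of totally `p`-adic numbers. -/
def Ltp (p : ℕ) [Fact p.Prime] : IntermediateField ℚ (AlgebraicClosure ℚ) :=
  IntermediateField.adjoin ℚ {x : AlgebraicClosure ℚ |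
    ((minpoly ℚ x).map (algebraMap ℚ ℚ_[p])).roots.card = (minpoly ℚ x).natDegree}

lemma mem_range_of_mem_Ltp (φ : AlgebraicClosure ℚ →+* AlgebraicClosure ℚ_[p])
    {x : AlgebraicClosure ℚ} (hx : x ∈ Ltp p) :
    φ x ∈ (algebraMap ℚ_[p] (AlgebraicClosure ℚ_[p])).range := by
  have hle : (Ltp p).toSubfield ≤ (algebraMap ℚ_[p] (AlgebraicClosure ℚ_[p])).fieldRange.comap φ := by
    have : Ltp p ≤ (Subfield.toIntermediateField
        ((algebraMap ℚ_[p] (AlgebraicClosure ℚ_[p])).fieldRange.comap φ) (by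
          intro q
          rw [Subfield.mem_comap]
          refine ⟨(q : ℚ_[p]), ?_⟩
          simp)) := by
      rw [Ltp, IntermediateField.adjoin_le_iff]
      intro x hx
      rw [Set.mem_setOf_eq] at hx
      set f := (minpoly ℚ x).map (algebraMap ℚ ℚ_[p]) with hf
      have hxi : IsIntegral ℚ x := Algebra.IsIntegral.isIntegral x
      have hmon : f.Monic := (minpoly.monic hxi).map _
      have hsp : f.Splits := by
        rw [splits_iff_card_roots, hx, hf, natDegree_map]
      have hr : (f.map (algebraMap ℚ_[p] (AlgebraicClosure ℚ_[p]))).eval (φ x) = 0 := by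
        rw [hf, Polynomial.map_map, eval_map]
        have h1 : (algebraMap ℚ_[p] (AlgebraicClosure ℚ_[p])).comp (algebraMap ℚ ℚ_[p]) =
            φ.comp (algebraMap ℚ (AlgebraicClosure ℚ)) := Subsingleton.elim _ _
        rw [h1, ← hom_eval₂]
        have h2 : eval₂ (algebraMap ℚ (AlgebraicClosure ℚ)) x (minpoly ℚ x) = 0 :=
          minpoly.aeval ℚ x
        rw [h2, map_zero]
      rw [hsp.eq_prod_roots_of_monic hmon, Polynomial.map_multiset_prod, eval_multiset_prod,
        Multiset.prod_eq_zero_iff] at hr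
      simp only [Multiset.map_map, Multiset.mem_map, Function.comp] at hr
      obtain ⟨c, -, hc⟩ := hr
      refine ⟨c, ?_⟩
      simp only [Polynomial.map_sub, Polynomial.map_X, Polynomial.map_C, eval_sub, eval_X,
        eval_C] at hc
      exact (sub_eq_zero.1 hc).symm
    exact this
  have := hle hx
  rw [Subfield.mem_comap] at this
  exact this

/-- Degree of an `n`-th root of an element which is a uniformiser somewhere. -/
lemma natDegree_root (n : ℕ) (hn : 1 ≤ n) (α β : AlgebraicClosure ℚ) (hα : α ∈ Ltp p)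
    (hβ : β ^ n = α) (φ : AlgebraicClosure ℚ →+* AlgebraicClosure ℚ_[p]) (z : ℤ_[p])
    (hz : algebraMap ℤ_[p] (AlgebraicClosure ℚ_[p]) z = φ α)
    (hz1 : z ∈ IsLocalRing.maximalIdeal ℤ_[p]) (hz2 : z ∉ (IsLocalRing.maximalIdeal ℤ_[p]) ^ 2) :
    (minpoly (Ltp p) β).natDegree = n := by
  set e : ℚ_[p] ≃+* (algebraMap ℚ_[p] (AlgebraicClosure ℚ_[p])).range :=
    RingEquiv.ofBijective (algebraMap ℚ_[p] (AlgebraicClosure ℚ_[p])).rangeRestrict
      ⟨fun a b hab => (algebraMap ℚ_[p] (AlgebraicClosure ℚ_[p])).injective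
        (congrArg Subtype.val hab), RingHom.rangeRestrict_surjective _⟩ with he
  set j : Ltp p →+* ℚ_[p] := e.symm.toRingHom.comp
    ((φ.comp (algebraMap (Ltp p) (AlgebraicClosure ℚ))).codRestrict _
      (fun x => mem_range_of_mem_Ltp φ x.2)) with hj
  have hjspec : ∀ x : Ltp p, algebraMap ℚ_[p] (AlgebraicClosure ℚ_[p]) (j x) = φ x := by
    intro x
    have h1 : e (j x) = ((φ.comp (algebraMap (Ltp p) (AlgebraicClosure ℚ))).codRestrict _
      (fun x => mem_range_of_mem_Ltp φ x.2)) x := by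
      rw [hj]
      exact e.apply_symm_apply _
    exact congrArg Subtype.val h1
  set αL : Ltp p := ⟨α, hα⟩ with hαL
  have hjα : j αL = algebraMap ℤ_[p] ℚ_[p] z := by
    apply (algebraMap ℚ_[p] (AlgebraicClosure ℚ_[p])).injective
    rw [hjspec, ← IsScalarTower.algebraMap_apply, hz]
  have hn0 : n ≠ 0 := by omega
  have hmon : (X ^ n - C αL : (Ltp p)[X]).Monic := monic_X_pow_sub_C _ hn0
  have hmonz : (X ^ n - C z : ℤ_[p][X]).Monic := monic_X_pow_sub_C _ hn0
  have hirrz : Irreducible (X ^ n - C z : ℤ_[p][X]) := by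
    apply Polynomial.irreducible_of_eisenstein_criterion (P := IsLocalRing.maximalIdeal ℤ_[p])
    · exact (IsLocalRing.maximalIdeal.isMaximal ℤ_[p]).isPrime
    · rw [hmonz.leadingCoeff]
      exact (Ideal.ne_top_iff_one _).1 (IsLocalRing.maximalIdeal.isMaximal ℤ_[p]).ne_top
    · intro k hk
      rw [degree_X_pow_sub_C (by omega)] at hk
      have hk' : k < n := by exact_mod_cast hk
      rw [coeff_sub, coeff_X_pow, if_neg (by omega), coeff_C]
      split_ifs
      · simpa using hz1
      · simp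
    · rw [degree_X_pow_sub_C (by omega)]
      exact_mod_cast (by omega : 0 < n)
    · rw [coeff_sub, coeff_X_pow, if_neg (by omega), coeff_C_zero, zero_sub]
      intro h
      exact hz2 (by simpa using h)
    · exact hmonz.isPrimitive
  have hirrq : Irreducible ((X ^ n - C z : ℤ_[p][X]).map (algebraMap ℤ_[p] ℚ_[p])) :=
    (hmonz.irreducible_iff_irreducible_map_fraction_map).1 hirrz
  have hirr : Irreducible (X ^ n - C αL : (Ltp p)[X]) := by
    apply Polynomial.Monic.irreducible_of_irreducible_map j _ hmon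
    have : (X ^ n - C αL : (Ltp p)[X]).map j =
        (X ^ n - C z : ℤ_[p][X]).map (algebraMap ℤ_[p] ℚ_[p]) := by
      simp [hjα]
    rw [this]
    exact hirrq
  have hmin : (X ^ n - C αL : (Ltp p)[X]) = minpoly (Ltp p) β := by
    apply minpoly.eq_of_irreducible_of_monic hirr _ hmon
    rw [map_sub, map_pow, aeval_X, aeval_C, hβ]
    exact sub_self _
  rw [← hmin]
  exact natDegree_X_pow_sub_C

lemma hgt_root (n : ℕ) (hn : 1 ≤ n) (α β : AlgebraicClosure ℚ) (hβ : β ^ n = α)
    (hψ : ∀ ψ : AlgebraicClosure ℚ →+* ℂ, 1 < ‖ψ α‖) :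
    (n : ℝ) * hgt β = hgt α := by
  set K : IntermediateField ℚ (AlgebraicClosure ℚ) := ℚ⟮β⟯ with hK
  have hfd : FiniteDimensional ℚ K :=
    IntermediateField.adjoin.finiteDimensional (Algebra.IsIntegral.isIntegral β)
  set x : K := AdjoinSimple.gen ℚ β with hx
  have hxβ : (x : AlgebraicClosure ℚ) = β := AdjoinSimple.coe_gen ℚ β
  have hxα : ((x ^ n : K) : AlgebraicClosure ℚ) = α := by
    push_cast
    rw [hxβ, hβ]
  have h1 := log_norm_eq K x (by
    intro ψ
    rw [hxβ]
    by_contra hcon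
    push Not at hcon
    have := hψ ψ
    rw [← hβ, map_pow, norm_pow] at this
    have h2 := pow_le_one₀ (norm_nonneg (ψ β)) hcon.le (n := n)
    linarith)
  have h2 := log_norm_eq K (x ^ n) (by
    intro ψ
    rw [hxα]
    exact (hψ ψ).le)
  rw [hxβ] at h1
  rw [hxα, map_pow] at h2
  push_cast at h2
  rw [abs_pow, Real.log_pow, h1] at h2
  have hpos : (0 : ℝ) < Module.finrank ℚ K := by exact_mod_cast Module.finrank_pos
  have h3 : (Module.finrank ℚ K : ℝ) * ((n : ℝ) * hgt β) = (Module.finrank ℚ K : ℝ) * hgt α := by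
    linear_combination h2
  exact mul_left_cancel₀ hpos.ne' h3

/-- Main theorem: for `p ≥ 5` and all `n ≥ 1`, infinitely many algebraic integers of degree
exactly `n` over the totally p-adic field have height at most `log p / (p n)`. -/
theorem infinite_degree (h5 : 5 ≤ p) (n : ℕ) (hn : 1 ≤ n) :
    {β : AlgebraicClosure ℚ | IsIntegral ℤ β ∧ (minpoly (Ltp p) β).natDegree = n ∧
      hgt β ≤ Real.log p / (p * n)}.Infinite := by
  have hn0 : n ≠ 0 := by omega
  choose F hF using fun α : AlgebraicClosure ℚ =>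
    IsAlgClosed.exists_pow_nat_eq α (by omega : 0 < n)
  refine Set.infinite_of_injOn_mapsTo (f := F) ?_ ?_ (infinite_family2 h5)
  · intro a _ b _ hab
    rw [← hF a, ← hF b, hab]
  · rintro α ⟨h1, h2, h3, h4, y, hy1, hy0, hrel⟩
    obtain ⟨φ, z, hz, hz0⟩ := exists_place α y h1 h2 h3 hy1 hy0 hrel
    refine ⟨?_, ?_, ?_⟩
    · exact IsIntegral.of_pow (n := n) (by omega) (by rw [hF]; exact h1)
    · -- valuation of z is exactly one
      obtain ⟨y', hy'⟩ : ∃ y' : ℤ_[p], algebraMap ℤ_[p] (AlgebraicClosure ℚ_[p]) y' = φ y⁻¹ := by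
        have hyT : TP p y⁻¹ := by
          intro φ'
          obtain ⟨c, hc⟩ := h2 φ'
          have hpp : (p : AlgebraicClosure ℚ) ≠ 0 := by exact_mod_cast hp.out.ne_zero
          have : y = (α ^ p - α) / p := by
            rw [hrel, mul_div_cancel_left₀ _ hpp]
          refine ⟨((c ^ p - c) / p)⁻¹, ?_⟩
          rw [this]
          simp only [map_inv₀, map_div₀, map_sub, map_pow, map_natCast, hc]
        exact hyT.exists_int hy1 φ
      have hinj2 : Function.Injective (algebraMap ℤ_[p] (AlgebraicClosure ℚ_[p])) := by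
        rw [IsScalarTower.algebraMap_eq ℤ_[p] ℚ_[p] (AlgebraicClosure ℚ_[p])]
        exact (algebraMap ℚ_[p] (AlgebraicClosure ℚ_[p])).injective.comp
          (IsFractionRing.injective ℤ_[p] ℚ_[p])
      have hrelz : (z ^ p - z) * y' = (p : ℤ_[p]) := by
        apply hinj2
        rw [map_mul, map_sub, map_pow, hz, hy', map_natCast, ← map_pow, ← map_sub, hrel,
          map_mul, map_natCast, map_inv₀, mul_assoc, mul_inv_cancel₀, mul_one]
        exact (map_ne_zero φ).2 hy0
      have hz1 : z ∈ IsLocalRing.maximalIdeal ℤ_[p] := by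
        rw [← PadicInt.ker_toZMod, RingHom.mem_ker]
        exact hz0
      apply natDegree_root n hn α (F α) _ (hF α) φ z hz hz1
      · intro hz2
        have hp2 : (p : ℤ_[p]) ∈ (IsLocalRing.maximalIdeal ℤ_[p]) ^ 2 := by
          rw [← hrelz]
          apply Ideal.mul_mem_right
          apply Ideal.sub_mem _ _ hz2
          have h2p : 2 ≤ p := hp.out.two_le
          obtain ⟨k, hk⟩ : ∃ k, p = 2 + k := ⟨p - 2, by omega⟩
          have : z ^ p = z ^ 2 * z ^ k := by
            rw [← pow_add, ← hk]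
          rw [this]
          exact Ideal.mul_mem_right _ _ (Ideal.pow_mem_pow hz1 2)
        rw [PadicInt.maximalIdeal_eq_span_p, Ideal.span_singleton_pow,
          Ideal.mem_span_singleton] at hp2
        obtain ⟨w, hw⟩ := hp2
        have hpne : (p : ℤ_[p]) ≠ 0 := by exact_mod_cast hp.out.ne_zero
        have hu : (p : ℤ_[p]) * w = 1 := by
          have : (p : ℤ_[p]) * ((p : ℤ_[p]) * w) = (p : ℤ_[p]) * 1 := by
            rw [mul_one]; nth_rewrite 3 [hw]; ring
          exact mul_left_cancel₀ hpne this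
        have : IsUnit (p : ℤ_[p]) := IsUnit.of_mul_eq_one _ hu
        exact PadicInt.p_nonunit this
      · exact IntermediateField.subset_adjoin ℚ _ h2.card_roots
    · have h6 := hgt_root n hn α (F α) (hF α) h3
      have hnpos : (0 : ℝ) < n := by exact_mod_cast hn
      have hppos : (0 : ℝ) < p := by exact_mod_cast hp.out.pos
      rw [le_div_iff₀ (by positivity)]
      rw [le_div_iff₀ hppos, ← h6] at h4
      linarith

end

end Pool.Agent.H291R3
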