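import Pool.Agent.H291R3.TPadic

set_option autoImplicit false

/-!
An infinite family of totally p-adic algebraic integers of height at most `log p / p`.
-/

namespace Pool.Agent.H291R3

open Polynomial IntermediateField

noncomputable section

/-- Height of an algebraic integer, via the Mahler measure of its minimal polynomial. -/
def hgt (x : AlgebraicClosure ℚ) : ℝ :=
  Real.log (((minpoly ℚ x).map (algebraMap ℚ ℂ)).mahlerMeasure) / ((minpoly ℚ x).natDegree : ℝ)

lemma exists_emb_of_root (x : AlgebraicClosure ℚ) (r : ℂ)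
    (hr : r ∈ ((minpoly ℚ x).map (algebraMap ℚ ℂ)).roots) :
    ∃ ψ : AlgebraicClosure ℚ →+* ℂ, ψ x = r := by
  have hxi : IsIntegral ℚ x := Algebra.IsIntegral.isIntegral x
  have hr0 : aeval r (minpoly ℚ x) = 0 := by
    rw [mem_roots ((minpoly.monic hxi).map _).ne_zero, IsRoot.def, eval_map] at hr
    rw [aeval_def, ← hr]
  obtain ⟨φ, hφ⟩ := IntermediateField.exists_algHom_of_splits_of_aeval
    (F := ℚ) (E := AlgebraicClosure ℚ) (K := ℂ)
    (fun s => ⟨Algebra.IsIntegral.isIntegral s, IsAlgClosed.splits _⟩) hr0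
  exact ⟨(φ : AlgebraicClosure ℚ →+* ℂ), hφ⟩

lemma mahler_eq_prod (x : AlgebraicClosure ℚ)
    (h : ∀ ψ : AlgebraicClosure ℚ →+* ℂ, 1 ≤ ‖ψ x‖) :
    ((minpoly ℚ x).map (algebraMap ℚ ℂ)).mahlerMeasure =
      ‖((minpoly ℚ x).aroots ℂ).prod‖ := by
  have hxi : IsIntegral ℚ x := Algebra.IsIntegral.isIntegral x
  rw [mahlerMeasure_eq_leadingCoeff_mul_prod_roots, ((minpoly.monic hxi).map _).leadingCoeff,
    norm_one, one_mul, aroots_def]
  have h1 : (((minpoly ℚ x).map (algebraMap ℚ ℂ)).roots.map (fun a => max 1 ‖a‖)) =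
      (((minpoly ℚ x).map (algebraMap ℚ ℂ)).roots.map (fun a => ‖a‖)) := by
    apply Multiset.map_congr rfl
    intro r hr
    obtain ⟨ψ, hψ⟩ := exists_emb_of_root x r hr
    rw [← hψ]
    exact max_eq_right (h ψ)
  rw [h1]
  exact (map_multiset_prod (normHom (α := ℂ)) _).symm

lemma log_norm_eq (K : IntermediateField ℚ (AlgebraicClosure ℚ)) [FiniteDimensional ℚ K] (x : K)
    (h : ∀ ψ : AlgebraicClosure ℚ →+* ℂ, 1 ≤ ‖ψ (x : AlgebraicClosure ℚ)‖) :
    Real.log |((Algebra.norm ℚ x : ℚ) : ℝ)| =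
      (Module.finrank ℚ K : ℝ) * hgt (x : AlgebraicClosure ℚ) := by
  have hx : IsIntegral ℚ x := Algebra.IsIntegral.isIntegral x
  have h1 := Algebra.norm_eq_prod_roots (K := ℚ) (L := K) (F := ℂ) (x := x) (IsAlgClosed.splits _)
  have hmin : minpoly ℚ (x : AlgebraicClosure ℚ) = minpoly ℚ x := by
    exact minpoly.algebraMap_eq (algebraMap K (AlgebraicClosure ℚ)).injective x
  have h2 : |((Algebra.norm ℚ x : ℚ) : ℝ)| =
      ((minpoly ℚ (x : AlgebraicClosure ℚ)).map (algebraMap ℚ ℂ)).mahlerMeasure ^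
        (Module.finrank ℚ⟮x⟯ K) := by
    rw [mahler_eq_prod _ h, hmin, ← norm_pow, ← h1]
    simp
  rw [h2, Real.log_pow, hgt, hmin]
  have h3 : Module.finrank ℚ ℚ⟮x⟯ * Module.finrank ℚ⟮x⟯ K = Module.finrank ℚ K :=
    Module.finrank_mul_finrank ℚ ℚ⟮x⟯ K
  rw [IntermediateField.adjoin.finrank hx] at h3
  have h4 : ((minpoly ℚ x).natDegree : ℝ) ≠ 0 := by
    exact_mod_cast (minpoly.natDegree_pos hx).ne'
  rw [← h3]
  push_cast
  field_simp

lemma multiset_sum_gt {α : Type*} (f : α → ℝ) (c : ℝ) (s : Multiset α) (hs : s ≠ 0)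
    (h : ∀ r ∈ s, c < f r) : (s.card : ℝ) * c < (s.map f).sum := by
  induction s using Multiset.induction_on with
  | empty => exact absurd rfl hs
  | cons a s ih =>
    by_cases hs0 : s = 0
    · subst hs0
      simpa using h a (by simp)
    · have h1 := ih hs0 (fun r hr => h r (Multiset.mem_cons_of_mem hr))
      have h2 := h a (Multiset.mem_cons_self a s)
      rw [Multiset.card_cons, Multiset.map_cons, Multiset.sum_cons]
      push_cast
      linarith

lemma log_abs_norm_multiset_prod (K : IntermediateField ℚ (AlgebraicClosure ℚ))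
    [FiniteDimensional ℚ K] (s : Multiset K) (hs : ∀ r ∈ s, r ≠ 0) :
    Real.log |((Algebra.norm ℚ s.prod : ℚ) : ℝ)| =
      (s.map (fun r => Real.log |((Algebra.norm ℚ r : ℚ) : ℝ)|)).sum := by
  induction s using Multiset.induction_on with
  | empty => simp
  | cons a s ih =>
    have ha : a ≠ 0 := hs a (Multiset.mem_cons_self a s)
    have hs' : ∀ r ∈ s, r ≠ 0 := fun r hr => hs r (Multiset.mem_cons_of_mem hr)
    have hp0 : s.prod ≠ 0 := by
      intro h0
      rw [Multiset.prod_eq_zero_iff] at h0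
      exact hs' 0 h0 rfl
    rw [Multiset.prod_cons, Multiset.map_cons, Multiset.sum_cons, ← ih hs', map_mul]
    push_cast
    rw [abs_mul, Real.log_mul]
    · simpa using (Algebra.norm_ne_zero_iff (R := ℚ)).2 ha
    · simpa using (Algebra.norm_ne_zero_iff (R := ℚ)).2 hp0

/-- the norm of a unit has absolute value one -/
lemma abs_norm_unit (K : IntermediateField ℚ (AlgebraicClosure ℚ)) [FiniteDimensional ℚ K]
    (y : K) (h1 : IsIntegral ℤ (y : AlgebraicClosure ℚ))
    (h2 : IsIntegral ℤ (y : AlgebraicClosure ℚ)⁻¹) (h0 : y ≠ 0) :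
    |((Algebra.norm ℚ y : ℚ) : ℝ)| = 1 := by
  have hinj : Function.Injective ((algebraMap K (AlgebraicClosure ℚ)).toIntAlgHom) :=
    (algebraMap K (AlgebraicClosure ℚ)).injective
  have h1' : IsIntegral ℤ y := (isIntegral_algHom_iff _ hinj).1 h1
  have h2' : IsIntegral ℤ y⁻¹ := by
    apply (isIntegral_algHom_iff _ hinj).1
    have : (algebraMap K (AlgebraicClosure ℚ)).toIntAlgHom y⁻¹ = (y : AlgebraicClosure ℚ)⁻¹ := by
      exact map_inv₀ (algebraMap K (AlgebraicClosure ℚ)) y
    rw [this]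
    exact h2
  have n1 : IsIntegral ℤ (Algebra.norm ℚ y) := Algebra.isIntegral_norm ℚ h1'
  have n2 : IsIntegral ℤ (Algebra.norm ℚ y⁻¹) := Algebra.isIntegral_norm ℚ h2'
  obtain ⟨a, ha⟩ := IsIntegrallyClosed.isIntegral_iff.1 n1
  obtain ⟨b, hb⟩ := IsIntegrallyClosed.isIntegral_iff.1 n2
  have hab : a * b = 1 := by
    have : (algebraMap ℤ ℚ) (a * b) = 1 := by
      rw [map_mul, ha, hb, ← map_mul, mul_inv_cancel₀ h0, map_one]
    have h5 : ((a * b : ℤ) : ℚ) = ((1 : ℤ) : ℚ) := by
      rw [Int.cast_one]; exact this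
    exact Int.cast_injective h5
  have ha1 : a = 1 ∨ a = -1 := Int.eq_one_or_neg_one_of_mul_eq_one hab
  rw [← ha]
  rcases ha1 with rfl | rfl <;> simp

/-- Averaging over the roots of `X^p - X - p y`. -/
lemma exists_root_small (p : ℕ) (hp : 2 ≤ p) (y : AlgebraicClosure ℚ) (hy0 : y ≠ 0)
    (hy1 : IsIntegral ℤ y) (hy2 : IsIntegral ℤ y⁻¹)
    (hψ : ∀ ψ : AlgebraicClosure ℚ →+* ℂ, 2 < ‖ψ ((p : AlgebraicClosure ℚ) * y)‖) :
    ∃ α : AlgebraicClosure ℚ, α ^ p - α = (p : AlgebraicClosure ℚ) * y ∧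
      (∀ ψ : AlgebraicClosure ℚ →+* ℂ, 1 < ‖ψ α‖) ∧ hgt α ≤ Real.log p / p := by
  classical
  have hlarge : ∀ α : AlgebraicClosure ℚ, α ^ p - α = (p : AlgebraicClosure ℚ) * y →
      ∀ ψ : AlgebraicClosure ℚ →+* ℂ, 1 < ‖ψ α‖ := by
    intro α hα ψ
    by_contra hcon
    push Not at hcon
    have h1 := hψ ψ
    rw [← hα, map_sub, map_pow] at h1
    have h2 : ‖ψ α ^ p - ψ α‖ ≤ 1 + 1 := by
      refine (norm_sub_le _ _).trans (add_le_add ?_ hcon)
      rw [norm_pow]
      exact pow_le_one₀ (norm_nonneg _) hcon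
    linarith
  set Q : (AlgebraicClosure ℚ)[X] := X ^ p - X - C ((p : AlgebraicClosure ℚ) * y) with hQ
  set S : Finset (AlgebraicClosure ℚ) := insert y Q.roots.toFinset with hS
  set K : IntermediateField ℚ (AlgebraicClosure ℚ) := IntermediateField.adjoin ℚ (S : Set _) with hK
  have : FiniteDimensional ℚ K :=
    IntermediateField.finiteDimensional_adjoin (fun x _ => Algebra.IsIntegral.isIntegral x)
  have hyK : y ∈ K := IntermediateField.subset_adjoin ℚ _ (by simp [hS])
  set yK : K := ⟨y, hyK⟩ with hyKdef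
  set P : K[X] := X ^ p - X - C ((p : K) * yK) with hP
  have hPQ : P.map (algebraMap K (AlgebraicClosure ℚ)) = Q := by
    rw [hP, hQ]
    simp only [Polynomial.map_sub, Polynomial.map_pow, Polynomial.map_X, Polynomial.map_C]
    rw [map_mul (algebraMap K (AlgebraicClosure ℚ)), map_natCast]
    rfl
  have hdeg1 : (X + C ((p : K) * yK) : K[X]).degree < (p : ℕ) := by
    rw [degree_X_add_C]
    exact_mod_cast hp
  have hPmon : P.Monic := by
    have : P = X ^ p - (X + C ((p : K) * yK)) := by rw [hP]; ring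
    rw [this]
    exact monic_X_pow_sub hdeg1
  have hPdeg : P.natDegree = p := by
    have h : P = X ^ p - (X + C ((p : K) * yK)) := by rw [hP]; ring
    rw [h, natDegree_sub_eq_left_of_natDegree_lt]
    · exact natDegree_X_pow p
    · rw [natDegree_X_pow, natDegree_X_add_C]
      omega
  have hQ0 : Q ≠ 0 := by
    rw [← hPQ]
    exact (hPmon.map _).ne_zero
  have hPs : P.Splits := by
    refine Splits.of_splits_map_of_injective (algebraMap K (AlgebraicClosure ℚ)).injective
      (IsAlgClosed.splits _) ?_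
    intro r hr
    rw [hPQ] at hr
    refine ⟨⟨r, IntermediateField.subset_adjoin ℚ _ ?_⟩, rfl⟩
    simp only [hS, Finset.coe_insert, Set.mem_insert_iff, Finset.mem_coe, Multiset.mem_toFinset]
    exact Or.inr hr
  have hroot : ∀ r ∈ P.roots, (r : AlgebraicClosure ℚ) ^ p - r = (p : AlgebraicClosure ℚ) * y := by
    intro r hr
    rw [mem_roots hPmon.ne_zero, IsRoot.def, hP] at hr
    simp only [eval_sub, eval_pow, eval_X, eval_C] at hr
    have h1 : r ^ p - r = (p : K) * yK := by
      linear_combination hr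
    have h2 := congrArg (algebraMap K (AlgebraicClosure ℚ)) h1
    simp only [map_sub, map_pow, map_mul, map_natCast] at h2
    exact h2
  have hpy : (p : AlgebraicClosure ℚ) * y ≠ 0 :=
    mul_ne_zero (by exact_mod_cast (by omega : p ≠ 0)) hy0
  have hne : ∀ r ∈ P.roots, r ≠ 0 := by
    intro r hr h0
    have := hroot r hr
    rw [h0] at this
    simp only [ZeroMemClass.coe_zero, zero_pow (by omega : p ≠ 0), sub_zero] at this
    exact hpy this.symm
  have hcard : P.roots.card = p := by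
    rw [← hPs.natDegree_eq_card_roots, hPdeg]
  have hprod : P.roots.prod = (-1) ^ p * (-((p : K) * yK)) := by
    have h1 := hPs.coeff_zero_eq_prod_roots_of_monic hPmon
    rw [hPdeg] at h1
    have h2 : P.coeff 0 = -((p : K) * yK) := by
      rw [hP, coeff_zero_eq_eval_zero]
      simp [zero_pow (by omega : p ≠ 0)]
    rw [h2] at h1
    have h3 : ((-1 : K) ^ p) * ((-1) ^ p) = 1 := by
      rw [← mul_pow]; simp
    calc P.roots.prod = ((-1 : K) ^ p * (-1) ^ p) * P.roots.prod := by rw [h3, one_mul]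
      _ = (-1) ^ p * (-((p : K) * yK)) := by rw [h1]; ring
  by_contra hcon
  push Not at hcon
  set n : ℝ := (Module.finrank ℚ K : ℝ) with hn
  have hnpos : 0 < n := by
    rw [hn]
    exact_mod_cast Module.finrank_pos
  have hgt1 : ∀ r ∈ P.roots, n * (Real.log p / p) < Real.log |((Algebra.norm ℚ r : ℚ) : ℝ)| := by
    intro r hr
    have hr1 := hroot r hr
    have hr2 := hlarge _ hr1
    rw [log_norm_eq K r (fun ψ => (hr2 ψ).le)]
    exact mul_lt_mul_of_pos_left (hcon _ hr1 hr2) hnpos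
  have hs0 : P.roots ≠ 0 := by
    intro h0
    rw [h0] at hcard
    simp at hcard
    omega
  have hsum := multiset_sum_gt (fun r : K => Real.log |((Algebra.norm ℚ r : ℚ) : ℝ)|) _ _ hs0 hgt1
  rw [← log_abs_norm_multiset_prod K P.roots hne, hprod, hcard] at hsum
  have hyK0 : yK ≠ 0 := by
    intro h0
    apply hy0
    have := congrArg (algebraMap K (AlgebraicClosure ℚ)) h0
    rw [map_zero] at this
    exact this
  have hN : |((Algebra.norm ℚ ((-1) ^ p * (-((p : K) * yK))) : ℚ) : ℝ)| = (p : ℝ) ^ (Module.finrank ℚ K) := by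
    have e1 : ((-1) ^ p * (-((p : K) * yK)) : K) = (algebraMap ℚ K ((-1) ^ (p + 1) * p)) * yK := by
      simp only [map_mul, map_pow, map_neg, map_one, map_natCast]
      ring
    rw [e1, map_mul, Algebra.norm_algebraMap]
    push_cast
    rw [abs_mul, abs_norm_unit K yK hy1 hy2 hyK0, mul_one, abs_pow, abs_mul, abs_pow, abs_neg,
      abs_one, one_pow, one_mul, Nat.abs_cast]
  rw [hN, Real.log_pow] at hsum
  have hp0 : (p : ℝ) ≠ 0 := by exact_mod_cast (by omega : p ≠ 0)
  have : (p : ℝ) * (n * (Real.log p / p)) = n * Real.log p := by field_simp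
  rw [this] at hsum
  exact lt_irrefl _ hsum

end

end Pool.Agent.H291R3
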