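import Pool.Agent.H291R3.TPFam

set_option autoImplicit false

/-!
Infinitely many totally p-adic units with bounded conjugates, and the main family.
-/

namespace Pool.Agent.H291R3

open Polynomial IntermediateField

noncomputable section

/-- totally p-adic units all of whose complex conjugates are at most `23/10`. -/
def Good (p : ℕ) [Fact p.Prime] (u : AlgebraicClosure ℚ) : Prop :=
  IsIntegral ℤ u ∧ IsIntegral ℤ u⁻¹ ∧ u ≠ 0 ∧ TP p u ∧
    ∀ ψ : AlgebraicClosure ℚ →+* ℂ, ‖ψ u‖ ≤ 23 / 10

lemma pow_bound (r : ℝ) (hr : 23 / 10 ≤ r) (k : ℕ) :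
    23 / 10 * ((k : ℝ) + 5) + 3 / 5 ≤ r ^ (k + 3) := by
  induction k with
  | zero =>
    have h1 : (23 / 10 : ℝ) ^ 3 ≤ r ^ (0 + 3) := by
      have := pow_le_pow_left₀ (by norm_num) hr 3
      simpa using this
    norm_num at h1 ⊢
    linarith
  | succ k ih =>
    have h0 : (0 : ℝ) ≤ 23 / 10 * ((k : ℝ) + 5) + 3 / 5 := by positivity
    have h1 : r ^ (k + 1 + 3) = r * r ^ (k + 3) := by ring
    rw [h1]
    have h2 : (23 / 10 : ℝ) * (23 / 10 * ((k : ℝ) + 5) + 3 / 5) ≤ r * r ^ (k + 3) := by
      apply mul_le_mul hr ih h0 (by linarith)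
    have hk : (0 : ℝ) ≤ k := Nat.cast_nonneg k
    push_cast
    nlinarith

section

variable {p : ℕ} [hp : Fact p.Prime]

lemma good_one : Good p 1 := by
  refine ⟨isIntegral_one, by simpa using isIntegral_one, one_ne_zero, ?_, ?_⟩
  · intro φ
    exact ⟨1, by simp⟩
  · intro ψ
    simp
    norm_num

lemma TP.inv {u : AlgebraicClosure ℚ} (h : TP p u) : TP p u⁻¹ := by
  intro φ
  obtain ⟨c, hc⟩ := h φ
  exact ⟨c⁻¹, by rw [map_inv₀, hc, map_inv₀]⟩

lemma size_bound (h5 : 5 ≤ p) (r s : ℝ) (hr0 : 0 ≤ r) (hs : s ≤ 23 / 10)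
    (h : r ^ (p - 1) ≤ (p : ℝ) * s * r + 1) : r ≤ 23 / 10 := by
  by_contra hcon
  push Not at hcon
  obtain ⟨k, rfl⟩ : ∃ k, p = k + 5 := ⟨p - 5, by omega⟩
  have h1 := pow_bound r hcon.le k
  have e1 : r ^ (k + 5 - 1) = r * r ^ (k + 3) := by
    rw [show k + 5 - 1 = (k + 3) + 1 by omega, pow_succ]; ring
  rw [e1] at h
  have hk : (0 : ℝ) ≤ k := Nat.cast_nonneg k
  push_cast at h
  have h2 : r * (23 / 10 * ((k : ℝ) + 5) + 3 / 5) ≤ r * r ^ (k + 3) :=
    mul_le_mul_of_nonneg_left h1 hr0
  have h3 : ((k : ℝ) + 5) * s * r ≤ ((k : ℝ) + 5) * (23 / 10) * r := by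
    apply mul_le_mul_of_nonneg_right _ hr0
    apply mul_le_mul_of_nonneg_left hs (by linarith)
  nlinarith

lemma good_step (h5 : 5 ≤ p) {u v : AlgebraicClosure ℚ} (hu : Good p u)
    (hv : v ^ (p - 1) - (p : AlgebraicClosure ℚ) * u * v - 1 = 0) : Good p v := by
  obtain ⟨hu1, hu2, hu0, huT, huψ⟩ := hu
  have hmul : v * (v ^ (p - 2) - (p : AlgebraicClosure ℚ) * u) = 1 := by
    have : v * v ^ (p - 2) = v ^ (p - 1) := by
      rw [← pow_succ']; congr 1; omega
    rw [mul_sub, this]
    linear_combination hv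
  have hv0 : v ≠ 0 := by
    intro h0
    rw [h0, zero_mul] at hmul
    exact zero_ne_one hmul
  have hvinv : v⁻¹ = v ^ (p - 2) - (p : AlgebraicClosure ℚ) * u :=
    (eq_inv_of_mul_eq_one_right hmul).symm
  have hv1 : IsIntegral ℤ v := by
    let A := integralClosure ℤ (AlgebraicClosure ℚ)
    have hA : Algebra.IsIntegral ℤ A := inferInstance
    let uA : A := ⟨u, hu1⟩
    have hi : IsIntegral A v := by
      refine ⟨X ^ (p - 1) - (C ((p : A) * uA) * X + 1), ?_, ?_⟩
      · apply monic_X_pow_sub
        refine lt_of_le_of_lt (b := (1 : WithBot ℕ)) ?_ ?_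
        · compute_degree
        · exact_mod_cast (by omega : 1 < p - 1)
      · rw [eval₂_sub, eval₂_pow, eval₂_X, eval₂_add, eval₂_mul, eval₂_C, eval₂_X, eval₂_one]
        have : (algebraMap A (AlgebraicClosure ℚ)) ((p : A) * uA) =
            (p : AlgebraicClosure ℚ) * u := by
          rw [map_mul, map_natCast]; rfl
        rw [this]
        linear_combination hv
    exact isIntegral_trans (R := ℤ) (A := A) v hi
  have hvi2 : IsIntegral ℤ v⁻¹ := by
    rw [hvinv]
    have hpi : IsIntegral ℤ (p : AlgebraicClosure ℚ) := by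
      have := isIntegral_algebraMap (R := ℤ) (A := AlgebraicClosure ℚ) (x := (p : ℤ))
      simpa using this
    exact (hv1.pow _).sub (hpi.mul hu1)
  refine ⟨hv1, hvi2, hv0, ?_, ?_⟩
  · intro φ
    obtain ⟨z, hz⟩ := huT.exists_int hu1 φ
    obtain ⟨c, hc⟩ : ∃ c : ℤ_[p], c = (p : ℤ_[p]) * z := ⟨_, rfl⟩
    have hc0 : PadicInt.toZMod c = 0 := by rw [hc]; simp
    have hc1 : algebraMap ℤ_[p] (AlgebraicClosure ℚ_[p]) c =
        (p : AlgebraicClosure ℚ_[p]) * φ u := by rw [hc, map_mul, map_natCast, hz]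
    set F : ℤ_[p][X] := X ^ (p - 1) - (C c * X + 1) with hF
    have hdeg : (C c * X + 1 : ℤ_[p][X]).degree < ((p - 1 : ℕ) : WithBot ℕ) := by
      refine lt_of_le_of_lt (b := (1 : WithBot ℕ)) ?_ ?_
      · compute_degree
      · exact_mod_cast (by omega : 1 < p - 1)
    have hm : F.Monic := monic_X_pow_sub hdeg
    have hnd : F.natDegree = p - 1 := by
      rw [hF, natDegree_sub_eq_left_of_natDegree_lt]
      · exact natDegree_X_pow _
      · rw [natDegree_X_pow]
        refine lt_of_le_of_lt (b := 1) ?_ (by omega)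
        compute_degree
    have hmap : F.map (PadicInt.toZMod (p := p)) = X ^ (p - 1) - 1 := by
      rw [hF]
      simp [hc0]
    obtain ⟨z', -, hz'⟩ := mem_range_of_root F hm (Finset.univ.erase (0 : ZMod p)) (by
        rw [Finset.card_erase_of_mem (Finset.mem_univ _), Finset.card_univ, ZMod.card, hnd])
      (by
        intro b hb
        have hb0 : b ≠ 0 := (Finset.mem_erase.1 hb).1
        rw [hmap]
        constructor
        · simp [ZMod.pow_card_sub_one_eq_one hb0]
        · simp only [derivative_sub, derivative_X_pow, derivative_one, sub_zero, eval_mul,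
            eval_pow, eval_X, eval_C]
          apply mul_ne_zero
          · have : ((p - 1 : ℕ) : ZMod p) = -1 := by
              rw [Nat.cast_sub (by omega : 1 ≤ p)]
              simp
            rw [this]
            exact neg_ne_zero.2 one_ne_zero
          · exact pow_ne_zero _ hb0)
      (φ v) (by
        have h1 : (F.map (algebraMap ℤ_[p] (AlgebraicClosure ℚ_[p]))).eval (φ v) =
            φ (v ^ (p - 1) - (p : AlgebraicClosure ℚ) * u * v - 1) := by
          rw [hF]
          simp only [Polynomial.map_sub, Polynomial.map_pow, Polynomial.map_X,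
            Polynomial.map_add, Polynomial.map_mul, Polynomial.map_C, Polynomial.map_one,
            eval_sub, eval_add, eval_pow, eval_X, eval_mul, eval_C, eval_one, map_sub, map_mul,
            map_pow, map_natCast, map_one, hc1, eval_natCast]
          ring
        rw [h1, hv, map_zero])
    refine ⟨algebraMap ℤ_[p] ℚ_[p] z', ?_⟩
    rw [← hz', ← IsScalarTower.algebraMap_apply]
  · intro ψ
    have h1 : (ψ v) ^ (p - 1) = (p : ℂ) * ψ u * ψ v + 1 := by
      have := congrArg ψ hv
      simp only [map_sub, map_mul, map_pow, map_natCast, map_one, map_zero] at this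
      linear_combination this
    have h2 : ‖ψ v‖ ^ (p - 1) ≤ (p : ℝ) * ‖ψ u‖ * ‖ψ v‖ + 1 := by
      rw [← norm_pow, h1]
      refine (norm_add_le _ _).trans ?_
      simp
    exact size_bound h5 _ _ (norm_nonneg _) (huψ ψ) h2

omit hp in
lemma exists_two_roots (h5 : 5 ≤ p) (u : AlgebraicClosure ℚ) :
    ∃ a b : AlgebraicClosure ℚ, a ≠ b ∧
      (a ^ (p - 1) - (p : AlgebraicClosure ℚ) * u * a - 1 = 0) ∧
      (b ^ (p - 1) - (p : AlgebraicClosure ℚ) * u * b - 1 = 0) := by
  classical
  set F : (AlgebraicClosure ℚ)[X] :=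
    X ^ (p - 1) - (C ((p : AlgebraicClosure ℚ) * u) * X + 1) with hF
  have hdeg : (C ((p : AlgebraicClosure ℚ) * u) * X + 1 : (AlgebraicClosure ℚ)[X]).degree
      < ((p - 1 : ℕ) : WithBot ℕ) := by
    refine lt_of_le_of_lt (b := (1 : WithBot ℕ)) ?_ ?_
    · compute_degree
    · exact_mod_cast (by omega : 1 < p - 1)
  have hm : F.Monic := monic_X_pow_sub hdeg
  have hnd : F.natDegree = p - 1 := by
    rw [hF, natDegree_sub_eq_left_of_natDegree_lt]
    · exact natDegree_X_pow _
    · rw [natDegree_X_pow]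
      refine lt_of_le_of_lt (b := 1) ?_ (by omega)
      compute_degree
  have hroot : ∀ r ∈ F.roots, r ^ (p - 1) - (p : AlgebraicClosure ℚ) * u * r - 1 = 0 := by
    intro r hr
    rw [mem_roots hm.ne_zero, IsRoot.def, hF] at hr
    simp only [eval_sub, eval_add, eval_pow, eval_X, eval_mul, eval_C, eval_one] at hr
    linear_combination hr
  have hsp : F.Splits := IsAlgClosed.splits F
  have hcard : F.roots.card = p - 1 := by rw [← hsp.natDegree_eq_card_roots, hnd]
  obtain ⟨a, ha⟩ : ∃ a, a ∈ F.roots := by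
    apply Multiset.exists_mem_of_ne_zero
    intro h0
    rw [h0] at hcard
    simp at hcard
    omega
  by_contra hcon
  push Not at hcon
  have hall : ∀ b ∈ F.roots, b = a := by
    intro b hb
    by_contra hba
    exact hcon a b (fun h => hba h.symm) (hroot a ha) (hroot b hb)
  have hrep : F.roots = Multiset.replicate (p - 1) a := by
    rw [Multiset.eq_replicate]
    exact ⟨hcard, hall⟩
  have hsum : F.nextCoeff = -F.roots.sum := hsp.nextCoeff_eq_neg_sum_roots_of_monic hm
  have hnc : F.nextCoeff = 0 := by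
    rw [nextCoeff_of_natDegree_pos (by omega), hnd, hF, coeff_sub, coeff_X_pow,
      coeff_eq_zero_of_degree_lt (p := C ((p : AlgebraicClosure ℚ) * u) * X + 1)]
    · rw [if_neg (by omega)]; simp
    · refine lt_of_le_of_lt (b := (1 : WithBot ℕ)) ?_ ?_
      · compute_degree
      · exact_mod_cast (by omega : 1 < p - 1 - 1)
  rw [hnc, hrep, Multiset.sum_replicate] at hsum
  have ha0 : a = 0 := by
    have h1 : (p - 1) • a = 0 := by
      have := hsum.symm
      rwa [neg_eq_zero] at this
    rw [nsmul_eq_mul] at h1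
    rcases mul_eq_zero.1 h1 with h | h
    · exact absurd h (by exact_mod_cast (by omega : p - 1 ≠ 0))
    · exact h
  have h1 := hroot a ha
  rw [ha0, zero_pow (by omega)] at h1
  simp at h1

lemma infinite_good (h5 : 5 ≤ p) : {u : AlgebraicClosure ℚ | Good p u}.Infinite := by
  classical
  intro hfin
  have : Finite {u : AlgebraicClosure ℚ | Good p u} := hfin
  choose a b hab ha hb using fun u : AlgebraicClosure ℚ => exists_two_roots h5 u
  let g : {u : AlgebraicClosure ℚ | Good p u} × Bool → {u : AlgebraicClosure ℚ | Good p u} :=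
    fun x => if x.2 then ⟨a x.1, good_step h5 x.1.2 (ha x.1)⟩
      else ⟨b x.1, good_step h5 x.1.2 (hb x.1)⟩
  have hrec : ∀ (x : {u : AlgebraicClosure ℚ | Good p u} × Bool),
      ((g x : AlgebraicClosure ℚ)) ^ (p - 1) -
        (p : AlgebraicClosure ℚ) * (x.1 : AlgebraicClosure ℚ) * (g x : AlgebraicClosure ℚ) - 1
        = 0 := by
    intro x
    by_cases hx : x.2 = true
    · simp only [g, hx, if_true]
      exact ha x.1
    · simp only [g, hx]
      exact hb x.1
  have hg : Function.Injective g := by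
    intro x y hxy
    have h1 := hrec x
    have h2 := hrec y
    rw [hxy] at h1
    have hgy0 : (g y : AlgebraicClosure ℚ) ≠ 0 := (g y).2.2.2.1
    have hp0 : (p : AlgebraicClosure ℚ) ≠ 0 := by exact_mod_cast (by omega : p ≠ 0)
    have h3 : (x.1 : AlgebraicClosure ℚ) = y.1 := by
      have h4 : (p : AlgebraicClosure ℚ) * (g y : AlgebraicClosure ℚ) *
          ((x.1 : AlgebraicClosure ℚ) - y.1) = 0 := by
        linear_combination h2 - h1
      rcases mul_eq_zero.1 h4 with h | h
      · exact absurd h (mul_ne_zero hp0 hgy0)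
      · exact sub_eq_zero.1 h
    have h5' : x.1 = y.1 := Subtype.ext h3
    obtain ⟨x1, x2⟩ := x
    obtain ⟨y1, y2⟩ := y
    simp only at h5'
    subst h5'
    cases x2 <;> cases y2 <;> simp only [g] at hxy ⊢
    · exfalso
      have := congrArg Subtype.val hxy
      simp at this
      exact hab _ this.symm
    · exfalso
      have := congrArg Subtype.val hxy
      simp at this
      exact hab _ this
  have : Nonempty {u : AlgebraicClosure ℚ | Good p u} := ⟨⟨1, good_one⟩⟩
  have hcard := Nat.card_le_card_of_injective g hg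
  rw [Nat.card_prod] at hcard
  have hb2 : Nat.card Bool = 2 := by simp
  rw [hb2] at hcard
  have hpos : 0 < Nat.card {u : AlgebraicClosure ℚ | Good p u} := Nat.card_pos
  omega

/-- Main family: infinitely many totally `p`-adic algebraic integers of height `≤ log p / p`. -/
theorem infinite_family2 (h5 : 5 ≤ p) :
    {α : AlgebraicClosure ℚ | IsIntegral ℤ α ∧ TP p α ∧
      (∀ ψ : AlgebraicClosure ℚ →+* ℂ, 1 < ‖ψ α‖) ∧ hgt α ≤ Real.log p / p ∧
      ∃ y : AlgebraicClosure ℚ, IsIntegral ℤ y⁻¹ ∧ y ≠ 0 ∧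
        α ^ p - α = (p : AlgebraicClosure ℚ) * y}.Infinite := by
  have hp0 : (p : AlgebraicClosure ℚ) ≠ 0 := by exact_mod_cast (by omega : p ≠ 0)
  have hex : ∀ u : AlgebraicClosure ℚ, ∃ α : AlgebraicClosure ℚ, Good p u →
      (α ^ p - α = (p : AlgebraicClosure ℚ) * u⁻¹ ∧
      (∀ ψ : AlgebraicClosure ℚ →+* ℂ, 1 < ‖ψ α‖) ∧ hgt α ≤ Real.log p / p) := by
    intro u
    by_cases hu : Good p u
    · obtain ⟨hu1, hu2, hu0, huT, huψ⟩ := hu
      obtain ⟨α, hα⟩ := exists_root_small p (by omega) u⁻¹ (inv_ne_zero hu0) hu2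
        (by rwa [inv_inv]) (by
          intro ψ
          rw [map_mul, map_natCast, map_inv₀, norm_mul, norm_inv, Complex.norm_natCast]
          have h1 := huψ ψ
          have h2 : 0 < ‖ψ u‖ := by
            rw [norm_pos_iff]
            exact (map_ne_zero ψ).2 hu0
          rw [← div_eq_mul_inv, lt_div_iff₀ h2]
          have h3 : (5 : ℝ) ≤ p := by exact_mod_cast h5
          linarith)
      exact ⟨α, fun _ => hα⟩
    · exact ⟨0, fun h => absurd h hu⟩
  choose F hF using hex
  refine Set.infinite_of_injOn_mapsTo (f := F) (s := {u : AlgebraicClosure ℚ | Good p u})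
    ?_ ?_ (infinite_good h5)
  · intro u hu v hv huv
    have h1 := (hF u hu).1
    have h2 := (hF v hv).1
    rw [huv, h2] at h1
    have h3 := mul_left_cancel₀ hp0 h1
    exact (inv_injective h3).symm
  · intro u hu
    obtain ⟨h1, h2, h3⟩ := hF u hu
    have hu' := hu
    obtain ⟨hu1, hu2, hu0, huT, huψ⟩ := hu'
    refine ⟨?_, ?_, h2, h3, u⁻¹, by rwa [inv_inv], inv_ne_zero hu0, h1⟩
    · let A := integralClosure ℤ (AlgebraicClosure ℚ)
      have hA : Algebra.IsIntegral ℤ A := inferInstance
      let uA : A := ⟨u⁻¹, hu2⟩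
      have hi : IsIntegral A (F u) := by
        refine ⟨X ^ p - (X + C ((p : A) * uA)), ?_, ?_⟩
        · apply monic_X_pow_sub
          rw [degree_X_add_C]
          exact_mod_cast (by omega : 1 < p)
        · rw [eval₂_sub, eval₂_pow, eval₂_X, eval₂_add, eval₂_X, eval₂_C]
          have : (algebraMap A (AlgebraicClosure ℚ)) ((p : A) * uA) =
              (p : AlgebraicClosure ℚ) * u⁻¹ := by
            rw [map_mul, map_natCast]; rfl
          rw [this]
          linear_combination h1
      exact isIntegral_trans (R := ℤ) (A := A) _ hi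
    · intro φ
      obtain ⟨z, hz⟩ := huT.inv.exists_int hu2 φ
      obtain ⟨c, hc⟩ : ∃ c : ℤ_[p], c = (p : ℤ_[p]) * z := ⟨_, rfl⟩
      have hc0 : PadicInt.toZMod c = 0 := by rw [hc]; simp
      have hc1 : algebraMap ℤ_[p] (AlgebraicClosure ℚ_[p]) c =
          (p : AlgebraicClosure ℚ_[p]) * φ u⁻¹ := by rw [hc, map_mul, map_natCast, hz]
      set G : ℤ_[p][X] := X ^ p - (X + C c) with hG
      have hdeg : (X + C c : ℤ_[p][X]).degree < ((p : ℕ) : WithBot ℕ) := by
        rw [degree_X_add_C]
        exact_mod_cast (by omega : 1 < p)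
      have hm : G.Monic := monic_X_pow_sub hdeg
      have hnd : G.natDegree = p := by
        rw [hG, natDegree_sub_eq_left_of_natDegree_lt]
        · exact natDegree_X_pow _
        · rw [natDegree_X_pow, natDegree_X_add_C]
          omega
      have hmap : G.map (PadicInt.toZMod (p := p)) = X ^ p - X := by
        rw [hG]
        simp [hc0]
      obtain ⟨z', -, hz'⟩ := mem_range_of_root G hm Finset.univ (by
          rw [Finset.card_univ, ZMod.card, hnd])
        (by
          intro b hb
          rw [hmap]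
          constructor
          · simp
          · rw [derivative_sub, derivative_X_pow, derivative_X]
            simp)
        (φ (F u)) (by
          have h4 : (G.map (algebraMap ℤ_[p] (AlgebraicClosure ℚ_[p]))).eval (φ (F u)) =
              φ ((F u) ^ p - F u - (p : AlgebraicClosure ℚ) * u⁻¹) := by
            rw [hG]
            simp only [Polynomial.map_sub, Polynomial.map_pow, Polynomial.map_X,
              Polynomial.map_add, Polynomial.map_C,
              eval_sub, eval_add, eval_pow, eval_X, eval_C, map_sub, map_mul,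
              map_pow, map_natCast, hc1, eval_mul, eval_natCast]
            ring
          rw [h4, h1, sub_self, map_zero])
      refine ⟨algebraMap ℤ_[p] ℚ_[p] z', ?_⟩
      rw [← hz', ← IsScalarTower.algebraMap_apply]

theorem infinite_family (h5 : 5 ≤ p) :
    {α : AlgebraicClosure ℚ | IsIntegral ℤ α ∧ TP p α ∧
      (∀ ψ : AlgebraicClosure ℚ →+* ℂ, 1 < ‖ψ α‖) ∧ hgt α ≤ Real.log p / p}.Infinite := by
  refine (infinite_family2 h5).mono ?_
  rintro α ⟨h1, h2, h3, h4, -⟩
  exact ⟨h1, h2, h3, h4⟩

end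

end

end Pool.Agent.H291R3
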