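import Mathlib

set_option autoImplicit false

/-!
Totally p-adic algebraic numbers: closure of the set under roots of polynomials which split
modulo `p` into distinct linear factors.
-/

namespace Pool.Agent.H291R3

open Polynomial

noncomputable section

/-- `x` is totally `p`-adic: every embedding of `ℚ̄` in `ℚ̄_p` sends `x` into `ℚ_p`. -/
def TP (p : ℕ) [Fact p.Prime] (x : AlgebraicClosure ℚ) : Prop :=
  ∀ φ : AlgebraicClosure ℚ →+* AlgebraicClosure ℚ_[p],
    φ x ∈ (algebraMap ℚ_[p] (AlgebraicClosure ℚ_[p])).range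

instance instAlgQbar : Algebra.IsAlgebraic ℚ (AlgebraicClosure ℚ) := by
  have h := AlgebraicClosure.isAlgebraic ℚ
  have e : (DivisionRing.toRatAlgebra : Algebra ℚ (AlgebraicClosure ℚ)) =
      AlgebraicClosure.instAlgebra ℚ := Subsingleton.elim _ _
  rw [e]
  exact h

variable {p : ℕ} [hp : Fact p.Prime]

lemma norm_lt_one_iff_toZMod (x : ℤ_[p]) : ‖x‖ < 1 ↔ PadicInt.toZMod x = 0 := by
  have h1 : x ∈ IsLocalRing.maximalIdeal ℤ_[p] ↔ ‖x‖ < 1 := by
    rw [IsLocalRing.mem_maximalIdeal]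
    exact PadicInt.mem_nonunits
  rw [← h1, ← PadicInt.ker_toZMod, RingHom.mem_ker]

lemma norm_eq_one_of_toZMod (x : ℤ_[p]) (h : PadicInt.toZMod x ≠ 0) : ‖x‖ = 1 := by
  rcases lt_or_eq_of_le (PadicInt.norm_le_one x) with h1 | h1
  · exact absurd ((norm_lt_one_iff_toZMod x).1 h1) h
  · exact h1

/-- Hensel: a simple root mod `p` lifts to `ℤ_p`. -/
lemma exists_lift (F : ℤ_[p][X]) (b : ZMod p)
    (h0 : (F.map (PadicInt.toZMod (p := p))).eval b = 0)
    (h1 : (F.map (PadicInt.toZMod (p := p))).derivative.eval b ≠ 0) :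
    ∃ z : ℤ_[p], F.eval z = 0 ∧ PadicInt.toZMod z = b := by
  set a : ℤ_[p] := ((b.val : ℕ) : ℤ_[p]) with ha
  have hab : PadicInt.toZMod a = b := by
    rw [ha, map_natCast, ZMod.natCast_zmod_val]
  have e0 : PadicInt.toZMod (F.eval a) = 0 := by
    rw [← hab, eval_map, eval₂_at_apply] at h0
    exact h0
  have e1 : PadicInt.toZMod (F.derivative.eval a) ≠ 0 := by
    rw [← hab, derivative_map, eval_map, eval₂_at_apply] at h1
    exact h1
  have n0 : ‖F.aeval a‖ < 1 := by
    rw [coe_aeval_eq_eval]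
    exact (norm_lt_one_iff_toZMod _).2 e0
  have n1 : ‖F.derivative.aeval a‖ = 1 := by
    rw [coe_aeval_eq_eval]
    exact norm_eq_one_of_toZMod _ e1
  obtain ⟨z, hz, hz1, -, -⟩ := hensels_lemma (F := F) (a := a) (by rw [n1]; simpa using n0)
  refine ⟨z, by simpa [coe_aeval_eq_eval] using hz, ?_⟩
  rw [n1] at hz1
  have := (norm_lt_one_iff_toZMod _).1 hz1
  rw [map_sub, sub_eq_zero] at this
  rw [this, hab]

/-- If a monic polynomial over `ℤ_p` has `deg` many simple roots mod `p`, all its roots in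
an algebraic closure of `ℚ_p` lie in `ℚ_p`. -/
lemma mem_range_of_root (F : ℤ_[p][X]) (hm : F.Monic) (S : Finset (ZMod p))
    (hS : S.card = F.natDegree)
    (h : ∀ b ∈ S, (F.map (PadicInt.toZMod (p := p))).eval b = 0 ∧
      (F.map (PadicInt.toZMod (p := p))).derivative.eval b ≠ 0)
    (w : AlgebraicClosure ℚ_[p])
    (hw : (F.map (algebraMap ℤ_[p] (AlgebraicClosure ℚ_[p]))).eval w = 0) :
    ∃ z : ℤ_[p], F.eval z = 0 ∧ algebraMap ℤ_[p] (AlgebraicClosure ℚ_[p]) z = w := by
  classical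
  have hex : ∀ b : ZMod p, ∃ z : ℤ_[p], b ∈ S → (F.eval z = 0 ∧ PadicInt.toZMod z = b) := by
    intro b
    by_cases hb : b ∈ S
    · obtain ⟨z, hz⟩ := exists_lift F b (h b hb).1 (h b hb).2
      exact ⟨z, fun _ => hz⟩
    · exact ⟨0, fun hb' => absurd hb' hb⟩
  choose z hz using hex
  have hinj : Function.Injective (algebraMap ℤ_[p] (AlgebraicClosure ℚ_[p])) := by
    rw [IsScalarTower.algebraMap_eq ℤ_[p] ℚ_[p] (AlgebraicClosure ℚ_[p])]
    exact (algebraMap ℚ_[p] (AlgebraicClosure ℚ_[p])).injective.comp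
      (IsFractionRing.injective ℤ_[p] ℚ_[p])
  set G := F.map (algebraMap ℤ_[p] (AlgebraicClosure ℚ_[p])) with hG
  have hGm : G.Monic := hm.map _
  have hG0 : G ≠ 0 := hGm.ne_zero
  set R : Finset (AlgebraicClosure ℚ_[p]) :=
    S.image (fun b => algebraMap ℤ_[p] (AlgebraicClosure ℚ_[p]) (z b)) with hR
  have hRcard : R.card = S.card := by
    apply Finset.card_image_of_injOn
    intro b hb c hc hbc
    have h1 : z b = z c := hinj hbc
    rw [← (hz b hb).2, ← (hz c hc).2, h1]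
  have hRsub : R ⊆ G.roots.toFinset := by
    intro x hx
    rw [hR, Finset.mem_image] at hx
    obtain ⟨b, hb, rfl⟩ := hx
    rw [Multiset.mem_toFinset, mem_roots hG0, IsRoot.def, hG, eval_map, eval₂_at_apply,
      (hz b hb).1, map_zero]
  have hcard : G.roots.toFinset.card ≤ R.card := by
    rw [hRcard, hS]
    calc G.roots.toFinset.card ≤ Multiset.card G.roots := Multiset.toFinset_card_le _
      _ ≤ G.natDegree := card_roots' G
      _ = F.natDegree := hm.natDegree_map _
  have heq := Finset.eq_of_subset_of_card_le hRsub hcard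
  have hwm : w ∈ R := by
    rw [heq, Multiset.mem_toFinset, mem_roots hG0]
    exact hw
  rw [hR, Finset.mem_image] at hwm
  obtain ⟨b, hb, rfl⟩ := hwm
  exact ⟨z b, (hz b hb).1, rfl⟩

/-- An element of `ℚ_p` integral over `ℤ` lies in `ℤ_p`. -/
lemma exists_padicInt (c : ℚ_[p]) (hc : IsIntegral ℤ c) :
    ∃ z : ℤ_[p], algebraMap ℤ_[p] ℚ_[p] z = c := by
  have h1 : IsIntegral ℤ_[p] c := hc.tower_top
  exact (IsIntegrallyClosed.isIntegral_iff (R := ℤ_[p]) (K := ℚ_[p])).1 h1

lemma TP.exists_int {x : AlgebraicClosure ℚ} (hx : TP p x) (hi : IsIntegral ℤ x)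
    (φ : AlgebraicClosure ℚ →+* AlgebraicClosure ℚ_[p]) :
    ∃ z : ℤ_[p], algebraMap ℤ_[p] (AlgebraicClosure ℚ_[p]) z = φ x := by
  obtain ⟨c, hc⟩ := hx φ
  have h1 : IsIntegral ℤ (φ x) := hi.map φ.toIntAlgHom
  rw [← hc] at h1
  have h2 : IsIntegral ℤ c := by
    have := (isIntegral_algHom_iff
      ((algebraMap ℚ_[p] (AlgebraicClosure ℚ_[p])).toIntAlgHom)
      (algebraMap ℚ_[p] (AlgebraicClosure ℚ_[p])).injective).1 h1
    exact this
  obtain ⟨z, hz⟩ := exists_padicInt c h2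
  refine ⟨z, ?_⟩
  rw [IsScalarTower.algebraMap_apply ℤ_[p] ℚ_[p] (AlgebraicClosure ℚ_[p]), hz, hc]

/-- totally p-adic implies that the minimal polynomial splits over `ℚ_p`. -/
lemma TP.card_roots {x : AlgebraicClosure ℚ} (hx : TP p x) :
    ((minpoly ℚ x).map (algebraMap ℚ ℚ_[p])).roots.card = (minpoly ℚ x).natDegree := by
  have hxi : IsIntegral ℚ x := Algebra.IsIntegral.isIntegral x
  set f := (minpoly ℚ x).map (algebraMap ℚ ℚ_[p]) with hf
  have hfd : f.natDegree = (minpoly ℚ x).natDegree := natDegree_map _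
  rw [← hfd]
  have hmon : f.Monic := (minpoly.monic hxi).map _
  -- f splits over the algebraic closure, all roots in the range
  have hs : (f.map (algebraMap ℚ_[p] (AlgebraicClosure ℚ_[p]))).Splits := IsAlgClosed.splits _
  have hroots : ∀ r ∈ (f.map (algebraMap ℚ_[p] (AlgebraicClosure ℚ_[p]))).roots,
      r ∈ (algebraMap ℚ_[p] (AlgebraicClosure ℚ_[p])).range := by
    intro r hr
    have hr0 : aeval r (minpoly ℚ x) = 0 := by
      rw [mem_roots (hmon.map _).ne_zero, IsRoot.def, eval_map, hf, eval₂_map] at hr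
      rw [aeval_def, ← hr]
      congr 1
    obtain ⟨φ, hφ⟩ := IntermediateField.exists_algHom_of_splits_of_aeval
      (F := ℚ) (E := AlgebraicClosure ℚ) (K := AlgebraicClosure ℚ_[p])
      (fun s => ⟨Algebra.IsIntegral.isIntegral s, IsAlgClosed.splits _⟩) hr0
    rw [← hφ]
    exact hx (φ : AlgebraicClosure ℚ →+* AlgebraicClosure ℚ_[p])
  have hsp : f.Splits := by
    refine Splits.of_splits_map_of_injective
      (algebraMap ℚ_[p] (AlgebraicClosure ℚ_[p])).injective hs ?_
    intro r hr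
    obtain ⟨c, hc⟩ := hroots r hr
    exact ⟨c, hc⟩
  exact hsp.natDegree_eq_card_roots.symm

end

end Pool.Agent.H291R3
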